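import Pool.Agent.Rect22.Defs

/-!
The reply to one or two points of Maker.
-/

set_option autoImplicit false
set_option linter.unusedVariables false
set_option linter.unusedSectionVars false

namespace Pool.Agent.Rect22

open Finset 

section
section
variable {α ι : Type*} [DecidableEq α]

theorem ready_mono_ups {K : Finset ι} {w w' : ι → ℝ}
    (hw : ∀ κ ∈ K, 0 ≤ w' κ ∧ w' κ ≤ w κ) : Ups K w' ≤ Ups K w := by
  unfold Ups
  exact Finset.sum_le_sum fun κ hκ => (hw κ hκ).2

theorem ready_mono_drp {K : Finset ι} {w w' : ι → ℝ} {hot hot' : ι → Finset α}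
    (hw : ∀ κ ∈ K, 0 ≤ w' κ ∧ w' κ ≤ w κ) (hh : ∀ κ ∈ K, hot' κ ⊆ hot κ) (y : α) :
    drp K w' hot' y ≤ drp K w hot y := by
  unfold drp
  refine Finset.sum_le_sum fun κ hκ => ?_
  obtain ⟨h1, h2⟩ := hw κ hκ
  by_cases hy : y ∈ hot' κ
  · rw [if_pos hy, if_pos (hh κ hκ hy)]
    exact h2
  · rw [if_neg hy]
    split_ifs
    · exact h1.trans h2
    · exact le_rfl

theorem ready_mono {k : ℕ} {K : Finset ι} {w w' : ι → ℝ} {hot hot' : ι → Finset α}
    {F F' : Finset α} {c : ℝ} (h : Ready k K w hot F c)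
    (hw : ∀ κ ∈ K, 0 ≤ w' κ ∧ w' κ ≤ w κ) (hh : ∀ κ ∈ K, hot' κ ⊆ hot κ) (hF : F' ⊆ F) :
    Ready k K w' hot' F' c := by
  obtain ⟨h0, h1, h2⟩ := h
  refine ⟨?_, ?_, (ready_mono_ups hw).trans h2⟩
  · intro hk Y hY hc
    refine le_trans ?_ (h0 hk Y (hY.trans hF) hc)
    exact add_le_add (ready_mono_ups hw)
      (Finset.sum_le_sum fun y _ => ready_mono_drp hw hh y)
  · intro hk Z hZ hc
    obtain ⟨v, hv, hv2⟩ := h1 hk Z (hZ.trans hF) hc
    exact ⟨v, hv, le_trans (add_le_add (ready_mono_ups hw) (ready_mono_drp hw hh v)) hv2⟩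

end

end

section
section
variable {α ι : Type*} [DecidableEq α]

theorem reply_drp_nonneg {K : Finset ι} {w : ι → ℝ} {hot : ι → Finset α}
    (hw : ∀ κ ∈ K, 0 ≤ w κ) (y : α) : 0 ≤ drp K w hot y := by
  unfold drp
  refine Finset.sum_nonneg fun κ hκ => ?_
  split_ifs
  · exact hw κ hκ
  · exact le_rfl

theorem reply_drp_mono {K : Finset ι} {w w' : ι → ℝ} {hot hot' : ι → Finset α}
    (h1 : ∀ κ ∈ K, 0 ≤ w' κ ∧ w' κ ≤ w κ) (h2 : ∀ κ ∈ K, hot' κ ⊆ hot κ) (y : α) :
    drp K w' hot' y ≤ drp K w hot y := by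
  unfold drp
  refine Finset.sum_le_sum fun κ hκ => ?_
  by_cases hy : y ∈ hot' κ
  · rw [if_pos hy, if_pos (h2 κ hκ hy)]
    exact (h1 κ hκ).2
  · rw [if_neg hy]
    split_ifs
    · exact (h1 κ hκ).1.trans (h1 κ hκ).2
    · exact le_rfl

theorem reply_ups {K : Finset ι} {w w' : ι → ℝ} {hot : ι → Finset α} {y : α}
    (h1 : ∀ κ ∈ K, 0 ≤ w' κ ∧ w' κ ≤ w κ) (h2 : ∀ κ ∈ K, y ∈ hot κ → w' κ = 0) :
    Ups K w' ≤ Ups K w - drp K w hot y := by
  unfold Ups drp
  rw [← Finset.sum_sub_distrib]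
  refine Finset.sum_le_sum fun κ hκ => ?_
  by_cases hy : y ∈ hot κ
  · rw [if_pos hy, h2 κ hκ hy]
    simp
  · rw [if_neg hy]
    simpa using (h1 κ hκ).2

theorem reply_sum {Y : Finset α} {g : α → ℝ} {B : ℝ} (hB : 0 ≤ B) (h : ∀ y ∈ Y, g y ≤ B)
    {n : ℕ} (hY : Y.card ≤ n) : ∑ y ∈ Y, g y ≤ n * B := by
  calc ∑ y ∈ Y, g y ≤ Y.card • B := Finset.sum_le_card_nsmul _ _ _ h
    _ = (Y.card : ℝ) * B := by rw [nsmul_eq_mul]
    _ ≤ n * B := by
        have : (Y.card : ℝ) ≤ n := by exact_mod_cast hY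
        nlinarith

/-- Greedy reply. -/
theorem reply {k : ℕ} (hk : k ≤ 2) {K : Finset ι} {w : ι → ℝ} {hot : ι → Finset α}
    {F : Finset α} {c : ℝ} (hw : ∀ κ ∈ K, 0 ≤ w κ) (h : Ready k K w hot F c) :
    ∃ Y : Finset α, Y ⊆ F ∧ Y.card = min k F.card ∧
      ∀ (w' : ι → ℝ) (hot' : ι → Finset α) (F' : Finset α),
        (∀ κ ∈ K, 0 ≤ w' κ ∧ w' κ ≤ w κ) → (∀ κ ∈ K, hot' κ ⊆ hot κ) → F' ⊆ F \ Y →
        (∀ κ ∈ K, ¬ Disjoint Y (hot κ) → w' κ = 0) → Bd K w' hot' F' c := by
  obtain ⟨h0, h1, h2⟩ := h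
  have hdisj : ∀ (Y : Finset α) (y : α) (κ : ι), y ∈ Y → y ∈ hot κ → ¬ Disjoint Y (hot κ) :=
    fun Y y κ hy hyk hd => Finset.disjoint_left.1 hd hy hyk
  have hups : ∀ w' : ι → ℝ, (∀ κ ∈ K, 0 ≤ w' κ ∧ w' κ ≤ w κ) → Ups K w' ≤ Ups K w :=
    fun w' hw' => Finset.sum_le_sum fun κ hκ => (hw' κ hκ).2
  rcases Nat.eq_zero_or_pos k with rfl | hk0
  · refine ⟨∅, by simp, by simp, ?_⟩
    intro w' hot' F' hw' hot'h hF' _ Y' hY' hc
    have hF : Y' ⊆ F := fun y hy => (Finset.mem_sdiff.1 (hF' (hY' hy))).1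
    calc Ups K w' + ∑ y ∈ Y', drp K w' hot' y ≤ Ups K w + ∑ y ∈ Y', drp K w hot y :=
          add_le_add (hups w' hw') (Finset.sum_le_sum fun y _ => reply_drp_mono hw' hot'h y)
      _ ≤ c := h0 rfl Y' hF hc
  by_cases hFk : F.card ≤ k
  · refine ⟨F, subset_rfl, by omega, ?_⟩
    intro w' hot' F' hw' hot'h hF' _ Y' hY' hc
    have hE : Y' = ∅ := by
      rw [Finset.sdiff_self] at hF'
      exact Finset.subset_empty.1 (hY'.trans hF')
    rw [hE, Finset.sum_empty, add_zero]
    exact (hups w' hw').trans h2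
  push Not at hFk
  have hFne : F.Nonempty := Finset.card_pos.1 (by omega)
  obtain ⟨y1, hy1, hmax1⟩ := Finset.exists_max_image F (fun y => drp K w hot y) hFne
  have hd1 := reply_drp_nonneg (hot := hot) hw y1
  have hk12 : k = 1 ∨ k = 2 := by omega
  rcases hk12 with rfl | rfl
  · refine ⟨{y1}, by simpa using hy1, by rw [Finset.card_singleton]; omega, ?_⟩
    intro w' hot' F' hw' hot'h hF' hkill Y' hY' hc
    have hU : Ups K w' ≤ Ups K w - drp K w hot y1 :=
      reply_ups hw' fun κ hκ hy => hkill κ hκ (hdisj _ y1 κ (Finset.mem_singleton_self _) hy)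
    have hYF : ∀ y ∈ Y', y ∈ F ∧ y ≠ y1 := by
      intro y hy
      have := Finset.mem_sdiff.1 (hF' (hY' hy))
      exact ⟨this.1, fun h => this.2 (by rw [h]; exact Finset.mem_singleton_self _)⟩
    have hdm : ∀ y, drp K w' hot' y ≤ drp K w hot y := reply_drp_mono hw' hot'h
    rcases Nat.lt_or_ge Y'.card 2 with hlt | hge
    · have hs : ∑ y ∈ Y', drp K w' hot' y ≤ ((1 : ℕ) : ℝ) * drp K w hot y1 :=
        reply_sum hd1 (fun y hy => (hdm y).trans (hmax1 y (hYF y hy).1)) (by omega)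
      rw [Nat.cast_one, one_mul] at hs
      linarith
    · obtain ⟨z1, z2, hz, rfl⟩ := Finset.card_eq_two.1 (le_antisymm hc hge)
      have hz1 := hYF z1 (by simp)
      have hz2 := hYF z2 (by simp)
      obtain ⟨v, hv, hvc⟩ := h1 rfl {y1, z1, z2} (by
        intro y hy
        simp only [Finset.mem_insert, Finset.mem_singleton] at hy
        rcases hy with rfl | rfl | rfl
        · exact hy1
        · exact hz1.1
        · exact hz2.1) (Finset.card_eq_three.2 ⟨y1, z1, z2, hz1.2.symm, hz2.2.symm, hz, rfl⟩)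
      rw [Finset.sum_pair hz]
      have e1 := hdm z1
      have e2 := hdm z2
      have m1 := hmax1 z1 hz1.1
      have m2 := hmax1 z2 hz2.1
      simp only [Finset.mem_insert, Finset.mem_singleton] at hv
      rcases hv with rfl | rfl | rfl <;> linarith
  · have hEne : (F.erase y1).Nonempty := by
      apply Finset.card_pos.1
      rw [Finset.card_erase_of_mem hy1]
      omega
    set w1 : ι → ℝ := fun κ => if y1 ∈ hot κ then 0 else w κ with hw1
    have hw1w : ∀ κ ∈ K, 0 ≤ w1 κ ∧ w1 κ ≤ w κ := by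
      intro κ hκ
      simp only [hw1]
      split_ifs
      · exact ⟨le_rfl, hw κ hκ⟩
      · exact ⟨hw κ hκ, le_rfl⟩
    obtain ⟨y2, hy2, hmax2⟩ := Finset.exists_max_image (F.erase y1)
      (fun y => drp K w1 hot y) hEne
    have hd2 := reply_drp_nonneg (hot := hot) (fun κ hκ => (hw1w κ hκ).1) y2
    have hy2' := Finset.mem_erase.1 hy2
    refine ⟨{y1, y2}, ?_, ?_, ?_⟩
    · intro y hy
      simp only [Finset.mem_insert, Finset.mem_singleton] at hy
      rcases hy with rfl | rfl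
      · exact hy1
      · exact hy2'.2
    · rw [Finset.card_pair hy2'.1.symm]
      omega
    intro w' hot' F' hw' hot'h hF' hkill Y' hY' hc
    have hk1 : ∀ κ ∈ K, y1 ∈ hot κ → w' κ = 0 :=
      fun κ hκ hy => hkill κ hκ (hdisj _ y1 κ (by simp) hy)
    have hk2 : ∀ κ ∈ K, y2 ∈ hot κ → w' κ = 0 :=
      fun κ hκ hy => hkill κ hκ (hdisj _ y2 κ (by simp) hy)
    have hw'1 : ∀ κ ∈ K, 0 ≤ w' κ ∧ w' κ ≤ w1 κ := by
      intro κ hκ
      refine ⟨(hw' κ hκ).1, ?_⟩
      simp only [hw1]
      split_ifs with hy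
      · rw [hk1 κ hκ hy]
      · exact (hw' κ hκ).2
    have hU1 : Ups K w' ≤ Ups K w1 - drp K w1 hot y2 := reply_ups hw'1 hk2
    have hU2 : Ups K w1 ≤ Ups K w - drp K w hot y1 :=
      reply_ups hw1w fun κ hκ hy => by simp only [hw1]; rw [if_pos hy]
    have hYF : ∀ y ∈ Y', y ∈ F.erase y1 := by
      intro y hy
      have := Finset.mem_sdiff.1 (hF' (hY' hy))
      exact Finset.mem_erase.2 ⟨fun h => this.2 (by rw [h]; simp), this.1⟩
    have hs : ∑ y ∈ Y', drp K w' hot' y ≤ ((2 : ℕ) : ℝ) * drp K w1 hot y2 :=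
      reply_sum hd2 (fun y hy => (reply_drp_mono hw'1 hot'h y).trans (hmax2 y (hYF y hy))) hc
    have h12 : drp K w1 hot y2 ≤ drp K w hot y1 :=
      (reply_drp_mono hw1w (fun κ _ => subset_rfl) y2).trans (hmax1 y2 hy2'.2)
    rw [Nat.cast_ofNat] at hs
    linarith

end

end

section
section
variable {α ι : Type*} [DecidableEq α]

theorem drp_nonneg' {K : Finset ι} {w : ι → ℝ} {hot : ι → Finset α}
    (hw : ∀ κ ∈ K, 0 ≤ w κ) (y : α) : 0 ≤ drp K w hot y := by
  unfold drp
  apply Finset.sum_nonneg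
  intro k hk
  split_ifs
  · exact hw k hk
  · exact le_rfl

/-- one point of Maker -/
theorem maker1 {η : ℝ} (h0 : 0 ≤ η) (h1 : η ≤ 1 / 4) {K : Finset ι} {w w1 : ι → ℝ}
    {hot hot1 far : ι → Finset α} {F F1 : Finset α} {c : ℝ} (hw : ∀ κ ∈ K, 0 ≤ w κ)
    (h : Bd K w hot F c) (x : α) (hx : x ∈ F) (p : α) (hp : p ∈ F)
    (hmax : ∀ z ∈ F, drp K w hot z ≤ drp K w hot p)
    (hJ : ∀ y ∈ F, y ≠ x → (∑ κ ∈ K, if x ∈ far κ ∧ y ∈ hot κ then w κ else 0) ≤
      η * drp K w hot p)
    (hfar : ∀ κ ∈ K, far κ ⊆ hot κ)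
    (hw1 : ∀ κ ∈ K, 0 ≤ w1 κ ∧ w1 κ ≤ fac η far hot x κ * w κ)
    (hhot1 : ∀ κ ∈ K, hot1 κ ⊆ hot κ) (hF1 : F1 ⊆ F.erase x) :
    Ready 1 K w1 hot1 F1 c := by
  have hdx := hmax x hx
  have hdx0 := drp_nonneg' (hot := hot) hw x
  refine ⟨fun h => absurd h one_ne_zero, fun _ Z hZ hZc => ?_, ?_⟩
  · obtain ⟨v, hv, hvp⟩ : ∃ v ∈ Z, v ≠ p := by
      by_contra hcon
      push Not at hcon
      have : Z ⊆ {p} := fun z hz => Finset.mem_singleton.2 (hcon z hz)
      have := Finset.card_le_card this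
      rw [hZc, Finset.card_singleton] at this
      omega
    refine ⟨v, hv, ?_⟩
    have hvF := hF1 (hZ hv)
    have hvx : v ≠ x := Finset.ne_of_mem_erase hvF
    have hvF : v ∈ F := Finset.mem_of_mem_erase hvF
    have hB := h {v, p} (by
      intro z hz
      simp only [Finset.mem_insert, Finset.mem_singleton] at hz
      rcases hz with rfl | rfl
      · exact hvF
      · exact hp) (by rw [Finset.card_pair hvp])
    rw [Finset.sum_pair hvp] at hB
    have hj := hJ v hvF hvx
    have key : Ups K w1 + drp K w1 hot1 v ≤ Ups K w + drp K w hot v +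
        (1 - η) * drp K w hot x + ∑ κ ∈ K, (if x ∈ far κ ∧ v ∈ hot κ then w κ else 0) := by
      unfold Ups drp
      rw [Finset.mul_sum, ← Finset.sum_add_distrib, ← Finset.sum_add_distrib,
        ← Finset.sum_add_distrib, ← Finset.sum_add_distrib]
      apply Finset.sum_le_sum
      intro k hk
      have a1 := hw k hk
      obtain ⟨a2, a3⟩ := hw1 k hk
      have a4 : (if v ∈ hot1 k then w1 k else 0) ≤ (if v ∈ hot k then w1 k else 0) := by
        by_cases hv1 : v ∈ hot1 k
        · rw [if_pos hv1, if_pos (hhot1 k hk hv1)]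
        · rw [if_neg hv1]
          split_ifs
          · exact a2
          · exact le_rfl
      refine le_trans (add_le_add_right a4 _) ?_
      unfold fac at a3
      by_cases b1 : x ∈ far k
      · have b2 := hfar k hk b1
        rw [if_pos b1] at a3
        rw [if_pos b2]
        by_cases b3 : v ∈ hot k
        · rw [if_pos b3, if_pos b3, if_pos ⟨b1, b3⟩]
          nlinarith
        · rw [if_neg b3, if_neg b3, if_neg (fun hh => b3 hh.2)]
          nlinarith
      · rw [if_neg b1] at a3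
        rw [if_neg (fun hh => b1 hh.1 : ¬ (x ∈ far k ∧ v ∈ hot k))]
        by_cases b2 : x ∈ hot k
        · rw [if_pos b2] at a3
          rw [if_pos b2]
          by_cases b3 : v ∈ hot k
          · rw [if_pos b3, if_pos b3]
            nlinarith
          · rw [if_neg b3, if_neg b3]
            nlinarith
        · rw [if_neg b2] at a3
          rw [if_neg b2]
          by_cases b3 : v ∈ hot k
          · rw [if_pos b3, if_pos b3]
            nlinarith
          · rw [if_neg b3, if_neg b3]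
            nlinarith
    nlinarith
  · have hB := h {x} (by
      intro z hz
      rw [Finset.mem_singleton] at hz
      rw [hz]; exact hx) (by rw [Finset.card_singleton]; omega)
    rw [Finset.sum_singleton] at hB
    have key : Ups K w1 ≤ Ups K w + (1 - η) * drp K w hot x := by
      unfold Ups drp
      rw [Finset.mul_sum, ← Finset.sum_add_distrib]
      apply Finset.sum_le_sum
      intro k hk
      have a1 := hw k hk
      obtain ⟨a2, a3⟩ := hw1 k hk
      unfold fac at a3
      by_cases b1 : x ∈ far k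
      · have b2 := hfar k hk b1
        rw [if_pos b1] at a3
        rw [if_pos b2]
        nlinarith
      · rw [if_neg b1] at a3
        by_cases b2 : x ∈ hot k
        · rw [if_pos b2] at a3
          rw [if_pos b2]
          nlinarith
        · rw [if_neg b2] at a3
          rw [if_neg b2]
          nlinarith
    nlinarith

/-- two points of Maker -/
theorem maker2 {η : ℝ} (h0 : 0 ≤ η) (h1 : η ≤ 1 / 4) {K : Finset ι} {w w2 : ι → ℝ}
    {hot hot2 far : ι → Finset α} {F F2 : Finset α} {c : ℝ} (hw : ∀ κ ∈ K, 0 ≤ w κ)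
    (h : Bd K w hot F c) (x1 x2 : α) (hx1 : x1 ∈ F) (hx2 : x2 ∈ F) (hne : x1 ≠ x2)
    (p : α) (hp : p ∈ F)
    (hmax : ∀ z ∈ F, drp K w hot z ≤ drp K w hot p)
    (hJ : (∑ κ ∈ K, if x1 ∈ far κ ∧ x2 ∈ hot κ then w κ else 0) ≤ η * drp K w hot p)
    (hfar : ∀ κ ∈ K, far κ ⊆ hot κ)
    (hw2 : ∀ κ ∈ K, 0 ≤ w2 κ ∧ w2 κ ≤ fac η far hot x1 κ * fac η far hot x2 κ * w κ) :
    Ready 2 K w2 hot2 F2 c := by
  refine ⟨fun h => absurd h two_ne_zero, fun h => absurd h (by norm_num), ?_⟩
  have hB1 := h {x1, x2} (by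
    intro z hz
    simp only [Finset.mem_insert, Finset.mem_singleton] at hz
    rcases hz with rfl | rfl
    · exact hx1
    · exact hx2) (by rw [Finset.card_pair hne])
  rw [Finset.sum_pair hne] at hB1
  have hB2 := h {p} (by
    intro z hz
    rw [Finset.mem_singleton] at hz
    rw [hz]; exact hp) (by rw [Finset.card_singleton]; omega)
  rw [Finset.sum_singleton] at hB2
  have key : Ups K w2 ≤ Ups K w + (1 - η) * drp K w hot x1 + (1 - η) * drp K w hot x2 +
      ∑ κ ∈ K, (if x1 ∈ far κ ∧ x2 ∈ hot κ then w κ else 0) := by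
    unfold Ups drp
    rw [Finset.mul_sum, Finset.mul_sum, ← Finset.sum_add_distrib, ← Finset.sum_add_distrib,
      ← Finset.sum_add_distrib]
    apply Finset.sum_le_sum
    intro k hk
    have a1 := hw k hk
    obtain ⟨a2, a3⟩ := hw2 k hk
    refine a3.trans ?_
    have hfac : fac η far hot x1 k * fac η far hot x2 k ≤
        1 + (1 - η) * (if x1 ∈ hot k then 1 else 0) + (1 - η) * (if x2 ∈ hot k then 1 else 0) +
          (if x1 ∈ far k ∧ x2 ∈ hot k then 1 else 0) := by
      unfold fac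
      by_cases b1 : x1 ∈ far k
      · have b2 := hfar k hk b1
        by_cases b3 : x2 ∈ far k
        · have b4 := hfar k hk b3
          simp only [b1, b2, b3, b4, if_true, and_self]
          nlinarith
        · by_cases b4 : x2 ∈ hot k
          · simp only [b1, b2, b3, b4, if_true, if_false, and_self]
            nlinarith
          · simp only [b1, b2, b3, b4, if_true, if_false, and_false]
            nlinarith
      · by_cases b2 : x1 ∈ hot k
        · by_cases b3 : x2 ∈ far k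
          · have b4 := hfar k hk b3
            simp only [b1, b2, b3, b4, if_true, if_false, false_and]
            nlinarith
          · by_cases b4 : x2 ∈ hot k
            · simp only [b1, b2, b3, b4, if_true, if_false, false_and]
              nlinarith
            · simp only [b1, b2, b3, b4, if_true, if_false, false_and]
              nlinarith
        · by_cases b3 : x2 ∈ far k
          · have b4 := hfar k hk b3
            simp only [b1, b2, b3, b4, if_true, if_false, false_and]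
            nlinarith
          · by_cases b4 : x2 ∈ hot k
            · simp only [b1, b2, b3, b4, if_true, if_false, false_and]
              nlinarith
            · simp only [b1, b2, b3, b4, if_true, if_false, false_and]
              nlinarith
    refine (mul_le_mul_of_nonneg_right hfac a1).trans (le_of_eq ?_)
    split_ifs <;> ring
  nlinarith

end

end

end Pool.Agent.Rect22
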