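import Pool.Agent.Rect22.Comb
import Pool.Agent.Rect22.Engine

/-!
The moves in the big game.
-/

set_option autoImplicit false
set_option linter.unusedVariables false
set_option linter.unusedSectionVars false

namespace Pool.Agent.Rect22

open Finset 

section
section
variable {α : Type*} [DecidableEq α]

/-- Maker's move in the big game -/
theorem big_maker {D : Dat α} (H : Hyp D) {s : St α} (hs : s.OK)
    (h : Bd (KK D.Fam D.Pr D.R D.r) (ww D.P D.N1 D.N2 s) (hh s) s.F 9)
    {m : Finset α} (hm : m ⊆ s.F) (hm2 : m.card ≤ 2) :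
    ∃ s1 : St α, s1.F = s.F \ m ∧ s1.M = s.M ∪ m ∧ s1.B = s.B ∧
      (∀ z, z ∉ s.F → s1.mu z = s.mu z) ∧ s1.OK ∧
      Ready m.card (KK D.Fam D.Pr D.R D.r) (ww D.P D.N1 D.N2 s1) (hh s1) s1.F 9 := by
  have hU : Ups (KK D.Fam D.Pr D.R D.r) (ww D.P D.N1 D.N2 s) ≤ 9 := by
    have := h ∅ (Finset.empty_subset _) (by simp)
    simpa using this
  have hw : ∀ κ ∈ KK D.Fam D.Pr D.R D.r, 0 ≤ ww D.P D.N1 D.N2 s κ :=
    fun κ _ => ww_nonneg H.pok H.N1pos H.N2pos s κ
  rcases Nat.lt_or_ge m.card 1 with h0 | h0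
  · have hm0 : m = ∅ := Finset.card_eq_zero.mp (by omega)
    subst hm0
    refine ⟨s, by simp, by simp, rfl, fun z _ => rfl, hs, ?_⟩
    refine ⟨fun _ => h, fun h1 => ?_, hU⟩
    simp at h1
  · rcases Nat.lt_or_ge m.card 2 with h1 | h1
    · have hm1 : m.card = 1 := by omega
      obtain ⟨x, rfl⟩ := Finset.card_eq_one.mp hm1
      have hx : x ∈ s.F := hm (Finset.mem_singleton_self x)
      obtain ⟨p, hp, hmax⟩ := Finset.exists_max_image s.F
        (fun z => drp (KK D.Fam D.Pr D.R D.r) (ww D.P D.N1 D.N2 s) (hh s) z) ⟨x, hx⟩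
      refine ⟨s.mk1 x, ?_, ?_, rfl, ?_, mk1_ok hs x, ?_⟩
      · show s.F.erase x = s.F \ {x}
        exact Finset.erase_eq _ _
      · show insert x s.M = s.M ∪ {x}
        ext y; simp [or_comm]
      · intro z hz
        show (if z ∈ s.F.erase x then insert x s.M else s.mu z) = s.mu z
        rw [if_neg]
        intro hz'
        exact hz (Finset.mem_of_mem_erase hz')
      · rw [hm1]
        refine maker1 (η := D.P.eta) H.pok.eta0.le H.pok.eta1 hw h x hx p hp hmax ?_ 
          (far := ff D.P s) ?_ ?_ ?_ ?_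
        · intro y hy hyx
          exact bigJ H hs hU hmax hx hy hyx
        · intro κ _
          exact ff_sub D.P s κ
        · intro κ hκ
          exact ⟨ww_nonneg H.pok H.N1pos H.N2pos _ κ, ww_mk1 H.pok H.N1pos H.N2pos hs hx hκ⟩
        · intro κ _
          exact hh_mk1 hs x κ
        · exact Finset.Subset.refl _
    · have hm2' : m.card = 2 := by omega
      obtain ⟨x1, x2, hne, rfl⟩ := Finset.card_eq_two.mp hm2'
      have hx1 : x1 ∈ s.F := hm (by simp)
      have hx2 : x2 ∈ s.F := hm (by simp)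
      obtain ⟨p, hp, hmax⟩ := Finset.exists_max_image s.F
        (fun z => drp (KK D.Fam D.Pr D.R D.r) (ww D.P D.N1 D.N2 s) (hh s) z) ⟨x1, hx1⟩
      have hx2' : x2 ∈ (s.mk1 x1).F := Finset.mem_erase.mpr ⟨hne.symm, hx2⟩
      refine ⟨(s.mk1 x1).mk1 x2, ?_, ?_, rfl, ?_, mk1_ok (mk1_ok hs x1) x2, ?_⟩
      · show (s.F.erase x1).erase x2 = s.F \ {x1, x2}
        ext y; simp only [Finset.mem_erase, Finset.mem_sdiff, Finset.mem_insert,
          Finset.mem_singleton, not_or]
        tauto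
      · show insert x2 (insert x1 s.M) = s.M ∪ {x1, x2}
        ext y; simp only [Finset.mem_insert, Finset.mem_union, Finset.mem_singleton]
        tauto
      · intro z hz
        show (if z ∈ (s.F.erase x1).erase x2 then insert x2 (insert x1 s.M) else
          (if z ∈ s.F.erase x1 then insert x1 s.M else s.mu z)) = s.mu z
        have a1 : z ∉ s.F.erase x1 := fun hz' => hz (Finset.mem_of_mem_erase hz')
        have a2 : z ∉ (s.F.erase x1).erase x2 := fun hz' => a1 (Finset.mem_of_mem_erase hz')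
        rw [if_neg a2, if_neg a1]
      · rw [hm2']
        refine maker2 (η := D.P.eta) H.pok.eta0.le H.pok.eta1 hw h x1 x2 hx1 hx2 hne p hp hmax ?_
          (far := ff D.P s) ?_ ?_
        · exact bigJ H hs hU hmax hx1 hx2 hne.symm
        · intro κ _
          exact ff_sub D.P s κ
        · intro κ hκ
          refine ⟨ww_nonneg H.pok H.N1pos H.N2pos _ κ, ?_⟩
          have b1 := ww_mk1 H.pok H.N1pos H.N2pos hs hx1 hκ
          have b2 := ww_mk1 H.pok H.N1pos H.N2pos (mk1_ok hs x1) hx2' hκ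
          have hf : fac D.P.eta (ff D.P (s.mk1 x1)) (hh (s.mk1 x1)) x2 κ ≤
              fac D.P.eta (ff D.P s) (hh s) x2 κ := by
            unfold fac
            have e1 := H.pok.eta1
            have e0 := H.pok.eta0
            have f1 := @ff_mk1 _ _ D.P s hs x1 D.R D.r κ
            have f2 := @hh_mk1 _ _ s hs x1 D.R D.r κ
            have f3 := @ff_sub _ _ D.P D.R D.r s κ
            by_cases c1 : x2 ∈ ff D.P (s.mk1 x1) κ
            · rw [if_pos c1, if_pos (f1 c1)]
            · rw [if_neg c1]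
              by_cases c2 : x2 ∈ hh (s.mk1 x1) κ
              · rw [if_pos c2]
                by_cases c3 : x2 ∈ ff D.P s κ
                · rw [if_pos c3]; linarith
                · rw [if_neg c3, if_pos (f2 c2)]
              · rw [if_neg c2]
                split_ifs <;> linarith
          have hfn : 0 ≤ fac D.P.eta (ff D.P s) (hh s) x2 κ := by
            unfold fac
            have e1 := H.pok.eta1
            split_ifs <;> linarith
          have hn1 := ww_nonneg H.pok H.N1pos H.N2pos (s.mk1 x1) κ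
          calc ww D.P D.N1 D.N2 ((s.mk1 x1).mk1 x2) κ
              ≤ fac D.P.eta (ff D.P (s.mk1 x1)) (hh (s.mk1 x1)) x2 κ *
                ww D.P D.N1 D.N2 (s.mk1 x1) κ := b2
            _ ≤ fac D.P.eta (ff D.P s) (hh s) x2 κ * ww D.P D.N1 D.N2 (s.mk1 x1) κ :=
                mul_le_mul_of_nonneg_right hf hn1
            _ ≤ fac D.P.eta (ff D.P s) (hh s) x2 κ *
                (fac D.P.eta (ff D.P s) (hh s) x1 κ * ww D.P D.N1 D.N2 s κ) :=
                mul_le_mul_of_nonneg_left b1 hfn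
            _ = _ := by ring

/-- Breaker's reply in the big game -/
theorem big_reply {D : Dat α} (H : Hyp D) {s : St α} (hs : s.OK) {k : ℕ} (hk : k ≤ 2)
    (h : Ready k (KK D.Fam D.Pr D.R D.r) (ww D.P D.N1 D.N2 s) (hh s) s.F 9) :
    ∃ Y : Finset α, Y ⊆ s.F ∧ Y.card = min k s.F.card ∧
      ∀ b : Finset α, Y ⊆ b →
        Bd (KK D.Fam D.Pr D.R D.r) (ww D.P D.N1 D.N2 (s.rm (s.F \ b) (s.B ∪ (b ∩ s.F))))
          (hh (s.rm (s.F \ b) (s.B ∪ (b ∩ s.F)))) (s.F \ b) 9 := by
  obtain ⟨Y, hYF, hYc, hY⟩ := reply hk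
    (fun κ _ => ww_nonneg H.pok H.N1pos H.N2pos s κ) h
  refine ⟨Y, hYF, hYc, fun b hb => ?_⟩
  refine hY _ _ _ ?_ ?_ ?_ ?_
  · intro κ _
    exact ⟨ww_nonneg H.pok H.N1pos H.N2pos _ κ,
      ww_rm H.pok H.N1pos H.N2pos s Finset.sdiff_subset Finset.subset_union_left κ⟩
  · intro κ _
    exact hh_rm s Finset.sdiff_subset κ
  · exact Finset.sdiff_subset_sdiff (Finset.Subset.refl _) hb
  · intro κ _ hd
    obtain ⟨y, hy1, hy2⟩ := Finset.not_disjoint_iff.mp hd
    refine ww_kill D.P s Finset.sdiff_subset κ hy2 ?_ ?_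
    · intro hy3
      exact (Finset.mem_sdiff.mp hy3).2 (hb hy1)
    · exact Finset.mem_union_right _ (Finset.mem_inter.mpr ⟨hb hy1, hYF hy1⟩)

end

end

end Pool.Agent.Rect22
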