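import Pool.Agent.Rect22.States

/-!
The double counting estimate.
-/

set_option autoImplicit false
set_option linter.unusedVariables false
set_option linter.unusedSectionVars false

namespace Pool.Agent.Rect22

open Finset 

section
section
variable {α : Type*} [DecidableEq α]

theorem xj_uu {P : Pm} (hP : P.OK) (f : ℕ) : 0 ≤ uu P f := by
  unfold uu
  have h1 := hP.pq0
  have h2 := hP.pqb
  have h3 : 0 ≤ P.pb := by linarith
  positivity

/-- value of a part -/
noncomputable def xjv (P : Pm) (s : St α) (x : α) (A D : Finset α) : ℝ :=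
  if x ∈ D ∧ D ⊆ s.F ∪ s.M ∧ P.F1 < (D \ s.M).card then
    P.sig * P.zet ^ (A \ D).card * uu P (D \ s.M).card else 0

theorem xjv_nonneg {P : Pm} (hP : P.OK) (s : St α) (x : α) (A D : Finset α) :
    0 ≤ xjv P s x A D := by
  unfold xjv
  have h1 : 0 ≤ P.sig := by linarith [hP.sig1]
  have h2 := hP.zet0.le
  split_ifs
  · exact mul_nonneg (mul_nonneg h1 (pow_nonneg h2 _)) (xj_uu hP _)
  · exact le_rfl

noncomputable def xjT (P : Pm) (s : St α) (x : α) (A : Finset α) : ℝ :=
  ∑ D ∈ A.powerset, xjv P s x A D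

theorem xjT_nonneg {P : Pm} (hP : P.OK) (s : St α) (x : α) (A : Finset α) : 0 ≤ xjT P s x A :=
  Finset.sum_nonneg fun _ _ => xjv_nonneg hP s x A _

theorem xjT_zero (P : Pm) (s : St α) (x : α) (A : Finset α) (h : x ∉ A) : xjT P s x A = 0 := by
  refine Finset.sum_eq_zero fun D hD => ?_
  unfold xjv
  rw [if_neg]
  rintro ⟨h1, _⟩
  exact h (Finset.mem_powerset.1 hD h1)

theorem xj_Spair (P : Pm) (s : St α) (Fam : Finset (Finset α)) (x z : α) :
    Spair P s Fam x z = ∑ A ∈ Fam, if z ∈ A then xjT P s x A else 0 := by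
  unfold Spair
  rw [Finset.sum_filter]
  refine Finset.sum_congr rfl fun A _ => ?_
  by_cases hx : x ∈ A
  · by_cases hz : z ∈ A
    · rw [if_pos ⟨hx, hz⟩, if_pos hz, Finset.sum_filter]
      rfl
    · rw [if_neg (fun h => hz h.2), if_neg hz]
  · rw [if_neg (fun h => hx h.1), xjT_zero P s x A hx]
    simp

theorem aval_nonneg' {P : Pm} (hP : P.OK) (s : St α) (a : Arm α) : 0 ≤ aval P s a := by
  unfold aval
  have h1 : 0 ≤ P.sig := by linarith [hP.sig1]
  have h2 := hP.zet0.le
  apply mul_nonneg (mul_nonneg h1 (pow_nonneg h2 _))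
  split_ifs
  · exact xj_uu hP _
  · exact le_rfl

theorem xj_far {P : Pm} (hP : P.OK) {s : St α} (hs : s.OK) {x : α} {a : Arm α}
    (h : x ∈ afar P s a) : x ∈ a.2.2 ∧
      aval P s a ≤ (if a.1 ∈ s.F then xjv P s x a.2.1 a.2.2 else 0) := by
  unfold afar at h
  split_ifs at h with hF
  · unfold ahot at h
    rw [Finset.mem_inter, Finset.mem_sdiff] at h
    refine ⟨h.1.1, ?_⟩
    by_cases hz : a.1 ∈ s.F
    · rw [if_pos hz]
      unfold aval liv xjv
      rw [if_pos hz]
      rw [hs.mu a.1 hz] at hF ⊢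
      by_cases hD : a.2.2 ⊆ s.F ∪ s.M
      · rw [if_pos hD, if_pos ⟨h.1.1, hD, hF⟩]
      · rw [if_neg hD, if_neg (fun h => hD h.2.1), mul_zero]
    · rw [if_neg hz]
      unfold aval liv
      rw [if_neg hz, Finset.empty_union, if_neg, mul_zero]
      intro hD
      exact h.1.2 (hD h.1.1)
  · simp at h

/-- remove the arm `i` -/
def xjdel {R : ℕ} (i : Fin R) (K : Clus α R) : Clus α R := (K.1, Function.update K.2 i none)

theorem xjdel_comp {Fam : Finset (Finset α)} {R : ℕ} (i : Fin R) {K : Clus α R}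
    (h : Comp Fam K) : Comp Fam (xjdel i K) := by
  have key : ∀ j a, Function.update K.2 i none j = some a → K.2 j = some a := by
    intro j a hj
    by_cases hji : j = i
    · subst hji
      simp at hj
    · rwa [Function.update_of_ne hji] at hj
  refine ⟨h.root, fun j a hj => h.arm j a (key j a hj), ?_⟩
  intro j k hjk a b ha hb
  exact h.dis j k hjk a b (key j a ha) (key k b hb)

theorem xjdel_w (P : Pm) (s : St α) {R : ℕ} (i : Fin R) (K : Clus α R) :
    xw P s K = xw P s (xjdel i K) * oval P s (K.2 i) := by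
  unfold xw xjdel
  have h1 : ∏ j, oval P s (K.2 j) = oval P s (K.2 i) * ∏ j ∈ Finset.univ.erase i, oval P s (K.2 j) :=
    (Finset.mul_prod_erase Finset.univ (fun j => oval P s (K.2 j)) (Finset.mem_univ i)).symm
  have h2 : ∏ j, oval P s (Function.update K.2 i none j) =
      oval P s (Function.update K.2 i none i) *
        ∏ j ∈ Finset.univ.erase i, oval P s (Function.update K.2 i none j) :=
    (Finset.mul_prod_erase Finset.univ (fun j => oval P s (Function.update K.2 i none j))
      (Finset.mem_univ i)).symm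
  have h3 : ∏ j ∈ Finset.univ.erase i, oval P s (Function.update K.2 i none j) =
      ∏ j ∈ Finset.univ.erase i, oval P s (K.2 j) := by
    refine Finset.prod_congr rfl fun j hj => ?_
    rw [Function.update_of_ne (Finset.ne_of_mem_erase hj)]
  have h4 : oval P s (Function.update K.2 i none i) = 1 := by
    rw [Function.update_self]
    rfl
  simp only []
  rw [h1, h2, h3, h4]
  ring

theorem xjdel_hot {s : St α} {R : ℕ} (i : Fin R) {K : Clus α R} {y : α} (h : y ∈ xhot s K) :
    y ∈ xhot s (xjdel i K) ∨ y ∈ ohot s (K.2 i) := by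
  unfold xhot at h ⊢
  rw [Finset.mem_union] at h
  rcases h with h | h
  · left
    rw [Finset.mem_union]
    exact Or.inl h
  · rw [Finset.mem_biUnion] at h
    obtain ⟨j, _, hj⟩ := h
    by_cases hji : j = i
    · subst hji
      exact Or.inr hj
    · left
      rw [Finset.mem_union]
      right
      rw [Finset.mem_biUnion]
      refine ⟨j, Finset.mem_univ _, ?_⟩
      unfold xjdel
      simp only []
      rw [Function.update_of_ne hji]
      exact hj

theorem xjdel_inj {R : ℕ} (i : Fin R) {K L : Clus α R} (h : xjdel i K = xjdel i L)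
    (h2 : K.2 i = L.2 i) : K = L := by
  unfold xjdel at h
  rw [Prod.mk.injEq] at h
  refine Prod.ext h.1 ?_
  funext j
  by_cases hji : j = i
  · subst hji; exact h2
  · have := congrFun h.2 j
    rwa [Function.update_of_ne hji, Function.update_of_ne hji] at this

open Classical in
/-- bound for the terms -/
noncomputable def xjg (P : Pm) (s : St α) {R : ℕ} (x y : α) (K : Clus α R) (a : Arm α) : ℝ :=
  (if y ∈ xhot s K ∧ a.1 ∈ K.1 ∧ a.1 ∈ s.F ∧ a.1 ≠ x then
    xw P s K * xjv P s x a.2.1 a.2.2 else 0) +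
  (if y ∈ a.2.1 ∧ a.1 ∈ K.1 ∧ a.1 ∈ s.F then xw P s K * xjv P s x a.2.1 a.2.2 else 0)

theorem xjg_nonneg {P : Pm} (hP : P.OK) (s : St α) {R : ℕ} (x y : α) (K : Clus α R)
    (a : Arm α) : 0 ≤ xjg P s x y K a := by
  unfold xjg
  have h1 := xw_nonneg hP s K
  have h2 := xjv_nonneg hP s x a.2.1 a.2.2
  have h3 := mul_nonneg h1 h2
  split_ifs <;> linarith

noncomputable def xjo (P : Pm) (s : St α) {R : ℕ} (x y : α) (K : Clus α R)
    (o : Option (Arm α)) : ℝ :=
  match o with
  | none => 0
  | some a => xjg P s x y K a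

theorem xj_one {P : Pm} (hP : P.OK) {s : St α} (hs : s.OK) {Fam : Finset (Finset α)} {R : ℕ}
    {x y : α} (i : Fin R) {K : Clus α R} (hK : Comp Fam K) (hx : x ∈ ofar P s (K.2 i))
    (hy : y ∈ xhot s K) : xw P s K ≤ xjo P s x y (xjdel i K) (K.2 i) := by
  rcases hKi : K.2 i with _ | a
  · rw [hKi] at hx
    simp [ofar] at hx
  · rw [hKi] at hx
    have hx' : x ∈ afar P s a := hx
    obtain ⟨hxD, hav⟩ := xj_far hP hs hx'
    obtain ⟨_, _, hDA, haK, hdis⟩ := hK.arm i a hKi
    have hax : a.1 ≠ x := by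
      intro e
      rw [e] at haK
      exact Finset.disjoint_left.1 hdis hxD haK
    have hw := xjdel_w P s i K
    rw [hKi] at hw
    have hw' : xw P s K = xw P s (xjdel i K) * aval P s a := hw
    have hwn := xw_nonneg hP s (xjdel i K)
    rw [hw']
    show _ ≤ xjg P s x y (xjdel i K) a
    have haK' : a.1 ∈ (xjdel i K).1 := haK
    by_cases hz : a.1 ∈ s.F
    · rw [if_pos hz] at hav
      have h1 : xw P s (xjdel i K) * aval P s a ≤ xw P s (xjdel i K) * xjv P s x a.2.1 a.2.2 :=
        mul_le_mul_of_nonneg_left hav hwn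
      have h2 : 0 ≤ xw P s (xjdel i K) * xjv P s x a.2.1 a.2.2 :=
        mul_nonneg hwn (xjv_nonneg hP s x _ _)
      rcases xjdel_hot i hy with h | h
      · unfold xjg
        rw [if_pos ⟨h, haK', hz, hax⟩]
        split_ifs <;> linarith
      · rw [hKi] at h
        have h' : y ∈ ahot s a := h
        have hyA : y ∈ a.2.1 := by
          unfold ahot at h'
          rw [Finset.mem_inter, Finset.mem_sdiff] at h'
          exact hDA h'.1.1
        unfold xjg
        rw [if_pos (⟨hyA, haK', hz⟩ : y ∈ a.2.1 ∧ a.1 ∈ (xjdel i K).1 ∧ a.1 ∈ s.F)]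
        split_ifs <;> linarith
    · rw [if_neg hz] at hav
      have h0 : aval P s a = 0 := le_antisymm hav (aval_nonneg' hP s a)
      rw [h0, mul_zero]
      exact xjg_nonneg hP s x y _ a

theorem xj_i {P : Pm} (hP : P.OK) {s : St α} (hs : s.OK) {Fam : Finset (Finset α)} {R : ℕ}
    {x y : α} (i : Fin R) :
    (∑ κ ∈ XK Fam R, if x ∈ ofar P s (κ.2 i) ∧ y ∈ xhot s κ then xw P s κ else 0) ≤
      ∑ κ ∈ XK Fam R, ∑ a ∈ arms Fam, xjg P s x y κ a := by
  classical
  rw [← Finset.sum_filter]
  set X := (XK Fam R).filter (fun κ : Clus α R => x ∈ ofar P s (κ.2 i) ∧ y ∈ xhot s κ) with hX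
  have h1 : ∑ κ ∈ X, xw P s κ ≤ ∑ κ ∈ X, xjo P s x y (xjdel i κ) (κ.2 i) := by
    refine Finset.sum_le_sum fun κ hκ => ?_
    rw [hX, Finset.mem_filter, mem_XK] at hκ
    exact xj_one hP hs i hκ.1 hκ.2.1 hκ.2.2
  refine h1.trans ?_
  have h2 : ∑ κ ∈ X, xjo P s x y (xjdel i κ) (κ.2 i) =
      ∑ p ∈ X.image (fun κ : Clus α R => (xjdel i κ, κ.2 i)), xjo P s x y p.1 p.2 := by
    rw [Finset.sum_image]
    intro K _ L _ h
    simp only [Prod.mk.injEq] at h
    exact xjdel_inj i h.1 h.2
  rw [h2]
  have h3 : X.image (fun κ : Clus α R => (xjdel i κ, κ.2 i)) ⊆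
      (XK Fam R) ×ˢ (Finset.insertNone (arms Fam)) := by
    intro p hp
    rw [Finset.mem_image] at hp
    obtain ⟨κ, hκ, rfl⟩ := hp
    rw [hX, Finset.mem_filter, mem_XK] at hκ
    rw [Finset.mem_product, mem_XK]
    refine ⟨xjdel_comp i hκ.1, ?_⟩
    rw [Finset.mem_insertNone]
    intro a ha
    have ha' : κ.2 i = some a := ha
    obtain ⟨g1, g2, g3, _, _⟩ := hκ.1.arm i a ha'
    exact mem_arms.2 ⟨g1, g2, g3⟩
  have hnn : ∀ (K : Clus α R) (o : Option (Arm α)), 0 ≤ xjo P s x y K o := by
    intro K o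
    cases o with
    | none => exact le_rfl
    | some a => exact xjg_nonneg hP s x y K a
  refine (Finset.sum_le_sum_of_subset_of_nonneg h3 fun p _ _ => hnn p.1 p.2).trans ?_
  rw [Finset.sum_product]
  refine Finset.sum_le_sum fun κ _ => ?_
  rw [Finset.sum_insertNone]
  exact le_of_eq (zero_add _)

theorem xj_swap (A K : Finset α) (f : α → ℝ) :
    (∑ z ∈ A, if z ∈ K then f z else 0) = ∑ z ∈ K, if z ∈ A then f z else 0 := by
  rw [← Finset.sum_filter, ← Finset.sum_filter]
  refine Finset.sum_congr ?_ fun _ _ => rfl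
  ext z
  simp only [Finset.mem_filter]
  exact and_comm

/-- TARGET: the double counting estimate -/
theorem XJ {P : Pm} (hP : P.OK) {s : St α} (hs : s.OK) {Fam : Finset (Finset α)} {n : ℕ}
    (hn : ∀ A ∈ Fam, A.card ≤ n) {R : ℕ} {x y : α} (hx : x ∈ s.F) (hy : y ∈ s.F) (hxy : y ≠ x)
    {m sb : ℝ} (hm : ∀ z ∈ s.F, drp (XK Fam R) (xw P s) (xhot s) z ≤ m)
    (hsb : ∀ z ∈ s.F, z ≠ x → Spair P s Fam x z ≤ sb) :
    (∑ κ ∈ XK Fam R, if x ∈ xfar P s κ ∧ y ∈ xhot s κ then xw P s κ else 0) ≤
      R * n * sb * (drp (XK Fam R) (xw P s) (xhot s) y + m) := by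
  classical
  have hSn : ∀ z, 0 ≤ Spair P s Fam x z := by
    intro z
    rw [xj_Spair]
    refine Finset.sum_nonneg fun A _ => ?_
    split_ifs
    · exact xjT_nonneg hP s x A
    · exact le_rfl
  have hsb0 : 0 ≤ sb := (hSn y).trans (hsb y hy hxy)
  have hdn : ∀ z, 0 ≤ drp (XK Fam R) (xw P s) (xhot s) z := by
    intro z
    refine Finset.sum_nonneg fun κ _ => ?_
    split_ifs
    · exact xw_nonneg hP s κ
    · exact le_rfl
  have hm0 : 0 ≤ m := (hdn y).trans (hm y hy)
  -- split over the arms
  have hstep : (∑ κ ∈ XK Fam R, if x ∈ xfar P s κ ∧ y ∈ xhot s κ then xw P s κ else 0) ≤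
      ∑ _i : Fin R, ∑ κ ∈ XK Fam R, ∑ a ∈ arms Fam, xjg P s x y κ a := by
    have h1 : (∑ κ ∈ XK Fam R, if x ∈ xfar P s κ ∧ y ∈ xhot s κ then xw P s κ else 0) ≤
        ∑ κ ∈ XK Fam R, ∑ i : Fin R,
          if x ∈ ofar P s (κ.2 i) ∧ y ∈ xhot s κ then xw P s κ else 0 := by
      refine Finset.sum_le_sum fun κ _ => ?_
      have hnn : ∀ i ∈ (Finset.univ : Finset (Fin R)),
          0 ≤ (if x ∈ ofar P s (κ.2 i) ∧ y ∈ xhot s κ then xw P s κ else 0) := by
        intro i _
        split_ifs
        · exact xw_nonneg hP s κ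
        · exact le_rfl
      split_ifs with h
      · obtain ⟨hf, hh⟩ := h
        unfold xfar at hf
        rw [Finset.mem_biUnion] at hf
        obtain ⟨i, _, hi⟩ := hf
        have := Finset.single_le_sum hnn (Finset.mem_univ i)
        rw [if_pos ⟨hi, hh⟩] at this
        exact this
      · exact Finset.sum_nonneg hnn
    refine h1.trans ?_
    rw [Finset.sum_comm]
    exact Finset.sum_le_sum fun i _ => xj_i hP hs i
  refine hstep.trans ?_
  rw [Finset.sum_const, Finset.card_univ, Fintype.card_fin, nsmul_eq_mul]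
  have hmain : ∑ κ ∈ XK Fam R, ∑ a ∈ arms Fam, xjg P s x y κ a ≤
      n * sb * (drp (XK Fam R) (xw P s) (xhot s) y + m) := by
    unfold xjg
    simp only [Finset.sum_add_distrib]
    rw [mul_add]
    apply add_le_add
    · -- first term
      have h1 : ∀ κ ∈ XK Fam R, (∑ a ∈ arms Fam,
          if y ∈ xhot s κ ∧ a.1 ∈ κ.1 ∧ a.1 ∈ s.F ∧ a.1 ≠ x then
            xw P s κ * xjv P s x a.2.1 a.2.2 else 0) ≤
          n * sb * (if y ∈ xhot s κ then xw P s κ else 0) := by
        intro κ hκ
        by_cases hyk : y ∈ xhot s κ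
        · simp only [hyk, true_and, if_true]
          have hwn := xw_nonneg hP s κ
          have h2 : (∑ a ∈ arms Fam, if a.1 ∈ κ.1 ∧ a.1 ∈ s.F ∧ a.1 ≠ x then
              xw P s κ * xjv P s x a.2.1 a.2.2 else 0) =
              xw P s κ * ∑ z ∈ κ.1, if z ∈ s.F ∧ z ≠ x then Spair P s Fam x z else 0 := by
            rw [sum_arms]
            have h3 : ∀ A ∈ Fam, (∑ z ∈ A, ∑ D ∈ A.powerset,
                if z ∈ κ.1 ∧ z ∈ s.F ∧ z ≠ x then xw P s κ * xjv P s x A D else 0) =
                ∑ z ∈ κ.1, if z ∈ A then (if z ∈ s.F ∧ z ≠ x then xw P s κ * xjT P s x A else 0)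
                  else 0 := by
              intro A _
              have h4 : ∀ z ∈ A, (∑ D ∈ A.powerset,
                  if z ∈ κ.1 ∧ z ∈ s.F ∧ z ≠ x then xw P s κ * xjv P s x A D else 0) =
                  if z ∈ κ.1 then (if z ∈ s.F ∧ z ≠ x then xw P s κ * xjT P s x A else 0) else 0 := by
                intro z _
                by_cases g1 : z ∈ κ.1
                · by_cases g2 : z ∈ s.F ∧ z ≠ x
                  · rw [if_pos g1, if_pos g2]
                    unfold xjT
                    rw [Finset.mul_sum]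
                    exact Finset.sum_congr rfl fun D _ => if_pos ⟨g1, g2⟩
                  · rw [if_pos g1, if_neg g2]
                    exact Finset.sum_eq_zero fun D _ => if_neg (fun h => g2 h.2)
                · rw [if_neg g1]
                  exact Finset.sum_eq_zero fun D _ => if_neg (fun h => g1 h.1)
              rw [Finset.sum_congr rfl h4]
              exact xj_swap A κ.1 (fun z => if z ∈ s.F ∧ z ≠ x then xw P s κ * xjT P s x A else 0)
            rw [Finset.sum_congr rfl h3, Finset.sum_comm, Finset.mul_sum]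
            refine Finset.sum_congr rfl fun z _ => ?_
            by_cases g2 : z ∈ s.F ∧ z ≠ x
            · simp only [if_pos g2]
              rw [xj_Spair, Finset.mul_sum]
              refine Finset.sum_congr rfl fun A _ => ?_
              rw [mul_ite, mul_zero]
            · simp only [if_neg g2]
              simp
          rw [h2]
          have h5 : (∑ z ∈ κ.1, if z ∈ s.F ∧ z ≠ x then Spair P s Fam x z else 0) ≤ n * sb := by
            have h6 : (∑ z ∈ κ.1, if z ∈ s.F ∧ z ≠ x then Spair P s Fam x z else 0) ≤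
                ∑ _z ∈ κ.1, sb := by
              refine Finset.sum_le_sum fun z _ => ?_
              split_ifs with h
              · exact hsb z h.1 h.2
              · exact hsb0
            refine h6.trans ?_
            rw [Finset.sum_const, nsmul_eq_mul]
            apply mul_le_mul_of_nonneg_right _ hsb0
            exact_mod_cast hn κ.1 (mem_XK.1 hκ).root
          have h7 := mul_le_mul_of_nonneg_left h5 hwn
          linarith
        · simp only [hyk, false_and, if_false]
          simp
      refine (Finset.sum_le_sum h1).trans (le_of_eq ?_)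
      rw [← Finset.mul_sum]
      rfl
    · -- second term
      rw [Finset.sum_comm]
      have h1 : ∀ a ∈ arms Fam, (∑ κ ∈ XK Fam R,
          if y ∈ a.2.1 ∧ a.1 ∈ κ.1 ∧ a.1 ∈ s.F then xw P s κ * xjv P s x a.2.1 a.2.2 else 0) ≤
          (if y ∈ a.2.1 then m * xjv P s x a.2.1 a.2.2 else 0) := by
        intro a _
        have hv := xjv_nonneg hP s x a.2.1 a.2.2
        by_cases hya : y ∈ a.2.1
        · rw [if_pos hya]
          by_cases hz : a.1 ∈ s.F
          · have h2 : (∑ κ ∈ XK Fam R,
                if y ∈ a.2.1 ∧ a.1 ∈ κ.1 ∧ a.1 ∈ s.F then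
                  xw P s κ * xjv P s x a.2.1 a.2.2 else 0) ≤
                ∑ κ ∈ XK Fam R, (if a.1 ∈ xhot s κ then xw P s κ else 0) *
                  xjv P s x a.2.1 a.2.2 := by
              refine Finset.sum_le_sum fun κ _ => ?_
              have hwn := xw_nonneg hP s κ
              split_ifs with g1 g2 g2
              · exact le_rfl
              · exfalso
                apply g2
                unfold xhot
                rw [Finset.mem_union, Finset.mem_inter]
                exact Or.inl ⟨g1.2.1, hz⟩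
              · exact mul_nonneg hwn hv
              · rw [zero_mul]
            refine h2.trans ?_
            rw [← Finset.sum_mul]
            exact mul_le_mul_of_nonneg_right (hm a.1 hz) hv
          · have h0 : (∑ κ ∈ XK Fam R,
                if y ∈ a.2.1 ∧ a.1 ∈ κ.1 ∧ a.1 ∈ s.F then
                  xw P s κ * xjv P s x a.2.1 a.2.2 else 0) = 0 :=
              Finset.sum_eq_zero fun κ _ => if_neg (fun h => hz h.2.2)
            rw [h0]
            exact mul_nonneg hm0 hv
        · rw [if_neg hya]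
          exact le_of_eq (Finset.sum_eq_zero fun κ _ => if_neg (fun h => hya h.1))
      refine (Finset.sum_le_sum h1).trans ?_
      rw [sum_arms]
      have h3 : ∀ A ∈ Fam, (∑ z ∈ A, ∑ D ∈ A.powerset,
          if y ∈ A then m * xjv P s x A D else 0) ≤
          n * m * (if y ∈ A then xjT P s x A else 0) := by
        intro A hA
        by_cases hyA : y ∈ A
        · simp only [if_pos hyA]
          rw [Finset.sum_const, nsmul_eq_mul, ← Finset.mul_sum]
          have hc : (A.card : ℝ) ≤ n := by exact_mod_cast hn A hA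
          have hT : 0 ≤ m * xjT P s x A := mul_nonneg hm0 (xjT_nonneg hP s x A)
          have := mul_le_mul_of_nonneg_right hc hT
          unfold xjT at this ⊢
          linarith
        · simp only [if_neg hyA]
          simp
      refine (Finset.sum_le_sum h3).trans ?_
      rw [← Finset.mul_sum, ← xj_Spair]
      have h4 := mul_le_mul_of_nonneg_left (hsb y hy hxy)
        (show (0 : ℝ) ≤ n * m by positivity)
      linarith
  have hR : (0 : ℝ) ≤ (R : ℝ) := Nat.cast_nonneg R
  have := mul_le_mul_of_nonneg_left hmain hR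
  linarith

end

end

end Pool.Agent.Rect22
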