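import Pool.Agent.Rect22.States

/-!
The weight of the far sets through two points.
-/

set_option autoImplicit false
set_option linter.unusedVariables false
set_option linter.unusedSectionVars false

namespace Pool.Agent.Rect22

open Finset 

section
open Classical in
theorem indep_sum_union {β : Type*} (S : Finset β) (V : β → ℝ)
    (hV : ∀ A ∈ S, 0 ≤ V A) (rel : β → β → Prop) (c : ℝ)
    (hc : ∀ A ∈ S, (∑ A' ∈ S with ¬ rel A A', V A') ≤ c) (r : ℕ) (g : Fin r → β)
    (hg : ∀ i, g i ∈ S) :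
    ∑ A ∈ S, V A - r * c ≤ ∑ A ∈ S with (∀ j, rel (g j) A), V A := by
  have h1 : ∑ A ∈ S, V A = ∑ A ∈ S with (∀ j, rel (g j) A), V A +
      ∑ A ∈ S with ¬ (∀ j, rel (g j) A), V A := (Finset.sum_filter_add_sum_filter_not S _ _).symm
  have h2 : ∑ A ∈ S with ¬ (∀ j, rel (g j) A), V A ≤
      ∑ j : Fin r, ∑ A ∈ S with ¬ rel (g j) A, V A := by
    calc ∑ A ∈ S with ¬ (∀ j, rel (g j) A), V A
        = ∑ A ∈ S, if ¬ (∀ j, rel (g j) A) then V A else 0 := by rw [Finset.sum_filter]
      _ ≤ ∑ A ∈ S, ∑ j : Fin r, if ¬ rel (g j) A then V A else 0 := by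
          refine Finset.sum_le_sum fun A hA => ?_
          have h0 : ∀ j : Fin r, 0 ≤ (if ¬ rel (g j) A then V A else 0) := by
            intro j
            split_ifs
            · exact le_rfl
            · exact hV A hA
          by_cases h : ∀ j, rel (g j) A
          · rw [if_neg (not_not.2 h)]
            exact Finset.sum_nonneg fun j _ => h0 j
          · rw [if_pos h]
            push Not at h
            obtain ⟨j, hj⟩ := h
            calc V A = (if ¬ rel (g j) A then V A else 0) := by rw [if_pos hj]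
              _ ≤ _ := Finset.single_le_sum (f := fun j : Fin r => if ¬ rel (g j) A then V A else 0)
                  (fun j _ => h0 j) (Finset.mem_univ j)
      _ = ∑ j : Fin r, ∑ A ∈ S with ¬ rel (g j) A, V A := by
          rw [Finset.sum_comm]
          refine Finset.sum_congr rfl fun j _ => ?_
          rw [Finset.sum_filter]
  have h3 : ∑ j : Fin r, ∑ A ∈ S with ¬ rel (g j) A, V A ≤ r * c := by
    calc ∑ j : Fin r, ∑ A ∈ S with ¬ rel (g j) A, V A ≤ ∑ j : Fin r, c :=
          Finset.sum_le_sum fun j _ => hc (g j) (hg j)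
      _ = r * c := by simp
  linarith

open Classical in
theorem indep_sum {β : Type*} (S : Finset β) (V : β → ℝ)
    (hV : ∀ A ∈ S, 0 ≤ V A) (rel : β → β → Prop) (c : ℝ) (hc0 : 0 ≤ c)
    (hc : ∀ A ∈ S, (∑ A' ∈ S with ¬ rel A A', V A') ≤ c) (r : ℕ)
    (h : r * c ≤ ∑ A ∈ S, V A) :
    (∑ A ∈ S, V A - r * c) ^ r ≤
      ∑ g ∈ Fintype.piFinset (fun _ : Fin r => S) with (∀ i j, j < i → rel (g j) (g i)),
        ∏ i, V (g i) := by
  induction r with
  | zero => simp
  | succ r ih =>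
    have h' : (r : ℝ) * c ≤ ∑ A ∈ S, V A := by
      push_cast at h
      nlinarith
    have ih' := ih h'
    push_cast at h ⊢
    obtain ⟨T, hT⟩ : ∃ T, T = (Fintype.piFinset (fun _ : Fin r => S)).filter
      (fun g => ∀ i j, j < i → rel (g j) (g i)) := ⟨_, rfl⟩
    rw [← hT] at ih'
    calc (∑ A ∈ S, V A - (r + 1) * c) ^ (r + 1) ≤ (∑ A ∈ S, V A - r * c) ^ (r + 1) :=
          pow_le_pow_left₀ (by linarith) (by nlinarith) _
      _ = (∑ A ∈ S, V A - r * c) ^ r * (∑ A ∈ S, V A - r * c) := pow_succ _ _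
      _ ≤ (∑ g ∈ T, ∏ i, V (g i)) * (∑ A ∈ S, V A - r * c) :=
          mul_le_mul_of_nonneg_right ih' (by linarith)
      _ = ∑ g ∈ T, (∏ i, V (g i)) * (∑ A ∈ S, V A - r * c) := by rw [Finset.sum_mul]
      _ ≤ ∑ g ∈ T, (∏ i, V (g i)) * ∑ A ∈ S with (∀ j, rel (g j) A), V A := by
          refine Finset.sum_le_sum fun g hg => ?_
          rw [hT, Finset.mem_filter, Fintype.mem_piFinset] at hg
          refine mul_le_mul_of_nonneg_left ?_ (Finset.prod_nonneg fun i _ => hV _ (hg.1 i))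
          exact indep_sum_union S V hV rel c hc r g hg.1
      _ = ∑ g ∈ T, ∑ A ∈ S with (∀ j, rel (g j) A), (∏ i, V (g i)) * V A := by
          refine Finset.sum_congr rfl fun g _ => ?_
          rw [Finset.mul_sum]
      _ = ∑ p ∈ T.sigma (fun g => S.filter (fun A => ∀ j, rel (g j) A)),
            (∏ i, V (p.1 i)) * V p.2 := by
          rw [Finset.sum_sigma]
      _ = _ := by
          refine Finset.sum_nbij' (i := fun p : (Σ _ : Fin r → β, β) =>
              (Fin.snoc p.1 p.2 : Fin (r + 1) → β))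
            (j := fun g : Fin (r + 1) → β => (⟨Fin.init g, g (Fin.last r)⟩ : Σ _ : Fin r → β, β))
            ?_ ?_ ?_ ?_ ?_
          · rintro ⟨g, A⟩ hp
            rw [Finset.mem_sigma, hT, Finset.mem_filter, Finset.mem_filter,
              Fintype.mem_piFinset] at hp
            obtain ⟨⟨h1, h2⟩, h3, h4⟩ := hp
            rw [Finset.mem_filter, Fintype.mem_piFinset]
            constructor
            · intro i
              refine Fin.lastCases ?_ (fun i => ?_) i
              · simpa using h3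
              · simpa using h1 i
            · intro i
              refine Fin.lastCases ?_ (fun i => ?_) i
              · intro j hj
                revert hj
                refine Fin.lastCases ?_ (fun j => ?_) j
                · intro hj
                  exact absurd hj (lt_irrefl _)
                · intro _
                  simpa using h4 j
              · intro j hj
                revert hj
                refine Fin.lastCases ?_ (fun j => ?_) j
                · intro hj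
                  exact absurd hj (not_lt.2 (Fin.le_last _))
                · intro hj
                  have := h2 i j (by simpa using hj)
                  simpa using this
          · intro g hg
            rw [Finset.mem_filter, Fintype.mem_piFinset] at hg
            rw [Finset.mem_sigma, hT, Finset.mem_filter, Finset.mem_filter,
              Fintype.mem_piFinset]
            refine ⟨⟨fun i => hg.1 _, fun i j hij => ?_⟩, hg.1 _, fun j => ?_⟩
            · exact hg.2 (Fin.castSucc i) (Fin.castSucc j) (by simpa using hij)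
            · exact hg.2 (Fin.last r) (Fin.castSucc j) (Fin.castSucc_lt_last j)
          · rintro ⟨g, A⟩ hp
            simp
          · intro g hg
            simp
          · rintro ⟨g, A⟩ hp
            simp [Fin.prod_univ_castSucc]

end

section
section
variable {α : Type*} [DecidableEq α]

theorem uu_le {P : Pm} (hP : P.OK) (f : ℕ) : uu P f ≤ P.pb ^ f := by
  unfold uu
  have hpb : 0 ≤ P.pb := hP.pq0.le.trans hP.pqb
  calc P.pb ^ (min f P.F1) * P.pq ^ (f - P.F1)
      ≤ P.pb ^ (min f P.F1) * P.pb ^ (f - P.F1) :=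
        mul_le_mul_of_nonneg_left (pow_le_pow_left₀ hP.pq0.le hP.pqb _) (pow_nonneg hpb _)
    _ = P.pb ^ f := by
        rw [← pow_add]
        congr 1
        omega

theorem V_uu_nonneg {P : Pm} (hP : P.OK) (f : ℕ) : 0 ≤ uu P f := by
  unfold uu
  exact mul_nonneg (pow_nonneg (hP.pq0.le.trans hP.pqb) _) (pow_nonneg hP.pq0.le _)

theorem V_fiber (A O : Finset α) (g : Finset α → ℝ) (hg : ∀ E, 0 ≤ g E) (T : ℕ)
    (hT : (A ∩ O).card ≤ T) :
    ∑ D ∈ A.powerset, g (D \ O) ≤ 2 ^ T * ∑ E ∈ (A \ O).powerset, g E := by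
  have h1 : ∑ D ∈ A.powerset, g (D \ O) =
      ∑ q ∈ A.powerset.image (fun D => (D \ O, D ∩ O)), g q.1 := by
    rw [sum_image]
    intro D _ D' _ h
    have h2 : D \ O = D' \ O := congrArg Prod.fst h
    have h3 : D ∩ O = D' ∩ O := congrArg Prod.snd h
    rw [← sdiff_union_inter D O, h2, h3, sdiff_union_inter]
  have h2 : A.powerset.image (fun D => (D \ O, D ∩ O)) ⊆
      (A \ O).powerset ×ˢ (A ∩ O).powerset := by
    intro q hq
    obtain ⟨D, hD, rfl⟩ := mem_image.mp hq
    have hD' := mem_powerset.mp hD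
    rw [mem_product, mem_powerset, mem_powerset]
    exact ⟨sdiff_subset_sdiff hD' (Subset.refl _), inter_subset_inter hD' (Subset.refl _)⟩
  rw [h1]
  calc ∑ q ∈ A.powerset.image (fun D => (D \ O, D ∩ O)), g q.1
      ≤ ∑ q ∈ (A \ O).powerset ×ˢ (A ∩ O).powerset, g q.1 :=
        sum_le_sum_of_subset_of_nonneg h2 (fun q _ _ => hg _)
    _ = 2 ^ (A ∩ O).card * ∑ E ∈ (A \ O).powerset, g E := by
        rw [sum_product, mul_sum]
        refine sum_congr rfl fun E _ => ?_
        change ∑ _y ∈ (A ∩ O).powerset, g E = _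
        rw [sum_const, card_powerset, nsmul_eq_mul]
        push_cast
        rfl
    _ ≤ 2 ^ T * ∑ E ∈ (A \ O).powerset, g E :=
        mul_le_mul_of_nonneg_right (pow_le_pow_right₀ (by norm_num) hT)
          (sum_nonneg fun E _ => hg E)

/-- replacing `D` by `D \ O` -/
theorem Vle {P : Pm} (hP : P.OK) (s : St α) {A O : Finset α} {T : ℕ}
    (hT : (A ∩ O).card ≤ T) :
    (∑ D ∈ A.powerset with D ⊆ s.F ∪ s.M,
        P.sig * P.zet ^ (A \ D).card * uu P (D \ s.M).card) ≤
      (P.sig / P.lam) * (2 / P.zet) ^ T * ∑ D ∈ (A \ O).powerset, pval P s (A, D) := by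
  have hpb : 0 ≤ P.pb := hP.pq0.le.trans hP.pqb
  have hσ : 0 ≤ P.sig := zero_le_one.trans hP.sig1
  have hz := hP.zet0
  have hl := hP.lam0
  have hpv : ∀ E, 0 ≤ pval P s (A, E) := by
    intro E
    unfold pval
    refine mul_nonneg (mul_nonneg hl.le (pow_nonneg hz.le _)) ?_
    split_ifs
    · exact pow_nonneg hpb _
    · exact le_rfl
  have hterm : ∀ D ∈ A.powerset.filter (fun D => D ⊆ s.F ∪ s.M),
      P.sig * P.zet ^ (A \ D).card * uu P (D \ s.M).card ≤
        (P.sig / P.lam) * (P.zet ^ T)⁻¹ * pval P s (A, D \ O) := by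
    intro D hD
    obtain ⟨hDA, hDF⟩ := mem_filter.mp hD
    have h1 : D \ O ⊆ s.F ∪ s.M := sdiff_subset.trans hDF
    unfold pval
    simp only
    rw [if_pos h1]
    have h2 : (A \ (D \ O)).card ≤ (A \ D).card + T := by
      have h3 : A \ (D \ O) ⊆ (A \ D) ∪ (A ∩ O) := by
        intro x hx
        rw [mem_sdiff, mem_sdiff] at hx
        rw [mem_union, mem_sdiff, mem_inter]
        by_cases hxD : x ∈ D
        · right
          refine ⟨hx.1, ?_⟩
          by_contra hxO
          exact hx.2 ⟨hxD, hxO⟩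
        · exact Or.inl ⟨hx.1, hxD⟩
      calc (A \ (D \ O)).card ≤ ((A \ D) ∪ (A ∩ O)).card := card_le_card h3
        _ ≤ (A \ D).card + (A ∩ O).card := card_union_le _ _
        _ ≤ (A \ D).card + T := by omega
    have h4 : P.zet ^ ((A \ D).card + T) ≤ P.zet ^ (A \ (D \ O)).card :=
      pow_le_pow_of_le_one hz.le hP.zet1 h2
    have h5 : P.pb ^ (D \ s.M).card ≤ P.pb ^ ((D \ O) \ s.M).card :=
      pow_le_pow_of_le_one hpb hP.pb1 (card_le_card (sdiff_subset_sdiff sdiff_subset
        (Subset.refl _)))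
    have hzT : 0 < P.zet ^ T := pow_pos hz T
    have h6 : P.zet ^ (A \ D).card ≤ (P.zet ^ T)⁻¹ * P.zet ^ (A \ (D \ O)).card := by
      rw [inv_mul_eq_div, le_div_iff₀ hzT, ← pow_add]
      exact h4
    have h7 := (uu_le hP (D \ s.M).card).trans h5
    have hz0 : 0 ≤ P.zet ^ (A \ (D \ O)).card := pow_nonneg hz.le _
    calc P.sig * P.zet ^ (A \ D).card * uu P (D \ s.M).card
        ≤ P.sig * ((P.zet ^ T)⁻¹ * P.zet ^ (A \ (D \ O)).card) *
            P.pb ^ ((D \ O) \ s.M).card := by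
          refine mul_le_mul (mul_le_mul_of_nonneg_left h6 hσ) h7 (V_uu_nonneg hP _) ?_
          exact mul_nonneg hσ (mul_nonneg (inv_nonneg.mpr hzT.le) hz0)
      _ = _ := by
          field_simp
  calc (∑ D ∈ A.powerset with D ⊆ s.F ∪ s.M,
        P.sig * P.zet ^ (A \ D).card * uu P (D \ s.M).card)
      ≤ ∑ D ∈ A.powerset with D ⊆ s.F ∪ s.M,
          (P.sig / P.lam) * (P.zet ^ T)⁻¹ * pval P s (A, D \ O) := sum_le_sum hterm
    _ ≤ ∑ D ∈ A.powerset, (P.sig / P.lam) * (P.zet ^ T)⁻¹ * pval P s (A, D \ O) := by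
        refine sum_le_sum_of_subset_of_nonneg (filter_subset _ _) fun D _ _ => ?_
        exact mul_nonneg (mul_nonneg (div_nonneg hσ hl.le)
          (inv_nonneg.mpr (pow_nonneg hz.le _))) (hpv _)
    _ = (P.sig / P.lam) * (P.zet ^ T)⁻¹ * ∑ D ∈ A.powerset, pval P s (A, D \ O) := by
        rw [mul_sum]
    _ ≤ (P.sig / P.lam) * (P.zet ^ T)⁻¹ *
          (2 ^ T * ∑ D ∈ (A \ O).powerset, pval P s (A, D)) := by
        refine mul_le_mul_of_nonneg_left (V_fiber A O (fun E => pval P s (A, E)) hpv T hT) ?_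
        exact mul_nonneg (div_nonneg hσ hl.le) (inv_nonneg.mpr (pow_nonneg hz.le _))
    _ = _ := by
        rw [div_pow]
        field_simp

/-- the weight of one set is small -/
theorem Vone {P : Pm} (hP : P.OK) (s : St α) (A : Finset α) :
    (∑ D ∈ A.powerset with D ⊆ s.F ∪ s.M ∧ P.F1 < (D \ s.M).card,
        P.sig * P.zet ^ (A \ D).card * uu P (D \ s.M).card) ≤
      P.sig * P.pb ^ P.F1 * (1 + P.zet) ^ A.card := by
  have hpb : 0 ≤ P.pb := hP.pq0.le.trans hP.pqb
  have hσ : 0 ≤ P.sig := zero_le_one.trans hP.sig1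
  have hz := hP.zet0
  have hsum : ∑ D ∈ A.powerset, P.zet ^ (A \ D).card = (1 + P.zet) ^ A.card := by
    rw [← sum_pow_mul_eq_add_pow]
    refine sum_congr rfl fun D hD => ?_
    rw [one_pow, one_mul, card_sdiff_of_subset (mem_powerset.mp hD)]
  calc (∑ D ∈ A.powerset with D ⊆ s.F ∪ s.M ∧ P.F1 < (D \ s.M).card,
        P.sig * P.zet ^ (A \ D).card * uu P (D \ s.M).card)
      ≤ ∑ D ∈ A.powerset with D ⊆ s.F ∪ s.M ∧ P.F1 < (D \ s.M).card,
        P.sig * P.pb ^ P.F1 * P.zet ^ (A \ D).card := by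
        refine sum_le_sum fun D hD => ?_
        obtain ⟨_, _, hDF⟩ := mem_filter.mp hD
        have h1 : uu P (D \ s.M).card ≤ P.pb ^ P.F1 := by
          unfold uu
          rw [min_eq_right hDF.le]
          calc P.pb ^ P.F1 * P.pq ^ ((D \ s.M).card - P.F1) ≤ P.pb ^ P.F1 * 1 :=
                mul_le_mul_of_nonneg_left
                  (pow_le_one₀ hP.pq0.le (hP.pqb.trans hP.pb1)) (pow_nonneg hpb _)
            _ = P.pb ^ P.F1 := mul_one _
        calc P.sig * P.zet ^ (A \ D).card * uu P (D \ s.M).card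
            ≤ P.sig * P.zet ^ (A \ D).card * P.pb ^ P.F1 :=
              mul_le_mul_of_nonneg_left h1 (mul_nonneg hσ (pow_nonneg hz.le _))
          _ = _ := by ring
    _ ≤ ∑ D ∈ A.powerset, P.sig * P.pb ^ P.F1 * P.zet ^ (A \ D).card := by
        refine sum_le_sum_of_subset_of_nonneg (filter_subset _ _) fun D _ _ => ?_
        exact mul_nonneg (mul_nonneg hσ (pow_nonneg hpb _)) (pow_nonneg hz.le _)
    _ = _ := by
        rw [← mul_sum, hsum]

end

end

section
section
variable {α : Type*} [DecidableEq α]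

/-- TARGET: the moment estimate -/
theorem pair_le {P : Pm} (hP : P.OK) {s : St α} {Fam : Finset (Finset α)}
    {Pr : Finset (α × α)} {n t C1 r : ℕ} (hn : ∀ A ∈ Fam, A.card = n)
    (hover : ∀ B ∈ Fam, (Fam.filter (fun A => t ≤ (A ∩ B).card)).card ≤ C1)
    {x z : α} (hx : x ∈ s.F) (hz : z ∈ s.F) (hp : (x, z) ∈ Pr)
    (h : (r : ℝ) * (C1 * (P.sig * P.pb ^ P.F1 * (1 + P.zet) ^ n)) ≤ Spair P s Fam x z) :
    (Spair P s Fam x z - r * (C1 * (P.sig * P.pb ^ P.F1 * (1 + P.zet) ^ n))) ^ r ≤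
      ((P.sig / P.lam) * (2 / P.zet) ^ (r * t + 2)) ^ r * Ups (PK Fam Pr r) (pw P s) := by
  have hsig : 0 ≤ P.sig := le_trans zero_le_one hP.sig1
  have hzet : 0 ≤ P.zet := hP.zet0.le
  have hpq : 0 ≤ P.pq := hP.pq0.le
  have hpb : 0 ≤ P.pb := hP.pq0.le.trans hP.pqb
  have huu : ∀ f, 0 ≤ uu P f := fun f => mul_nonneg (pow_nonneg hpb _) (pow_nonneg hpq _)
  have hterm : ∀ A D : Finset α, 0 ≤ P.sig * P.zet ^ (A \ D).card * uu P (D \ s.M).card :=
    fun A D => mul_nonneg (mul_nonneg hsig (pow_nonneg hzet _)) (huu _)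
  obtain ⟨V, hVdef⟩ : ∃ V : Finset α → ℝ, V = fun A =>
      ∑ D ∈ A.powerset with x ∈ D ∧ D ⊆ s.F ∪ s.M ∧ P.F1 < (D \ s.M).card,
        P.sig * P.zet ^ (A \ D).card * uu P (D \ s.M).card := ⟨_, rfl⟩
  obtain ⟨S, hS⟩ : ∃ S : Finset (Finset α), S = Fam.filter (fun A => x ∈ A ∧ z ∈ A) := ⟨_, rfl⟩
  have hSp : Spair P s Fam x z = ∑ A ∈ S, V A := by
    rw [hS, hVdef]
    rfl
  have hSmem : ∀ A, A ∈ S ↔ A ∈ Fam ∧ x ∈ A ∧ z ∈ A := by
    intro A
    rw [hS, Finset.mem_filter]
  have hVV : ∀ A ∈ S, 0 ≤ V A := by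
    intro A _
    rw [hVdef]
    exact Finset.sum_nonneg fun D _ => hterm A D
  obtain ⟨vb, hvb⟩ : ∃ vb : ℝ, vb = P.sig * P.pb ^ P.F1 * (1 + P.zet) ^ n := ⟨_, rfl⟩
  have hvb0 : 0 ≤ vb := by
    rw [hvb]
    exact mul_nonneg (mul_nonneg hsig (pow_nonneg hpb _)) (pow_nonneg (by linarith) _)
  have hVb : ∀ A ∈ S, V A ≤ vb := by
    intro A hA
    have h1 := Vone hP s A
    rw [hn A ((hSmem A).1 hA).1, ← hvb] at h1
    refine le_trans ?_ h1
    rw [hVdef]
    refine Finset.sum_le_sum_of_subset_of_nonneg ?_ (fun D _ _ => hterm A D)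
    intro D hD
    rw [Finset.mem_filter] at hD ⊢
    exact ⟨hD.1, hD.2.2⟩
  have hVle : ∀ A ∈ S, ∀ (O : Finset α) (T : ℕ), (A ∩ O).card ≤ T →
      V A ≤ (P.sig / P.lam) * (2 / P.zet) ^ T * ∑ D ∈ (A \ O).powerset, pval P s (A, D) := by
    intro A hA O T hT
    refine le_trans ?_ (Vle hP s hT)
    rw [hVdef]
    refine Finset.sum_le_sum_of_subset_of_nonneg ?_ (fun D _ _ => hterm A D)
    intro D hD
    rw [Finset.mem_filter] at hD ⊢
    exact ⟨hD.1, hD.2.2.1⟩
  rw [← hvb] at h ⊢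
  rw [hSp] at h ⊢
  have hc0 : (0 : ℝ) ≤ C1 * vb := mul_nonneg (Nat.cast_nonneg _) hvb0
  classical
  obtain ⟨rel, hrel⟩ : ∃ rel : Finset α → Finset α → Prop,
      rel = fun A B => (B ∩ A).card < t := ⟨_, rfl⟩
  have hrel' : ∀ A B, rel A B ↔ (B ∩ A).card < t := by
    intro A B
    rw [hrel]
  clear hrel
  have key := indep_sum S V hVV rel (C1 * vb) hc0 (by
    intro A hA
    refine (Finset.sum_le_card_nsmul _ _ vb (fun A' hA' => hVb A' (Finset.mem_filter.1 hA').1)).trans
      ?_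
    rw [nsmul_eq_mul]
    refine mul_le_mul_of_nonneg_right ?_ hvb0
    refine Nat.cast_le.2 (le_trans (Finset.card_le_card ?_) (hover A ((hSmem A).1 hA).1))
    intro A' hA'
    rw [Finset.mem_filter] at hA' ⊢
    exact ⟨((hSmem A').1 hA'.1).1, not_lt.1 (fun h => hA'.2 ((hrel' _ _).2 h))⟩) r h
  refine key.trans ?_
  clear key
  obtain ⟨K0, hK0⟩ : ∃ K0 : ℝ, K0 = (P.sig / P.lam) * (2 / P.zet) ^ (r * t + 2) := ⟨_, rfl⟩
  have hK0n : 0 ≤ K0 := by
    rw [hK0]
    exact mul_nonneg (div_nonneg hsig hP.lam0.le) (pow_nonneg (div_nonneg (by norm_num) hzet) _)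
  rw [← hK0]
  obtain ⟨O, hO⟩ : ∃ O : (Fin r → Finset α) → Fin r → Finset α,
      O = fun g i => (Finset.univ.filter (fun j : Fin r => j < i)).biUnion g ∪ {x, z} := ⟨_, rfl⟩
  have hOx : ∀ g i, x ∈ O g i := by
    intro g i
    rw [hO]
    simp
  have hOz : ∀ g i, z ∈ O g i := by
    intro g i
    rw [hO]
    simp
  have hOg : ∀ g i j, j < i → g j ⊆ O g i := by
    intro g i j hji a ha
    rw [hO]
    refine Finset.mem_union_left _ (Finset.mem_biUnion.2 ⟨j, ?_, ha⟩)
    rw [Finset.mem_filter]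
    exact ⟨Finset.mem_univ _, hji⟩
  have hcard : ∀ g : Fin r → Finset α, (∀ i j, j < i → (g i ∩ g j).card < t) → ∀ i,
      (g i ∩ O g i).card ≤ r * t + 2 := by
    intro g hg i
    have h1 : g i ∩ O g i ⊆
        (Finset.univ.filter (fun j : Fin r => j < i)).biUnion (fun j => g i ∩ g j) ∪ {x, z} := by
      intro a ha
      rw [Finset.mem_inter, hO] at ha
      rcases Finset.mem_union.1 ha.2 with h2 | h2
      · obtain ⟨j, hj, haj⟩ := Finset.mem_biUnion.1 h2
        exact Finset.mem_union_left _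
          (Finset.mem_biUnion.2 ⟨j, hj, Finset.mem_inter.2 ⟨ha.1, haj⟩⟩)
      · exact Finset.mem_union_right _ h2
    refine (Finset.card_le_card h1).trans ((Finset.card_union_le _ _).trans ?_)
    refine add_le_add ?_ Finset.card_le_two
    refine Finset.card_biUnion_le.trans ?_
    refine (Finset.sum_le_card_nsmul _ _ t (fun j hj => ?_)).trans ?_
    · exact (hg i j (Finset.mem_filter.1 hj).2).le
    · rw [smul_eq_mul]
      refine Nat.mul_le_mul_right _ ?_
      exact (Finset.card_le_univ _).trans (by simp)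
  have hg1 : ∀ g : Fin r → Finset α, (∀ i, g i ∈ S) →
      (∀ i j, j < i → (g i ∩ g j).card < t) →
      ∏ i, V (g i) ≤ K0 ^ r * ∑ Df ∈ Fintype.piFinset (fun i => (g i \ O g i).powerset),
        ∏ i, pval P s (g i, Df i) := by
    intro g hgS hg
    calc ∏ i, V (g i) ≤ ∏ i, (K0 * ∑ D ∈ (g i \ O g i).powerset, pval P s (g i, D)) := by
          refine Finset.prod_le_prod (fun i _ => hVV _ (hgS i)) (fun i _ => ?_)
          rw [hK0]
          exact hVle (g i) (hgS i) (O g i) (r * t + 2) (hcard g hg i)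
      _ = K0 ^ r * ∏ i, ∑ D ∈ (g i \ O g i).powerset, pval P s (g i, D) := by
          rw [Finset.prod_mul_distrib, Finset.prod_const, Finset.card_univ, Fintype.card_fin]
      _ = _ := by
          rw [Finset.prod_univ_sum]
  have hstep : (∑ g ∈ Fintype.piFinset (fun _ : Fin r => S) with
        (∀ i j, j < i → rel (g j) (g i)), ∏ i, V (g i)) ≤
      ∑ g ∈ Fintype.piFinset (fun _ : Fin r => S) with (∀ i j, j < i → rel (g j) (g i)),
        K0 ^ r * ∑ Df ∈ Fintype.piFinset (fun i => (g i \ O g i).powerset),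
          ∏ i, pval P s (g i, Df i) := by
    refine Finset.sum_le_sum (fun g hg => ?_)
    rw [Finset.mem_filter, Fintype.mem_piFinset] at hg
    exact hg1 g hg.1 (fun i j hji => (hrel' _ _).1 (hg.2 i j hji))
  refine hstep.trans ?_
  rw [← Finset.mul_sum]
  refine mul_le_mul_of_nonneg_left ?_ (pow_nonneg hK0n r)
  rw [Finset.sum_sigma']
  obtain ⟨Φ, hΦ⟩ : ∃ Φ : (Σ _ : Fin r → Finset α, Fin r → Finset α) → PClus α r,
      Φ = fun p => ((x, z), fun i => (p.1 i, p.2 i)) := ⟨_, rfl⟩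
  have hΦi : Function.Injective Φ := by
    rintro ⟨g, D⟩ ⟨g', D'⟩ heq
    rw [hΦ] at heq
    have h1 := congrArg Prod.snd heq
    have h2 : g = g' := by
      funext i
      exact congrArg Prod.fst (congrFun h1 i)
    have h3 : D = D' := by
      funext i
      exact congrArg Prod.snd (congrFun h1 i)
    subst h2
    subst h3
    rfl
  have hpwΦ : ∀ p, pw P s (Φ p) = ∏ i, pval P s (p.1 i, p.2 i) := by
    intro p
    rw [hΦ]
    unfold pw
    simp only [hx, hz, and_self, if_true, one_mul]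
  unfold Ups
  calc _ = ∑ p ∈ _, pw P s (Φ p) := Finset.sum_congr rfl (fun p _ => (hpwΦ p).symm)
    _ = ∑ K ∈ Finset.image Φ _, pw P s K := (Finset.sum_image (fun p _ q _ h => hΦi h)).symm
    _ ≤ _ := by
      refine Finset.sum_le_sum_of_subset_of_nonneg ?_ (fun K _ _ => pw_nonneg hP s K)
      intro K hK
      obtain ⟨⟨g, D⟩, hp1, rfl⟩ := Finset.mem_image.1 hK
      rw [Finset.mem_sigma] at hp1
      obtain ⟨hg, hD⟩ := hp1
      simp only at hg hD
      rw [Finset.mem_filter, Fintype.mem_piFinset] at hg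
      rw [Fintype.mem_piFinset] at hD
      have hD' : ∀ i, D i ⊆ g i \ O g i := fun i => Finset.mem_powerset.1 (hD i)
      rw [mem_PK, hΦ]
      have hlt : ∀ i j, j < i → Disjoint (D i) (D j) := by
        intro i j hji
        rw [Finset.disjoint_left]
        intro a hai haj
        have h1 := Finset.mem_sdiff.1 (hD' i hai)
        exact h1.2 (hOg g i j hji (Finset.mem_sdiff.1 (hD' j haj)).1)
      refine ⟨hp, fun i => ?_, fun i j hij => ?_⟩
      · have h1 := (hSmem (g i)).1 (hg.1 i)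
        refine ⟨h1.1, h1.2.1, h1.2.2, fun a ha => (Finset.mem_sdiff.1 (hD' i ha)).1, ?_, ?_⟩
        · intro ha
          exact (Finset.mem_sdiff.1 (hD' i ha)).2 (hOx g i)
        · intro ha
          exact (Finset.mem_sdiff.1 (hD' i ha)).2 (hOz g i)
      · rcases lt_or_gt_of_ne hij with h1 | h1
        · exact (hlt j i h1).symm
        · exact hlt i j h1

end

end

section
section
variable {α : Type*} [DecidableEq α]

/-- TARGET 1: pairs in `Pr` -/
theorem pair_small {P : Pm} (hP : P.OK) {s : St α} {Fam : Finset (Finset α)}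
    {Pr : Finset (α × α)} {n t C1 r : ℕ} (hn : ∀ A ∈ Fam, A.card = n)
    (hover : ∀ B ∈ Fam, (Fam.filter (fun A => t ≤ (A ∩ B).card)).card ≤ C1)
    {x z : α} (hx : x ∈ s.F) (hz : z ∈ s.F) (hp : (x, z) ∈ Pr) {sb U : ℝ}
    (hsb : (r : ℝ) * (C1 * (P.sig * P.pb ^ P.F1 * (1 + P.zet) ^ n)) < sb)
    (hU : Ups (PK Fam Pr r) (pw P s) ≤ U)
    (hnum : ((P.sig / P.lam) * (2 / P.zet) ^ (r * t + 2)) ^ r * U <
      (sb - r * (C1 * (P.sig * P.pb ^ P.F1 * (1 + P.zet) ^ n))) ^ r) :
    Spair P s Fam x z ≤ sb := by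
  by_contra hlt
  push Not at hlt
  have h1 := pair_le hP hn hover hx hz hp (le_of_lt (lt_trans hsb hlt))
  have hC : 0 ≤ ((P.sig / P.lam) * (2 / P.zet) ^ (r * t + 2)) ^ r := by
    have := hP.sig1
    have := hP.lam0
    have := hP.zet0
    positivity
  have h2 := mul_le_mul_of_nonneg_left hU hC
  have h3 : (sb - r * (C1 * (P.sig * P.pb ^ P.F1 * (1 + P.zet) ^ n))) ^ r ≤
      (Spair P s Fam x z - r * (C1 * (P.sig * P.pb ^ P.F1 * (1 + P.zet) ^ n))) ^ r :=
    pow_le_pow_left₀ (by linarith) (by linarith) r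
  linarith

/-- TARGET 2: the other pairs -/
theorem pair_gen {P : Pm} (hP : P.OK) {s : St α} {Fam : Finset (Finset α)}
    {n gd : ℕ} (hn : ∀ A ∈ Fam, A.card = n) {x z : α}
    (hg : (Fam.filter (fun A => x ∈ A ∧ z ∈ A)).card ≤ gd) :
    Spair P s Fam x z ≤ gd * (P.sig * P.pb ^ P.F1 * (1 + P.zet) ^ n) := by
  have hsig := hP.sig1
  have hzet := hP.zet0
  have hpq := hP.pq0
  have hpb : 0 < P.pb := lt_of_lt_of_le hpq hP.pqb
  have huu : ∀ f, 0 ≤ uu P f := by
    intro f
    unfold uu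
    positivity
  have hc : 0 ≤ P.sig * P.pb ^ P.F1 * (1 + P.zet) ^ n := by positivity
  unfold Spair
  calc _ ≤ ∑ A ∈ Fam with x ∈ A ∧ z ∈ A, P.sig * P.pb ^ P.F1 * (1 + P.zet) ^ n := by
        refine Finset.sum_le_sum fun A hA => ?_
        rw [Finset.mem_filter] at hA
        rw [← hn A hA.1]
        refine le_trans ?_ (Vone hP s A)
        refine Finset.sum_le_sum_of_subset_of_nonneg ?_ ?_
        · intro D hD
          rw [Finset.mem_filter] at hD ⊢
          exact ⟨hD.1, hD.2.2⟩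
        · intro D _ _
          have := huu (D \ s.M).card
          positivity
    _ = ((Fam.filter (fun A => x ∈ A ∧ z ∈ A)).card : ℝ) * (P.sig * P.pb ^ P.F1 * (1 + P.zet) ^ n) := by
        rw [Finset.sum_const, nsmul_eq_mul]
    _ ≤ gd * (P.sig * P.pb ^ P.F1 * (1 + P.zet) ^ n) :=
        mul_le_mul_of_nonneg_right (by exact_mod_cast hg) hc

end

end

end Pool.Agent.Rect22
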