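import Pool.Agent.Rect22.States
import Pool.Agent.Rect22.Double
import Pool.Agent.Rect22.Pairs

/-!
Both kinds of clusters together.
-/

set_option autoImplicit false
set_option linter.unusedVariables false
set_option linter.unusedSectionVars false

namespace Pool.Agent.Rect22

open Finset 

section
section
variable {α : Type*} [DecidableEq α]

theorem ww_nonneg {P : Pm} (hP : P.OK) {N1 N2 : ℝ} (h1 : 0 < N1) (h2 : 0 < N2) {R r : ℕ}
    (s : St α) (κ : IX α R r) : 0 ≤ ww P N1 N2 s κ := by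
  cases κ with
  | inl K => exact div_nonneg (xw_nonneg hP s K) h1.le
  | inr K => exact div_nonneg (pw_nonneg hP s K) h2.le

theorem ff_sub (P : Pm) {R r : ℕ} (s : St α) (κ : IX α R r) : ff P s κ ⊆ hh s κ := by
  cases κ with
  | inl K => exact xfar_sub P s K
  | inr K => exact Finset.empty_subset _

theorem hh_mk1 {s : St α} (hs : s.OK) (x : α) {R r : ℕ} (κ : IX α R r) :
    hh (s.mk1 x) κ ⊆ hh s κ := by
  cases κ with
  | inl K => exact xhot_mk1 hs x K
  | inr K => exact phot_mk1 s x K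

theorem ff_mk1 (P : Pm) {s : St α} (hs : s.OK) (x : α) {R r : ℕ} (κ : IX α R r) :
    ff P (s.mk1 x) κ ⊆ ff P s κ := by
  cases κ with
  | inl K => exact xfar_mk1 P hs x K
  | inr K => exact Finset.Subset.refl _

theorem ww_mk1 {P : Pm} (hP : P.OK) {N1 N2 : ℝ} (h1 : 0 < N1) (h2 : 0 < N2) {s : St α}
    (hs : s.OK) {x : α} (hx : x ∈ s.F) {Fam : Finset (Finset α)} {Pr : Finset (α × α)}
    {R r : ℕ} {κ : IX α R r} (hK : κ ∈ KK Fam Pr R r) :
    ww P N1 N2 (s.mk1 x) κ ≤ fac P.eta (ff P s) (hh s) x κ * ww P N1 N2 s κ := by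
  cases κ with
  | inl K =>
    have hK' : Comp Fam K := mem_XK.1 (Finset.inl_mem_disjSum.1 hK)
    have h := xw_mk1 hP hs hx hK'
    have hf : fac P.eta (ff P s) (hh s) x (Sum.inl K : IX α R r) =
        fac P.eta (xfar P s) (xhot s) x K := rfl
    have e1 : ww P N1 N2 (s.mk1 x) (Sum.inl K : IX α R r) = xw P (s.mk1 x) K / N1 := rfl
    have e2 : ww P N1 N2 s (Sum.inl K : IX α R r) = xw P s K / N1 := rfl
    rw [hf, e1, e2, ← mul_div_assoc]
    exact div_le_div_of_nonneg_right h h1.le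
  | inr K =>
    have hK' : PComp Fam Pr K := mem_PK.1 (Finset.inr_mem_disjSum.1 hK)
    have h := pw_mk1 hP hs hx hK'
    have hf : fac P.eta (ff P s) (hh s) x (Sum.inr K : IX α R r) =
        fac P.eta (fun _ => ∅) (phot s) x K := rfl
    have e1 : ww P N1 N2 (s.mk1 x) (Sum.inr K : IX α R r) = pw P (s.mk1 x) K / N2 := rfl
    have e2 : ww P N1 N2 s (Sum.inr K : IX α R r) = pw P s K / N2 := rfl
    rw [hf, e1, e2, ← mul_div_assoc]
    exact div_le_div_of_nonneg_right h h2.le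

theorem ww_rm {P : Pm} (hP : P.OK) {N1 N2 : ℝ} (h1 : 0 < N1) (h2 : 0 < N2) (s : St α)
    {G Bn : Finset α} (hG : G ⊆ s.F) (hB : s.B ⊆ Bn) {R r : ℕ} (κ : IX α R r) :
    ww P N1 N2 (s.rm G Bn) κ ≤ ww P N1 N2 s κ := by
  cases κ with
  | inl K => exact div_le_div_of_nonneg_right (xw_rm hP s hG hB K) h1.le
  | inr K => exact div_le_div_of_nonneg_right (pw_rm hP s hG K) h2.le

theorem hh_rm (s : St α) {G Bn : Finset α} (hG : G ⊆ s.F) {R r : ℕ} (κ : IX α R r) :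
    hh (s.rm G Bn) κ ⊆ hh s κ := by
  cases κ with
  | inl K => exact xhot_rm s hG K
  | inr K => exact phot_rm s hG K

theorem ww_kill (P : Pm) {N1 N2 : ℝ} (s : St α) {G Bn : Finset α} (hG : G ⊆ s.F) {R r : ℕ}
    (κ : IX α R r) {y : α} (hy : y ∈ hh s κ) (hyG : y ∉ G) (hyB : y ∈ Bn) :
    ww P N1 N2 (s.rm G Bn) κ = 0 := by
  cases κ with
  | inl K =>
    have h := xw_kill P s hG K hy hyG hyB
    show xw P (s.rm G Bn) K / N1 = 0
    rw [h, zero_div]
  | inr K =>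
    have h := pw_kill (Bn := Bn) P s hG K hy hyG
    show pw P (s.rm G Bn) K / N2 = 0
    rw [h, zero_div]

end

end

section
section
variable {α : Type*} [DecidableEq α]

theorem bigJ_ups_split {D : Dat α} (H : Hyp D) (s : St α) :
    Ups (KK D.Fam D.Pr D.R D.r) (ww D.P D.N1 D.N2 s) =
      Ups (XK D.Fam D.R) (xw D.P s) / D.N1 + Ups (PK D.Fam D.Pr D.r) (pw D.P s) / D.N2 := by
  unfold Ups KK
  rw [Finset.sum_disjSum]
  simp only [ww, Sum.elim_inl, Sum.elim_inr]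
  rw [Finset.sum_div, Finset.sum_div]

theorem bigJ_x_nonneg {D : Dat α} (H : Hyp D) (s : St α) :
    0 ≤ Ups (XK D.Fam D.R) (xw D.P s) :=
  Finset.sum_nonneg (fun K _ => xw_nonneg H.pok s K)

theorem bigJ_p_nonneg {D : Dat α} (H : Hyp D) (s : St α) :
    0 ≤ Ups (PK D.Fam D.Pr D.r) (pw D.P s) :=
  Finset.sum_nonneg (fun K _ => pw_nonneg H.pok s K)

theorem xups_le {D : Dat α} (H : Hyp D) (s : St α)
    (hU : Ups (KK D.Fam D.Pr D.R D.r) (ww D.P D.N1 D.N2 s) ≤ 9) :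
    Ups (XK D.Fam D.R) (xw D.P s) ≤ 9 * D.N1 := by
  rw [bigJ_ups_split H s] at hU
  have h1 := div_nonneg (bigJ_p_nonneg H s) H.N2pos.le
  have h2 : Ups (XK D.Fam D.R) (xw D.P s) / D.N1 ≤ 9 := by linarith
  rwa [div_le_iff₀ H.N1pos] at h2

theorem pups_le {D : Dat α} (H : Hyp D) (s : St α)
    (hU : Ups (KK D.Fam D.Pr D.R D.r) (ww D.P D.N1 D.N2 s) ≤ 9) :
    Ups (PK D.Fam D.Pr D.r) (pw D.P s) ≤ 9 * D.N2 := by
  rw [bigJ_ups_split H s] at hU
  have h1 := div_nonneg (bigJ_x_nonneg H s) H.N1pos.le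
  have h2 : Ups (PK D.Fam D.Pr D.r) (pw D.P s) / D.N2 ≤ 9 := by linarith
  rwa [div_le_iff₀ H.N2pos] at h2

theorem spair_le {D : Dat α} (H : Hyp D) {s : St α} (hs : s.OK)
    (hU : Ups (KK D.Fam D.Pr D.R D.r) (ww D.P D.N1 D.N2 s) ≤ 9)
    {x z : α} (hx : x ∈ s.F) (hz : z ∈ s.F) (hxz : z ≠ x) : Spair D.P s D.Fam x z ≤ D.sb := by
  by_cases hp : (x, z) ∈ D.Pr
  · exact pair_small H.pok H.hn H.hover hx hz hp (sb := D.sb) (U := 9 * D.N2)
      H.hsb (pups_le H s hU) H.hnum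
  · refine le_trans (pair_gen (s := s) H.pok H.hn (x := x) (z := z)
      (gd := (D.Fam.filter (fun A => x ∈ A ∧ z ∈ A)).card) le_rfl) ?_
    exact H.hgen x z (Ne.symm hxz) hp

theorem bigJ_drp_split {D : Dat α} (s : St α) (z : α) :
    drp (KK D.Fam D.Pr D.R D.r) (ww D.P D.N1 D.N2 s) (hh s) z =
      drp (XK D.Fam D.R) (xw D.P s) (xhot s) z / D.N1 +
      drp (PK D.Fam D.Pr D.r) (pw D.P s) (phot s) z / D.N2 := by
  unfold drp KK
  rw [Finset.sum_disjSum]
  rw [Finset.sum_div, Finset.sum_div]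
  congr 1
  · apply Finset.sum_congr rfl
    intro K _
    by_cases h : z ∈ xhot s K
    · have h' : z ∈ hh s (Sum.inl K : IX α D.R D.r) := h
      rw [if_pos h, if_pos h']
      rfl
    · have h' : z ∉ hh s (Sum.inl K : IX α D.R D.r) := h
      rw [if_neg h, if_neg h', zero_div]
  · apply Finset.sum_congr rfl
    intro K _
    by_cases h : z ∈ phot s K
    · have h' : z ∈ hh s (Sum.inr K : IX α D.R D.r) := h
      rw [if_pos h, if_pos h']
      rfl
    · have h' : z ∉ hh s (Sum.inr K : IX α D.R D.r) := h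
      rw [if_neg h, if_neg h', zero_div]

theorem bigJ {D : Dat α} (H : Hyp D) {s : St α} (hs : s.OK)
    (hU : Ups (KK D.Fam D.Pr D.R D.r) (ww D.P D.N1 D.N2 s) ≤ 9) {p : α}
    (hp : ∀ z ∈ s.F, drp (KK D.Fam D.Pr D.R D.r) (ww D.P D.N1 D.N2 s) (hh s) z ≤
      drp (KK D.Fam D.Pr D.R D.r) (ww D.P D.N1 D.N2 s) (hh s) p)
    {x y : α} (hx : x ∈ s.F) (hy : y ∈ s.F) (hxy : y ≠ x) :
    (∑ κ ∈ KK D.Fam D.Pr D.R D.r,
      if x ∈ ff D.P s κ ∧ y ∈ hh s κ then ww D.P D.N1 D.N2 s κ else 0) ≤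
      D.P.eta * drp (KK D.Fam D.Pr D.R D.r) (ww D.P D.N1 D.N2 s) (hh s) p := by
  set dp := drp (KK D.Fam D.Pr D.R D.r) (ww D.P D.N1 D.N2 s) (hh s) p with hdp
  have hxz : ∀ z ∈ s.F, drp (XK D.Fam D.R) (xw D.P s) (xhot s) z ≤ D.N1 * dp := by
    intro z hz
    have h1 := hp z hz
    rw [bigJ_drp_split s z] at h1
    have h2 : 0 ≤ drp (PK D.Fam D.Pr D.r) (pw D.P s) (phot s) z / D.N2 := by
      apply div_nonneg _ H.N2pos.le
      apply Finset.sum_nonneg
      intro K _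
      split_ifs
      · exact pw_nonneg H.pok s K
      · exact le_rfl
    have h3 : drp (XK D.Fam D.R) (xw D.P s) (xhot s) z / D.N1 ≤ dp := by linarith
    rw [div_le_iff₀ H.N1pos] at h3
    linarith
  have hXJ := XJ H.pok hs (fun A hA => (H.hn A hA).le) (R := D.R) hx hy hxy
    (m := D.N1 * dp) (sb := D.sb) hxz (fun z hz hne => spair_le H hs hU hx hz hne)
  have hsum : (∑ κ ∈ KK D.Fam D.Pr D.R D.r,
      if x ∈ ff D.P s κ ∧ y ∈ hh s κ then ww D.P D.N1 D.N2 s κ else 0) =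
      (∑ κ ∈ XK D.Fam D.R, if x ∈ xfar D.P s κ ∧ y ∈ xhot s κ then xw D.P s κ else 0) / D.N1 := by
    unfold KK
    rw [Finset.sum_disjSum]
    rw [Finset.sum_div]
    have h0 : (∑ K ∈ PK D.Fam D.Pr D.r,
        if x ∈ ff D.P s (Sum.inr K : IX α D.R D.r) ∧ y ∈ hh s (Sum.inr K : IX α D.R D.r)
          then ww D.P D.N1 D.N2 s (Sum.inr K : IX α D.R D.r) else 0) = 0 := by
      apply Finset.sum_eq_zero
      intro K _
      apply if_neg
      rintro ⟨h1, _⟩
      have h2 : x ∈ (∅ : Finset α) := h1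
      exact absurd h2 (Finset.notMem_empty x)
    rw [h0, add_zero]
    apply Finset.sum_congr rfl
    intro K _
    by_cases h : x ∈ xfar D.P s K ∧ y ∈ xhot s K
    · have h' : x ∈ ff D.P s (Sum.inl K : IX α D.R D.r) ∧ y ∈ hh s (Sum.inl K : IX α D.R D.r) := h
      rw [if_pos h, if_pos h']
      rfl
    · have h' : ¬ (x ∈ ff D.P s (Sum.inl K : IX α D.R D.r) ∧
          y ∈ hh s (Sum.inl K : IX α D.R D.r)) := h
      rw [if_neg h, if_neg h', zero_div]
  rw [hsum, div_le_iff₀ H.N1pos]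
  have hy' := hxz y hy
  have hdp0 : 0 ≤ dp := by
    rw [hdp, bigJ_drp_split s p]
    apply add_nonneg
    · apply div_nonneg _ H.N1pos.le
      apply Finset.sum_nonneg
      intro K _
      split_ifs
      · exact xw_nonneg H.pok s K
      · exact le_rfl
    · apply div_nonneg _ H.N2pos.le
      apply Finset.sum_nonneg
      intro K _
      split_ifs
      · exact pw_nonneg H.pok s K
      · exact le_rfl
  have hc : 0 ≤ (D.R : ℝ) * D.n * D.sb := by
    have := H.sb0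
    positivity
  calc _ ≤ (D.R : ℝ) * D.n * D.sb * (drp (XK D.Fam D.R) (xw D.P s) (xhot s) y + D.N1 * dp) := hXJ
    _ ≤ (D.R : ℝ) * D.n * D.sb * (D.N1 * dp + D.N1 * dp) := by
        apply mul_le_mul_of_nonneg_left _ hc
        linarith
    _ = (2 * (D.R * D.n * D.sb)) * (dp * D.N1) := by ring
    _ ≤ D.P.eta * (dp * D.N1) := by
        apply mul_le_mul_of_nonneg_right H.sb1
        exact mul_nonneg hdp0 H.N1pos.le
    _ = D.P.eta * dp * D.N1 := by ring

end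

end

end Pool.Agent.Rect22
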