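import Pool.Agent.Rect22.States

/-!
Many crossing emergency sets give a heavy cluster.
-/

set_option autoImplicit false
set_option linter.unusedVariables false
set_option linter.unusedSectionVars false

namespace Pool.Agent.Rect22

open Finset 

section
section
variable {α : Type*} [DecidableEq α]

/-- TARGET 1: greedy choice of almost disjoint sets -/
theorem greedy_sel {Fam : Finset (Finset α)} {R t C1 : ℕ}
    (hover : ∀ B ∈ Fam, (Fam.filter (fun A => t ≤ (A ∩ B).card)).card ≤ C1)
    {E : Finset α} (hE : E ∈ Fam) {Cr : Finset (Finset α)} (hCr : Cr ⊆ Fam)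
    (hbig : R * C1 < Cr.card) :
    ∃ g : Fin R → Finset α, (∀ i, g i ∈ Cr) ∧ (∀ i, (g i ∩ E).card < t) ∧
      ∀ i j, j < i → (g i ∩ g j).card < t := by
  have key : ∀ k ≤ R, ∃ g : ℕ → Finset α, (∀ i < k, g i ∈ Cr) ∧ (∀ i < k, (g i ∩ E).card < t) ∧
      ∀ i < k, ∀ j < i, (g i ∩ g j).card < t := by
    intro k
    induction k with
    | zero =>
      intro _
      exact ⟨fun _ => ∅, fun i hi => absurd hi (Nat.not_lt_zero i),
        fun i hi => absurd hi (Nat.not_lt_zero i), fun i hi => absurd hi (Nat.not_lt_zero i)⟩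
    | succ k ih =>
      intro hk
      obtain ⟨g, h1, h2, h3⟩ := ih (by omega)
      set Bad : Finset (Finset α) := Fam.filter (fun A => t ≤ (A ∩ E).card) ∪
        (Finset.range k).biUnion (fun j => Fam.filter (fun A => t ≤ (A ∩ g j).card)) with hBad
      have hc : Bad.card < Cr.card := by
        have e1 : Bad.card ≤ C1 + k * C1 := by
          refine (Finset.card_union_le _ _).trans ?_
          apply Nat.add_le_add (hover E hE)
          have e2 := Finset.card_biUnion_le_card_mul (Finset.range k)
            (fun j => Fam.filter (fun A => t ≤ (A ∩ g j).card)) C1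
            (fun j hj => hover (g j) (hCr (h1 j (Finset.mem_range.1 hj))))
          rwa [Finset.card_range] at e2
        have e3 : (k + 1) * C1 ≤ R * C1 := Nat.mul_le_mul_right _ hk
        have e4 : (k + 1) * C1 = C1 + k * C1 := by ring
        omega
      obtain ⟨A, hA, hAB⟩ := Finset.exists_mem_notMem_of_card_lt_card hc
      have hAF := hCr hA
      have hAE : (A ∩ E).card < t := by
        by_contra hcon
        push Not at hcon
        exact hAB (Finset.mem_union_left _ (Finset.mem_filter.2 ⟨hAF, hcon⟩))
      have hAg : ∀ j < k, (A ∩ g j).card < t := by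
        intro j hj
        by_contra hcon
        push Not at hcon
        exact hAB (Finset.mem_union_right _ (Finset.mem_biUnion.2
          ⟨j, Finset.mem_range.2 hj, Finset.mem_filter.2 ⟨hAF, hcon⟩⟩))
      refine ⟨Function.update g k A, ?_, ?_, ?_⟩
      · intro i hi
        by_cases hik : i = k
        · rw [hik, Function.update_self]
          exact hA
        · rw [Function.update_of_ne hik]
          exact h1 i (by omega)
      · intro i hi
        by_cases hik : i = k
        · rw [hik, Function.update_self]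
          exact hAE
        · rw [Function.update_of_ne hik]
          exact h2 i (by omega)
      · intro i hi j hj
        have hjk : j ≠ k := by omega
        rw [Function.update_of_ne hjk]
        by_cases hik : i = k
        · rw [hik, Function.update_self]
          exact hAg j (by omega)
        · rw [Function.update_of_ne hik]
          exact h3 i (by omega) j hj
  obtain ⟨g, h1, h2, h3⟩ := key R le_rfl
  exact ⟨fun i => g i, fun i => h1 i i.2, fun i => h2 i i.2, fun i j hij => h3 i i.2 j hij⟩

/-- the parts of the cluster in `cross` -/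
def crossD {R : ℕ} (E : Finset α) (g : Fin R → Finset α) (mu : Finset α → Finset α) (i : Fin R) :
    Finset α := (g i ∩ mu (g i)) \ (E ∪ (Finset.Iio i).biUnion g)

theorem cross_card {R t k1 : ℕ} {E : Finset α} {g : Fin R → Finset α}
    {mu : Finset α → Finset α} (hmu : ∀ i, (g i \ mu (g i)).card ≤ k1)
    (hE : ∀ i, (g i ∩ E).card < t) (hg : ∀ i j, j < i → (g i ∩ g j).card < t) (i : Fin R) :
    (g i \ crossD E g mu i).card ≤ k1 + R * t := by
  have hsub : g i \ crossD E g mu i ⊆ (g i \ mu (g i)) ∪
      ((g i ∩ E) ∪ (Finset.Iio i).biUnion (fun j => g i ∩ g j)) := by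
    intro x hx
    rw [Finset.mem_sdiff] at hx
    obtain ⟨h1, h2⟩ := hx
    unfold crossD at h2
    simp only [Finset.mem_union, Finset.mem_sdiff, Finset.mem_inter, Finset.mem_biUnion,
      Finset.mem_Iio] at h2 ⊢
    by_cases h3 : x ∈ mu (g i)
    · right
      by_cases h4 : x ∈ E
      · exact Or.inl ⟨h1, h4⟩
      · right
        by_contra h5
        apply h2
        refine ⟨⟨h1, h3⟩, ?_⟩
        rintro (h6 | ⟨j, hj, hxj⟩)
        · exact h4 h6
        · exact h5 ⟨j, hj, h1, hxj⟩
    · exact Or.inl ⟨h1, h3⟩
  have h1 := Finset.card_le_card hsub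
  have h2 := Finset.card_union_le (g i \ mu (g i))
    ((g i ∩ E) ∪ (Finset.Iio i).biUnion (fun j => g i ∩ g j))
  have h3 := Finset.card_union_le (g i ∩ E) ((Finset.Iio i).biUnion (fun j => g i ∩ g j))
  have h4 := Finset.card_biUnion_le_card_mul (Finset.Iio i) (fun j => g i ∩ g j) t
    (fun j hj => (hg i j (Finset.mem_Iio.1 hj)).le)
  rw [Fin.card_Iio] at h4
  have h5 := hmu i
  have h6 := hE i
  have h7 : ((i : ℕ) + 1) * t ≤ R * t := Nat.mul_le_mul_right _ i.2
  have h8 : ((i : ℕ) + 1) * t = (i : ℕ) * t + t := by ring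
  omega

theorem cross_uu (P : Pm) : uu P 0 = 1 := by
  unfold uu
  simp

/-- TARGET 2: many crossing sets give a heavy cluster -/
theorem cross {P : Pm} (hP : P.OK) (s : St α) {Fam : Finset (Finset α)} {R t C1 k1 : ℕ}
    (hover : ∀ B ∈ Fam, (Fam.filter (fun A => t ≤ (A ∩ B).card)).card ≤ C1)
    {E : Finset α} (hE : E ∈ Fam) (hEB : Disjoint E s.B)
    {Cr : Finset (Finset α)} (hCr : Cr ⊆ Fam) (z : Finset α → α)
    (hz : ∀ A ∈ Cr, z A ∈ A ∧ z A ∈ E ∧ (A \ s.mu (z A)).card ≤ k1)
    (hbig : R * C1 < Cr.card) :
    (P.sig * P.zet ^ (k1 + R * t)) ^ R ≤ Ups (XK Fam R) (xw P s) := by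
  obtain ⟨g, g1, g2, g3⟩ := greedy_sel hover hE hCr hbig
  set mu : Finset α → Finset α := fun A => s.mu (z A) with hmu
  set K : Clus α R := (E, fun i => some (z (g i), g i, crossD E g mu i)) with hK
  have hcomp : Comp Fam K := by
    refine ⟨hE, ?_, ?_⟩
    · intro i a ha
      have ha' : (z (g i), g i, crossD E g mu i) = a := Option.some.inj ha
      subst ha'
      obtain ⟨e1, e2, e3⟩ := hz (g i) (g1 i)
      refine ⟨hCr (g1 i), e1, ?_, e2, ?_⟩
      · exact Finset.sdiff_subset.trans Finset.inter_subset_left
      · rw [Finset.disjoint_left]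
        intro x hx hxE
        exact (Finset.mem_sdiff.1 hx).2 (Finset.mem_union_left _ hxE)
    · have hlt : ∀ i j : Fin R, j < i → Disjoint (crossD E g mu i) (crossD E g mu j) := by
        intro i j hij
        rw [Finset.disjoint_left]
        intro x hx hxj
        apply (Finset.mem_sdiff.1 hx).2
        apply Finset.mem_union_right
        exact Finset.mem_biUnion.2 ⟨j, Finset.mem_Iio.2 hij,
          (Finset.mem_inter.1 (Finset.mem_sdiff.1 hxj).1).1⟩
      intro i j hij a b ha hb
      have ha' : (z (g i), g i, crossD E g mu i) = a := Option.some.inj ha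
      have hb' : (z (g j), g j, crossD E g mu j) = b := Option.some.inj hb
      subst ha' hb'
      rcases lt_or_gt_of_ne hij with h | h
      · exact (hlt j i h).symm
      · exact hlt i j h
  have hval : ∀ i, P.sig * P.zet ^ (k1 + R * t) ≤ oval P s (K.2 i) := by
    intro i
    show _ ≤ aval P s (z (g i), g i, crossD E g mu i)
    unfold aval
    have hsubmu : crossD E g mu i ⊆ s.mu (z (g i)) :=
      Finset.sdiff_subset.trans Finset.inter_subset_right
    have hsub : crossD E g mu i ⊆ liv s (z (g i)) := by
      unfold liv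
      exact hsubmu.trans Finset.subset_union_right
    show _ ≤ P.sig * P.zet ^ (g i \ crossD E g mu i).card *
      (if crossD E g mu i ⊆ liv s (z (g i)) then
        uu P (crossD E g mu i \ s.mu (z (g i))).card else 0)
    rw [if_pos hsub, Finset.sdiff_eq_empty_iff_subset.2 hsubmu, Finset.card_empty, cross_uu,
      mul_one]
    apply mul_le_mul_of_nonneg_left _ (by linarith [hP.sig1])
    apply pow_le_pow_of_le_one hP.zet0.le hP.zet1
    exact cross_card (mu := mu) (fun i => (hz (g i) (g1 i)).2.2) g2 g3 i
  have h0 : 0 ≤ P.sig * P.zet ^ (k1 + R * t) :=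
    mul_nonneg (by linarith [hP.sig1]) (pow_nonneg hP.zet0.le _)
  have hxw : (P.sig * P.zet ^ (k1 + R * t)) ^ R ≤ xw P s K := by
    unfold xw
    rw [if_pos hEB, one_mul]
    calc (P.sig * P.zet ^ (k1 + R * t)) ^ R = ∏ _i : Fin R, P.sig * P.zet ^ (k1 + R * t) := by
          rw [Finset.prod_const, Finset.card_univ, Fintype.card_fin]
      _ ≤ ∏ i, oval P s (K.2 i) := Finset.prod_le_prod (fun _ _ => h0) (fun i _ => hval i)
  refine hxw.trans ?_
  unfold Ups
  exact Finset.single_le_sum (f := xw P s) (fun K _ => xw_nonneg hP s K) (mem_XK.2 hcomp)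

end

end

end Pool.Agent.Rect22
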