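import Pool.Agent.Rect22.Engine

/-!
The small games.
-/

set_option autoImplicit false
set_option linter.unusedVariables false
set_option linter.unusedSectionVars false

namespace Pool.Agent.Rect22

open Finset 

section
section
variable {α : Type*} [DecidableEq α]

theorem small_ss (T M B : Finset α) : T \ (M ∪ B) = (T \ M) \ B := by
  ext x
  simp only [Finset.mem_sdiff, Finset.mem_union]
  tauto

theorem small_bd_ups {ι : Type*} {K : Finset ι} {w : ι → ℝ} {hot : ι → Finset α} {F : Finset α}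
    {c : ℝ} (h : Bd K w hot F c) : Ups K w ≤ c := by
  have := h ∅ (Finset.empty_subset _) (by simp)
  simpa using this

theorem small_bd_congr {ι : Type*} {K : Finset ι} {w w' : ι → ℝ} {hot hot' : ι → Finset α}
    {F : Finset α} {c : ℝ} (hw : ∀ k ∈ K, w' k = w k) (hh : ∀ k ∈ K, hot' k = hot k)
    (h : Bd K w hot F c) : Bd K w' hot' F c := by
  intro Y hY hY2
  have h1 := h Y hY hY2
  have h2 : Ups K w' = Ups K w := Finset.sum_congr rfl hw
  have h3 : ∀ y, drp K w' hot' y = drp K w hot y := by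
    intro y
    refine Finset.sum_congr rfl fun k hk => ?_
    rw [hw k hk, hh k hk]
  rw [h2, Finset.sum_congr rfl (fun y _ => h3 y)]
  exact h1

theorem small_tr_sub {Fam : Finset (Finset α)} {s0 : ℕ} {S T : Finset α} (h : T ∈ Tr Fam s0 S) :
    T ⊆ S := by
  unfold Tr at h
  rw [Finset.mem_filter, Finset.mem_image] at h
  obtain ⟨⟨E, _, rfl⟩, _⟩ := h
  exact Finset.inter_subset_right

theorem small_sw_nonneg (M B T : Finset α) : 0 ≤ sw M B T := by
  unfold sw
  split_ifs <;> positivity

theorem small_sdiff {S T M m : Finset α} (hT : T ⊆ S) : T \ (M ∪ m) = (T \ M) \ (m ∩ S) := by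
  ext x
  simp only [Finset.mem_sdiff, Finset.mem_union, Finset.mem_inter]
  constructor
  · rintro ⟨h1, h2⟩
    exact ⟨⟨h1, fun h => h2 (Or.inl h)⟩, fun h => h2 (Or.inr h.1)⟩
  · rintro ⟨⟨h1, h2⟩, h3⟩
    refine ⟨h1, ?_⟩
    rintro (h | h)
    · exact h2 h
    · exact h3 ⟨h, hT h1⟩

theorem small_pow_erase (X : Finset α) (x : α) :
    (2 / 3 : ℝ) ^ (X \ {x}).card = (if x ∈ X then 3 / 2 else 1) * (2 / 3 : ℝ) ^ X.card := by
  rw [Finset.sdiff_singleton_eq_erase]
  by_cases h : x ∈ X
  · rw [if_pos h]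
    have h1 := Finset.card_erase_add_one h
    rw [← h1, pow_succ]
    ring
  · rw [if_neg h, Finset.erase_eq_of_notMem h, one_mul]

/-- TARGET 1: Maker's move in a small game (use `maker1`, `maker2` with `η = 0`, `far = ∅`) -/
theorem small_maker {Fam : Finset (Finset α)} {s0 : ℕ} {S M B m : Finset α} {c : ℝ}
    (hMB : Disjoint M B)
    (hm : Disjoint m (M ∪ B)) (hm2 : (m ∩ S).card ≤ 2)
    (h : Bd (Tr Fam s0 S) (sw M B) (shot M B) (S \ (M ∪ B)) c) :
    Ready (m ∩ S).card (Tr Fam s0 S) (sw (M ∪ m) B) (shot (M ∪ m) B) (S \ (M ∪ m ∪ B)) c := by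
  have hT : ∀ T ∈ Tr Fam s0 S, T \ (M ∪ m) = (T \ M) \ (m ∩ S) :=
    fun T hT => small_sdiff (small_tr_sub hT)
  have hxm : ∀ x ∈ m ∩ S, x ∈ S \ (M ∪ B) := by
    intro x hx
    rw [Finset.mem_inter] at hx
    rw [Finset.mem_sdiff]
    exact ⟨hx.2, Finset.disjoint_left.1 hm hx.1⟩
  have hk : (m ∩ S).card = 0 ∨ (m ∩ S).card = 1 ∨ (m ∩ S).card = 2 := by omega
  rcases hk with hk | hk | hk
  · have hemp : m ∩ S = ∅ := Finset.card_eq_zero.1 hk
    have e1 : S \ (M ∪ m ∪ B) = S \ (M ∪ B) := by
      ext x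
      simp only [Finset.mem_sdiff, Finset.mem_union]
      constructor
      · rintro ⟨h1, h2⟩
        refine ⟨h1, ?_⟩
        rintro (h3 | h3)
        · exact h2 (Or.inl (Or.inl h3))
        · exact h2 (Or.inr h3)
      · rintro ⟨h1, h2⟩
        refine ⟨h1, ?_⟩
        rintro ((h3 | h3) | h3)
        · exact h2 (Or.inl h3)
        · have : x ∈ m ∩ S := Finset.mem_inter.2 ⟨h3, h1⟩
          rw [hemp] at this
          exact absurd this (Finset.notMem_empty x)
        · exact h2 (Or.inr h3)
    have hB : Bd (Tr Fam s0 S) (sw (M ∪ m) B) (shot (M ∪ m) B) (S \ (M ∪ m ∪ B)) c := by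
      rw [e1]
      refine small_bd_congr ?_ ?_ h
      · intro T hT'
        unfold sw
        rw [hT T hT', hemp, Finset.sdiff_empty]
      · intro T hT'
        unfold shot
        have h2 : T \ (M ∪ m) = T \ M := by rw [hT T hT', hemp, Finset.sdiff_empty]
        rw [small_ss T (M ∪ m) B, small_ss T M B, h2]
    rw [hk]
    exact ⟨fun _ => hB, fun h0 => absurd h0 (by norm_num), small_bd_ups hB⟩
  · obtain ⟨x, hx⟩ := Finset.card_eq_one.1 hk
    have hxF : x ∈ S \ (M ∪ B) := hxm x (by rw [hx]; exact Finset.mem_singleton_self x)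
    have hxm' : x ∈ m := by
      have : x ∈ m ∩ S := by rw [hx]; exact Finset.mem_singleton_self x
      exact (Finset.mem_inter.1 this).1
    obtain ⟨p, hp, hmax⟩ := Finset.exists_max_image (S \ (M ∪ B))
      (drp (Tr Fam s0 S) (sw M B) (shot M B)) ⟨x, hxF⟩
    rw [hk]
    refine maker1 (η := 0) (far := fun _ => ∅) le_rfl (by norm_num)
      (fun T _ => small_sw_nonneg M B T) h x hxF p hp hmax ?_ ?_ ?_ ?_ ?_
    · intro y _ _
      simp
    · intro T _
      exact Finset.empty_subset _
    · intro T hT'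
      refine ⟨small_sw_nonneg _ _ _, ?_⟩
      unfold sw fac shot
      rw [hT T hT', hx]
      by_cases hd : Disjoint T B
      · rw [if_pos hd, if_pos hd, small_pow_erase]
        simp only [Finset.notMem_empty, if_false, sub_zero]
        rw [Finset.mem_sdiff] at hxF
        have hiff : x ∈ T \ M ↔ x ∈ T \ (M ∪ B) := by
          rw [Finset.mem_sdiff, Finset.mem_sdiff]
          constructor
          · rintro ⟨h1, _⟩
            exact ⟨h1, hxF.2⟩
          · rintro ⟨h1, h2⟩
            exact ⟨h1, fun h3 => h2 (Finset.mem_union_left _ h3)⟩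
        simp only [hiff, le_refl]
      · rw [if_neg hd, if_neg hd, mul_zero]
    · intro T _
      unfold shot
      exact Finset.sdiff_subset_sdiff (Finset.Subset.refl _)
        (Finset.union_subset_union Finset.subset_union_left (Finset.Subset.refl _))
    · intro y hy
      rw [Finset.mem_sdiff] at hy
      rw [Finset.mem_erase, Finset.mem_sdiff]
      refine ⟨?_, hy.1, ?_⟩
      · rintro rfl
        exact hy.2 (Finset.mem_union_left _ (Finset.mem_union_right _ hxm'))
      · intro h1
        apply hy.2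
        rw [Finset.mem_union] at h1
        rcases h1 with h1 | h1
        · exact Finset.mem_union_left _ (Finset.mem_union_left _ h1)
        · exact Finset.mem_union_right _ h1
  · obtain ⟨x1, x2, hne, hx⟩ := Finset.card_eq_two.1 hk
    have hx1F : x1 ∈ S \ (M ∪ B) := hxm x1 (by rw [hx]; simp)
    have hx2F : x2 ∈ S \ (M ∪ B) := hxm x2 (by rw [hx]; simp)
    obtain ⟨p, hp, hmax⟩ := Finset.exists_max_image (S \ (M ∪ B))
      (drp (Tr Fam s0 S) (sw M B) (shot M B)) ⟨x1, hx1F⟩
    rw [hk]
    refine maker2 (η := 0) (far := fun _ => ∅) le_rfl (by norm_num)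
      (fun T _ => small_sw_nonneg M B T) h x1 x2 hx1F hx2F hne p hp hmax ?_ ?_ ?_
    · simp
    · intro T _
      exact Finset.empty_subset _
    · intro T hT'
      refine ⟨small_sw_nonneg _ _ _, ?_⟩
      unfold sw fac shot
      have hins : ({x1, x2} : Finset α) = {x2} ∪ {x1} := by
        rw [Finset.union_comm]; rfl
      rw [hT T hT', hx, hins, small_ss (T \ M) {x2} {x1}]
      by_cases hd : Disjoint T B
      · rw [if_pos hd, if_pos hd, small_pow_erase, small_pow_erase]
        simp only [Finset.notMem_empty, if_false, sub_zero]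
        rw [Finset.mem_sdiff] at hx1F hx2F
        have hiff1 : x1 ∈ (T \ M) \ {x2} ↔ x1 ∈ T \ (M ∪ B) := by
          rw [Finset.mem_sdiff, Finset.mem_sdiff, Finset.mem_sdiff, Finset.mem_singleton]
          constructor
          · rintro ⟨⟨h1, _⟩, _⟩
            exact ⟨h1, hx1F.2⟩
          · rintro ⟨h1, h2⟩
            exact ⟨⟨h1, fun h3 => h2 (Finset.mem_union_left _ h3)⟩, hne⟩
        have hiff2 : x2 ∈ T \ M ↔ x2 ∈ T \ (M ∪ B) := by
          rw [Finset.mem_sdiff, Finset.mem_sdiff]
          constructor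
          · rintro ⟨h1, _⟩
            exact ⟨h1, hx2F.2⟩
          · rintro ⟨h1, h2⟩
            exact ⟨h1, fun h3 => h2 (Finset.mem_union_left _ h3)⟩
        simp only [hiff1, hiff2]
        rw [mul_assoc]
      · rw [if_neg hd, if_neg hd, mul_zero]

/-- TARGET 2: Breaker's reply in a small game -/
theorem small_reply {Fam : Finset (Finset α)} {s0 k : ℕ} (hk : k ≤ 2) {S M B : Finset α} {c : ℝ}
    (hMB : Disjoint M B)
    (h : Ready k (Tr Fam s0 S) (sw M B) (shot M B) (S \ (M ∪ B)) c) :
    ∃ Y : Finset α, Y ⊆ S \ (M ∪ B) ∧ Y.card = min k (S \ (M ∪ B)).card ∧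
      ∀ b : Finset α, Y ⊆ b → Disjoint b (M ∪ B) →
        Bd (Tr Fam s0 S) (sw M (B ∪ b)) (shot M (B ∪ b)) (S \ (M ∪ (B ∪ b))) c := by
  obtain ⟨Y, hY, hYc, hmain⟩ := reply hk (fun T _ => small_sw_nonneg M B T) h
  refine ⟨Y, hY, hYc, fun b hYb hb => ?_⟩
  refine hmain _ _ _ ?_ ?_ ?_ ?_
  · intro T _
    refine ⟨small_sw_nonneg _ _ _, ?_⟩
    unfold sw
    by_cases hd : Disjoint T (B ∪ b)
    · rw [if_pos hd, if_pos (Finset.disjoint_of_subset_right Finset.subset_union_left hd)]
    · rw [if_neg hd]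
      split_ifs <;> positivity
  · intro T _
    unfold shot
    exact Finset.sdiff_subset_sdiff (Finset.Subset.refl _)
      (Finset.union_subset_union (Finset.Subset.refl _) Finset.subset_union_left)
  · intro x hx
    rw [Finset.mem_sdiff] at hx
    rw [Finset.mem_sdiff, Finset.mem_sdiff]
    refine ⟨⟨hx.1, ?_⟩, ?_⟩
    · intro h1
      apply hx.2
      rw [Finset.mem_union] at h1
      rcases h1 with h1 | h1
      · exact Finset.mem_union_left _ h1
      · exact Finset.mem_union_right _ (Finset.mem_union_left _ h1)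
    · intro h1
      exact hx.2 (Finset.mem_union_right _ (Finset.mem_union_right _ (hYb h1)))
  · intro T _ hd
    rw [Finset.not_disjoint_iff] at hd
    obtain ⟨y, hyY, hyT⟩ := hd
    unfold shot at hyT
    rw [Finset.mem_sdiff] at hyT
    unfold sw
    rw [if_neg]
    intro hd2
    exact Finset.disjoint_left.1 hd2 hyT.1 (Finset.mem_union_right _ (hYb hyY))

/-- TARGET 3: a new small game -/
theorem small_new {Fam : Finset (Finset α)} {s0 Q : ℕ} {A S M B : Finset α}
    (hSA : S ⊆ A) (hQ : (Fam.image (fun E => E ∩ A)).card ≤ Q) (hSM : Disjoint S (M ∪ B)) :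
    Bd (Tr Fam s0 S) (sw M B) (shot M B) (S \ (M ∪ B)) (3 * (Q * (2 / 3 : ℝ) ^ s0)) := by
  have hsw : ∀ T ∈ Tr Fam s0 S, sw M B T ≤ (2 / 3 : ℝ) ^ s0 := by
    intro T hT
    have hTS := small_tr_sub hT
    have hc : s0 ≤ T.card := by
      unfold Tr at hT
      exact (Finset.mem_filter.1 hT).2
    unfold sw
    split_ifs with hd
    · have h1 : T \ M = T := by
        rw [Finset.sdiff_eq_self_iff_disjoint]
        exact Finset.disjoint_of_subset_right Finset.subset_union_left
          (Finset.disjoint_of_subset_left hTS hSM)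
      rw [h1]
      exact pow_le_pow_of_le_one (by norm_num) (by norm_num) hc
    · positivity
  have hcard : (Tr Fam s0 S).card ≤ Q := by
    refine (Finset.card_filter_le _ _).trans ?_
    have h1 : Fam.image (fun E => E ∩ S) = (Fam.image (fun E => E ∩ A)).image (fun E => E ∩ S) := by
      rw [Finset.image_image]
      refine Finset.image_congr ?_
      intro E _
      simp only [Function.comp_apply]
      rw [Finset.inter_assoc, Finset.inter_eq_right.2 hSA]
    rw [h1]
    exact Finset.card_image_le.trans hQ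
  have hU : Ups (Tr Fam s0 S) (sw M B) ≤ Q * (2 / 3 : ℝ) ^ s0 := by
    unfold Ups
    refine (Finset.sum_le_card_nsmul _ _ _ hsw).trans ?_
    rw [nsmul_eq_mul]
    exact mul_le_mul_of_nonneg_right (by exact_mod_cast hcard) (by positivity)
  have hD : ∀ y, drp (Tr Fam s0 S) (sw M B) (shot M B) y ≤ Ups (Tr Fam s0 S) (sw M B) := by
    intro y
    unfold drp Ups
    refine Finset.sum_le_sum fun T _ => ?_
    split_ifs
    · exact le_rfl
    · exact small_sw_nonneg _ _ _
  have hU0 : 0 ≤ Ups (Tr Fam s0 S) (sw M B) :=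
    Finset.sum_nonneg fun T _ => small_sw_nonneg _ _ _
  intro Y _ hY2
  have h1 : ∑ y ∈ Y, drp (Tr Fam s0 S) (sw M B) (shot M B) y ≤
      Y.card • Ups (Tr Fam s0 S) (sw M B) := Finset.sum_le_card_nsmul _ _ _ (fun y _ => hD y)
  rw [nsmul_eq_mul] at h1
  have h2 : (Y.card : ℝ) ≤ 2 := by exact_mod_cast hY2
  nlinarith [mul_le_mul_of_nonneg_right h2 hU0]

/-- TARGET 4: Maker does not own a winning set of the small game -/
theorem small_end {Fam : Finset (Finset α)} {s0 : ℕ} {S M B : Finset α} {c : ℝ} (hc : c < 1)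
    (hMB : Disjoint M B)
    (h : Bd (Tr Fam s0 S) (sw M B) (shot M B) (S \ (M ∪ B)) c) {E : Finset α} (hE : E ∈ Fam)
    (hs : s0 ≤ (E ∩ S).card) : ¬ E ⊆ M := by
  intro hEM
  have h1 := small_bd_ups h
  have hT : E ∩ S ∈ Tr Fam s0 S := by
    unfold Tr
    rw [Finset.mem_filter, Finset.mem_image]
    exact ⟨⟨E, hE, rfl⟩, hs⟩
  have h2 : sw M B (E ∩ S) = 1 := by
    have hsub : E ∩ S ⊆ M := Finset.inter_subset_left.trans hEM
    unfold sw
    rw [if_pos (Finset.disjoint_of_subset_left hsub hMB), Finset.sdiff_eq_empty_iff_subset.2 hsub,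
      Finset.card_empty, pow_zero]
  have h3 : sw M B (E ∩ S) ≤ Ups (Tr Fam s0 S) (sw M B) :=
    Finset.single_le_sum (f := sw M B) (fun T _ => small_sw_nonneg _ _ _) hT
  linarith

end

end

end Pool.Agent.Rect22
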