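import Pool.Agent.Rect22.Comb
import Pool.Agent.Rect22.Engine
import Pool.Agent.Rect22.Cross
import Pool.Agent.Rect22.Small

/-!
Declaring emergency sets.
-/

set_option autoImplicit false
set_option linter.unusedVariables false
set_option linter.unusedSectionVars false

namespace Pool.Agent.Rect22

open Finset 

section
section
variable {α : Type*} [DecidableEq α]

/-- an unsafe set loses few points to the small boards -/
theorem lost_le {D : Dat α} (H : Hyp D) {m M B : Finset α} {s : St α}
    {Dec : Finset (Finset α)} {S : Finset α → Finset α} (h : Sys D m M B s Dec S)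
    {E : Finset α} (hE : Watch D B Dec S E) :
    (E ∩ Dec.biUnion S).card ≤ D.L := by
  classical
  obtain ⟨hE1, hE2, hE3, hE4⟩ := hE
  have hsub : E ∩ Dec.biUnion S ⊆
      (Dec.filter (fun A => (E ∩ S A).Nonempty)).biUnion (fun A => E ∩ S A) := by
    intro x hx
    obtain ⟨hx1, hx2⟩ := Finset.mem_inter.mp hx
    obtain ⟨A, hA, hxA⟩ := Finset.mem_biUnion.mp hx2
    have hx3 : x ∈ E ∩ S A := Finset.mem_inter.mpr ⟨hx1, hxA⟩
    exact Finset.mem_biUnion.mpr ⟨A, Finset.mem_filter.mpr ⟨hA, ⟨x, hx3⟩⟩, hx3⟩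
  have hcard : (Dec.filter (fun A => (E ∩ S A).Nonempty)).card ≤ D.R * D.C1 := by
    by_contra hcon
    push Not at hcon
    have hz : ∀ A : Finset α, ∃ z : α, A ∈ Dec.filter (fun A => (E ∩ S A).Nonempty) →
        z ∈ E ∩ S A := by
      intro A
      by_cases hA : A ∈ Dec.filter (fun A => (E ∩ S A).Nonempty)
      · obtain ⟨z, hz⟩ := (Finset.mem_filter.mp hA).2
        exact ⟨z, fun _ => hz⟩
      · obtain ⟨A0, hA0⟩ : (Dec.filter (fun A => (E ∩ S A).Nonempty)).Nonempty := by
          rw [← Finset.card_pos]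
          omega
        obtain ⟨z, hz⟩ := (Finset.mem_filter.mp hA0).2
        exact ⟨z, fun h => absurd h hA⟩
    choose z hz using hz
    have h1 := cross H.pok s H.hover hE1 (Disjoint.mono_right h.sB hE3)
      (Cr := Dec.filter (fun A => (E ∩ S A).Nonempty)) (k1 := D.k1)
      ((Finset.filter_subset _ _).trans h.dec) z (by
        intro A hA
        have h2 := Finset.mem_inter.mp (hz A hA)
        have h3 := (Finset.mem_filter.mp hA).1
        exact ⟨h.Ssub A h3 h2.2, h2.1, h.Smu A h3 _ h2.2⟩) hcon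
    have h4 := xups_le H s h.big.2.2
    have h5 := H.heavy
    linarith
  calc (E ∩ Dec.biUnion S).card
      ≤ ((Dec.filter (fun A => (E ∩ S A).Nonempty)).biUnion (fun A => E ∩ S A)).card :=
        Finset.card_le_card hsub
    _ ≤ (Dec.filter (fun A => (E ∩ S A).Nonempty)).card * D.s0 := by
        apply Finset.card_biUnion_le_card_mul
        intro A hA
        exact (hE4 A (Finset.mem_filter.mp hA).1).le
    _ ≤ D.R * D.C1 * D.s0 := Nat.mul_le_mul_right _ hcard

/-- one new set is declared -/
theorem declare {D : Dat α} (H : Hyp D) {m M B : Finset α} {s : St α}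
    {Dec : Finset (Finset α)} {S : Finset α → Finset α} (h : Sys D m M B s Dec S)
    {E : Finset α} (hE : Watch D B Dec S E) (h1 : (E ∩ s.F).card ≤ D.k0)
    (h2 : D.k0 ≤ (E \ s.M).card + 1) :
    Sys D m M B (s.rm (s.F \ E) s.B) (insert E Dec)
      (fun A => if A = E then E ∩ s.F else S A) := by
  classical
  have hlost := lost_le H h hE
  obtain ⟨hE1, hE2, hE3, hE4⟩ := hE
  have hEsub : E \ s.M ⊆ (E ∩ s.F) ∪ (E ∩ Dec.biUnion S) := by
    intro x hx
    obtain ⟨hx1, hx2⟩ := Finset.mem_sdiff.mp hx
    rcases h.cov x (H.hV E hE1 hx1) with hc | hc | hc | ⟨A, hA, hc⟩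
    · exact Finset.mem_union_left _ (Finset.mem_inter.mpr ⟨hx1, hc⟩)
    · exact absurd hc hx2
    · exact absurd (h.sB hc) (Finset.disjoint_left.mp hE3 hx1)
    · exact Finset.mem_union_right _ (Finset.mem_inter.mpr ⟨hx1,
        Finset.mem_biUnion.mpr ⟨A, hA, hc⟩⟩)
  have hEcard : (E \ s.M).card ≤ (E ∩ s.F).card + D.L :=
    (Finset.card_le_card hEsub).trans ((Finset.card_union_le _ _).trans
      (Nat.add_le_add_left hlost _))
  have hne : ∀ A ∈ Dec, A ≠ E := fun A hA hAE => hE2 (hAE ▸ hA)
  have hSE : (fun A => if A = E then E ∩ s.F else S A) E = E ∩ s.F := if_pos rfl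
  have hSD : ∀ A ∈ Dec, (fun A => if A = E then E ∩ s.F else S A) A = S A :=
    fun A hA => if_neg (hne A hA)
  obtain ⟨S', hS'⟩ : ∃ S' : Finset α → Finset α,
    S' = (fun A => if A = E then E ∩ s.F else S A) := ⟨_, rfl⟩
  rw [← hS'] at hSE hSD ⊢
  have hFE : ∀ x ∈ E ∩ s.F, x ∉ M ∪ B := fun x hx =>
    (Finset.mem_sdiff.mp (h.Fsub (Finset.mem_inter.mp hx).2)).2
  have hdisE : Disjoint (E ∩ s.F) (M ∪ B) := Finset.disjoint_left.mpr hFE
  constructor
  · -- sok
    refine ⟨?_, ?_, ?_⟩
    · exact Disjoint.mono_left Finset.sdiff_subset h.sok.fm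
    · exact Disjoint.mono_left Finset.sdiff_subset h.sok.fb
    · intro z hz
      exact h.sok.mu z (Finset.mem_sdiff.mp hz).1
  · exact h.MB
  · exact h.hm
  · exact h.mcard
  · exact Finset.sdiff_subset.trans h.Fsub
  · exact h.sM
  · exact h.sB
  · exact Finset.insert_subset hE1 h.dec
  · -- Ssub
    intro A hA
    rcases Finset.mem_insert.mp hA with rfl | hA
    · rw [hSE]
      exact Finset.inter_subset_left
    · rw [hSD A hA]
      exact h.Ssub A hA
  · -- Sdis
    intro A hA
    rcases Finset.mem_insert.mp hA with rfl | hA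
    · rw [hSE]
      rw [Finset.disjoint_left]
      intro x hx hx2
      obtain ⟨hx3, hx4⟩ := Finset.mem_inter.mp hx
      rcases Finset.mem_union.mp hx2 with hx5 | hx5
      · rcases Finset.mem_union.mp hx5 with hx6 | hx6
        · exact (Finset.mem_sdiff.mp hx6).2 hx3
        · exact Finset.disjoint_left.mp h.sok.fm hx4 hx6
      · exact Finset.disjoint_left.mp h.sok.fb hx4 hx5
    · rw [hSD A hA]
      refine Disjoint.mono_right ?_ (h.Sdis A hA)
      exact Finset.union_subset_union (Finset.union_subset_union Finset.sdiff_subset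
        (Finset.Subset.refl _)) (Finset.Subset.refl _)
  · -- Spair
    have hkey : ∀ A ∈ Dec, Disjoint (E ∩ s.F) (S A) := by
      intro A hA
      rw [Finset.disjoint_left]
      intro x hx hxA
      exact Finset.disjoint_left.mp (h.Sdis A hA) hxA
        (Finset.mem_union_left _ (Finset.mem_union_left _ (Finset.mem_inter.mp hx).2))
    intro A hA A' hA' hAA
    rcases Finset.mem_insert.mp hA with hAE | hA1
    · rcases Finset.mem_insert.mp hA' with hAE' | hA1'
      · exact absurd (hAE.trans hAE'.symm) hAA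
      · rw [hAE, hSE, hSD A' hA1']
        exact hkey A' hA1'
    · rcases Finset.mem_insert.mp hA' with hAE' | hA1'
      · rw [hAE', hSE, hSD A hA1]
        exact (hkey A hA1).symm
      · rw [hSD A hA1, hSD A' hA1']
        exact h.Spair A hA1 A' hA1' hAA
  · -- cov
    intro x hx
    rcases h.cov x hx with hc | hc | hc | ⟨A, hA, hc⟩
    · by_cases hxE : x ∈ E
      · right; right; right
        refine ⟨E, Finset.mem_insert_self _ _, ?_⟩
        rw [hSE]
        exact Finset.mem_inter.mpr ⟨hxE, hc⟩
      · left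
        exact Finset.mem_sdiff.mpr ⟨hc, hxE⟩
    · right; left
      exact hc
    · right; right; left
      exact hc
    · right; right; right
      refine ⟨A, Finset.mem_insert_of_mem hA, ?_⟩
      rw [hSD A hA]
      exact hc
  · -- Smu
    intro A hA z hz
    rcases Finset.mem_insert.mp hA with rfl | hA
    · rw [hSE] at hz
      have hmu : (s.rm (s.F \ A) s.B).mu z = s.M := h.sok.mu z (Finset.mem_inter.mp hz).2
      rw [hmu]
      refine hEcard.trans ?_
      show (A ∩ s.F).card + D.L ≤ D.k0 + D.L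
      omega
    · rw [hSD A hA] at hz
      exact h.Smu A hA z hz
  · -- Scard
    intro A hA
    rcases Finset.mem_insert.mp hA with rfl | hA
    · rw [hSE]
      have h3 : D.k0 = D.L + D.s0 + 1 := rfl
      omega
    · rw [hSD A hA]
      exact h.Scard A hA
  · -- small
    intro A hA
    rcases Finset.mem_insert.mp hA with rfl | hA
    · rw [hSE]
      have hme : m ∩ (A ∩ s.F) = ∅ := by
        apply Finset.eq_empty_of_forall_notMem
        intro x hx
        obtain ⟨hx1, hx2⟩ := Finset.mem_inter.mp hx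
        exact hFE x hx2 (Finset.mem_union_left _ (h.hm hx1))
      rw [hme, Finset.card_empty]
      have hbd := small_new (Fam := D.Fam) (s0 := D.s0) (Q := D.Q) (A := A) (S := A ∩ s.F)
        (M := M) (B := B) Finset.inter_subset_left (H.tr A hE1) hdisE
      refine ⟨fun _ => hbd, fun h01 => absurd h01 (by norm_num), ?_⟩
      have h4 := hbd ∅ (Finset.empty_subset _) (by simp)
      rw [Finset.sum_empty, add_zero] at h4
      exact h4
    · rw [hSD A hA]
      exact h.small A hA
  · -- big
    exact ready_mono h.big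
      (fun κ _ => ⟨ww_nonneg H.pok H.N1pos H.N2pos _ κ,
        ww_rm H.pok H.N1pos H.N2pos s Finset.sdiff_subset (Finset.Subset.refl _) κ⟩)
      (fun κ _ => hh_rm s Finset.sdiff_subset κ) Finset.sdiff_subset

/-- all emergency sets are declared -/
theorem closure {D : Dat α} (H : Hyp D) {m M B : Finset α} {s : St α}
    {Dec : Finset (Finset α)} {S : Finset α → Finset α} (h : Sys D m M B s Dec S)
    (hmid : ∀ E, Watch D B Dec S E → D.k0 ≤ (E \ s.M).card + 1) :
    ∃ (s' : St α) (Dec' : Finset (Finset α)) (S' : Finset α → Finset α),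
      Sys D m M B s' Dec' S' ∧ s'.M = s.M ∧ s'.B = s.B ∧
      ∀ E, Watch D B Dec' S' E → D.k0 < (E ∩ s'.F).card := by
  classical
  obtain ⟨N, hN⟩ : ∃ N, N = (D.Fam \ Dec).card := ⟨_, rfl⟩
  induction N using Nat.strong_induction_on generalizing s Dec S with
  | _ N ih =>
    by_cases hex : ∃ E, Watch D B Dec S E ∧ (E ∩ s.F).card ≤ D.k0
    · obtain ⟨E, hE, hEc⟩ := hex
      have hnew := declare H h hE hEc (hmid E hE)
      have hEm : E ∈ D.Fam \ Dec := Finset.mem_sdiff.mpr ⟨hE.1, hE.2.1⟩
      have hlt : (D.Fam \ insert E Dec).card < N := by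
        rw [hN]
        apply Finset.card_lt_card
        refine ⟨Finset.sdiff_subset_sdiff (Finset.Subset.refl _) (Finset.subset_insert _ _), ?_⟩
        intro hcon
        have := hcon hEm
        exact (Finset.mem_sdiff.mp this).2 (Finset.mem_insert_self _ _)
      obtain ⟨s', Dec', S', h1, h2, h3, h4⟩ := ih _ hlt hnew (by
        intro E' hE'
        apply hmid E'
        obtain ⟨g1, g2, g3, g4⟩ := hE'
        refine ⟨g1, fun hD => g2 (Finset.mem_insert_of_mem hD), g3, ?_⟩
        intro A hA
        have g5 := g4 A (Finset.mem_insert_of_mem hA)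
        have hAE : A ≠ E := fun hAE => hE.2.1 (hAE ▸ hA)
        simp only [if_neg hAE] at g5
        exact g5) rfl
      exact ⟨s', Dec', S', h1, h2, h3, h4⟩
    · refine ⟨s, Dec, S, h, rfl, rfl, ?_⟩
      intro E hE
      by_contra hcon
      exact hex ⟨E, hE, not_lt.mp hcon⟩

end

end

end Pool.Agent.Rect22
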