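import Mathlib

/-!
The (2:2) Maker-Breaker game on lattices: the potential and the invariants.
-/

set_option autoImplicit false
set_option linter.unusedVariables false

namespace Pool.Agent.Rect22

open Finset

section engine
variable {α ι : Type*} [DecidableEq α]

/-- total weight -/
noncomputable def Ups (K : Finset ι) (w : ι → ℝ) : ℝ := ∑ k ∈ K, w k

/-- total weight of the objects which are killed if Breaker takes `y` -/
noncomputable def drp (K : Finset ι) (w : ι → ℝ) (hot : ι → Finset α) (y : α) : ℝ :=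
  ∑ k ∈ K, if y ∈ hot k then w k else 0

/-- the invariant: total weight plus the two largest drops is at most `c` -/
def Bd (K : Finset ι) (w : ι → ℝ) (hot : ι → Finset α) (F : Finset α) (c : ℝ) : Prop :=
  ∀ Y : Finset α, Y ⊆ F → Y.card ≤ 2 → Ups K w + ∑ y ∈ Y, drp K w hot y ≤ c

/-- the position after Maker has taken `k` points (`k ≤ 2`), before the reply with `k` points -/
def Ready (k : ℕ) (K : Finset ι) (w : ι → ℝ) (hot : ι → Finset α) (F : Finset α) (c : ℝ) : Prop :=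
  (k = 0 → Bd K w hot F c) ∧
  (k = 1 → ∀ Z : Finset α, Z ⊆ F → Z.card = 3 → ∃ v ∈ Z, Ups K w + drp K w hot v ≤ c) ∧
  Ups K w ≤ c

/-- the factor by which a weight may grow if Maker takes `x` -/
noncomputable def fac (η : ℝ) (far hot : ι → Finset α) (x : α) (k : ι) : ℝ :=
  if x ∈ far k then 2 - η else if x ∈ hot k then 3 / 2 - η else 1

end engine

/-- the parameters of the potential -/
structure Pm where
  eta : ℝ
  sig : ℝ
  zet : ℝ
  lam : ℝ
  pb : ℝ
  pq : ℝ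
  F1 : ℕ

/-- the conditions on the parameters of the potential -/
structure Pm.OK (P : Pm) : Prop where
  eta0 : 0 < P.eta
  eta1 : P.eta ≤ 1 / 4
  sig1 : 1 ≤ P.sig
  zet0 : 0 < P.zet
  zet1 : P.zet ≤ 1
  lam0 : 0 < P.lam
  pq0 : 0 < P.pq
  pqb : P.pq ≤ P.pb
  pb1 : P.pb ≤ 1
  hb : 1 ≤ P.pb * (3 / 2 - P.eta)
  hq : 1 ≤ P.pq * (2 - P.eta)

section states
variable {α : Type*} [DecidableEq α]

/-- a state of the big game: free points `F`, Maker's points `M`, Breaker's points `B`; for a point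
`z` not in `F`, `mu z` is the set of Maker's points when `z` left `F`; for `z ∈ F` it is `M` -/
structure St (α : Type*) where
  F : Finset α
  M : Finset α
  B : Finset α
  mu : α → Finset α

structure St.OK (s : St α) : Prop where
  fm : Disjoint s.F s.M
  fb : Disjoint s.F s.B
  mu : ∀ z ∈ s.F, s.mu z = s.M

/-- Maker takes `x` -/
def St.mk1 (s : St α) (x : α) : St α :=
  ⟨s.F.erase x, insert x s.M, s.B, fun z => if z ∈ s.F.erase x then insert x s.M else s.mu z⟩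

/-- Breaker takes points or points are removed: the new free set is `G`, the new set of Breaker's
points is `Bn` -/
def St.rm (s : St α) (G Bn : Finset α) : St α := ⟨G, s.M, Bn, s.mu⟩

/-- an arm `(z, A, D)`: root `z`, winning set `A`, part `D ⊆ A` -/
abbrev Arm (α : Type*) := α × Finset α × Finset α

noncomputable def uu (P : Pm) (f : ℕ) : ℝ := P.pb ^ (min f P.F1) * P.pq ^ (f - P.F1)

/-- the points which an alive arm with root `z` may use -/
def liv (s : St α) (z : α) : Finset α := (if z ∈ s.F then s.F else ∅) ∪ s.mu z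

noncomputable def aval (P : Pm) (s : St α) (a : Arm α) : ℝ :=
  P.sig * P.zet ^ (a.2.1 \ a.2.2).card *
    (if a.2.2 ⊆ liv s a.1 then uu P (a.2.2 \ s.mu a.1).card else 0)

noncomputable def oval (P : Pm) (s : St α) (o : Option (Arm α)) : ℝ :=
  match o with
  | none => 1
  | some a => aval P s a

def ahot (s : St α) (a : Arm α) : Finset α := (a.2.2 \ s.mu a.1) ∩ s.F

def ohot (s : St α) (o : Option (Arm α)) : Finset α :=
  match o with
  | none => ∅
  | some a => ahot s a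

def afar (P : Pm) (s : St α) (a : Arm α) : Finset α :=
  if P.F1 < (a.2.2 \ s.mu a.1).card then ahot s a else ∅

def ofar (P : Pm) (s : St α) (o : Option (Arm α)) : Finset α :=
  match o with
  | none => ∅
  | some a => afar P s a

/-- a cluster: root set and at most `R` arms -/
abbrev Clus (α : Type*) (R : ℕ) := Finset α × (Fin R → Option (Arm α))

noncomputable def xw (P : Pm) {R : ℕ} (s : St α) (K : Clus α R) : ℝ :=
  (if Disjoint K.1 s.B then 1 else 0) * ∏ i, oval P s (K.2 i)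

def xhot {R : ℕ} (s : St α) (K : Clus α R) : Finset α :=
  (K.1 ∩ s.F) ∪ Finset.univ.biUnion (fun i => ohot s (K.2 i))

def xfar (P : Pm) {R : ℕ} (s : St α) (K : Clus α R) : Finset α :=
  Finset.univ.biUnion (fun i => ofar P s (K.2 i))

structure Comp (Fam : Finset (Finset α)) {R : ℕ} (K : Clus α R) : Prop where
  root : K.1 ∈ Fam
  arm : ∀ i a, K.2 i = some a →
    a.2.1 ∈ Fam ∧ a.1 ∈ a.2.1 ∧ a.2.2 ⊆ a.2.1 ∧ a.1 ∈ K.1 ∧ Disjoint a.2.2 K.1
  dis : ∀ i j, i ≠ j → ∀ a b, K.2 i = some a → K.2 j = some b → Disjoint a.2.2 b.2.2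

/-- all arms of the family -/
def arms (Fam : Finset (Finset α)) : Finset (Arm α) :=
  Fam.biUnion (fun A => (A ×ˢ A.powerset).image (fun p => (p.1, A, p.2)))

open Classical in
/-- all clusters -/
noncomputable def XK (Fam : Finset (Finset α)) (R : ℕ) : Finset (Clus α R) :=
  (Fam ×ˢ Fintype.piFinset (fun _ : Fin R => Finset.insertNone (arms Fam))).filter
    (fun K => Comp Fam K)

/-- a pair cluster: root pair, `r` parts `(A, D)` -/
abbrev PClus (α : Type*) (r : ℕ) := (α × α) × (Fin r → Finset α × Finset α)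

structure PComp (Fam : Finset (Finset α)) (Pr : Finset (α × α)) {r : ℕ} (K : PClus α r) :
    Prop where
  root : K.1 ∈ Pr
  arm : ∀ i, (K.2 i).1 ∈ Fam ∧ K.1.1 ∈ (K.2 i).1 ∧ K.1.2 ∈ (K.2 i).1 ∧
    (K.2 i).2 ⊆ (K.2 i).1 ∧ K.1.1 ∉ (K.2 i).2 ∧ K.1.2 ∉ (K.2 i).2
  dis : ∀ i j, i ≠ j → Disjoint (K.2 i).2 (K.2 j).2

open Classical in
noncomputable def PK (Fam : Finset (Finset α)) (Pr : Finset (α × α)) (r : ℕ) :
    Finset (PClus α r) :=
  (Pr ×ˢ Fintype.piFinset (fun _ : Fin r => Fam ×ˢ (Fam.biUnion id).powerset)).filter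
    (fun K => PComp Fam Pr K)

noncomputable def pval (P : Pm) (s : St α) (c : Finset α × Finset α) : ℝ :=
  P.lam * P.zet ^ (c.1 \ c.2).card * (if c.2 ⊆ s.F ∪ s.M then P.pb ^ (c.2 \ s.M).card else 0)

noncomputable def pw (P : Pm) {r : ℕ} (s : St α) (K : PClus α r) : ℝ :=
  (if K.1.1 ∈ s.F ∧ K.1.2 ∈ s.F then 1 else 0) * ∏ i, pval P s (K.2 i)

def phot {r : ℕ} (s : St α) (K : PClus α r) : Finset α :=
  (({K.1.1, K.1.2} : Finset α) ∩ s.F) ∪
    Finset.univ.biUnion (fun i => ((K.2 i).2 \ s.M) ∩ s.F)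

/-- both kinds of clusters -/
abbrev IX (α : Type*) (R r : ℕ) := Clus α R ⊕ PClus α r

noncomputable def KK (Fam : Finset (Finset α)) (Pr : Finset (α × α)) (R r : ℕ) :
    Finset (IX α R r) := (XK Fam R).disjSum (PK Fam Pr r)

noncomputable def ww (P : Pm) (N1 N2 : ℝ) {R r : ℕ} (s : St α) : IX α R r → ℝ :=
  Sum.elim (fun K => xw P s K / N1) (fun K => pw P s K / N2)

def hh {R r : ℕ} (s : St α) : IX α R r → Finset α := Sum.elim (xhot s) (phot s)

def ff (P : Pm) {R r : ℕ} (s : St α) : IX α R r → Finset α :=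
  Sum.elim (xfar P s) (fun _ => ∅)

/-- the total weight of the far parts through `x` of the sets through `x` and `z` -/
noncomputable def Spair (P : Pm) (s : St α) (Fam : Finset (Finset α)) (x z : α) : ℝ :=
  ∑ A ∈ Fam with x ∈ A ∧ z ∈ A,
    ∑ D ∈ A.powerset with x ∈ D ∧ D ⊆ s.F ∪ s.M ∧ P.F1 < (D \ s.M).card,
      P.sig * P.zet ^ (A \ D).card * uu P (D \ s.M).card

end states

section small
variable {α : Type*} [DecidableEq α]

/-- the winning sets of the small game on `S` -/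
def Tr (Fam : Finset (Finset α)) (s0 : ℕ) (S : Finset α) : Finset (Finset α) :=
  (Fam.image (fun E => E ∩ S)).filter (fun T => s0 ≤ T.card)

/-- the weights of the small game; Maker has `M`, Breaker has `B` -/
noncomputable def sw (M B : Finset α) (T : Finset α) : ℝ :=
  if Disjoint T B then (2 / 3 : ℝ) ^ (T \ M).card else 0

def shot (M B : Finset α) (T : Finset α) : Finset α := T \ (M ∪ B)

end small

section game
variable {α : Type*} [DecidableEq α]

/-- all data -/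
structure Dat (α : Type*) where
  V : Finset α
  Fam : Finset (Finset α)
  Pr : Finset (α × α)
  P : Pm
  n : ℕ
  R : ℕ
  r : ℕ
  t : ℕ
  C1 : ℕ
  s0 : ℕ
  Q : ℕ
  N1 : ℝ
  N2 : ℝ
  sb : ℝ

/-- bound for the number of points lost to small boards -/
def Dat.L (D : Dat α) : ℕ := D.R * D.C1 * D.s0
/-- the threshold for declaring a set -/
def Dat.k0 (D : Dat α) : ℕ := D.L + D.s0 + 1
def Dat.k1 (D : Dat α) : ℕ := D.k0 + D.L
/-- bound for the far weight of one set -/
noncomputable def Dat.vb (D : Dat α) : ℝ := D.P.sig * D.P.pb ^ D.P.F1 * (1 + D.P.zet) ^ D.n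
noncomputable def Dat.c (D : Dat α) : ℝ := 3 * (D.Q * (2 / 3 : ℝ) ^ D.s0)

/-- the hypotheses on the data -/
structure Hyp (D : Dat α) : Prop where
  pok : D.P.OK
  hV : ∀ A ∈ D.Fam, A ⊆ D.V
  hn : ∀ A ∈ D.Fam, A.card = D.n
  hover : ∀ B ∈ D.Fam, (D.Fam.filter (fun A => D.t ≤ (A ∩ B).card)).card ≤ D.C1
  N1pos : 0 < D.N1
  N2pos : 0 < D.N2
  hR : 1 ≤ D.R
  sb0 : 0 < D.sb
  sb1 : 2 * (D.R * D.n * D.sb) ≤ D.P.eta
  hgen : ∀ x z : α, x ≠ z → (x, z) ∉ D.Pr →
    ((D.Fam.filter (fun A => x ∈ A ∧ z ∈ A)).card : ℝ) * D.vb ≤ D.sb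
  hsb : (D.r : ℝ) * (D.C1 * D.vb) < D.sb
  hnum : ((D.P.sig / D.P.lam) * (2 / D.P.zet) ^ (D.r * D.t + 2)) ^ D.r * (9 * D.N2) <
    (D.sb - D.r * (D.C1 * D.vb)) ^ D.r
  init : Ups (KK D.Fam D.Pr D.R D.r) (ww D.P D.N1 D.N2 (⟨D.V, ∅, ∅, fun _ => ∅⟩ : St α)) ≤ 3
  heavy : 9 * D.N1 < (D.P.sig * D.P.zet ^ (D.k1 + D.R * D.t)) ^ D.R
  tr : ∀ A ∈ D.Fam, (D.Fam.image (fun E => E ∩ A)).card ≤ D.Q
  hc : D.c < 1
  hk : D.k0 < D.n
  hs0 : 1 ≤ D.s0

/-- the invariants; `m` is Maker's last move (`∅` if Maker is to move) and is contained in `M` -/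
structure Sys (D : Dat α) (m M B : Finset α) (s : St α) (Dec : Finset (Finset α))
    (S : Finset α → Finset α) : Prop where
  sok : s.OK
  MB : Disjoint M B
  hm : m ⊆ M
  mcard : m.card ≤ 2
  Fsub : s.F ⊆ D.V \ (M ∪ B)
  sM : s.M ⊆ M
  sB : s.B ⊆ B
  dec : Dec ⊆ D.Fam
  Ssub : ∀ A ∈ Dec, S A ⊆ A
  Sdis : ∀ A ∈ Dec, Disjoint (S A) (s.F ∪ s.M ∪ s.B)
  Spair : ∀ A ∈ Dec, ∀ A' ∈ Dec, A ≠ A' → Disjoint (S A) (S A')
  cov : ∀ x ∈ D.V, x ∈ s.F ∨ x ∈ s.M ∨ x ∈ s.B ∨ ∃ A ∈ Dec, x ∈ S A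
  Smu : ∀ A ∈ Dec, ∀ z ∈ S A, (A \ s.mu z).card ≤ D.k1
  Scard : ∀ A ∈ Dec, D.s0 ≤ (S A).card
  small : ∀ A ∈ Dec, Ready (m ∩ S A).card (Tr D.Fam D.s0 (S A)) (sw M B) (shot M B)
    (S A \ (M ∪ B)) D.c
  big : Ready (m ∩ s.M).card (KK D.Fam D.Pr D.R D.r) (ww D.P D.N1 D.N2 s) (hh s) s.F 9

/-- sets which have to be watched in the big game -/
def Watch (D : Dat α) (B : Finset α) (Dec : Finset (Finset α)) (S : Finset α → Finset α)
    (E : Finset α) : Prop :=
  E ∈ D.Fam ∧ E ∉ Dec ∧ Disjoint E B ∧ ∀ A ∈ Dec, (E ∩ S A).card < D.s0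

/-- the rule of Breaker: positions with Maker to move -/
def Good (D : Dat α) (M B : Finset α) : Prop :=
  ∃ (s : St α) (Dec : Finset (Finset α)) (S : Finset α → Finset α),
    Sys D ∅ M B s Dec S ∧ ∀ E, Watch D B Dec S E → D.k0 < (E ∩ s.F).card

end game

end Pool.Agent.Rect22
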