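import Pool.Agent.Rect22.NumDefs

/-!
Numerical estimates, part 1.
-/

set_option autoImplicit false
set_option linter.unusedVariables false
set_option linter.unusedSectionVars false

namespace Pool.Agent.Rect22

open Finset Filter

section
theorem qq_ell_tendsto : Tendsto (fun N : ℕ => ell N) atTop atTop :=
  (Real.tendsto_logb_atTop (b := 2) (by norm_num)).comp tendsto_natCast_atTop_atTop

/-- bounds for `q` -/
theorem qq_bounds {κ : ℕ} (hκ : 2 ≤ κ) (hκ4 : κ ≤ 4) {e : ℝ} (he : 0 < e) (he1 : e ≤ 1 / 20) :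
    ∀ᶠ N : ℕ in atTop, (κ + e) * ell N ≤ (qq κ e N : ℝ) ^ 2 ∧ (qq κ e N : ℝ) ^ 2 ≤ 5 * ell N ∧
      1 ≤ ell N := by
  filter_upwards [qq_ell_tendsto.eventually_ge_atTop 21] with N hN
  have hk4 : (κ : ℝ) ≤ 4 := by exact_mod_cast hκ4
  have hk0 : (0 : ℝ) ≤ κ := Nat.cast_nonneg _
  have hx0 : 0 ≤ (κ + e) * ell N := by
    have : 0 ≤ ell N := by linarith
    positivity
  have hx1 : (κ + e) * ell N ≤ (4 + 1 / 20) * ell N := by
    have h0 : 0 ≤ ell N := by linarith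
    have h1 : (κ : ℝ) + e ≤ 4 + 1 / 20 := by linarith
    exact mul_le_mul_of_nonneg_right h1 h0
  have hs0 : 0 ≤ Real.sqrt ((κ + e) * ell N) := Real.sqrt_nonneg _
  have hs2 : Real.sqrt ((κ + e) * ell N) ^ 2 = (κ + e) * ell N := Real.sq_sqrt hx0
  have hq1 : Real.sqrt ((κ + e) * ell N) ≤ (qq κ e N : ℝ) := Nat.le_ceil _
  have hq2 : (qq κ e N : ℝ) < Real.sqrt ((κ + e) * ell N) + 1 := Nat.ceil_lt_add_one hs0
  have hq3 : (qq κ e N : ℝ) ^ 2 ≤ (Real.sqrt ((κ + e) * ell N) + 1) ^ 2 :=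
    pow_le_pow_left₀ (Nat.cast_nonneg _) hq2.le 2
  refine ⟨?_, ?_, by linarith⟩
  · rw [← hs2]
    exact pow_le_pow_left₀ hs0 hq1 2
  · nlinarith [sq_nonneg (Real.sqrt ((κ + e) * ell N) - 8)]

/-- powers of `q` are smaller than powers of `N` -/
theorem qq_poly {κ : ℕ} (hκ : 2 ≤ κ) (hκ4 : κ ≤ 4) {e : ℝ} (he : 0 < e) (he1 : e ≤ 1 / 20)
    (k : ℕ) (A γ : ℝ) (hγ : 0 < γ) :
    ∀ᶠ N : ℕ in atTop, A * (qq κ e N : ℝ) ^ k ≤ (N : ℝ) ^ γ := by
  obtain ⟨C, hC⟩ : ∃ C : ℝ, C = |A| * (5 ^ k / Real.log 2 ^ k) + 1 := ⟨_, rfl⟩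
  have hlog2 : 0 < Real.log 2 := Real.log_pos (by norm_num)
  have hC0 : 0 < C := by rw [hC]; positivity
  have h1 := (isLittleO_log_rpow_rpow_atTop (k : ℝ) hγ).bound
    (show 0 < 1 / C by positivity)
  have h2 := tendsto_natCast_atTop_atTop (R := ℝ) |>.eventually h1
  filter_upwards [h2, qq_bounds hκ hκ4 he he1, eventually_ge_atTop 1] with N hN hb hN1
  obtain ⟨-, hb2, hb3⟩ := hb
  have hN1' : (1 : ℝ) ≤ N := by exact_mod_cast hN1
  have hlogN : 0 ≤ Real.log N := Real.log_nonneg hN1'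
  rw [Real.rpow_natCast, Real.norm_of_nonneg (by positivity),
    Real.norm_of_nonneg (by positivity)] at hN
  have hq0 : (0 : ℝ) ≤ (qq κ e N : ℝ) := Nat.cast_nonneg _
  have hqq : (qq κ e N : ℝ) ≤ (qq κ e N : ℝ) ^ 2 := by
    have h3 : qq κ e N ≤ (qq κ e N) ^ 2 := Nat.le_self_pow (by norm_num) _
    exact_mod_cast h3
  have h4 : (qq κ e N : ℝ) ^ k ≤ (5 * ell N) ^ k :=
    pow_le_pow_left₀ hq0 (hqq.trans hb2) k
  have h5 : (5 * ell N) ^ k = (5 ^ k / Real.log 2 ^ k) * Real.log N ^ k := by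
    unfold ell Real.logb
    rw [mul_pow, div_pow]
    ring
  have h6 : 0 ≤ (N : ℝ) ^ γ := by positivity
  calc A * (qq κ e N : ℝ) ^ k ≤ |A| * (qq κ e N : ℝ) ^ k := by
        gcongr
        exact le_abs_self A
    _ ≤ |A| * ((5 ^ k / Real.log 2 ^ k) * Real.log N ^ k) := by
        rw [← h5]
        gcongr
    _ = (|A| * (5 ^ k / Real.log 2 ^ k)) * Real.log N ^ k := by ring
    _ ≤ C * Real.log N ^ k := by
        have : 0 ≤ Real.log N ^ k := by positivity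
        rw [hC]
        nlinarith
    _ ≤ C * (1 / C * (N : ℝ) ^ γ) := by gcongr
    _ = (N : ℝ) ^ γ := by field_simp

/-- `q` tends to infinity -/
theorem qq_tendsto {κ : ℕ} (hκ : 2 ≤ κ) {e : ℝ} (he : 0 < e) :
    Tendsto (fun N : ℕ => qq κ e N) atTop atTop := by
  have h1 : Tendsto (fun N : ℕ => ((κ : ℝ) + e) * ell N) atTop atTop :=
    qq_ell_tendsto.const_mul_atTop (by positivity)
  exact tendsto_nat_ceil_atTop.comp (Real.tendsto_sqrt_atTop.comp h1)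

end

section
/-- TARGET -/
theorem num_vb {κ : ℕ} (hκ : 2 ≤ κ) (hκ4 : κ ≤ 4) {e : ℝ} (he : 0 < e) (he1 : e ≤ 1 / 20) :
    ∀ᶠ N : ℕ in atTop, (N : ℝ) ^ (e / 16) * (1 / (3 / 2 - e / 20)) ^ (FF e N) *
      (1 + e / 3200) ^ ((qq κ e N) ^ 2) ≤ (N : ℝ) ^ (-(e / 160)) := by
  filter_upwards [qq_bounds hκ hκ4 he he1, eventually_gt_atTop 1] with N h hN
  obtain ⟨_, hq, hl1⟩ := h
  have hN1 : (1 : ℝ) < N := by exact_mod_cast hN
  have hN0 : (0 : ℝ) < N := by linarith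
  have hlog2 : 0 < Real.log 2 := Real.log_pos (by norm_num)
  have hL : Real.log N = ell N * Real.log 2 := by
    unfold ell Real.logb
    rw [div_mul_cancel₀ _ hlog2.ne']
  have hF : e / 8 * ell N ≤ (FF e N : ℝ) := by
    unfold FF
    exact Nat.le_ceil _
  obtain ⟨c, hc⟩ : ∃ c, c = 3 / 2 - e / 20 := ⟨_, rfl⟩
  have hc1 : (14975 : ℝ) / 10000 ≤ c := by
    rw [hc]
    linarith
  have hc0 : 0 < c := by linarith
  have hlogc : 4 / 7 * Real.log 2 ≤ Real.log c := by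
    have h1 : Real.log ((14975 : ℝ) / 10000) ≤ Real.log c := Real.log_le_log (by norm_num) hc1
    have h2 : Real.log ((2 : ℝ) ^ 4) ≤ Real.log (((14975 : ℝ) / 10000) ^ 7) :=
      Real.log_le_log (by norm_num) (by norm_num)
    rw [Real.log_pow, Real.log_pow] at h2
    push_cast at h2
    linarith
  have e1 : (N : ℝ) ^ (e / 16) = Real.exp (ell N * Real.log 2 * (e / 16)) := by
    rw [Real.rpow_def_of_pos hN0, hL]
  have e2 : (1 / c) ^ (FF e N) = Real.exp (-((FF e N : ℝ) * Real.log c)) := by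
    rw [one_div, inv_pow, Real.exp_neg, ← Real.log_pow, Real.exp_log (by positivity)]
  have e3 : (1 + e / 3200) ^ ((qq κ e N) ^ 2) ≤ Real.exp (((qq κ e N : ℝ)) ^ 2 * (e / 3200)) := by
    have h1 : 1 + e / 3200 ≤ Real.exp (e / 3200) := by
      have := Real.add_one_le_exp (e / 3200)
      linarith
    calc (1 + e / 3200) ^ ((qq κ e N) ^ 2) ≤ (Real.exp (e / 3200)) ^ ((qq κ e N) ^ 2) :=
          pow_le_pow_left₀ (by positivity) h1 _
      _ = _ := by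
          rw [← Real.exp_nat_mul]
          push_cast
          rfl
  have e4 : (N : ℝ) ^ (-(e / 160)) = Real.exp (ell N * Real.log 2 * (-(e / 160))) := by
    rw [Real.rpow_def_of_pos hN0, hL]
  rw [← hc, e1, e2, e4]
  calc _ ≤ Real.exp (ell N * Real.log 2 * (e / 16)) * Real.exp (-((FF e N : ℝ) * Real.log c)) *
        Real.exp (((qq κ e N : ℝ)) ^ 2 * (e / 3200)) :=
        mul_le_mul_of_nonneg_left e3 (by positivity)
    _ = Real.exp (ell N * Real.log 2 * (e / 16) + (-((FF e N : ℝ) * Real.log c)) +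
        ((qq κ e N : ℝ)) ^ 2 * (e / 3200)) := by rw [Real.exp_add, Real.exp_add]
    _ ≤ _ := by
        apply Real.exp_le_exp.2
        have hl0 : 0 < ell N := by linarith
        have a1 : e / 8 * ell N * (4 / 7 * Real.log 2) ≤ (FF e N : ℝ) * Real.log c := by
          have h1 : e / 8 * ell N * (4 / 7 * Real.log 2) ≤ e / 8 * ell N * Real.log c :=
            mul_le_mul_of_nonneg_left hlogc (by positivity)
          have h2 : e / 8 * ell N * Real.log c ≤ (FF e N : ℝ) * Real.log c :=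
            mul_le_mul_of_nonneg_right hF (by
              have : 0 < 4 / 7 * Real.log 2 := by positivity
              linarith)
          linarith
        have a2 : ((qq κ e N : ℝ)) ^ 2 * (e / 3200) ≤ 5 * ell N * (e / 3200) :=
          mul_le_mul_of_nonneg_right hq (by positivity)
        have a3 := Real.log_two_gt_d9
        have a4 : ell N * e * (1 / 640) ≤ ell N * e * (Real.log 2 * (1 / 14 - 11 / 160)) :=
          mul_le_mul_of_nonneg_left (by linarith) (by positivity)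
        nlinarith

end

section
theorem num_far_base {e : ℝ} (he : 0 < e) (he1 : e ≤ 1 / 20) :
    0 < e / 3200 + 1 / (2 - e / 20) ∧
    e / 3200 + 1 / (2 - e / 20) ≤ (2 : ℝ) ^ (-1 + e / 16) := by
  have h0 : 0 < 2 - e / 20 := by linarith
  refine ⟨by positivity, ?_⟩
  have h1 : 1 / (2 - e / 20) ≤ 1 / 2 + e / 78 := by
    rw [div_le_iff₀ h0]
    nlinarith
  have h2 : (1 / 2 : ℝ) * (1 + 0.69 * (e / 16)) ≤ (2 : ℝ) ^ (-1 + e / 16) := by
    rw [Real.rpow_add (by norm_num : (0 : ℝ) < 2), Real.rpow_neg_one]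
    have h3 : 1 + 0.69 * (e / 16) ≤ (2 : ℝ) ^ (e / 16) := by
      rw [Real.rpow_def_of_pos (by norm_num : (0 : ℝ) < 2)]
      have h4 := Real.add_one_le_exp (Real.log 2 * (e / 16))
      have h5 := Real.log_two_gt_d9
      have h6 : 0.69 * (e / 16) ≤ Real.log 2 * (e / 16) := by
        apply mul_le_mul_of_nonneg_right _ (by positivity)
        linarith
      linarith
    have h7 : (2 : ℝ)⁻¹ = 1 / 2 := by norm_num
    rw [h7]
    exact mul_le_mul_of_nonneg_left h3 (by norm_num)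
  refine le_trans ?_ h2
  nlinarith

theorem num_far_ratio {e : ℝ} (he : 0 < e) (he1 : e ≤ 1 / 20) :
    0 ≤ (1 / (3 / 2 - e / 20)) / (1 / (2 - e / 20)) ∧
    (1 / (3 / 2 - e / 20)) / (1 / (2 - e / 20)) ≤ (2 : ℝ) ^ (1 / 2 : ℝ) := by
  have h0 : 0 < 2 - e / 20 := by linarith
  have h1 : 0 < 3 / 2 - e / 20 := by linarith
  refine ⟨by positivity, ?_⟩
  have h2 : (1 / (3 / 2 - e / 20)) / (1 / (2 - e / 20)) ≤ 1.4 := by
    rw [div_div_div_eq, one_mul, mul_one, div_le_iff₀ h1]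
    linarith
  refine h2.trans ?_
  rw [← Real.sqrt_eq_rpow]
  apply Real.le_sqrt_of_sq_le
  norm_num

/-- TARGET -/
theorem num_far {κ : ℕ} (hκ : 2 ≤ κ) (hκ4 : κ ≤ 4) {e : ℝ} (he : 0 < e) (he1 : e ≤ 1 / 20) :
    ∀ᶠ N : ℕ in atTop, (N : ℝ) ^ (e / 16) *
      ((1 / (3 / 2 - e / 20)) / (1 / (2 - e / 20))) ^ (FF e N) *
      (e / 3200 + 1 / (2 - e / 20)) ^ ((qq κ e N) ^ 2) ≤ (N : ℝ) ^ (-(κ : ℝ) - e / 8) := by
  have hten : Tendsto (fun N : ℕ => ell N) atTop atTop := by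
    have h1 : Tendsto (fun x : ℝ => Real.logb 2 x) atTop atTop :=
      Real.tendsto_logb_atTop (by norm_num)
    exact h1.comp tendsto_natCast_atTop_atTop
  filter_upwards [qq_bounds hκ hκ4 he he1, hten.eventually_ge_atTop (2 / e),
    eventually_ge_atTop 1] with N hq hL hN
  obtain ⟨hq1, _, hL1⟩ := hq
  have hNpos : (0 : ℝ) < N := by exact_mod_cast hN
  have h2pos : (0 : ℝ) < 2 := by norm_num
  have hNL : (N : ℝ) = (2 : ℝ) ^ ell N := by
    unfold ell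
    rw [Real.rpow_logb h2pos (by norm_num) hNpos]
  have hpow : ∀ x : ℝ, (N : ℝ) ^ x = (2 : ℝ) ^ (ell N * x) := by
    intro x
    rw [Real.rpow_mul h2pos.le, ← hNL]
  rw [hpow, hpow]
  obtain ⟨hB0, hB⟩ := num_far_base he he1
  obtain ⟨hr0, hr⟩ := num_far_ratio he he1
  have hL0 : 0 ≤ ell N := by linarith
  have hF : (FF e N : ℝ) ≤ e / 8 * ell N + 1 := by
    unfold FF
    exact (Nat.ceil_lt_add_one (by positivity)).le
  have e1 : ((1 / (3 / 2 - e / 20)) / (1 / (2 - e / 20))) ^ (FF e N) ≤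
      (2 : ℝ) ^ ((1 / 2 : ℝ) * (e / 8 * ell N + 1)) := by
    calc ((1 / (3 / 2 - e / 20)) / (1 / (2 - e / 20))) ^ (FF e N)
        ≤ ((2 : ℝ) ^ (1 / 2 : ℝ)) ^ (FF e N) := pow_le_pow_left₀ hr0 hr _
      _ = (2 : ℝ) ^ ((1 / 2 : ℝ) * (FF e N : ℝ)) := by
          rw [← Real.rpow_natCast, ← Real.rpow_mul h2pos.le]
      _ ≤ (2 : ℝ) ^ ((1 / 2 : ℝ) * (e / 8 * ell N + 1)) := by
          apply Real.rpow_le_rpow_of_exponent_le (by norm_num)
          linarith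
  have e2 : (e / 3200 + 1 / (2 - e / 20)) ^ ((qq κ e N) ^ 2) ≤
      (2 : ℝ) ^ ((-1 + e / 16) * ((κ + e) * ell N)) := by
    calc (e / 3200 + 1 / (2 - e / 20)) ^ ((qq κ e N) ^ 2)
        ≤ ((2 : ℝ) ^ (-1 + e / 16)) ^ ((qq κ e N) ^ 2) := pow_le_pow_left₀ hB0.le hB _
      _ = (2 : ℝ) ^ ((-1 + e / 16) * (((qq κ e N) ^ 2 : ℕ) : ℝ)) := by
          rw [← Real.rpow_natCast, ← Real.rpow_mul h2pos.le]
      _ ≤ (2 : ℝ) ^ ((-1 + e / 16) * ((κ + e) * ell N)) := by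
          apply Real.rpow_le_rpow_of_exponent_le (by norm_num)
          push_cast
          apply mul_le_mul_of_nonpos_left hq1
          linarith
  have hκr : (κ : ℝ) ≤ 4 := by exact_mod_cast hκ4
  have hκr0 : (2 : ℝ) ≤ κ := by exact_mod_cast hκ
  have heL : 2 ≤ e * ell N := by
    have := (div_le_iff₀ he).mp hL
    linarith
  calc (2 : ℝ) ^ (ell N * (e / 16)) * ((1 / (3 / 2 - e / 20)) / (1 / (2 - e / 20))) ^ (FF e N) *
      (e / 3200 + 1 / (2 - e / 20)) ^ ((qq κ e N) ^ 2)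
      ≤ (2 : ℝ) ^ (ell N * (e / 16)) * (2 : ℝ) ^ ((1 / 2 : ℝ) * (e / 8 * ell N + 1)) *
        (2 : ℝ) ^ ((-1 + e / 16) * ((κ + e) * ell N)) := by
        apply mul_le_mul _ e2 (by positivity) (by positivity)
        exact mul_le_mul_of_nonneg_left e1 (by positivity)
    _ = (2 : ℝ) ^ (ell N * (e / 16) + (1 / 2 : ℝ) * (e / 8 * ell N + 1) +
        (-1 + e / 16) * ((κ + e) * ell N)) := by
        rw [Real.rpow_add h2pos, Real.rpow_add h2pos]
    _ ≤ (2 : ℝ) ^ (ell N * (-(κ : ℝ) - e / 8)) := by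
        apply Real.rpow_le_rpow_of_exponent_le (by norm_num)
        have h1 : e * ell N * (κ + e) ≤ e * ell N * (4.05) :=
          mul_le_mul_of_nonneg_left (by linarith) (by linarith)
        nlinarith

end

section
/-- TARGET -/
theorem num_pair {κ : ℕ} (hκ : 2 ≤ κ) (hκ4 : κ ≤ 4) {e : ℝ} (he : 0 < e) (he1 : e ≤ 1 / 20) :
    ∀ᶠ N : ℕ in atTop, (N : ℝ) ^ ((1 : ℝ) / 10) *
      (e / 3200 + 1 / (3 / 2 - e / 20)) ^ ((qq κ e N) ^ 2) ≤
        (N : ℝ) ^ (-(κ : ℝ) / 2 - 1 / 50) := by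
  filter_upwards [qq_bounds hκ hκ4 he he1, eventually_ge_atTop 1] with N h hN
  obtain ⟨h1, -, h3⟩ := h
  have hN1 : (1 : ℝ) ≤ N := by exact_mod_cast hN
  have hN0 : (0 : ℝ) < N := by linarith
  obtain ⟨B, hB⟩ : ∃ B : ℝ, B = e / 3200 + 1 / (3 / 2 - e / 20) := ⟨_, rfl⟩
  rw [← hB]
  have hd : (0 : ℝ) < 3 / 2 - e / 20 := by linarith
  have hB0 : 0 ≤ B := by
    rw [hB]
    positivity
  have hB1 : B ≤ 167 / 250 := by
    have h4 : 1 / (3 / 2 - e / 20) ≤ 6679 / 10000 - 1 / 64000 := by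
      rw [div_le_iff₀ hd]
      nlinarith
    rw [hB]
    linarith
  have hB2 : B ≤ (2 : ℝ) ^ (-(29 / 50) : ℝ) := by
    have h5 : ((2 : ℝ) ^ (-(29 / 50) : ℝ)) ^ 50 = (1 / 2) ^ 29 := by
      rw [← Real.rpow_natCast, ← Real.rpow_mul (by norm_num)]
      have : (-(29 / 50) : ℝ) * ((50 : ℕ) : ℝ) = -((29 : ℕ) : ℝ) := by
        push_cast
        norm_num
      rw [this, Real.rpow_neg (by norm_num), Real.rpow_natCast]
      norm_num
    have h6 : B ^ 50 ≤ ((2 : ℝ) ^ (-(29 / 50) : ℝ)) ^ 50 := by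
      rw [h5]
      calc B ^ 50 ≤ (167 / 250 : ℝ) ^ 50 := pow_le_pow_left₀ hB0 hB1 50
        _ ≤ (1 / 2) ^ 29 := by norm_num
    by_contra hcon
    push Not at hcon
    have h7 := pow_lt_pow_left₀ hcon (Real.rpow_pos_of_pos (by norm_num : (0:ℝ) < 2) _).le
      (by norm_num : (50 : ℕ) ≠ 0)
    linarith
  have hq : (κ : ℝ) * ell N ≤ (((qq κ e N) ^ 2 : ℕ) : ℝ) := by
    push_cast
    refine le_trans ?_ h1
    nlinarith
  have hpow : B ^ ((qq κ e N) ^ 2) ≤ (N : ℝ) ^ (-(29 / 50) * (κ : ℝ)) := by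
    have h2N : (2 : ℝ) ^ (ell N) = N := by
      unfold ell
      exact Real.rpow_logb (by norm_num) (by norm_num) hN0
    calc B ^ ((qq κ e N) ^ 2) = B ^ (((qq κ e N) ^ 2 : ℕ) : ℝ) := (Real.rpow_natCast _ _).symm
      _ ≤ ((2 : ℝ) ^ (-(29 / 50) : ℝ)) ^ (((qq κ e N) ^ 2 : ℕ) : ℝ) :=
          Real.rpow_le_rpow hB0 hB2 (Nat.cast_nonneg _)
      _ = (2 : ℝ) ^ ((-(29 / 50) : ℝ) * (((qq κ e N) ^ 2 : ℕ) : ℝ)) := by
          rw [← Real.rpow_mul (by norm_num)]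
      _ ≤ (2 : ℝ) ^ (ell N * (-(29 / 50) * (κ : ℝ))) := by
          refine Real.rpow_le_rpow_of_exponent_le (by norm_num) ?_
          nlinarith
      _ = (N : ℝ) ^ (-(29 / 50) * (κ : ℝ)) := by
          rw [Real.rpow_mul (by norm_num), h2N]
  have hκ' : (2 : ℝ) ≤ κ := by exact_mod_cast hκ
  calc (N : ℝ) ^ ((1 : ℝ) / 10) * B ^ ((qq κ e N) ^ 2)
      ≤ (N : ℝ) ^ ((1 : ℝ) / 10) * (N : ℝ) ^ (-(29 / 50) * (κ : ℝ)) :=
        mul_le_mul_of_nonneg_left hpow (Real.rpow_nonneg hN0.le _)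
    _ = (N : ℝ) ^ ((1 : ℝ) / 10 + -(29 / 50) * (κ : ℝ)) := (Real.rpow_add hN0 _ _).symm
    _ ≤ (N : ℝ) ^ (-(κ : ℝ) / 2 - 1 / 50) := by
        refine Real.rpow_le_rpow_of_exponent_le hN1 ?_
        linarith

end

end Pool.Agent.Rect22
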