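import Pool.Agent.Rect22.Num1

/-!
Numerical estimates, part 2.
-/

set_option autoImplicit false
set_option linter.unusedVariables false
set_option linter.unusedSectionVars false

namespace Pool.Agent.Rect22

open Finset Filter

section
theorem num_heavy_sqrt {κ : ℕ} (hκ : 2 ≤ κ) {e : ℝ} (he : 0 < e) (A : ℕ) :
    ∀ᶠ N : ℕ in atTop, A ≤ Nat.sqrt (qq κ e N) := by
  have h := (qq_tendsto hκ he).eventually_ge_atTop (A * A)
  filter_upwards [h] with N hN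
  exact Nat.le_sqrt.mpr hN

/-- TARGET 1 -/
theorem num_heavy {κ : ℕ} (hκ : 2 ≤ κ) (hκ4 : κ ≤ 4) {e : ℝ} (he : 0 < e) (he1 : e ≤ 1 / 20)
    (Kc : ℕ) :
    ∀ᶠ N : ℕ in atTop, ∀ C1 : ℕ, C1 ≤ Kc * qq κ e N →
      (N : ℝ) ^ 7 ≤ ((N : ℝ) ^ (e / 16) * (e / 3200) ^
        (2 * (RR e * C1 * Nat.sqrt (qq κ e N)) + Nat.sqrt (qq κ e N) + 1 +
          RR e * tt κ e N)) ^ (RR e) := by
  set L : ℝ := Real.logb 2 (1 / (e / 3200)) with hL
  set L2 : ℝ := Real.logb 2 (2 / (e / 3200)) with hL2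
  have hz0 : 0 < e / 3200 := by positivity
  have hz1 : e / 3200 < 1 := by linarith
  have hL0 : 0 < L := Real.logb_pos (by norm_num) (by rw [lt_div_iff₀ hz0]; linarith)
  have hL12 : L2 = 1 + L := by
    rw [hL, hL2, show 2 / (e / 3200) = 2 * (1 / (e / 3200)) by ring,
      Real.logb_mul (by norm_num) (by positivity), Real.logb_self_eq_one (by norm_num)]
  have hL20 : 0 < L2 := by linarith
  have hz : e / 3200 = (2 : ℝ) ^ (-L) := by
    rw [Real.rpow_neg (by norm_num), hL, Real.rpow_logb (by norm_num) (by norm_num) (by positivity)]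
    simp
  have hR : (14 / (e / 16) : ℝ) ≤ RR e := Nat.le_ceil _
  have hR0 : (0 : ℝ) < RR e := lt_of_lt_of_le (by positivity) hR
  have hRe : 14 ≤ (RR e : ℝ) * (e / 16) := by
    rw [div_le_iff₀ (by positivity)] at hR
    exact hR
  obtain ⟨A, hA⟩ := exists_nat_ge ((2 * RR e * Kc + 2) * L * 40 / (e / 16))
  filter_upwards [qq_bounds hκ hκ4 he he1, num_heavy_sqrt hκ he (A + 1)] with N hN hs C1 hC1
  obtain ⟨hq1, hq2, hl⟩ := hN
  set q : ℕ := qq κ e N with hq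
  set s : ℕ := Nat.sqrt q with hsd
  set l : ℝ := ell N with hld
  have hs1 : (1 : ℝ) ≤ s := by exact_mod_cast le_trans (Nat.le_add_left 1 A) hs
  have hsA : (A : ℝ) ≤ s := by exact_mod_cast le_trans (Nat.le_succ A) hs
  have hsq : (s : ℝ) * s ≤ q := by exact_mod_cast Nat.sqrt_le q
  have hq1' : (1 : ℝ) ≤ q := by nlinarith
  have hCq : (C1 : ℝ) ≤ Kc * q := by exact_mod_cast hC1
  have hNpos : (0 : ℝ) < N := by
    rcases Nat.eq_zero_or_pos N with h | h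
    · exfalso
      rw [hld, ell, h] at hl
      simp at hl
      linarith
    · exact_mod_cast h
  have hNl : (N : ℝ) = (2 : ℝ) ^ l := by
    rw [hld, ell, Real.rpow_logb (by norm_num) (by norm_num) hNpos]
  have htt : (tt κ e N : ℝ) ≤ th e * (q : ℝ) ^ 2 := by
    apply Nat.floor_le
    have : 0 ≤ th e := by
      unfold th
      positivity
    positivity
  have hth : th e * (40 * (RR e + 80) * L2) = e / 16 := by
    unfold th
    rw [← hL2]
    field_simp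
  have hth0 : 0 < th e := by
    unfold th
    rw [← hL2]
    positivity
  have hKc0 : (0 : ℝ) ≤ Kc := Nat.cast_nonneg _
  -- part 1
  have hp1 : (RR e : ℝ) * tt κ e N * L ≤ e / 16 * l / 8 := by
    have h1 : (RR e : ℝ) * tt κ e N * L ≤ RR e * (th e * (5 * l)) * L2 := by
      have h2 : (tt κ e N : ℝ) ≤ th e * (5 * l) :=
        le_trans htt (mul_le_mul_of_nonneg_left hq2 hth0.le)
      have h3 : (RR e : ℝ) * tt κ e N ≤ RR e * (th e * (5 * l)) :=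
        mul_le_mul_of_nonneg_left h2 hR0.le
      have h4 : L ≤ L2 := by linarith
      exact mul_le_mul h3 h4 hL0.le (by positivity)
    have h5 : RR e * (th e * (5 * l)) * L2 ≤ (th e * (40 * (RR e + 80) * L2)) * l / 8 := by
      have : 0 ≤ th e * l * L2 := by positivity
      linarith
    rw [hth] at h5
    linarith
  -- part 2
  have hp2 : ((2 * (RR e * C1 * s) + s + 1 : ℕ) : ℝ) * L ≤ e / 16 * l / 8 := by
    push_cast
    have h1 : (2 * ((RR e : ℝ) * C1 * s) + s + 1) ≤ (2 * RR e * Kc + 2) * q * s := by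
      have ha : (RR e : ℝ) * C1 * s ≤ RR e * (Kc * q) * s := by gcongr
      have hb : (s : ℝ) ≤ q * s := by
        have := mul_le_mul_of_nonneg_right hq1' (show (0 : ℝ) ≤ s by linarith)
        linarith
      linarith
    have h2 : (2 * RR e * Kc + 2) * L * 40 ≤ e / 16 * s := by
      rw [div_le_iff₀ (by positivity)] at hA
      have h6 : (0 : ℝ) ≤ e / 16 := by positivity
      have h7 := mul_le_mul_of_nonneg_right hsA h6
      linarith
    have h3 : (2 * ((RR e : ℝ) * C1 * s) + s + 1) * L ≤ (2 * RR e * Kc + 2) * q * s * L :=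
      mul_le_mul_of_nonneg_right h1 hL0.le
    have h4 : (2 * RR e * Kc + 2) * L * 40 * (q * s) ≤ e / 16 * s * (q * s) :=
      mul_le_mul_of_nonneg_right h2 (by positivity)
    have h5 : e / 16 * s * (q * s) ≤ e / 16 * ((q : ℝ) ^ 2) := by
      have h8 : (s : ℝ) * (q * s) ≤ (q : ℝ) ^ 2 := by
        have := mul_le_mul_of_nonneg_left hsq (show (0 : ℝ) ≤ q by linarith)
        linarith
      have h6 : (0 : ℝ) ≤ e / 16 := by positivity
      have := mul_le_mul_of_nonneg_left h8 h6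
      linarith
    have h7 : e / 16 * ((q : ℝ) ^ 2) ≤ e / 16 * (5 * l) :=
      mul_le_mul_of_nonneg_left hq2 (by positivity)
    linarith
  set M : ℕ := 2 * (RR e * C1 * s) + s + 1 + RR e * tt κ e N with hM
  have hML : (M : ℝ) * L ≤ e / 16 * l / 4 := by
    have : (M : ℝ) = ((2 * (RR e * C1 * s) + s + 1 : ℕ) : ℝ) + RR e * tt κ e N := by
      rw [hM]
      push_cast
      ring
    rw [this, add_mul]
    linarith
  have hin : (N : ℝ) ^ (e / 16) * (e / 3200) ^ M = (2 : ℝ) ^ (l * (e / 16) - M * L) := by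
    rw [hNl, ← Real.rpow_mul (by norm_num), hz, ← Real.rpow_natCast, ← Real.rpow_mul (by norm_num),
      ← Real.rpow_add (by norm_num)]
    congr 1
    ring
  rw [hin, ← Real.rpow_natCast (N : ℝ) 7, ← Real.rpow_natCast _ (RR e),
    ← Real.rpow_mul (by norm_num), hNl, ← Real.rpow_mul (by norm_num)]
  apply Real.rpow_le_rpow_of_exponent_le (by norm_num)
  push_cast
  have h8 : l * (e / 16) - M * L ≥ l * (e / 16) / 2 := by
    have : 0 ≤ l * (e / 16) := by positivity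
    linarith
  have h9 : (l * (e / 16) - M * L) * RR e ≥ l * (e / 16) / 2 * RR e :=
    mul_le_mul_of_nonneg_right h8 hR0.le
  have h10 : l * 14 ≤ l * ((RR e : ℝ) * (e / 16)) := mul_le_mul_of_nonneg_left hRe (by linarith)
  linarith

/-- TARGET 2 -/
theorem num_k0 {κ : ℕ} (hκ : 2 ≤ κ) (hκ4 : κ ≤ 4) {e : ℝ} (he : 0 < e) (he1 : e ≤ 1 / 20)
    (Kc : ℕ) :
    ∀ᶠ N : ℕ in atTop, ∀ C1 : ℕ, C1 ≤ Kc * qq κ e N →
      RR e * C1 * Nat.sqrt (qq κ e N) + Nat.sqrt (qq κ e N) + 1 < (qq κ e N) ^ 2 := by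
  filter_upwards [num_heavy_sqrt hκ he (RR e * Kc + 3)] with N hs C1 hC1
  set q : ℕ := qq κ e N with hq
  set s : ℕ := Nat.sqrt q with hsd
  have hsq : s * s ≤ q := Nat.sqrt_le q
  have hs1 : 1 ≤ s := by omega
  have hq1 : 1 ≤ q := by nlinarith
  have ha : RR e * C1 * s ≤ RR e * (Kc * q) * s := by gcongr
  have h1 : RR e * C1 * s + s + 1 ≤ (RR e * Kc + 2) * (q * s) := by
    have hb : s ≤ q * s := by nlinarith
    have hc : 1 ≤ q * s := by nlinarith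
    nlinarith
  have h2 : (RR e * Kc + 2) * (q * s) < s * (q * s) := by
    apply Nat.mul_lt_mul_of_pos_right (by omega)
    positivity
  have h3 : s * (q * s) ≤ q ^ 2 := by nlinarith
  omega

end

section
/-- TARGET -/
theorem num_mom {κ : ℕ} (hκ : 2 ≤ κ) (hκ4 : κ ≤ 4) {e : ℝ} (he : 0 < e) (he1 : e ≤ 1 / 20) :
    ∀ᶠ N : ℕ in atTop, (((N : ℝ) ^ (e / 16) / (N : ℝ) ^ ((1 : ℝ) / 10)) *
      (2 / (e / 3200)) ^ (80 * tt κ e N + 2)) ^ 80 ≤ (N : ℝ) ^ (-(7 : ℝ)) := by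
  set W : ℝ := 2 / (e / 3200) with hW
  have hW1 : 1 < W := by
    rw [hW, lt_div_iff₀ (by positivity)]
    linarith
  have hW0 : 0 < W := by linarith
  have hlW : 0 < Real.logb 2 W := Real.logb_pos (by norm_num) hW1
  have hlim : ∀ᶠ N : ℕ in atTop, W ^ 160 ≤ (N : ℝ) ^ ((7 : ℝ) / 10) := by
    have h1 : Tendsto (fun N : ℕ => (N : ℝ) ^ ((7 : ℝ) / 10)) atTop atTop :=
      (tendsto_rpow_atTop (by norm_num)).comp tendsto_natCast_atTop_atTop
    exact h1.eventually_ge_atTop _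
  filter_upwards [qq_bounds hκ hκ4 he he1, hlim, eventually_ge_atTop 1] with N hN hlimN hN1
  obtain ⟨-, hq2, hl1⟩ := hN
  have hx1 : (1 : ℝ) ≤ (N : ℝ) := by exact_mod_cast hN1
  have hx0 : (0 : ℝ) < (N : ℝ) := by linarith
  have hR : (0 : ℝ) ≤ (RR e : ℝ) := Nat.cast_nonneg _
  have hden : 0 < 40 * ((RR e : ℝ) + 80) * Real.logb 2 W := by positivity
  have hth : th e = (e / 16) / (40 * (RR e + 80) * Real.logb 2 W) := by
    rw [hW]; rfl
  have hth0 : 0 ≤ th e := by rw [hth]; positivity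
  have hth1 : th e * (40 * ((RR e : ℝ) + 80) * Real.logb 2 W) = e / 16 := by
    rw [hth]; field_simp
  have hth2 : 400 * th e * Real.logb 2 W ≤ e / 128 := by
    have h1 : 0 ≤ th e * Real.logb 2 W := by positivity
    have h2 : th e * Real.logb 2 W * (RR e : ℝ) ≥ 0 := by positivity
    nlinarith [hth1, h1, h2]
  have htt : (tt κ e N : ℝ) ≤ th e * (5 * ell N) := by
    have h1 : (tt κ e N : ℝ) ≤ th e * (qq κ e N : ℝ) ^ 2 :=
      Nat.floor_le (by positivity)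
    exact h1.trans (mul_le_mul_of_nonneg_left hq2 hth0)
  have hp1 : W ^ (80 * tt κ e N) ≤ (N : ℝ) ^ (e / 128) := by
    have h1 : W ^ (80 * tt κ e N) = W ^ ((80 * tt κ e N : ℕ) : ℝ) := (Real.rpow_natCast _ _).symm
    rw [h1]
    have h2 : ((80 * tt κ e N : ℕ) : ℝ) ≤ 400 * th e * ell N := by
      push_cast
      linarith
    calc W ^ ((80 * tt κ e N : ℕ) : ℝ) ≤ W ^ (400 * th e * ell N) :=
          Real.rpow_le_rpow_of_exponent_le hW1.le h2
      _ = (N : ℝ) ^ (400 * th e * Real.logb 2 W) := by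
          rw [Real.rpow_def_of_pos hW0, Real.rpow_def_of_pos hx0]
          congr 1
          unfold ell Real.logb
          ring
      _ ≤ (N : ℝ) ^ (e / 128) := Real.rpow_le_rpow_of_exponent_le hx1 hth2
  have hp2 : ((N : ℝ) ^ (e / 16) / (N : ℝ) ^ ((1 : ℝ) / 10)) * W ^ (80 * tt κ e N + 2) ≤
      (N : ℝ) ^ (e / 16 - 1 / 10 + e / 128) * W ^ 2 := by
    rw [pow_add, ← Real.rpow_sub hx0, Real.rpow_add hx0, ← mul_assoc]
    gcongr
  have hp0 : 0 ≤ ((N : ℝ) ^ (e / 16) / (N : ℝ) ^ ((1 : ℝ) / 10)) * W ^ (80 * tt κ e N + 2) := by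
    positivity
  calc (((N : ℝ) ^ (e / 16) / (N : ℝ) ^ ((1 : ℝ) / 10)) * W ^ (80 * tt κ e N + 2)) ^ 80
      ≤ ((N : ℝ) ^ (e / 16 - 1 / 10 + e / 128) * W ^ 2) ^ 80 := pow_le_pow_left₀ hp0 hp2 80
    _ = (N : ℝ) ^ ((e / 16 - 1 / 10 + e / 128) * 80) * W ^ 160 := by
        rw [mul_pow, ← pow_mul, ← Real.rpow_natCast ((N : ℝ) ^ _) 80, ← Real.rpow_mul hx0.le]
        norm_num
    _ ≤ (N : ℝ) ^ (-(77 / 10) : ℝ) * (N : ℝ) ^ ((7 : ℝ) / 10) := by
        have h1 : (N : ℝ) ^ ((e / 16 - 1 / 10 + e / 128) * 80) ≤ (N : ℝ) ^ (-(77 / 10) : ℝ) :=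
          Real.rpow_le_rpow_of_exponent_le hx1 (by linarith)
        exact mul_le_mul h1 hlimN (by positivity) (by positivity)
    _ = (N : ℝ) ^ (-(7 : ℝ)) := by
        rw [← Real.rpow_add hx0]
        norm_num

end

section
theorem sqrt_tend : Tendsto (fun q : ℕ => Nat.sqrt q) atTop atTop := by
  rw [tendsto_atTop]
  intro b
  filter_upwards [eventually_ge_atTop (b * b)] with q hq
  exact Nat.le_sqrt.2 hq

/-- TARGET 1 -/
theorem num_small {κ : ℕ} (hκ : 2 ≤ κ) (hκ4 : κ ≤ 4) {e : ℝ} (he : 0 < e) (he1 : e ≤ 1 / 20)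
    (a : ℕ) :
    ∀ᶠ N : ℕ in atTop, 3 * ((((qq κ e N + 1) ^ a : ℕ) : ℝ) *
      (2 / 3 : ℝ) ^ (Nat.sqrt (qq κ e N))) < 1 := by
  have h1 : Tendsto (fun n : ℕ => (n : ℝ) ^ (2 * a) * (2 / 3 : ℝ) ^ n) atTop (nhds 0) :=
    tendsto_pow_const_mul_const_pow_of_abs_lt_one (2 * a) (by rw [abs_of_pos] <;> norm_num)
  have h2 : ∀ᶠ n : ℕ in atTop, (n : ℝ) ^ (2 * a) * (2 / 3 : ℝ) ^ n < 2 / 9 :=
    h1.eventually_lt_const (by norm_num)
  have h3 : Tendsto (fun N : ℕ => Nat.sqrt (qq κ e N) + 1) atTop atTop :=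
    (tendsto_add_atTop_nat 1).comp (sqrt_tend.comp (qq_tendsto hκ he))
  filter_upwards [h3.eventually h2] with N hN
  have h4 : qq κ e N + 1 ≤ (Nat.sqrt (qq κ e N) + 1) ^ 2 := by
    have := Nat.lt_succ_sqrt (qq κ e N)
    rw [Nat.succ_eq_add_one] at this
    nlinarith
  have h5 : (((qq κ e N + 1) ^ a : ℕ) : ℝ) ≤ ((Nat.sqrt (qq κ e N) + 1 : ℕ) : ℝ) ^ (2 * a) := by
    rw [pow_mul]
    have : (qq κ e N + 1) ^ a ≤ ((Nat.sqrt (qq κ e N) + 1) ^ 2) ^ a := Nat.pow_le_pow_left h4 a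
    exact_mod_cast this
  have h6 : (0 : ℝ) < (2 / 3 : ℝ) ^ (Nat.sqrt (qq κ e N)) := by positivity
  have h7 : (((qq κ e N + 1) ^ a : ℕ) : ℝ) * (2 / 3 : ℝ) ^ (Nat.sqrt (qq κ e N)) ≤
      ((Nat.sqrt (qq κ e N) + 1 : ℕ) : ℝ) ^ (2 * a) * (2 / 3 : ℝ) ^ (Nat.sqrt (qq κ e N)) :=
    mul_le_mul_of_nonneg_right h5 h6.le
  rw [pow_succ] at hN
  nlinarith

/-- TARGET 2 -/
theorem num_cont {κ : ℕ} (hκ : 2 ≤ κ) (hκ4 : κ ≤ 4) {e : ℝ} (he : 0 < e) (he1 : e ≤ 1 / 20)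
    {c : ℝ} (hc0 : 0 < c) (hc : κ + e < c ^ 2) :
    ∀ᶠ N : ℕ in atTop, ∀ q0 : ℕ, c * Real.sqrt (Real.logb 2 N) ≤ q0 + 1 →
      qq κ e N + Nat.sqrt (qq κ e N) ≤ q0 := by
  obtain ⟨β, hβ⟩ : ∃ β : ℝ, β = Real.sqrt (κ + e) := ⟨_, rfl⟩
  have hκe : 0 < (κ : ℝ) + e := by positivity
  have hβ0 : 0 < β := by rw [hβ]; exact Real.sqrt_pos.2 hκe
  have hβc : β < c := by
    rw [hβ, Real.sqrt_lt' hc0]; exact hc
  obtain ⟨δ, hδ⟩ : ∃ δ : ℝ, δ = (c - β) / (2 * β) := ⟨_, rfl⟩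
  have hδ0 : 0 < δ := by rw [hδ]; apply div_pos <;> linarith
  have hδ1 : (1 + δ) * β = (c + β) / 2 := by
    rw [hδ]; field_simp; ring
  have hx : Tendsto (fun N : ℕ => Real.sqrt (Real.logb 2 N)) atTop atTop :=
    Real.tendsto_sqrt_atTop.comp ((Real.tendsto_logb_atTop (by norm_num : (1:ℝ) < 2)).comp
      tendsto_natCast_atTop_atTop)
  have hcβ : 0 < (c - β) / 2 := by linarith
  have hev : ∀ᶠ N : ℕ in atTop, (2 + δ + 1 / (4 * δ)) / ((c - β) / 2) ≤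
      Real.sqrt (Real.logb 2 N) := hx.eventually_ge_atTop _
  filter_upwards [hev] with N hN q0 hq0
  rw [div_le_iff₀ hcβ] at hN
  have hq : (qq κ e N : ℝ) ≤ β * Real.sqrt (Real.logb 2 N) + 1 := by
    unfold qq ell
    have h1 := (Nat.ceil_lt_add_one (Real.sqrt_nonneg ((κ + e) * Real.logb 2 N))).le
    rw [Real.sqrt_mul hκe.le, ← hβ] at h1
    rw [Real.sqrt_mul hκe.le, ← hβ]
    exact h1
  have hs : ((Nat.sqrt (qq κ e N) : ℕ) : ℝ) ^ 2 ≤ qq κ e N := by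
    have := Nat.sqrt_le (qq κ e N)
    rw [sq]
    exact_mod_cast this
  have hs2 : ((Nat.sqrt (qq κ e N) : ℕ) : ℝ) ≤ δ * qq κ e N + 1 / (4 * δ) := by
    have h1 : ((Nat.sqrt (qq κ e N) : ℕ) : ℝ) ≤
        δ * ((Nat.sqrt (qq κ e N) : ℕ) : ℝ) ^ 2 + 1 / (4 * δ) := by
      have h2 : δ * ((Nat.sqrt (qq κ e N) : ℕ) : ℝ) ^ 2 + 1 / (4 * δ) -
          ((Nat.sqrt (qq κ e N) : ℕ) : ℝ) =
          δ * (((Nat.sqrt (qq κ e N) : ℕ) : ℝ) - 1 / (2 * δ)) ^ 2 := by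
        field_simp; ring
      have h3 : 0 ≤ δ * (((Nat.sqrt (qq κ e N) : ℕ) : ℝ) - 1 / (2 * δ)) ^ 2 := by positivity
      linarith
    have h4 : δ * ((Nat.sqrt (qq κ e N) : ℕ) : ℝ) ^ 2 ≤ δ * qq κ e N :=
      mul_le_mul_of_nonneg_left hs hδ0.le
    linarith
  have hfin : ((qq κ e N + Nat.sqrt (qq κ e N) : ℕ) : ℝ) ≤ q0 := by
    push_cast
    have h1 : (1 + δ) * (qq κ e N : ℝ) ≤ (1 + δ) * (β * Real.sqrt (Real.logb 2 N) + 1) :=
      mul_le_mul_of_nonneg_left hq (by linarith)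
    have h2 : (1 + δ) * (β * Real.sqrt (Real.logb 2 N) + 1) =
        (c + β) / 2 * Real.sqrt (Real.logb 2 N) + (1 + δ) := by
      rw [mul_add, ← mul_assoc, hδ1, mul_one]
    nlinarith
  exact_mod_cast hfin

/-- TARGET 3 -/
theorem num_over {κ : ℕ} (hκ : 2 ≤ κ) (hκ4 : κ ≤ 4) {e : ℝ} (he : 0 < e) (he1 : e ≤ 1 / 20) :
    0 < th e ∧ ∀ᶠ N : ℕ in atTop, 2 ≤ ⌊th e * qq κ e N⌋₊ ∧
      (⌊th e * qq κ e N⌋₊ - 1) * qq κ e N < tt κ e N ∧
      2 * qq κ e N ≤ ⌈4 / th e⌉₊ * (⌊th e * qq κ e N⌋₊ - 1) ∧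
      1 ≤ Nat.sqrt (qq κ e N) ∧
      qq κ e N / Nat.sqrt (qq κ e N) + 1 ≤ Nat.sqrt (qq κ e N) + 3 ∧ 
      th e * qq κ e N / 2 ≤ ⌊th e * qq κ e N⌋₊ := by
  have hth : 0 < th e := by
    unfold th
    have h1 : 0 < Real.logb 2 (2 / (e / 3200)) := by
      apply Real.logb_pos (by norm_num)
      rw [lt_div_iff₀ (by positivity)]
      linarith
    positivity
  refine ⟨hth, ?_⟩
  have hq : Tendsto (fun N : ℕ => qq κ e N) atTop atTop := qq_tendsto hκ he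
  filter_upwards [hq.eventually (eventually_ge_atTop (⌈4 / th e⌉₊ + 1))] with N hN
  obtain ⟨q, hqd⟩ : ∃ q : ℕ, q = qq κ e N := ⟨_, rfl⟩
  unfold tt
  rw [← hqd] at hN ⊢
  have hq1 : 1 ≤ q := by omega
  have hq1' : (1 : ℝ) ≤ q := by exact_mod_cast hq1
  have hq4 : 4 / th e ≤ q := by
    have h1 : 4 / th e ≤ (⌈4 / th e⌉₊ : ℝ) := Nat.le_ceil _
    have h2 : ((⌈4 / th e⌉₊ : ℕ) : ℝ) ≤ q := by
      have : ⌈4 / th e⌉₊ ≤ q := by omega
      exact_mod_cast this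
    linarith
  have hthq : 4 ≤ th e * q := by
    rw [div_le_iff₀ hth] at hq4
    linarith
  obtain ⟨m, hm⟩ : ∃ m : ℕ, m = ⌊th e * q⌋₊ := ⟨_, rfl⟩
  rw [← hm]
  have hm1 : (m : ℝ) ≤ th e * q := by rw [hm]; exact Nat.floor_le (by linarith)
  have hm2 : th e * q < m + 1 := by rw [hm]; exact Nat.lt_floor_add_one _
  have hm3 : 2 ≤ m := by
    rw [hm]; apply Nat.le_floor; push_cast; linarith
  have hcast : ((m - 1 : ℕ) : ℝ) = m - 1 := by
    rw [Nat.cast_sub (by omega)]; simp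
  refine ⟨hm3, ?_, ?_, ?_, ?_, ?_⟩
  · rw [← Nat.succ_le_iff]
    apply Nat.le_floor
    push_cast
    rw [hcast]
    nlinarith
  · have h1 : ((2 * q : ℕ) : ℝ) ≤ ((⌈4 / th e⌉₊ * (m - 1) : ℕ) : ℝ) := by
      push_cast
      rw [hcast]
      have h2 : 4 / th e ≤ (⌈4 / th e⌉₊ : ℝ) := Nat.le_ceil _
      have hm3' : (2 : ℝ) ≤ m := by exact_mod_cast hm3
      have h3 : 4 / th e * ((m : ℝ) - 1) ≤ (⌈4 / th e⌉₊ : ℝ) * ((m : ℝ) - 1) :=
        mul_le_mul_of_nonneg_right h2 (by linarith)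
      have h4 : 4 / th e * (th e * q - 2) ≤ 4 / th e * ((m : ℝ) - 1) :=
        mul_le_mul_of_nonneg_left (by linarith) (by positivity)
      have h5 : 4 / th e * (th e * q - 2) = 4 * q - 2 * (4 / th e) := by
        field_simp
      linarith
    exact_mod_cast h1
  · exact Nat.le_sqrt.2 (by omega)
  · have h1 := Nat.lt_succ_sqrt q
    rw [Nat.succ_eq_add_one] at h1
    have h2 : q / Nat.sqrt q ≤ Nat.sqrt q + 2 := by
      apply Nat.div_le_of_le_mul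
      nlinarith
    omega
  · linarith

end

end Pool.Agent.Rect22
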