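import Pool.Agent.Rect22.Num1

/-!
Numerical estimates, part 3.
-/

set_option autoImplicit false
set_option linter.unusedVariables false
set_option linter.unusedSectionVars false

namespace Pool.Agent.Rect22

open Finset Filter

section
theorem num_initX_aux (R : ℕ) (x : ℝ) (hx : 0 ≤ x) (h : 2 * (R : ℝ) * x ≤ 1) : (1 + x) ^ R ≤ 2 := by
  have h1 : 1 + x ≤ Real.exp x := by
    have := Real.add_one_le_exp x; linarith
  have h2 : (1 + x) ^ R ≤ Real.exp x ^ R := pow_le_pow_left₀ (by linarith) h1 R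
  rw [← Real.exp_nat_mul] at h2
  have h3 : Real.exp (R * x) ≤ Real.exp (1 / 2) := Real.exp_le_exp.2 (by linarith)
  have h4 : Real.exp (1 / 2) * Real.exp (1 / 2) = Real.exp 1 := by
    rw [← Real.exp_add]; norm_num
  have h5 := Real.exp_one_lt_d9
  have h6 : 0 < Real.exp (1 / 2) := Real.exp_pos _
  have h7 : Real.exp (1 / 2) ≤ 2 := by nlinarith
  linarith

/-- TARGET 1 -/
theorem num_initX {ν : ℕ} (hν : 1 ≤ ν) (hν2 : ν ≤ 2) {e : ℝ} (he : 0 < e) (he1 : e ≤ 1 / 20)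
    (K0 a : ℕ) :
    ∀ᶠ N : ℕ in atTop,
      (1 + (((qq (2 * ν) e N) ^ 2 : ℕ) : ℝ) *
        (((K0 * N ^ (2 * ν) * (qq (2 * ν) e N) ^ a : ℕ) : ℝ) *
          ((N : ℝ) ^ (e / 16) * ((1 / (3 / 2 - e / 20)) / (1 / (2 - e / 20))) ^ (FF e N) *
            (e / 3200 + 1 / (2 - e / 20)) ^ ((qq (2 * ν) e N) ^ 2)))) ^ (RR e) ≤ 2 := by
  have hκ : 2 ≤ 2 * ν := by omega
  have hκ4 : 2 * ν ≤ 4 := by omega
  filter_upwards [num_far hκ hκ4 he he1, qq_poly hκ hκ4 he he1 (a + 2) (2 * (RR e : ℝ) * K0) (e / 8)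
    (by positivity), eventually_ge_atTop 1] with N h1 h2 hN
  have hN0 : (0:ℝ) < N := by exact_mod_cast hN
  set T : ℝ := (N : ℝ) ^ (e / 16) * ((1 / (3 / 2 - e / 20)) / (1 / (2 - e / 20))) ^ (FF e N) *
            (e / 3200 + 1 / (2 - e / 20)) ^ ((qq (2 * ν) e N) ^ 2) with hT
  have d1 : 0 < 3 / 2 - e / 20 := by linarith
  have d2 : 0 < 2 - e / 20 := by linarith
  have hT0 : 0 ≤ T := by positivity
  set q : ℕ := qq (2 * ν) e N with hq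
  apply num_initX_aux
  · positivity
  · push_cast at h1 ⊢
    have e1 : (N : ℝ) ^ (2 * ν) * (N : ℝ) ^ (-(2 * (ν : ℝ)) - e / 8) * (N : ℝ) ^ (e / 8) = 1 := by
      rw [← Real.rpow_natCast (N : ℝ) (2 * ν), ← Real.rpow_add hN0, ← Real.rpow_add hN0]
      push_cast
      have : 2 * (ν : ℝ) + (-(2 * (ν : ℝ)) - e / 8) + e / 8 = 0 := by ring
      rw [this, Real.rpow_zero]
    have p1 : 0 ≤ (N : ℝ) ^ (2 * ν) := by positivity
    have p2 : 0 ≤ (N : ℝ) ^ (-(2 * (ν : ℝ)) - e / 8) := by positivity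
    calc 2 * (RR e : ℝ) * ((q : ℝ) ^ 2 * ((K0 : ℝ) * (N : ℝ) ^ (2 * ν) * (q : ℝ) ^ a * T))
        = (2 * (RR e : ℝ) * K0 * (q : ℝ) ^ (a + 2)) * ((N : ℝ) ^ (2 * ν) * T) := by ring
      _ ≤ (N : ℝ) ^ (e / 8) * ((N : ℝ) ^ (2 * ν) * (N : ℝ) ^ (-(2 * (ν : ℝ)) - e / 8)) := by
          apply mul_le_mul h2 _ (by positivity) (by positivity)
          exact mul_le_mul_of_nonneg_left h1 p1
      _ = 1 := by rw [mul_comm]; exact e1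

/-- TARGET 2 -/
theorem num_initP {ν : ℕ} (hν : 1 ≤ ν) (hν2 : ν ≤ 2) {e : ℝ} (he : 0 < e) (he1 : e ≤ 1 / 20)
    (K0 a : ℕ) :
    ∀ᶠ N : ℕ in atTop,
      ((K0 * N ^ ν * (qq (2 * ν) e N) ^ a : ℕ) : ℝ) *
        ((N : ℝ) ^ ((1 : ℝ) / 10) *
          (e / 3200 + 1 / (3 / 2 - e / 20)) ^ ((qq (2 * ν) e N) ^ 2)) ≤ 1 := by
  have hκ : 2 ≤ 2 * ν := by omega
  have hκ4 : 2 * ν ≤ 4 := by omega
  filter_upwards [num_pair hκ hκ4 he he1, qq_poly hκ hκ4 he he1 a (K0 : ℝ) (1 / 50)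
    (by norm_num), eventually_ge_atTop 1] with N h1 h2 hN
  have hN0 : (0:ℝ) < N := by exact_mod_cast hN
  set T : ℝ := (N : ℝ) ^ ((1 : ℝ) / 10) *
          (e / 3200 + 1 / (3 / 2 - e / 20)) ^ ((qq (2 * ν) e N) ^ 2) with hT
  have d1 : 0 < 3 / 2 - e / 20 := by linarith
  have hT0 : 0 ≤ T := by positivity
  set q : ℕ := qq (2 * ν) e N with hq
  push_cast at h1 ⊢
  have e1 : (N : ℝ) ^ ν * (N : ℝ) ^ (-(2 * (ν : ℝ)) / 2 - 1 / 50) * (N : ℝ) ^ ((1 : ℝ) / 50) = 1 := by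
    rw [← Real.rpow_natCast (N : ℝ) ν, ← Real.rpow_add hN0, ← Real.rpow_add hN0]
    have : (ν : ℝ) + (-(2 * (ν : ℝ)) / 2 - 1 / 50) + 1 / 50 = 0 := by ring
    rw [this, Real.rpow_zero]
  have p1 : 0 ≤ (N : ℝ) ^ ν := by positivity
  calc (K0 : ℝ) * (N : ℝ) ^ ν * (q : ℝ) ^ a * T
      = ((K0 : ℝ) * (q : ℝ) ^ a) * ((N : ℝ) ^ ν * T) := by ring
    _ ≤ (N : ℝ) ^ ((1 : ℝ) / 50) * ((N : ℝ) ^ ν * (N : ℝ) ^ (-(2 * (ν : ℝ)) / 2 - 1 / 50)) := by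
        apply mul_le_mul h2 _ (by positivity) (by positivity)
        exact mul_le_mul_of_nonneg_left h1 p1
    _ = 1 := by rw [mul_comm]; exact e1

end

section
theorem num_RR {e : ℝ} (he : 0 < e) : 1 ≤ RR e := by
  unfold RR
  exact Nat.one_le_ceil_iff.2 (by positivity)

theorem num_qpos {κ : ℕ} (hκ : 2 ≤ κ) (hκ4 : κ ≤ 4) {e : ℝ} (he : 0 < e) (he1 : e ≤ 1 / 20) :
    ∀ᶠ N : ℕ in atTop, 0 < (qq κ e N : ℝ) := by
  filter_upwards [qq_bounds hκ hκ4 he he1] with N hN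
  obtain ⟨h1, _, h3⟩ := hN
  have h4 : (0:ℝ) < (κ + e) * ell N := by positivity
  have h5 : (0:ℝ) < (qq κ e N : ℝ) ^ 2 := lt_of_lt_of_le h4 h1
  rcases (Nat.cast_nonneg (α := ℝ) (qq κ e N)).eq_or_lt with h | h
  · rw [← h] at h5; norm_num at h5
  · exact h

/-- TARGET 1 -/
theorem num_sb0 {κ : ℕ} (hκ : 2 ≤ κ) (hκ4 : κ ≤ 4) {e : ℝ} (he : 0 < e) (he1 : e ≤ 1 / 20) :
    1 ≤ RR e ∧ ∀ᶠ N : ℕ in atTop, 0 < sbN κ e N := by
  refine ⟨num_RR he, ?_⟩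
  filter_upwards [num_qpos hκ hκ4 he he1] with N hN
  have hR : (0:ℝ) < RR e := by exact_mod_cast num_RR he
  unfold sbN
  push_cast
  positivity

theorem num_vb' {κ : ℕ} (hκ : 2 ≤ κ) (hκ4 : κ ≤ 4) {e : ℝ} (he : 0 < e) (he1 : e ≤ 1 / 20) :
    ∀ᶠ N : ℕ in atTop, vbN κ e N ≤ (N : ℝ) ^ (-(e / 160)) := num_vb hκ hκ4 he he1

theorem num_vb0 {κ : ℕ} {e : ℝ} (he : 0 < e) (he1 : e ≤ 1 / 20) (N : ℕ) : 0 ≤ vbN κ e N := by
  unfold vbN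
  have : (0:ℝ) < 3 / 2 - e / 20 := by linarith
  positivity

/-- TARGET 2 -/
theorem num_gen {κ : ℕ} (hκ : 2 ≤ κ) (hκ4 : κ ≤ 4) {e : ℝ} (he : 0 < e) (he1 : e ≤ 1 / 20)
    (K0 a : ℕ) :
    ∀ᶠ N : ℕ in atTop, ((K0 * (qq κ e N) ^ a : ℕ) : ℝ) * vbN κ e N ≤ sbN κ e N := by
  have hR : (0:ℝ) < RR e := by exact_mod_cast num_RR he
  filter_upwards [num_vb' hκ hκ4 he he1, num_qpos hκ hκ4 he he1, eventually_gt_atTop 0,
    qq_poly hκ hκ4 he he1 (a + 2) (K0 * (2 * RR e * (20 / e))) (e / 160) (by positivity)]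
    with N h1 h2 h3 h4
  have hN : (0:ℝ) < N := by exact_mod_cast h3
  have hNg : (0:ℝ) < (N:ℝ) ^ (e / 160) := Real.rpow_pos_of_pos hN _
  rw [Real.rpow_neg hN.le] at h1
  push_cast
  unfold sbN
  push_cast
  calc (K0:ℝ) * (qq κ e N : ℝ) ^ a * vbN κ e N
      ≤ (K0:ℝ) * (qq κ e N : ℝ) ^ a * ((N:ℝ) ^ (e / 160))⁻¹ :=
        mul_le_mul_of_nonneg_left h1 (by positivity)
    _ ≤ (e / 20) / (2 * (RR e * (qq κ e N : ℝ) ^ 2)) := by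
        rw [← div_eq_mul_inv, div_le_div_iff₀ hNg (by positivity)]
        have h5 : (K0:ℝ) * (qq κ e N : ℝ) ^ a * (2 * (RR e * (qq κ e N : ℝ) ^ 2)) =
            (e / 20) * ((K0 * (2 * RR e * (20 / e))) * (qq κ e N : ℝ) ^ (a + 2)) := by
          rw [pow_add]
          field_simp
        rw [h5]
        exact mul_le_mul_of_nonneg_left h4 (by positivity)

/-- TARGET 3 -/
theorem num_hsb {κ : ℕ} (hκ : 2 ≤ κ) (hκ4 : κ ≤ 4) {e : ℝ} (he : 0 < e) (he1 : e ≤ 1 / 20)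
    (Kc : ℕ) :
    ∀ᶠ N : ℕ in atTop, ∀ C1 : ℕ, C1 ≤ Kc * qq κ e N →
      80 * (C1 * vbN κ e N) ≤ sbN κ e N / 2 := by
  filter_upwards [num_gen hκ hκ4 he he1 (160 * Kc) 1] with N h C1 hC
  have hv := num_vb0 (κ := κ) he he1 N
  have hC' : (C1 : ℝ) ≤ Kc * qq κ e N := by exact_mod_cast hC
  push_cast at h
  rw [pow_one] at h
  have h2 : (C1 : ℝ) * vbN κ e N ≤ (Kc * qq κ e N) * vbN κ e N :=
    mul_le_mul_of_nonneg_right hC' hv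
  linarith

/-- TARGET 4 -/
theorem num_7 {κ : ℕ} (hκ : 2 ≤ κ) (hκ4 : κ ≤ 4) {e : ℝ} (he : 0 < e) (he1 : e ≤ 1 / 20)
    (K0 : ℕ) :
    ∀ᶠ N : ℕ in atTop, (N : ℝ) ^ (-(7 : ℝ)) * (9 * (K0 * (N : ℝ) ^ 4)) < (sbN κ e N / 2) ^ 80 := by
  have hR : (0:ℝ) < RR e := by exact_mod_cast num_RR he
  set c : ℝ := (e / (80 * RR e)) ^ 80 with hc
  have hcpos : 0 < c := by positivity
  filter_upwards [num_qpos hκ hκ4 he he1, eventually_gt_atTop 1,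
    qq_poly hκ hκ4 he he1 160 (9 * K0 / c) 2 (by norm_num)] with N h2 h3 h4
  have hN1 : (1:ℝ) < N := by exact_mod_cast h3
  have hN : (0:ℝ) < N := by linarith
  have h5 : (sbN κ e N / 2) ^ 80 = c / (qq κ e N : ℝ) ^ 160 := by
    unfold sbN
    push_cast
    rw [hc, show (160:ℕ) = 2 * 80 from rfl, pow_mul, ← div_pow]
    congr 1
    field_simp
    norm_num
  have h6 : (N : ℝ) ^ (-(7 : ℝ)) = ((N : ℝ) ^ 7)⁻¹ := by
    rw [Real.rpow_neg hN.le]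
    congr 1
    exact_mod_cast Real.rpow_natCast (N:ℝ) 7
  have h7 : (N : ℝ) ^ (2 : ℝ) = (N : ℝ) ^ 2 := by exact_mod_cast Real.rpow_natCast (N:ℝ) 2
  rw [h7] at h4
  rw [h5, h6]
  have h8 : 9 * (K0:ℝ) * (qq κ e N : ℝ) ^ 160 ≤ c * (N:ℝ) ^ 2 := by
    have h9 : 9 * (K0:ℝ) * (qq κ e N : ℝ) ^ 160 = c * (9 * K0 / c * (qq κ e N : ℝ) ^ 160) := by
      field_simp
    rw [h9]
    exact mul_le_mul_of_nonneg_left h4 hcpos.le
  have h10 : ((N : ℝ) ^ 7)⁻¹ * (9 * (K0 * (N : ℝ) ^ 4)) = (9 * K0) / (N:ℝ) ^ 3 := by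
    field_simp
  rw [h10, div_lt_div_iff₀ (by positivity) (by positivity)]
  have h11 : c * (N:ℝ) ^ 2 < c * (N:ℝ) ^ 3 := by
    apply mul_lt_mul_of_pos_left _ hcpos
    nlinarith [pow_pos hN 2]
  linarith

end

end Pool.Agent.Rect22
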