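import Pool.Agent.Rect22.Init
import Pool.Agent.Rect22.Num1
import Pool.Agent.Rect22.Num2
import Pool.Agent.Rect22.Num3

/-!
The hypotheses hold for large boards.
-/

set_option autoImplicit false
set_option linter.unusedVariables false
set_option linter.unusedSectionVars false

namespace Pool.Agent.Rect22

open Finset Filter

section
section given
variable {α : Type*} [DecidableEq α]

end given

/-- TARGET 1 -/
theorem PP_ok {e : ℝ} (he : 0 < e) (he1 : e ≤ 1 / 20) {N : ℕ} (hN : 1 ≤ N) : (PP e N).OK := by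
  have hN1 : (1 : ℝ) ≤ N := by exact_mod_cast hN
  have hN0 : (0 : ℝ) < N := by linarith
  have h1 : 0 < 3 / 2 - e / 20 := by linarith
  have h2 : 0 < 2 - e / 20 := by linarith
  refine ⟨?_, ?_, ?_, ?_, ?_, ?_, ?_, ?_, ?_, ?_, ?_⟩
  · show 0 < e / 20
    positivity
  · show e / 20 ≤ 1 / 4
    linarith
  · show 1 ≤ (N : ℝ) ^ (e / 16)
    exact Real.one_le_rpow hN1 (by positivity)
  · show 0 < e / 3200
    positivity
  · show e / 3200 ≤ 1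
    linarith
  · show 0 < (N : ℝ) ^ ((1 : ℝ) / 10)
    exact Real.rpow_pos_of_pos hN0 _
  · show 0 < 1 / (2 - e / 20)
    positivity
  · show 1 / (2 - e / 20) ≤ 1 / (3 / 2 - e / 20)
    exact one_div_le_one_div_of_le h1 (by linarith)
  · show 1 / (3 / 2 - e / 20) ≤ 1
    rw [div_le_one h1]
    linarith
  · show 1 ≤ 1 / (3 / 2 - e / 20) * (3 / 2 - e / 20)
    rw [one_div, inv_mul_cancel₀ h1.ne']
  · show 1 ≤ 1 / (2 - e / 20) * (2 - e / 20)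
    rw [one_div, inv_mul_cancel₀ h2.ne']

theorem hyp_gen_ups27203 {α : Type} [DecidableEq α] (P : Pm) (N1 N2 : ℝ)
    {Fam : Finset (Finset α)} {Pr : Finset (α × α)} (R r : ℕ) (s : St α) :
    Ups (KK Fam Pr R r) (ww P N1 N2 s) = Ups (XK Fam R) (xw P s) / N1 +
      Ups (PK Fam Pr r) (pw P s) / N2 := by
  unfold Ups KK
  rw [Finset.sum_disjSum, Finset.sum_div, Finset.sum_div]
  rfl

/-- TARGET 2: the hypotheses hold for large `N` -/
theorem hyp_gen {ν : ℕ} (hν : 1 ≤ ν) (hν2 : ν ≤ 2) {e : ℝ} (he : 0 < e) (he1 : e ≤ 1 / 20)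
    (K0 a Kc : ℕ) (hK0 : 1 ≤ K0) :
    ∀ᶠ N : ℕ in atTop, ∀ (α : Type) [DecidableEq α] (V : Finset α) (Fam : Finset (Finset α))
      (Pr : Finset (α × α)) (C1 : ℕ),
      C1 ≤ Kc * qq (2 * ν) e N →
      (∀ A ∈ Fam, A ⊆ V) →
      (∀ A ∈ Fam, A.card = (qq (2 * ν) e N) ^ 2) →
      (∀ B ∈ Fam, (Fam.filter (fun A => tt (2 * ν) e N ≤ (A ∩ B).card)).card ≤ C1) →
      (∀ z, (Fam.filter (fun A => z ∈ A)).card ≤ K0 * N ^ (2 * ν) * (qq (2 * ν) e N) ^ a) →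
      (∀ p ∈ Pr, (Fam.filter (fun A => p.1 ∈ A ∧ p.2 ∈ A)).card ≤
        K0 * N ^ ν * (qq (2 * ν) e N) ^ a) →
      (∀ x z, x ≠ z → (x, z) ∉ Pr → (Fam.filter (fun A => x ∈ A ∧ z ∈ A)).card ≤
        K0 * (qq (2 * ν) e N) ^ a) →
      Fam.card ≤ K0 * N ^ (2 * ν + 2) →
      Pr.card ≤ K0 * N ^ 4 →
      (∀ A ∈ Fam, (Fam.image (fun E => E ∩ A)).card ≤ (qq (2 * ν) e N + 1) ^ a) →
      Hyp (mkD ν e K0 a N V Fam Pr C1) := by
  have hκ : 2 ≤ 2 * ν := by omega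
  have hκ4 : 2 * ν ≤ 4 := by omega
  obtain ⟨hRR, hsb0⟩ := num_sb0 hκ hκ4 he he1
  filter_upwards [num_heavy hκ hκ4 he he1 Kc, num_k0 hκ hκ4 he he1 Kc, num_mom hκ hκ4 he he1,
    num_small hκ hκ4 he he1 a, num_initX hν hν2 he he1 K0 a, num_initP hν hν2 he he1 K0 a,
    hsb0, num_gen hκ hκ4 he he1 K0 a, num_hsb hκ hκ4 he he1 Kc, num_7 hκ hκ4 he he1 K0,
    eventually_ge_atTop 1, eventually_gt_atTop (9 * K0),
    (qq_tendsto hκ he).eventually_ge_atTop 1] with N n1 n2 n3 n4 n5 n6 n7 n8 n9 n10 n11 n12 n13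
  intro α _ V Fam Pr C1 hC1 hV hn hover hdeg hpair hgen hcard hPr htr
  have hN1 : (1 : ℝ) ≤ N := by exact_mod_cast n11
  have hN0 : (0 : ℝ) < N := by linarith
  have hK0r : (1 : ℝ) ≤ K0 := by exact_mod_cast hK0
  have hok : (PP e N).OK := PP_ok he he1 n11
  have hvb : 0 ≤ vbN (2 * ν) e N := by
    unfold vbN
    have h1 : 0 < 3 / 2 - e / 20 := by linarith
    positivity
  have hN1pos : 0 < (K0 : ℝ) * (N : ℝ) ^ (2 * ν + 2) := by positivity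
  have hN2pos : 0 < (K0 : ℝ) * (N : ℝ) ^ 4 := by positivity
  refine
    { pok := hok
      hV := hV
      hn := hn
      hover := hover
      N1pos := hN1pos
      N2pos := hN2pos
      hR := hRR
      sb0 := n7
      sb1 := ?_
      hgen := ?_
      hsb := ?_
      hnum := ?_
      init := ?_
      heavy := ?_
      tr := htr
      hc := n4
      hk := n2 C1 hC1
      hs0 := ?_ }
  · show 2 * ((RR e : ℝ) * (((qq (2 * ν) e N) ^ 2 : ℕ) : ℝ) * sbN (2 * ν) e N) ≤ e / 20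
    unfold sbN
    have hR0 : (RR e : ℝ) ≠ 0 := by
      have : (1 : ℝ) ≤ RR e := by exact_mod_cast hRR
      linarith
    have hq0 : (((qq (2 * ν) e N) ^ 2 : ℕ) : ℝ) ≠ 0 := by
      have : 0 < (qq (2 * ν) e N) ^ 2 := by positivity
      exact_mod_cast this.ne'
    apply le_of_eq
    field_simp
  · intro x z hxz hxzP
    show ((Fam.filter (fun A => x ∈ A ∧ z ∈ A)).card : ℝ) * vbN (2 * ν) e N ≤ sbN (2 * ν) e N
    have h1 : ((Fam.filter (fun A => x ∈ A ∧ z ∈ A)).card : ℝ) ≤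
        ((K0 * (qq (2 * ν) e N) ^ a : ℕ) : ℝ) := by
      exact_mod_cast hgen x z hxz hxzP
    exact (mul_le_mul_of_nonneg_right h1 hvb).trans n8
  · show ((80 : ℕ) : ℝ) * ((C1 : ℝ) * vbN (2 * ν) e N) < sbN (2 * ν) e N
    have := n9 C1 hC1
    push_cast
    linarith
  · show (((N : ℝ) ^ (e / 16) / (N : ℝ) ^ ((1 : ℝ) / 10)) *
      (2 / (e / 3200)) ^ (80 * tt (2 * ν) e N + 2)) ^ 80 * (9 * ((K0 : ℝ) * (N : ℝ) ^ 4)) <
      (sbN (2 * ν) e N - ((80 : ℕ) : ℝ) * ((C1 : ℝ) * vbN (2 * ν) e N)) ^ 80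
    have h1 := n9 C1 hC1
    have h2 : sbN (2 * ν) e N / 2 ≤
        sbN (2 * ν) e N - ((80 : ℕ) : ℝ) * ((C1 : ℝ) * vbN (2 * ν) e N) := by
      push_cast
      linarith
    have h3 : 0 ≤ sbN (2 * ν) e N / 2 := by linarith
    calc _ ≤ (N : ℝ) ^ (-(7 : ℝ)) * (9 * ((K0 : ℝ) * (N : ℝ) ^ 4)) :=
          mul_le_mul_of_nonneg_right n3 (by positivity)
      _ < (sbN (2 * ν) e N / 2) ^ 80 := n10
      _ ≤ _ := pow_le_pow_left₀ h3 h2 80
  · show Ups (KK Fam Pr (RR e) 80) (ww (PP e N) ((K0 : ℝ) * (N : ℝ) ^ (2 * ν + 2))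
      ((K0 : ℝ) * (N : ℝ) ^ 4) (⟨V, ∅, ∅, fun _ => ∅⟩ : St α)) ≤ 3
    rw [hyp_gen_ups27203]
    have h1 := init_X hok hV hn hdeg (RR e)
    have h2 := init_P (V := V) hok hn hpair 80
    have h3 : Ups (XK Fam (RR e)) (xw (PP e N) (⟨V, ∅, ∅, fun _ => ∅⟩ : St α)) ≤
        ((K0 : ℝ) * (N : ℝ) ^ (2 * ν + 2)) * 2 := by
      refine h1.trans ?_
      have h4 : (Fam.card : ℝ) ≤ (K0 : ℝ) * (N : ℝ) ^ (2 * ν + 2) := by exact_mod_cast hcard
      refine mul_le_mul h4 n5 ?_ hN1pos.le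
      apply pow_nonneg
      have h5 : 0 ≤ (PP e N).sig := zero_le_one.trans hok.sig1
      have h6 : 0 ≤ (PP e N).pb := hok.pq0.le.trans hok.pqb
      have h7 := hok.pq0
      have h8 := hok.zet0
      positivity
    have h4 : Ups (PK Fam Pr 80) (pw (PP e N) (⟨V, ∅, ∅, fun _ => ∅⟩ : St α)) ≤
        ((K0 : ℝ) * (N : ℝ) ^ 4) * 1 := by
      refine h2.trans ?_
      have h5 : (Pr.card : ℝ) ≤ (K0 : ℝ) * (N : ℝ) ^ 4 := by exact_mod_cast hPr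
      have h6 : 0 ≤ (PP e N).pb := hok.pq0.le.trans hok.pqb
      have h7 := hok.lam0
      have h8 := hok.zet0
      refine mul_le_mul h5 ?_ ?_ hN2pos.le
      · refine pow_le_one₀ ?_ n6
        positivity
      · positivity
    have h5 : Ups (XK Fam (RR e)) (xw (PP e N) (⟨V, ∅, ∅, fun _ => ∅⟩ : St α)) /
        ((K0 : ℝ) * (N : ℝ) ^ (2 * ν + 2)) ≤ 2 := by
      rw [div_le_iff₀ hN1pos]
      linarith
    have h6 : Ups (PK Fam Pr 80) (pw (PP e N) (⟨V, ∅, ∅, fun _ => ∅⟩ : St α)) /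
        ((K0 : ℝ) * (N : ℝ) ^ 4) ≤ 1 := by
      rw [div_le_iff₀ hN2pos]
      linarith
    linarith
  · have h1 := n1 C1 hC1
    have h2 : 2 * (RR e * C1 * Nat.sqrt (qq (2 * ν) e N)) + Nat.sqrt (qq (2 * ν) e N) + 1 +
          RR e * tt (2 * ν) e N = (mkD ν e K0 a N V Fam Pr C1).k1 +
            (mkD ν e K0 a N V Fam Pr C1).R * (mkD ν e K0 a N V Fam Pr C1).t := by
      show _ = ((RR e * C1 * Nat.sqrt (qq (2 * ν) e N)) + Nat.sqrt (qq (2 * ν) e N) + 1 +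
        (RR e * C1 * Nat.sqrt (qq (2 * ν) e N))) + RR e * tt (2 * ν) e N
      ring
    rw [h2] at h1
    refine lt_of_lt_of_le ?_ h1
    show 9 * ((K0 : ℝ) * (N : ℝ) ^ (2 * ν + 2)) < (N : ℝ) ^ 7
    have h3 : (N : ℝ) ^ (2 * ν + 2) ≤ (N : ℝ) ^ 6 := pow_le_pow_right₀ hN1 (by omega)
    have h4 : (9 : ℝ) * K0 < N := by exact_mod_cast n12
    calc 9 * ((K0 : ℝ) * (N : ℝ) ^ (2 * ν + 2)) ≤ 9 * ((K0 : ℝ) * (N : ℝ) ^ 6) := by gcongr
      _ = (9 * K0) * (N : ℝ) ^ 6 := by ring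
      _ < N * (N : ℝ) ^ 6 := mul_lt_mul_of_pos_right h4 (by positivity)
      _ = (N : ℝ) ^ 7 := by ring
  · show 1 ≤ Nat.sqrt (qq (2 * ν) e N)
    exact Nat.sqrt_pos.mpr (by omega)

end

end Pool.Agent.Rect22
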