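import Pool.Agent.Rect22.Lat1

/-!
Rectangle lattices.
-/

set_option autoImplicit false
set_option linter.unusedVariables false
set_option linter.unusedSectionVars false

namespace Pool.Agent.Rect22

open Finset 

section
theorem mem_Fam2' {N q h : ℕ} {A : Finset (ℕ × ℕ)} : A ∈ Fam2 N q h ↔
    ∃ X ∈ P1 N q h, ∃ Y ∈ P1 N q h, X ×ˢ Y = A := by
  unfold Fam2
  rw [mem_image]
  constructor
  · rintro ⟨p, hp, rfl⟩
    exact ⟨p.1, (mem_product.mp hp).1, p.2, (mem_product.mp hp).2, rfl⟩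
  · rintro ⟨X, hX, Y, hY, rfl⟩
    exact ⟨(X, Y), mem_product.mpr ⟨hX, hY⟩, rfl⟩

/-- counting through the coordinates -/
theorem fam2_count {N q h : ℕ} (S : Finset (Finset (ℕ × ℕ))) (S1 S2 : Finset (Finset ℕ))
    (c1 c2 : ℕ) (h1 : S1.card ≤ c1) (h2 : S2.card ≤ c2)
    (hS : ∀ A ∈ S, ∃ X ∈ S1, ∃ Y ∈ S2, X ×ˢ Y = A) : S.card ≤ c1 * c2 := by
  have hsub : S ⊆ (S1 ×ˢ S2).image (fun p => p.1 ×ˢ p.2) := by
    intro A hA
    obtain ⟨X, hX, Y, hY, he⟩ := hS A hA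
    exact mem_image.mpr ⟨(X, Y), mem_product.mpr ⟨hX, hY⟩, he⟩
  calc S.card ≤ _ := card_le_card hsub
    _ ≤ (S1 ×ˢ S2).card := card_image_le
    _ = S1.card * S2.card := card_product _ _
    _ ≤ c1 * c2 := Nat.mul_le_mul h1 h2

theorem Fam2_card {N q h : ℕ} {A : Finset (ℕ × ℕ)} (hA : A ∈ Fam2 N q h) : A.card = q ^ 2 := by
  obtain ⟨X, hX, Y, hY, rfl⟩ := mem_Fam2'.mp hA
  rw [card_product, P1_card hX, P1_card hY, sq]

theorem Fam2_sub {N q h : ℕ} {A : Finset (ℕ × ℕ)} (hA : A ∈ Fam2 N q h) : A ⊆ board N := by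
  obtain ⟨X, hX, Y, hY, rfl⟩ := mem_Fam2'.mp hA
  exact product_subset_product (P1_sub hX) (P1_sub hY)

theorem card_Fam2 (N q h : ℕ) : (Fam2 N q h).card ≤ N ^ 4 := by
  have := fam2_count (N := N) (q := q) (h := h) (Fam2 N q h) (P1 N q h) (P1 N q h) _ _
    (card_P1 N q h) (card_P1 N q h) (fun A hA => mem_Fam2'.mp hA)
  calc (Fam2 N q h).card ≤ N ^ 2 * N ^ 2 := this
    _ = N ^ 4 := by ring

theorem Fam2_deg (N q h : ℕ) (z : ℕ × ℕ) :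
    ((Fam2 N q h).filter (fun A => z ∈ A)).card ≤ (N * q) ^ 2 := by
  have := fam2_count (N := N) (q := q) (h := h) ((Fam2 N q h).filter (fun A => z ∈ A))
    ((P1 N q h).filter (fun X => z.1 ∈ X)) ((P1 N q h).filter (fun X => z.2 ∈ X)) _ _
    (P1_deg N q h z.1) (P1_deg N q h z.2) (fun A hA => by
      obtain ⟨hA1, hA2⟩ := mem_filter.mp hA
      obtain ⟨X, hX, Y, hY, rfl⟩ := mem_Fam2'.mp hA1
      rw [mem_product] at hA2
      exact ⟨X, mem_filter.mpr ⟨hX, hA2.1⟩, Y, mem_filter.mpr ⟨hY, hA2.2⟩, rfl⟩)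
  rw [sq]
  exact this

theorem Fam2_pdeg {N q h : ℕ} {p : (ℕ × ℕ) × (ℕ × ℕ)} (hp : p ∈ Pr2 N) :
    ((Fam2 N q h).filter (fun A => p.1 ∈ A ∧ p.2 ∈ A)).card ≤ q ^ 2 * (N * q) := by
  unfold Pr2 at hp
  obtain ⟨_, hne, hor⟩ := mem_filter.mp hp
  rcases hor with h1 | h1
  · have h2 : p.1.2 ≠ p.2.2 := fun he => hne (Prod.ext h1 he)
    have := fam2_count (N := N) (q := q) (h := h)
      ((Fam2 N q h).filter (fun A => p.1 ∈ A ∧ p.2 ∈ A))
      ((P1 N q h).filter (fun X => p.1.1 ∈ X))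
      ((P1 N q h).filter (fun X => p.1.2 ∈ X ∧ p.2.2 ∈ X)) _ _
      (P1_deg N q h p.1.1) (P1_pair N q h h2) (fun A hA => by
        obtain ⟨hA1, hA2, hA3⟩ := mem_filter.mp hA
        obtain ⟨X, hX, Y, hY, rfl⟩ := mem_Fam2'.mp hA1
        rw [mem_product] at hA2 hA3
        exact ⟨X, mem_filter.mpr ⟨hX, hA2.1⟩, Y, mem_filter.mpr ⟨hY, hA2.2, hA3.2⟩, rfl⟩)
    calc _ ≤ N * q * q ^ 2 := this
      _ = q ^ 2 * (N * q) := by ring
  · have h2 : p.1.1 ≠ p.2.1 := fun he => hne (Prod.ext he h1)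
    have := fam2_count (N := N) (q := q) (h := h)
      ((Fam2 N q h).filter (fun A => p.1 ∈ A ∧ p.2 ∈ A))
      ((P1 N q h).filter (fun X => p.1.1 ∈ X ∧ p.2.1 ∈ X))
      ((P1 N q h).filter (fun X => p.1.2 ∈ X)) _ _
      (P1_pair N q h h2) (P1_deg N q h p.1.2) (fun A hA => by
        obtain ⟨hA1, hA2, hA3⟩ := mem_filter.mp hA
        obtain ⟨X, hX, Y, hY, rfl⟩ := mem_Fam2'.mp hA1
        rw [mem_product] at hA2 hA3
        exact ⟨X, mem_filter.mpr ⟨hX, hA2.1, hA3.1⟩, Y, mem_filter.mpr ⟨hY, hA2.2⟩, rfl⟩)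
    exact this

theorem Fam2_gdeg {N q h : ℕ} {x z : ℕ × ℕ} (hxz : x ≠ z) (hp : (x, z) ∉ Pr2 N) :
    ((Fam2 N q h).filter (fun A => x ∈ A ∧ z ∈ A)).card ≤ q ^ 4 := by
  by_cases hemp : ((Fam2 N q h).filter (fun A => x ∈ A ∧ z ∈ A)) = ∅
  · rw [hemp, card_empty]
    exact Nat.zero_le _
  · obtain ⟨A, hA⟩ := nonempty_iff_ne_empty.mpr hemp
    obtain ⟨hA1, hA2, hA3⟩ := mem_filter.mp hA
    have hb := Fam2_sub hA1
    have hx1 := hb hA2
    have hz1 := hb hA3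
    have hnot : ¬ (x.1 = z.1 ∨ x.2 = z.2) := by
      intro hor
      apply hp
      unfold Pr2
      exact mem_filter.mpr ⟨mem_product.mpr ⟨hx1, hz1⟩, hxz, hor⟩
    push Not at hnot
    have := fam2_count (N := N) (q := q) (h := h)
      ((Fam2 N q h).filter (fun A => x ∈ A ∧ z ∈ A))
      ((P1 N q h).filter (fun X => x.1 ∈ X ∧ z.1 ∈ X))
      ((P1 N q h).filter (fun X => x.2 ∈ X ∧ z.2 ∈ X)) _ _
      (P1_pair N q h hnot.1) (P1_pair N q h hnot.2) (fun A hA => by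
        obtain ⟨hA1, hA2, hA3⟩ := mem_filter.mp hA
        obtain ⟨X, hX, Y, hY, rfl⟩ := mem_Fam2'.mp hA1
        rw [mem_product] at hA2 hA3
        exact ⟨X, mem_filter.mpr ⟨hX, hA2.1, hA3.1⟩, Y, mem_filter.mpr ⟨hY, hA2.2, hA3.2⟩, rfl⟩)
    calc _ ≤ q ^ 2 * q ^ 2 := this
      _ = q ^ 4 := by ring

theorem Fam2_over {N q h m t C : ℕ} (hm : (m - 1) * q < t)
    (hC : ∀ Y ∈ P1 N q h, ((P1 N q h).filter (fun X => m ≤ (X ∩ Y).card)).card ≤ C)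
    {B : Finset (ℕ × ℕ)} (hB : B ∈ Fam2 N q h) :
    ((Fam2 N q h).filter (fun A => t ≤ (A ∩ B).card)).card ≤ C ^ 2 := by
  obtain ⟨X', hX', Y', hY', rfl⟩ := mem_Fam2'.mp hB
  have := fam2_count (N := N) (q := q) (h := h)
    ((Fam2 N q h).filter (fun A => t ≤ (A ∩ (X' ×ˢ Y')).card))
    ((P1 N q h).filter (fun X => m ≤ (X ∩ X').card))
    ((P1 N q h).filter (fun X => m ≤ (X ∩ Y').card)) _ _
    (hC X' hX') (hC Y' hY') (fun A hA => by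
      obtain ⟨hA1, hA2⟩ := mem_filter.mp hA
      obtain ⟨X, hX, Y, hY, rfl⟩ := mem_Fam2'.mp hA1
      rw [product_inter_product, card_product] at hA2
      have hXq : (X ∩ X').card ≤ q := (card_le_card inter_subset_left).trans (P1_card hX).le
      have hYq : (Y ∩ Y').card ≤ q := (card_le_card inter_subset_left).trans (P1_card hY).le
      refine ⟨X, mem_filter.mpr ⟨hX, ?_⟩, Y, mem_filter.mpr ⟨hY, ?_⟩, rfl⟩
      · by_contra hcon
        push Not at hcon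
        have h1 : (X ∩ X').card ≤ m - 1 := by omega
        have h2 : (X ∩ X').card * (Y ∩ Y').card ≤ (m - 1) * q := Nat.mul_le_mul h1 hYq
        omega
      · by_contra hcon
        push Not at hcon
        have h1 : (Y ∩ Y').card ≤ m - 1 := by omega
        have h2 : (X ∩ X').card * (Y ∩ Y').card ≤ q * (m - 1) := Nat.mul_le_mul hXq h1
        rw [Nat.mul_comm q] at h2
        omega)
  rw [sq]
  exact this

theorem Fam2_tr {N q h : ℕ} {A : Finset (ℕ × ℕ)} (hA : A ∈ Fam2 N q h) :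
    ((Fam2 N q h).image (fun E => E ∩ A)).card ≤ (q + 1) ^ 6 := by
  obtain ⟨X', hX', Y', hY', rfl⟩ := mem_Fam2'.mp hA
  have := fam2_count (N := N) (q := q) (h := h)
    ((Fam2 N q h).image (fun E => E ∩ (X' ×ˢ Y')))
    ((P1 N q h).image (fun X => X ∩ X')) ((P1 N q h).image (fun X => X ∩ Y')) _ _
    (P1_tr hX') (P1_tr hY') (fun B hB => by
      obtain ⟨E, hE, rfl⟩ := mem_image.mp hB
      obtain ⟨X, hX, Y, hY, rfl⟩ := mem_Fam2'.mp hE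
      exact ⟨X ∩ X', mem_image_of_mem _ hX, Y ∩ Y', mem_image_of_mem _ hY,
        product_inter_product.symm⟩)
  calc _ ≤ (q + 1) ^ 3 * (q + 1) ^ 3 := this
    _ = (q + 1) ^ 6 := by ring

theorem card_Pr2 (N : ℕ) : (Pr2 N).card ≤ 2 * N ^ 3 := by
  have hsub : Pr2 N ⊆
      ((Icc 1 N ×ˢ (Icc 1 N ×ˢ Icc 1 N)).image
        (fun p : ℕ × (ℕ × ℕ) => (((p.1, p.2.1), (p.1, p.2.2)) : (ℕ × ℕ) × (ℕ × ℕ)))) ∪
      ((Icc 1 N ×ˢ (Icc 1 N ×ˢ Icc 1 N)).image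
        (fun p : ℕ × (ℕ × ℕ) => (((p.2.1, p.1), (p.2.2, p.1)) : (ℕ × ℕ) × (ℕ × ℕ)))) := by
    rintro ⟨⟨a, b⟩, ⟨c, d⟩⟩ hp
    unfold Pr2 board at hp
    simp only [mem_filter, mem_product] at hp
    obtain ⟨⟨⟨h1, h2⟩, ⟨h3, h4⟩⟩, _, h5⟩ := hp
    rcases h5 with h5 | h5
    · refine mem_union_left _ (mem_image.mpr ⟨(a, (b, d)), ?_, ?_⟩)
      · exact mem_product.mpr ⟨h1, mem_product.mpr ⟨h2, h4⟩⟩
      · simp [h5]
    · refine mem_union_right _ (mem_image.mpr ⟨(b, (a, c)), ?_, ?_⟩)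
      · exact mem_product.mpr ⟨h2, mem_product.mpr ⟨h1, h3⟩⟩
      · simp [h5]
  have hc : (Icc 1 N ×ˢ (Icc 1 N ×ˢ Icc 1 N)).card = N ^ 3 := by
    rw [card_product, card_product, Nat.card_Icc, Nat.add_sub_cancel]
    ring
  calc (Pr2 N).card ≤ _ := card_le_card hsub
    _ ≤ _ := card_union_le _ _
    _ ≤ N ^ 3 + N ^ 3 := Nat.add_le_add (card_image_le.trans hc.le) (card_image_le.trans hc.le)
    _ = 2 * N ^ 3 := by ring

theorem Fam2_of_has {N q h q0 : ℕ} (hh : 1 ≤ h) (hq : 1 ≤ q) (hq0 : q + h ≤ q0)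
    {M : Finset (ℕ × ℕ)} (hM : M ⊆ board N) (hL : HasLattice q0 M) :
    ∃ A ∈ Fam2 N q h, A ⊆ M := by
  obtain ⟨a, b, x, y, hx, hy, hxy⟩ := hL
  have h0 : 0 < q0 := by omega
  have hX : ap q0 (a, x) ⊆ Icc 1 N := by
    intro u hu
    unfold ap at hu
    obtain ⟨i, hi, rfl⟩ := mem_image.mp hu
    have h1 := hM (hxy i 0 (mem_range.mp hi) h0)
    exact (mem_product.mp h1).1
  have hY : ap q0 (b, y) ⊆ Icc 1 N := by
    intro u hu
    unfold ap at hu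
    obtain ⟨i, hi, rfl⟩ := mem_image.mp hu
    have h1 := hM (hxy 0 i h0 (mem_range.mp hi))
    exact (mem_product.mp h1).2
  obtain ⟨X, hXP, hXs⟩ := P1_sub_ap hh hq hq0 hx hX
  obtain ⟨Y, hYP, hYs⟩ := P1_sub_ap hh hq hq0 hy hY
  refine ⟨X ×ˢ Y, mem_Fam2'.mpr ⟨X, hXP, Y, hYP, rfl⟩, ?_⟩
  rintro ⟨u, v⟩ huv
  rw [mem_product] at huv
  have hu := hXs huv.1
  have hv := hYs huv.2
  unfold ap at hu hv
  obtain ⟨i, hi, hi2⟩ := mem_image.mp hu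
  obtain ⟨j, hj, hj2⟩ := mem_image.mp hv
  have h1 := hxy i j (mem_range.mp hi) (mem_range.mp hj)
  have e : (a + i * x, b + j * y) = (u, v) := Prod.ext hi2 hj2
  rw [e] at h1
  exact h1

end

end Pool.Agent.Rect22
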