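import Pool.Agent.Rect22.Round
import Pool.Agent.Rect22.Strat
import Pool.Agent.Rect22.Lat2
import Pool.Agent.Rect22.Num2
import Pool.Agent.Rect22.HypGen

/-!
Breaker wins the (2:2) game on rectangle lattices.
-/

set_option autoImplicit false
set_option linter.unusedVariables false
set_option linter.unusedSectionVars false

namespace Pool.Agent.Rect22

open Finset Filter

/-- bound for the number of progressions with large intersection with a given one -/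
noncomputable def CC (e : ℝ) (N : ℕ) : ℕ :=
  ((⌈4 / th e⌉₊ + 1) ^ 2 * (qq 2 e N * (qq 2 e N / Nat.sqrt (qq 2 e N) + 1))) /
    ⌊th e * qq 2 e N⌋₊

theorem CC_le {e : ℝ} (he : 0 < e) (he1 : e ≤ 1 / 20) :
    ∃ Kc : ℕ, ∀ᶠ N : ℕ in atTop, (CC e N) ^ 2 ≤ Kc * qq 2 e N := by
  obtain ⟨hth, hev⟩ := num_over (κ := 2) le_rfl (by norm_num) he he1
  refine ⟨⌈64 * ((⌈4 / th e⌉₊ : ℝ) + 1) ^ 4 / (th e) ^ 2⌉₊, ?_⟩
  filter_upwards [hev] with N hN
  obtain ⟨h1, h2, h3, h4, h5, h6⟩ := hN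
  set q := qq 2 e N with hq
  set s := Nat.sqrt q with hs
  set m := ⌊th e * q⌋₊ with hm
  set K := ⌈4 / th e⌉₊ with hK
  have hmpos : (0 : ℝ) < m := by
    have : 0 < m := by omega
    exact_mod_cast this
  have hC : (CC e N : ℝ) * m ≤ (K + 1) ^ 2 * (q * (q / s + 1 : ℕ)) := by
    have : CC e N * m ≤ (K + 1) ^ 2 * (q * (q / s + 1)) := Nat.div_mul_le_self _ _
    exact_mod_cast this
  have hs2 : s * s ≤ q := Nat.sqrt_le q
  have hs1 : (1 : ℝ) ≤ s := by exact_mod_cast h4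
  have hs2' : (s : ℝ) * s ≤ q := by exact_mod_cast hs2
  have hq1 : (1 : ℝ) ≤ q := by nlinarith
  have h5' : ((q / s + 1 : ℕ) : ℝ) ≤ 4 * s := by
    have : q / s + 1 ≤ 4 * s := by omega
    exact_mod_cast this
  have hKpos : (0 : ℝ) < ((K : ℝ) + 1) ^ 2 := by positivity
  have h7 : (CC e N : ℝ) * (th e * q / 2) ≤ (K + 1) ^ 2 * (q * (4 * s)) := by
    calc (CC e N : ℝ) * (th e * q / 2) ≤ (CC e N : ℝ) * m :=
          mul_le_mul_of_nonneg_left h6 (Nat.cast_nonneg _)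
      _ ≤ (K + 1) ^ 2 * (q * (q / s + 1 : ℕ)) := hC
      _ ≤ (K + 1) ^ 2 * (q * (4 * s)) := by
          apply mul_le_mul_of_nonneg_left _ hKpos.le
          exact mul_le_mul_of_nonneg_left h5' (by linarith)
  have h8 : (CC e N : ℝ) ≤ 8 * (K + 1) ^ 2 * s / th e := by
    rw [le_div_iff₀ hth]
    have h9 : (CC e N : ℝ) * th e * q ≤ (8 * (K + 1) ^ 2 * s) * q := by nlinarith
    exact le_of_mul_le_mul_right h9 (by linarith)
  have h10 : (CC e N : ℝ) ^ 2 ≤ (64 * ((K : ℝ) + 1) ^ 4 / (th e) ^ 2) * q := by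
    have h11 : (CC e N : ℝ) ^ 2 ≤ (8 * (K + 1) ^ 2 * s / th e) ^ 2 :=
      pow_le_pow_left₀ (Nat.cast_nonneg _) h8 2
    refine h11.trans ?_
    have h12 : (8 * ((K : ℝ) + 1) ^ 2 * s / th e) ^ 2 =
        (64 * ((K : ℝ) + 1) ^ 4 / (th e) ^ 2) * (s * s) := by
      field_simp
      ring
    rw [h12]
    exact mul_le_mul_of_nonneg_left hs2' (by positivity)
  have h13 : ((CC e N ^ 2 : ℕ) : ℝ) ≤
      ((⌈64 * ((K : ℝ) + 1) ^ 4 / (th e) ^ 2⌉₊ * q : ℕ) : ℝ) := by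
    push_cast
    refine h10.trans ?_
    exact mul_le_mul_of_nonneg_right (Nat.le_ceil _) (by linarith)
  exact_mod_cast h13

theorem hyp2 {e : ℝ} (he : 0 < e) (he1 : e ≤ 1 / 20) :
    ∀ᶠ N : ℕ in atTop, Hyp (mkD 1 e 2 6 N (board N) (Fam2 N (qq 2 e N) (Nat.sqrt (qq 2 e N)))
      (Pr2 N) ((CC e N) ^ 2)) := by
  obtain ⟨Kc, hKc⟩ := CC_le he he1
  have hg := hyp_gen (ν := 1) le_rfl (by norm_num) he he1 2 6 Kc (by norm_num)
  obtain ⟨hth, hev⟩ := num_over (κ := 2) le_rfl (by norm_num) he he1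
  filter_upwards [hKc, hg, hev, eventually_ge_atTop 1] with N h1 h2 h3 hN1
  obtain ⟨g1, g2, g3, g4, g5, g6⟩ := h3
  have hq1 : 1 ≤ qq 2 e N := by
    by_contra hcon
    have : qq 2 e N = 0 := by omega
    rw [this] at g4
    simp at g4
  have e21 : 2 * 1 = 2 := rfl
  simp only [e21] at h2
  refine h2 (ℕ × ℕ) (board N) _ (Pr2 N) _ h1 (fun A hA => Fam2_sub hA) (fun A hA => Fam2_card hA)
    ?_ ?_ ?_ ?_ ?_ ?_ ?_
  · intro B hB
    refine Fam2_over g2 ?_ hB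
    intro Y hY
    have h4 := P1_over (N := N) (h := Nat.sqrt (qq 2 e N)) (K := ⌈4 / th e⌉₊) g4 g1 g3 hY
    exact (Nat.le_div_iff_mul_le (by omega)).2 h4
  · intro z
    refine (Fam2_deg _ _ _ z).trans ?_
    calc (N * qq 2 e N) ^ 2 = N ^ 2 * (qq 2 e N) ^ 2 := by ring
      _ ≤ N ^ 2 * (qq 2 e N) ^ 6 :=
          Nat.mul_le_mul_left _ (Nat.pow_le_pow_right hq1 (by norm_num))
      _ ≤ 2 * N ^ 2 * (qq 2 e N) ^ 6 := by
          apply Nat.mul_le_mul_right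
          omega
  · intro p hp
    refine (Fam2_pdeg hp).trans ?_
    calc (qq 2 e N) ^ 2 * (N * qq 2 e N) = N ^ 1 * (qq 2 e N) ^ 3 := by ring
      _ ≤ N ^ 1 * (qq 2 e N) ^ 6 :=
          Nat.mul_le_mul_left _ (Nat.pow_le_pow_right hq1 (by norm_num))
      _ ≤ 2 * N ^ 1 * (qq 2 e N) ^ 6 := by
          apply Nat.mul_le_mul_right
          omega
  · intro x z hxz hp
    refine (Fam2_gdeg hxz hp).trans ?_
    calc (qq 2 e N) ^ 4 ≤ (qq 2 e N) ^ 6 := Nat.pow_le_pow_right hq1 (by norm_num)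
      _ ≤ 2 * (qq 2 e N) ^ 6 := by omega
  · refine (card_Fam2 _ _ _).trans ?_
    have : N ^ (2 + 2) = N ^ 4 := rfl
    rw [this]
    omega
  · refine (card_Pr2 N).trans ?_
    have : N ^ 3 ≤ N ^ 4 := Nat.pow_le_pow_right hN1 (by norm_num)
    omega
  · intro A hA
    exact Fam2_tr hA

theorem breakerWins_of_hyp {N q h q0 : ℕ} {D : Dat (ℕ × ℕ)} (H : Hyp D) (hV : D.V = board N)
    (hF : D.Fam = Fam2 N q h) (hh : 1 ≤ h) (hq : 1 ≤ q) (hq0 : q + h ≤ q0) :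
    BreakerWins N q0 := by
  refine breakerWins_of_rule (Good D) (good_start H) ?_ ?_
  · intro M B m hM hB hMB hG hm hm2
    rw [← hV] at hm ⊢
    exact good_round H hG hm hm2
  · intro M B hM hB hMB hG hfull hL
    obtain ⟨A, hA, hAM⟩ := Fam2_of_has hh hq hq0 hM hL
    rw [← hV] at hfull
    rw [← hF] at hA
    exact good_end H hG hfull hA hAM

/-- For every `c > √2` and all large `N`, Breaker wins for `q = ⌊c √(log₂ N)⌋` and all larger
`q`. -/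
theorem final2 (c : ℝ) (hc : Real.sqrt 2 < c) : ∃ N₀ : ℕ, ∀ N : ℕ, N₀ ≤ N → ∀ q : ℕ,
    c * Real.sqrt (Real.logb 2 N) ≤ q + 1 → BreakerWins N q := by
  have hc0 : 0 < c := lt_of_le_of_lt (Real.sqrt_nonneg 2) hc
  have hc2 : 2 < c ^ 2 := by
    have := (Real.sqrt_lt' hc0).1 hc
    exact this
  set e : ℝ := min ((c ^ 2 - 2) / 2) (1 / 20) with he_def
  have he : 0 < e := lt_min (by linarith) (by norm_num)
  have he1 : e ≤ 1 / 20 := min_le_right _ _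
  have he2 : ((2 : ℕ) : ℝ) + e < c ^ 2 := by
    have : e ≤ (c ^ 2 - 2) / 2 := min_le_left _ _
    push_cast
    linarith
  have h1 := hyp2 he he1
  have h2 := num_cont (κ := 2) le_rfl (by norm_num) he he1 hc0 he2
  obtain ⟨hth, h3⟩ := num_over (κ := 2) le_rfl (by norm_num) he he1
  have h4 := (h1.and h2).and h3
  obtain ⟨N₀, hN₀⟩ := eventually_atTop.1 h4
  refine ⟨N₀, fun N hN q hq => ?_⟩
  obtain ⟨⟨g1, g2⟩, g3⟩ := hN₀ N hN
  have hh : 1 ≤ Nat.sqrt (qq 2 e N) := g3.2.2.2.1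
  have hq1 : 1 ≤ qq 2 e N := by
    by_contra hcon
    have h0 : qq 2 e N = 0 := by omega
    rw [h0] at hh
    simp at hh
  exact breakerWins_of_hyp g1 rfl rfl hh hq1 (g2 q hq)

end Pool.Agent.Rect22
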