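import Pool.Agent.Rect22.ParLatDefs

/-!
Parallelogram lattices.
-/

set_option autoImplicit false
set_option linter.unusedVariables false
set_option linter.unusedSectionVars false

namespace Pool.Agent.Rect22

open Finset 

section
theorem board_card (N : ℕ) : (boardZ N).card = N * N := by
  unfold boardZ
  rw [card_product, Int.card_Icc]
  have : ((N : ℤ) + 1 - 1).toNat = N := by simp
  rw [this]

theorem steps_card (N : ℕ) : (Icc (-(N : ℤ)) N ×ˢ Icc (-(N : ℤ)) N).card = (2 * N + 1) ^ 2 := by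
  rw [card_product, Int.card_Icc]
  have : ((N : ℤ) + 1 - -(N : ℤ)).toNat = 2 * N + 1 := by omega
  rw [this]
  ring

theorem mem_Fam4' {N q h : ℕ} {A : Finset (ℤ × ℤ)} (hA : A ∈ Fam4 N q h) :
    ∃ I : Ind, I.1 ∈ boardZ N ∧ I.2.1 ∈ Icc (-(N : ℤ)) N ×ˢ Icc (-(N : ℤ)) N ∧
      I.2.2 ∈ Icc (-(N : ℤ)) N ×ˢ Icc (-(N : ℤ)) N ∧ det2 I.2.1 I.2.2 ≠ 0 ∧ latZ q I ⊆ boardZ N ∧
      latZ q I = A := by
  unfold Fam4 at hA
  rw [mem_image] at hA
  obtain ⟨I, hI, hIA⟩ := hA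
  unfold Idx4 at hI
  rw [mem_filter, mem_product, mem_product] at hI
  exact ⟨I, hI.1.1, hI.1.2.1, hI.1.2.2, hI.2.1, hI.2.2.1, hIA⟩

theorem Fam4_zero (q h : ℕ) : Fam4 0 q h = ∅ := by
  rw [eq_empty_iff_forall_notMem]
  intro A hA
  obtain ⟨I, hI, -⟩ := mem_Fam4' hA
  have : (boardZ 0) = ∅ := by
    rw [← card_eq_zero, board_card]
  rw [this] at hI
  exact absurd hI (notMem_empty _)

theorem Fam4_card {N q h : ℕ} {A : Finset (ℤ × ℤ)} (hA : A ∈ Fam4 N q h) : A.card = q ^ 2 := by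
  obtain ⟨I, -, -, -, hdet, -, rfl⟩ := mem_Fam4' hA
  unfold latZ
  rw [card_image_of_injective, card_product, card_range, sq]
  rintro ⟨i, j⟩ ⟨i', j'⟩ hij
  simp only [pt, Prod.mk.injEq] at hij
  obtain ⟨h1, h2⟩ := hij
  have e1 : ((i : ℤ) - i') * det2 I.2.1 I.2.2 = 0 := by
    unfold det2
    linear_combination I.2.2.2 * h1 - I.2.2.1 * h2
  have e2 : ((j : ℤ) - j') * det2 I.2.1 I.2.2 = 0 := by
    unfold det2
    linear_combination I.2.1.1 * h2 - I.2.1.2 * h1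
  have f1 := (mul_eq_zero.1 e1).resolve_right hdet
  have f2 := (mul_eq_zero.1 e2).resolve_right hdet
  ext
  · show i = i'
    omega
  · show j = j'
    omega

theorem Fam4_sub {N q h : ℕ} {A : Finset (ℤ × ℤ)} (hA : A ∈ Fam4 N q h) : A ⊆ boardZ N := by
  obtain ⟨I, -, -, -, -, hsub, rfl⟩ := mem_Fam4' hA
  exact hsub

theorem card_Fam4 (N q h : ℕ) : (Fam4 N q h).card ≤ 81 * N ^ 6 := by
  rcases Nat.eq_zero_or_pos N with hN | hN
  · subst hN
    rw [Fam4_zero]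
    simp
  · unfold Fam4 Idx4
    refine card_image_le.trans ((card_filter_le _ _).trans ?_)
    rw [card_product, card_product, steps_card, board_card]
    have h1 : 2 * N + 1 ≤ 3 * N := by omega
    have h2 : (2 * N + 1) ^ 2 ≤ (3 * N) ^ 2 := Nat.pow_le_pow_left h1 2
    calc N * N * ((2 * N + 1) ^ 2 * (2 * N + 1) ^ 2)
        ≤ N * N * ((3 * N) ^ 2 * (3 * N) ^ 2) :=
          Nat.mul_le_mul_left _ (Nat.mul_le_mul h2 h2)
      _ = 81 * N ^ 6 := by ring

/-- lattices through a point -/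
theorem Fam4_deg (N q h : ℕ) (z : ℤ × ℤ) :
    ((Fam4 N q h).filter (fun A => z ∈ A)).card ≤ 81 * N ^ 4 * q ^ 2 := by
  rcases Nat.eq_zero_or_pos N with hN | hN
  · subst hN
    rw [Fam4_zero]
    simp
  · have hsub : (Fam4 N q h).filter (fun A => z ∈ A) ⊆
        (((Icc (-(N : ℤ)) N ×ˢ Icc (-(N : ℤ)) N) ×ˢ (Icc (-(N : ℤ)) N ×ˢ Icc (-(N : ℤ)) N)) ×ˢ
          (range q ×ˢ range q)).image (fun x : ((ℤ × ℤ) × (ℤ × ℤ)) × (ℕ × ℕ) =>
            latZ q ((z.1 - x.2.1 * x.1.1.1 - x.2.2 * x.1.2.1,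
              z.2 - x.2.1 * x.1.1.2 - x.2.2 * x.1.2.2), (x.1.1, x.1.2))) := by
      intro A hA
      rw [mem_filter] at hA
      obtain ⟨I, -, hu, hv, -, -, rfl⟩ := mem_Fam4' hA.1
      have hz := hA.2
      unfold latZ at hz
      rw [mem_image] at hz
      obtain ⟨⟨i, j⟩, hij, hz⟩ := hz
      rw [mem_image]
      refine ⟨((I.2.1, I.2.2), (i, j)), ?_, ?_⟩
      · rw [mem_product, mem_product]
        exact ⟨⟨hu, hv⟩, hij⟩
      · simp only
        congr 1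
        obtain ⟨P, u, v⟩ := I
        simp only [pt] at hz
        rw [← hz]
        simp only
        congr 1
        ext
        · show P.1 + i * u.1 + j * v.1 - i * u.1 - j * v.1 = P.1
          ring
        · show P.2 + i * u.2 + j * v.2 - i * u.2 - j * v.2 = P.2
          ring
    refine (card_le_card hsub).trans (card_image_le.trans ?_)
    rw [card_product, card_product, steps_card, card_product, card_range]
    have h1 : 2 * N + 1 ≤ 3 * N := by omega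
    have h2 : (2 * N + 1) ^ 2 ≤ (3 * N) ^ 2 := Nat.pow_le_pow_left h1 2
    calc (2 * N + 1) ^ 2 * (2 * N + 1) ^ 2 * (q * q)
        ≤ (3 * N) ^ 2 * (3 * N) ^ 2 * (q * q) :=
          Nat.mul_le_mul_right _ (Nat.mul_le_mul h2 h2)
      _ = 81 * N ^ 4 * q ^ 2 := by ring

/-- lattices through two points -/
theorem Fam4_pdeg (N q h : ℕ) {x z : ℤ × ℤ} (hxz : x ≠ z) :
    ((Fam4 N q h).filter (fun A => x ∈ A ∧ z ∈ A)).card ≤ 81 * N ^ 2 * q ^ 4 := by
  rcases Nat.eq_zero_or_pos N with hN | hN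
  · subst hN
    rw [Fam4_zero]
    simp
  · let D : Finset ((ℤ × ℤ) × ((ℕ × ℕ) × (ℕ × ℕ))) := (Icc (-(N : ℤ)) N ×ˢ Icc (-(N : ℤ)) N) ×ˢ
      ((range q ×ˢ range q) ×ˢ (range q ×ˢ range q))
    -- first step determined by the second
    let U : (ℤ × ℤ) × ((ℕ × ℕ) × (ℕ × ℕ)) → ℤ × ℤ := fun t =>
      ((z.1 - x.1 - ((t.2.2.2 : ℤ) - t.2.1.2) * t.1.1) / ((t.2.2.1 : ℤ) - t.2.1.1),
        (z.2 - x.2 - ((t.2.2.2 : ℤ) - t.2.1.2) * t.1.2) / ((t.2.2.1 : ℤ) - t.2.1.1))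
    let F1 : (ℤ × ℤ) × ((ℕ × ℕ) × (ℕ × ℕ)) → Finset (ℤ × ℤ) := fun t =>
      latZ q ((x.1 - t.2.1.1 * (U t).1 - t.2.1.2 * t.1.1,
        x.2 - t.2.1.1 * (U t).2 - t.2.1.2 * t.1.2), (U t, t.1))
    let V : (ℤ × ℤ) × ((ℕ × ℕ) × (ℕ × ℕ)) → ℤ × ℤ := fun t =>
      ((z.1 - x.1 - ((t.2.2.1 : ℤ) - t.2.1.1) * t.1.1) / ((t.2.2.2 : ℤ) - t.2.1.2),
        (z.2 - x.2 - ((t.2.2.1 : ℤ) - t.2.1.1) * t.1.2) / ((t.2.2.2 : ℤ) - t.2.1.2))
    let F2 : (ℤ × ℤ) × ((ℕ × ℕ) × (ℕ × ℕ)) → Finset (ℤ × ℤ) := fun t =>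
      latZ q ((x.1 - t.2.1.1 * t.1.1 - t.2.1.2 * (V t).1,
        x.2 - t.2.1.1 * t.1.2 - t.2.1.2 * (V t).2), (t.1, V t))
    have hD : D.card = (2 * N + 1) ^ 2 * q ^ 4 := by
      show ((Icc (-(N : ℤ)) N ×ˢ Icc (-(N : ℤ)) N) ×ˢ
        ((range q ×ˢ range q) ×ˢ (range q ×ˢ range q))).card = _
      rw [card_product, steps_card, card_product, card_product, card_range]
      ring
    have hsub : (Fam4 N q h).filter (fun A => x ∈ A ∧ z ∈ A) ⊆ D.image F1 ∪ D.image F2 := by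
      intro A hA
      rw [mem_filter] at hA
      obtain ⟨I, -, hu, hv, -, -, rfl⟩ := mem_Fam4' hA.1
      obtain ⟨-, hx, hz⟩ := hA
      unfold latZ at hx hz
      rw [mem_image] at hx hz
      obtain ⟨⟨i, j⟩, hij, hx⟩ := hx
      obtain ⟨⟨i2, j2⟩, hij2, hz⟩ := hz
      obtain ⟨P, u, v⟩ := I
      simp only [pt] at hx hz
      have hx1 : P.1 + i * u.1 + j * v.1 = x.1 := congrArg Prod.fst hx
      have hx2 : P.2 + i * u.2 + j * v.2 = x.2 := congrArg Prod.snd hx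
      have hz1 : P.1 + i2 * u.1 + j2 * v.1 = z.1 := congrArg Prod.fst hz
      have hz2 : P.2 + i2 * u.2 + j2 * v.2 = z.2 := congrArg Prod.snd hz
      rw [mem_union, mem_image, mem_image]
      by_cases hi : i = i2
      · have hj : j ≠ j2 := by
          intro hj
          apply hxz
          rw [← hx, ← hz, hi, hj]
        right
        have hj' : ((j2 : ℤ) - j) ≠ 0 := by omega
        refine ⟨(u, ((i, j), (i2, j2))), ?_, ?_⟩
        · show _ ∈ (Icc (-(N : ℤ)) N ×ˢ Icc (-(N : ℤ)) N) ×ˢ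
            ((range q ×ˢ range q) ×ˢ (range q ×ˢ range q))
          exact mem_product.2 ⟨hu, mem_product.2 ⟨hij, hij2⟩⟩
        · have hV : V (u, ((i, j), (i2, j2))) = v := by
            ext
            · show (z.1 - x.1 - ((i2 : ℤ) - i) * u.1) / ((j2 : ℤ) - j) = v.1
              have : z.1 - x.1 - ((i2 : ℤ) - i) * u.1 = v.1 * ((j2 : ℤ) - j) := by
                linear_combination hx1 - hz1
              rw [this, Int.mul_ediv_cancel _ hj']
            · show (z.2 - x.2 - ((i2 : ℤ) - i) * u.2) / ((j2 : ℤ) - j) = v.2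
              have : z.2 - x.2 - ((i2 : ℤ) - i) * u.2 = v.2 * ((j2 : ℤ) - j) := by
                linear_combination hx2 - hz2
              rw [this, Int.mul_ediv_cancel _ hj']
          show latZ q ((x.1 - i * u.1 - j * (V (u, ((i, j), (i2, j2)))).1,
            x.2 - i * u.2 - j * (V (u, ((i, j), (i2, j2)))).2),
              (u, V (u, ((i, j), (i2, j2))))) = _
          rw [hV]
          congr 2
          ext
          · show x.1 - i * u.1 - j * v.1 = P.1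
            linear_combination -hx1
          · show x.2 - i * u.2 - j * v.2 = P.2
            linear_combination -hx2
      · left
        have hi' : ((i2 : ℤ) - i) ≠ 0 := by omega
        refine ⟨(v, ((i, j), (i2, j2))), ?_, ?_⟩
        · show _ ∈ (Icc (-(N : ℤ)) N ×ˢ Icc (-(N : ℤ)) N) ×ˢ
            ((range q ×ˢ range q) ×ˢ (range q ×ˢ range q))
          exact mem_product.2 ⟨hv, mem_product.2 ⟨hij, hij2⟩⟩
        · have hU : U (v, ((i, j), (i2, j2))) = u := by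
            ext
            · show (z.1 - x.1 - ((j2 : ℤ) - j) * v.1) / ((i2 : ℤ) - i) = u.1
              have : z.1 - x.1 - ((j2 : ℤ) - j) * v.1 = u.1 * ((i2 : ℤ) - i) := by
                linear_combination hx1 - hz1
              rw [this, Int.mul_ediv_cancel _ hi']
            · show (z.2 - x.2 - ((j2 : ℤ) - j) * v.2) / ((i2 : ℤ) - i) = u.2
              have : z.2 - x.2 - ((j2 : ℤ) - j) * v.2 = u.2 * ((i2 : ℤ) - i) := by
                linear_combination hx2 - hz2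
              rw [this, Int.mul_ediv_cancel _ hi']
          show latZ q ((x.1 - i * (U (v, ((i, j), (i2, j2)))).1 - j * v.1,
            x.2 - i * (U (v, ((i, j), (i2, j2)))).2 - j * v.2),
              (U (v, ((i, j), (i2, j2))), v)) = _
          rw [hU]
          congr 2
          ext
          · show x.1 - i * u.1 - j * v.1 = P.1
            linear_combination -hx1
          · show x.2 - i * u.2 - j * v.2 = P.2
            linear_combination -hx2
    refine (card_le_card hsub).trans ((card_union_le _ _).trans ?_)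
    have h3 : (D.image F1).card ≤ D.card := card_image_le
    have h4 : (D.image F2).card ≤ D.card := card_image_le
    rw [hD] at h3 h4
    have h1 : 2 * N + 1 ≤ 3 * N := by omega
    have h2 : (2 * N + 1) ^ 2 ≤ (3 * N) ^ 2 := Nat.pow_le_pow_left h1 2
    have h5 : (2 * N + 1) ^ 2 * q ^ 4 ≤ (3 * N) ^ 2 * q ^ 4 := Nat.mul_le_mul_right _ h2
    have h6 : (3 * N) ^ 2 * q ^ 4 + (3 * N) ^ 2 * q ^ 4 ≤ 81 * N ^ 2 * q ^ 4 := by
      have : (3 * N) ^ 2 * q ^ 4 + (3 * N) ^ 2 * q ^ 4 = 18 * (N ^ 2 * q ^ 4) := by ring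
      rw [this, mul_assoc]
      exact Nat.mul_le_mul_right _ (by norm_num)
    omega

theorem Fam4_gdeg {N q h : ℕ} {x z : ℤ × ℤ} (hxz : x ≠ z) (hp : (x, z) ∉ Pr4 N) :
    ((Fam4 N q h).filter (fun A => x ∈ A ∧ z ∈ A)).card = 0 := by
  rw [card_eq_zero, eq_empty_iff_forall_notMem]
  intro A hA
  rw [mem_filter] at hA
  apply hp
  unfold Pr4
  rw [mem_filter, mem_product]
  exact ⟨⟨Fam4_sub hA.1 hA.2.1, Fam4_sub hA.1 hA.2.2⟩, hxz⟩

theorem card_Pr4 (N : ℕ) : (Pr4 N).card ≤ N ^ 4 := by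
  unfold Pr4
  refine (card_filter_le _ _).trans ?_
  rw [card_product, board_card]
  apply le_of_eq
  ring

end

section
theorem res_count (q h r : ℕ) (hh : 1 ≤ h) :
    ((range q).filter (fun i => i % h = r)).card ≤ q / h + 1 := by
  have h1 : ((range q).filter (fun i => i % h = r)).card ≤ (range (q / h + 1)).card := by
    apply Finset.card_le_card_of_injOn (fun i => i / h)
    · intro i hi
      have hi' := Finset.mem_filter.1 (Finset.mem_coe.1 hi)
      have hlt : i < q := Finset.mem_range.1 hi'.1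
      apply Finset.mem_coe.2
      apply Finset.mem_range.2
      exact Nat.lt_succ_of_le (Nat.div_le_div_right hlt.le)
    · intro i hi j hj hij
      have hi' := Finset.mem_filter.1 (Finset.mem_coe.1 hi)
      have hj' := Finset.mem_filter.1 (Finset.mem_coe.1 hj)
      have e1 := Nat.div_add_mod i h
      have e2 := Nat.div_add_mod j h
      simp only at hij
      rw [hi'.2, hij] at e1
      rw [hj'.2] at e2
      omega
  rwa [Finset.card_range] at h1

theorem res_of_dvd (h : ℕ) (c : ℤ) (i : ℕ) (hd : (h : ℤ) ∣ c - i) :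
    i % h = (c % (h : ℤ)).toNat := by
  have h1 : c % (h : ℤ) = (i : ℤ) % (h : ℤ) :=
    ((Int.modEq_iff_dvd.2 hd).symm : c % (h : ℤ) = (i : ℤ) % (h : ℤ))
  rw [h1]
  norm_cast

/-- TARGET: for given steps few lattices have a large intersection with a given set -/
theorem fixed_steps4 {N q h t : ℕ} (hh : 1 ≤ h) (Y : Finset (ℤ × ℤ)) (uv : (ℤ × ℤ) × (ℤ × ℤ)) :
    ((Idx4 N q h).filter (fun A => A.2 = uv ∧ t ≤ (latZ q A ∩ Y).card)).card * t ≤
      Y.card * (q / h + 1) ^ 2 := by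
  classical
  set F := (Idx4 N q h).filter (fun A => A.2 = uv ∧ t ≤ (latZ q A ∩ Y).card) with hF
  have h1 : F.card * t ≤ ∑ A ∈ F, (latZ q A ∩ Y).card := by
    have := Finset.card_nsmul_le_sum F (fun A => (latZ q A ∩ Y).card) t (by
      intro A hA
      exact (Finset.mem_filter.1 hA).2.2)
    simpa using this
  have h2 : ∑ A ∈ F, (latZ q A ∩ Y).card
      = ∑ y ∈ Y, (F.filter (fun A => y ∈ latZ q A)).card := by
    have e1 : ∀ A : Ind, (latZ q A ∩ Y).card = ∑ y ∈ Y, if y ∈ latZ q A then 1 else 0 := by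
      intro A
      rw [← Finset.card_filter]
      congr 1
      ext y
      rw [Finset.mem_inter, Finset.mem_filter, and_comm]
    simp_rw [e1, Finset.card_filter]
    exact Finset.sum_comm
  have h3 : ∀ y ∈ Y, (F.filter (fun A => y ∈ latZ q A)).card ≤ (q / h + 1) ^ 2 := by
    intro y _
    set D := det2 uv.1 uv.2 with hD
    set r1 := ((det2 y uv.2 / D) % (h : ℤ)).toNat with hr1
    set r2 := ((det2 uv.1 y / D) % (h : ℤ)).toNat with hr2
    have hsub : F.filter (fun A => y ∈ latZ q A) ⊆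
        (((range q).filter (fun i => i % h = r1)) ×ˢ
          ((range q).filter (fun j => j % h = r2))).image
          (fun p => (((y.1 - (p.1 : ℤ) * uv.1.1 - (p.2 : ℤ) * uv.2.1,
            y.2 - (p.1 : ℤ) * uv.1.2 - (p.2 : ℤ) * uv.2.2), uv) : Ind)) := by
      intro A hA
      obtain ⟨hAF, hAy⟩ := Finset.mem_filter.1 hA
      obtain ⟨hAI, hA2, -⟩ := Finset.mem_filter.1 hAF
      obtain ⟨-, hdet, -, hd1, hd2⟩ := Finset.mem_filter.1 hAI
      obtain ⟨P, w⟩ := A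
      simp only at hA2 hd1 hd2 hdet
      subst hA2
      obtain ⟨⟨i, j⟩, hij, hy⟩ := Finset.mem_image.1 hAy
      obtain ⟨hi, hj⟩ := Finset.mem_product.1 hij
      simp only [pt] at hy
      have hy1 : P.1 + (i : ℤ) * w.1.1 + (j : ℤ) * w.2.1 = y.1 := congrArg Prod.fst hy
      have hy2 : P.2 + (i : ℤ) * w.1.2 + (j : ℤ) * w.2.2 = y.2 := congrArg Prod.snd hy
      have hDne : D ≠ 0 := hdet
      have e1 : det2 P w.2 = det2 y w.2 - (i : ℤ) * D := by
        simp only [hD, det2]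
        rw [← hy1, ← hy2]
        ring
      have e2 : det2 w.1 P = det2 w.1 y - (j : ℤ) * D := by
        simp only [hD, det2]
        rw [← hy1, ← hy2]
        ring
      rw [e1] at hd1
      rw [e2] at hd2
      have f1 : (det2 y w.2 - (i : ℤ) * D) / D = det2 y w.2 / D - (i : ℤ) :=
        Int.sub_mul_ediv_right _ _ hDne
      have f2 : (det2 w.1 y - (j : ℤ) * D) / D = det2 w.1 y / D - (j : ℤ) :=
        Int.sub_mul_ediv_right _ _ hDne
      have g1 : (h : ℤ) ∣ det2 y w.2 / D - (i : ℤ) := by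
        rw [← f1]
        exact hd1
      have g2 : (h : ℤ) ∣ det2 w.1 y / D - (j : ℤ) := by
        rw [← f2]
        exact hd2
      refine Finset.mem_image.2 ⟨(i, j), Finset.mem_product.2 ⟨?_, ?_⟩, ?_⟩
      · exact Finset.mem_filter.2 ⟨hi, res_of_dvd h _ i g1⟩
      · exact Finset.mem_filter.2 ⟨hj, res_of_dvd h _ j g2⟩
      · apply Prod.ext
        · apply Prod.ext
          · simp only
            rw [← hy1]
            ring
          · simp only
            rw [← hy2]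
            ring
        · rfl
    refine (Finset.card_le_card hsub).trans (Finset.card_image_le.trans ?_)
    rw [Finset.card_product, sq]
    exact Nat.mul_le_mul (res_count q h r1 hh) (res_count q h r2 hh)
  refine h1.trans ?_
  rw [h2]
  have := Finset.sum_le_card_nsmul Y (fun y => (F.filter (fun A => y ∈ latZ q A)).card)
    ((q / h + 1) ^ 2) h3
  simpa using this

end

section
theorem steps4_core {q m K : ℕ} (hm : 2 ≤ m) (hK : q ≤ K * (m - 1)) (w u v P Q : ℤ × ℤ)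
    (hdet : det2 u v ≠ 0) (I : Finset ℕ) (hI : I ⊆ range q) (hc : m ≤ I.card)
    (h : ∀ i ∈ I, ∃ k l : ℕ, k < q ∧ l < q ∧
      Q.1 + (i : ℤ) * w.1 = P.1 + (k : ℤ) * u.1 + (l : ℤ) * v.1 ∧
      Q.2 + (i : ℤ) * w.2 = P.2 + (k : ℤ) * u.2 + (l : ℤ) * v.2) :
    ∃ g a b : ℤ, 1 ≤ g ∧ g ≤ K ∧ |a| ≤ (K : ℤ) ^ 2 ∧ |b| ≤ (K : ℤ) ^ 2 ∧
      g * w.1 = a * u.1 + b * v.1 ∧ g * w.2 = a * u.2 + b * v.2 := by
  have hne : I.Nonempty := Finset.card_pos.1 (by omega)
  have hK0 : 0 < K := by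
    rcases Nat.eq_zero_or_pos K with h0 | h0
    · subst h0
      obtain ⟨i, hi⟩ := hne
      have := Finset.mem_range.1 (hI hi)
      omega
    · exact h0
  -- small gap
  obtain ⟨x, hx, y, hy, hxy, hfxy⟩ := Finset.exists_ne_map_eq_of_card_lt_of_maps_to
    (s := I) (t := range (m - 1)) (f := fun i => i / K)
    (by rw [Finset.card_range]; omega)
    (by
      intro i hi
      have hiq := Finset.mem_range.1 (hI hi)
      simp only [Finset.coe_range, Set.mem_Iio]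
      rw [Nat.div_lt_iff_lt_mul hK0]
      calc i < q := hiq
        _ ≤ K * (m - 1) := hK
        _ = (m - 1) * K := Nat.mul_comm _ _)
  obtain ⟨i1, hi1, i2, hi2, hlt, hgK⟩ : ∃ i1 ∈ I, ∃ i2 ∈ I, i1 < i2 ∧ i2 ≤ i1 + K := by
    have hd : ∀ a b : ℕ, a / K = b / K → a < b → b ≤ a + K := by
      intro a b hab _
      have h1 := Nat.div_add_mod a K
      have h2 := Nat.div_add_mod b K
      have h3 := Nat.mod_lt b hK0
      have h4 := Nat.mod_lt a hK0
      rw [hab] at h1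
      omega
    rcases lt_or_gt_of_ne hxy with hl | hl
    · exact ⟨x, hx, y, hy, hl, hd x y hfxy hl⟩
    · exact ⟨y, hy, x, hx, hl, hd y x hfxy.symm hl⟩
  -- extreme points
  set im := I.min' hne with him
  set iM := I.max' hne with hiM
  have hD : im + (m - 1) ≤ iM := by
    have hsub : I ⊆ Finset.Icc im iM := fun i hi =>
      Finset.mem_Icc.2 ⟨Finset.min'_le _ _ hi, Finset.le_max' _ _ hi⟩
    have hcard := Finset.card_le_card hsub
    rw [Nat.card_Icc] at hcard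
    omega
  obtain ⟨k1, l1, hk1, hl1, e11, e12⟩ := h i1 hi1
  obtain ⟨k2, l2, hk2, hl2, e21, e22⟩ := h i2 hi2
  obtain ⟨k3, l3, hk3, hl3, e31, e32⟩ := h im (Finset.min'_mem _ _)
  obtain ⟨k4, l4, hk4, hl4, e41, e42⟩ := h iM (Finset.max'_mem _ _)
  set g : ℤ := (i2 : ℤ) - i1 with hg
  set D : ℤ := (iM : ℤ) - im with hDdef
  set a : ℤ := (k2 : ℤ) - k1 with ha
  set b : ℤ := (l2 : ℤ) - l1 with hb
  set a0 : ℤ := (k4 : ℤ) - k3 with ha0
  set b0 : ℤ := (l4 : ℤ) - l3 with hb0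
  have g1 : g * w.1 = a * u.1 + b * v.1 := by
    rw [hg, ha, hb]; linear_combination e21 - e11
  have g2 : g * w.2 = a * u.2 + b * v.2 := by
    rw [hg, ha, hb]; linear_combination e22 - e12
  have d1 : D * w.1 = a0 * u.1 + b0 * v.1 := by
    rw [hDdef, ha0, hb0]; linear_combination e41 - e31
  have d2 : D * w.2 = a0 * u.2 + b0 * v.2 := by
    rw [hDdef, ha0, hb0]; linear_combination e42 - e32
  have r1 : (D * a - g * a0) * u.1 + (D * b - g * b0) * v.1 = 0 := by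
    linear_combination g * d1 - D * g1
  have r2 : (D * a - g * a0) * u.2 + (D * b - g * b0) * v.2 = 0 := by
    linear_combination g * d2 - D * g2
  have x1 : D * a = g * a0 := by
    have : (D * a - g * a0) * det2 u v = 0 := by
      unfold det2; linear_combination v.2 * r1 - v.1 * r2
    rcases mul_eq_zero.1 this with h0 | h0
    · linarith
    · exact absurd h0 hdet
  have x2 : D * b = g * b0 := by
    have : (D * b - g * b0) * det2 u v = 0 := by
      unfold det2; linear_combination u.1 * r2 - u.2 * r1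
    rcases mul_eq_zero.1 this with h0 | h0
    · linarith
    · exact absurd h0 hdet
  have hg0 : 1 ≤ g := by rw [hg]; omega
  have hgK' : g ≤ K := by rw [hg]; omega
  have hDm : ((m - 1 : ℕ) : ℤ) ≤ D := by rw [hDdef]; omega
  have hDpos : 0 < D := by
    have : (1 : ℤ) ≤ ((m - 1 : ℕ) : ℤ) := by omega
    linarith
  have hqK : (q : ℤ) ≤ K * D := by
    have h1 : (q : ℤ) ≤ (K : ℤ) * ((m - 1 : ℕ) : ℤ) := by exact_mod_cast hK
    have h2 : (K : ℤ) * ((m - 1 : ℕ) : ℤ) ≤ K * D :=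
      mul_le_mul_of_nonneg_left hDm (by positivity)
    linarith
  have fin : ∀ z z0 : ℤ, D * z = g * z0 → |z0| ≤ q → |z| ≤ (K : ℤ) ^ 2 := by
    intro z z0 hz hz0
    have h1 : D * |z| = g * |z0| := by
      have := congrArg abs hz
      rwa [abs_mul, abs_mul, abs_of_pos hDpos, abs_of_nonneg (by linarith : (0 : ℤ) ≤ g)] at this
    have h2 : g * |z0| ≤ K * (K * D) :=
      mul_le_mul hgK' (hz0.trans hqK) (abs_nonneg _) (by positivity)
    have h3 : D * |z| ≤ D * (K : ℤ) ^ 2 := by rw [h1]; linarith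
    exact le_of_mul_le_mul_left h3 hDpos
  refine ⟨g, a, b, hg0, hgK', fin a a0 x1 ?_, fin b b0 x2 ?_, g1, g2⟩
  · rw [ha0, abs_le]; constructor <;> omega
  · rw [hb0, abs_le]; constructor <;> omega

/-- TARGET: lattices with a large intersection have commensurable steps, with small
coefficients -/
theorem steps4 {N q h t m K : ℕ} (hm : 2 ≤ m) (hmt : (m - 1) * q < t) (hK : q ≤ K * (m - 1))
    {A B : Ind} (hA : A ∈ Idx4 N q h) (hB : B ∈ Idx4 N q h)
    (ht : t ≤ (latZ q A ∩ latZ q B).card) :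
    (∃ g a b : ℤ, 1 ≤ g ∧ g ≤ K ∧ |a| ≤ (K : ℤ) ^ 2 ∧ |b| ≤ (K : ℤ) ^ 2 ∧
      g * A.2.1.1 = a * B.2.1.1 + b * B.2.2.1 ∧ g * A.2.1.2 = a * B.2.1.2 + b * B.2.2.2) ∧
    (∃ g a b : ℤ, 1 ≤ g ∧ g ≤ K ∧ |a| ≤ (K : ℤ) ^ 2 ∧ |b| ≤ (K : ℤ) ^ 2 ∧
      g * A.2.2.1 = a * B.2.1.1 + b * B.2.2.1 ∧ g * A.2.2.2 = a * B.2.1.2 + b * B.2.2.2) := by
  have hdet : det2 B.2.1 B.2.2 ≠ 0 := (Finset.mem_filter.1 hB).2.1
  set S : Finset (ℕ × ℕ) := (range q ×ˢ range q).filter
    (fun p => pt A.1 A.2.1 A.2.2 (p.1 : ℤ) (p.2 : ℤ) ∈ latZ q B) with hS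
  have hScard : (m - 1) * q < S.card := by
    have hsub : latZ q A ∩ latZ q B ⊆ S.image (fun p => pt A.1 A.2.1 A.2.2 (p.1 : ℤ) (p.2 : ℤ)) := by
      intro z hz
      rw [Finset.mem_inter] at hz
      obtain ⟨h1, h2⟩ := hz
      obtain ⟨p, hp, hpz⟩ := Finset.mem_image.1 h1
      refine Finset.mem_image.2 ⟨p, Finset.mem_filter.2 ⟨hp, ?_⟩, hpz⟩
      rw [hpz]; exact h2
    have h3 := (Finset.card_le_card hsub).trans Finset.card_image_le
    omega
  have hmemB : ∀ z ∈ latZ q B, ∃ k l : ℕ, k < q ∧ l < q ∧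
      z.1 = B.1.1 + (k : ℤ) * B.2.1.1 + (l : ℤ) * B.2.2.1 ∧
      z.2 = B.1.2 + (k : ℤ) * B.2.1.2 + (l : ℤ) * B.2.2.2 := by
    intro z hz
    obtain ⟨p, hp, hpz⟩ := Finset.mem_image.1 hz
    rw [Finset.mem_product, Finset.mem_range, Finset.mem_range] at hp
    refine ⟨p.1, p.2, hp.1, hp.2, ?_, ?_⟩
    · rw [← hpz]; rfl
    · rw [← hpz]; rfl
  have hmemS : ∀ p ∈ S, p.1 < q ∧ p.2 < q ∧ pt A.1 A.2.1 A.2.2 (p.1 : ℤ) (p.2 : ℤ) ∈ latZ q B := by
    intro p hp
    rw [hS, Finset.mem_filter, Finset.mem_product, Finset.mem_range, Finset.mem_range] at hp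
    exact ⟨hp.1.1, hp.1.2, hp.2⟩
  constructor
  · obtain ⟨j, hj, hjc⟩ := Finset.exists_lt_card_fiber_of_mul_lt_card_of_maps_to
      (s := S) (t := range q) (f := fun p => p.2) (n := m - 1)
      (fun p hp => Finset.mem_range.2 (hmemS p hp).2.1)
      (by rw [Finset.card_range, Nat.mul_comm]; exact hScard)
    set I : Finset ℕ := (S.filter (fun p => p.2 = j)).image Prod.fst with hI
    have hIc : I.card = (S.filter (fun p => p.2 = j)).card := by
      apply Finset.card_image_of_injOn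
      rintro ⟨a1, a2⟩ ha ⟨b1, b2⟩ hb hab
      have ha' := (Finset.mem_filter.1 (Finset.mem_coe.1 ha)).2
      have hb' := (Finset.mem_filter.1 (Finset.mem_coe.1 hb)).2
      simp only at ha' hb' hab
      rw [hab, ha', hb']
    apply steps4_core hm hK A.2.1 B.2.1 B.2.2 B.1
      (A.1.1 + (j : ℤ) * A.2.2.1, A.1.2 + (j : ℤ) * A.2.2.2) hdet I
    · intro i hi
      obtain ⟨p, hp, rfl⟩ := Finset.mem_image.1 hi
      exact Finset.mem_range.2 (hmemS p (Finset.mem_filter.1 hp).1).1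
    · rw [hIc]; omega
    · intro i hi
      obtain ⟨p, hp, rfl⟩ := Finset.mem_image.1 hi
      obtain ⟨hpS, hpj⟩ := Finset.mem_filter.1 hp
      obtain ⟨k, l, hk, hl, e1, e2⟩ := hmemB _ (hmemS p hpS).2.2
      refine ⟨k, l, hk, hl, ?_, ?_⟩
      · rw [← e1, ← hpj]; simp only [pt]; ring
      · rw [← e2, ← hpj]; simp only [pt]; ring
  · obtain ⟨j, hj, hjc⟩ := Finset.exists_lt_card_fiber_of_mul_lt_card_of_maps_to
      (s := S) (t := range q) (f := fun p => p.1) (n := m - 1)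
      (fun p hp => Finset.mem_range.2 (hmemS p hp).1)
      (by rw [Finset.card_range, Nat.mul_comm]; exact hScard)
    set I : Finset ℕ := (S.filter (fun p => p.1 = j)).image Prod.snd with hI
    have hIc : I.card = (S.filter (fun p => p.1 = j)).card := by
      apply Finset.card_image_of_injOn
      rintro ⟨a1, a2⟩ ha ⟨b1, b2⟩ hb hab
      have ha' := (Finset.mem_filter.1 (Finset.mem_coe.1 ha)).2
      have hb' := (Finset.mem_filter.1 (Finset.mem_coe.1 hb)).2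
      simp only at ha' hb' hab
      rw [hab, ha', hb']
    apply steps4_core hm hK A.2.2 B.2.1 B.2.2 B.1
      (A.1.1 + (j : ℤ) * A.2.1.1, A.1.2 + (j : ℤ) * A.2.1.2) hdet I
    · intro i hi
      obtain ⟨p, hp, rfl⟩ := Finset.mem_image.1 hi
      exact Finset.mem_range.2 (hmemS p (Finset.mem_filter.1 hp).1).2.1
    · rw [hIc]; omega
    · intro i hi
      obtain ⟨p, hp, rfl⟩ := Finset.mem_image.1 hi
      obtain ⟨hpS, hpj⟩ := Finset.mem_filter.1 hp
      obtain ⟨k, l, hk, hl, e1, e2⟩ := hmemB _ (hmemS p hpS).2.2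
      refine ⟨k, l, hk, hl, ?_, ?_⟩
      · rw [← e1, ← hpj]; simp only [pt]
      · rw [← e2, ← hpj]; simp only [pt]

end

section
/-- TARGET: few lattices have a large intersection with a given one -/
theorem Fam4_over {N q h t m K : ℕ} (hh : 1 ≤ h) (hm : 2 ≤ m) (hmt : (m - 1) * q < t)
    (hK : q ≤ K * (m - 1)) {B : Finset (ℤ × ℤ)} (hB : B ∈ Fam4 N q h) :
    ((Fam4 N q h).filter (fun A => t ≤ (A ∩ B).card)).card * t ≤
      (K * (2 * K ^ 2 + 1) ^ 2) ^ 2 * (q ^ 2 * (q / h + 1) ^ 2) := by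
  classical
  obtain ⟨B0, hB0, hB1⟩ := Finset.mem_image.1 hB
  have hBc : B.card = q ^ 2 := Fam4_card hB
  set S := (Idx4 N q h).filter (fun A => t ≤ (latZ q A ∩ B).card) with hS
  have h1 : ((Fam4 N q h).filter (fun A => t ≤ (A ∩ B).card)).card ≤ S.card := by
    have : (Fam4 N q h).filter (fun A => t ≤ (A ∩ B).card) = S.image (latZ q) := by
      rw [Fam4, Finset.filter_image]
    rw [this]
    exact Finset.card_image_le
  set G : Finset (ℤ × ℤ × ℤ) := Icc 1 (K : ℤ) ×ˢ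
    (Icc (-(K : ℤ) ^ 2) ((K : ℤ) ^ 2) ×ˢ Icc (-(K : ℤ) ^ 2) ((K : ℤ) ^ 2)) with hG
  have hGc : G.card = K * (2 * K ^ 2 + 1) ^ 2 := by
    rw [hG, card_product, card_product, Int.card_Icc, Int.card_Icc]
    have e1 : ((K : ℤ) + 1 - 1).toNat = K := by omega
    have e2 : ((K : ℤ) ^ 2 + 1 - -(K : ℤ) ^ 2).toNat = 2 * K ^ 2 + 1 := by
      have : ((K : ℤ) ^ 2 + 1 - -(K : ℤ) ^ 2) = ((2 * K ^ 2 + 1 : ℕ) : ℤ) := by
        push_cast
        ring
      rw [this, Int.toNat_natCast]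
    rw [e1, e2]
    ring
  let dec : ℤ × ℤ × ℤ → ℤ × ℤ := fun w => ((w.2.1 * B0.2.1.1 + w.2.2 * B0.2.2.1) / w.1,
    (w.2.1 * B0.2.1.2 + w.2.2 * B0.2.2.2) / w.1)
  have hdec : ∀ (u : ℤ × ℤ) (g a b : ℤ), 1 ≤ g → g ≤ K → |a| ≤ (K : ℤ) ^ 2 →
      |b| ≤ (K : ℤ) ^ 2 → g * u.1 = a * B0.2.1.1 + b * B0.2.2.1 →
      g * u.2 = a * B0.2.1.2 + b * B0.2.2.2 → u ∈ G.image dec := by
    intro u g a b hg1 hg2 ha hb h1 h2
    rw [mem_image]
    refine ⟨(g, a, b), ?_, ?_⟩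
    · simp only [hG, mem_product, mem_Icc]
      exact ⟨⟨hg1, hg2⟩, abs_le.1 ha, abs_le.1 hb⟩
    · have hg0 : g ≠ 0 := by omega
      simp only [dec]
      rw [← h1, ← h2, Int.mul_ediv_cancel_left _ hg0, Int.mul_ediv_cancel_left _ hg0]
  have hU : (S.image (fun A => A.2)).card ≤ (K * (2 * K ^ 2 + 1) ^ 2) ^ 2 := by
    have hsub : S.image (fun A => A.2) ⊆ (G.image dec) ×ˢ (G.image dec) := by
      intro uv huv
      obtain ⟨A, hA, rfl⟩ := mem_image.1 huv
      rw [hS, mem_filter, ← hB1] at hA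
      obtain ⟨⟨g, a, b, h1, h2, h3, h4, h5, h6⟩, ⟨g', a', b', h1', h2', h3', h4', h5', h6'⟩⟩ :=
        steps4 hm hmt hK hA.1 hB0 hA.2
      rw [mem_product]
      exact ⟨hdec _ g a b h1 h2 h3 h4 h5 h6, hdec _ g' a' b' h1' h2' h3' h4' h5' h6'⟩
    refine (card_le_card hsub).trans ?_
    rw [card_product, sq]
    have : (G.image dec).card ≤ K * (2 * K ^ 2 + 1) ^ 2 := hGc ▸ card_image_le
    exact Nat.mul_le_mul this this
  have hsum : S.card * t ≤ (S.image (fun A => A.2)).card * (q ^ 2 * (q / h + 1) ^ 2) := by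
    rw [Finset.card_eq_sum_card_image (fun A : Ind => A.2) S, Finset.sum_mul]
    refine (Finset.sum_le_card_nsmul _ _ (q ^ 2 * (q / h + 1) ^ 2) ?_).trans
      (by rw [smul_eq_mul])
    intro uv _
    have := fixed_steps4 (N := N) (q := q) (t := t) hh B uv
    rw [hBc] at this
    refine le_trans (le_of_eq ?_) this
    congr 2
    rw [hS, filter_filter]
    exact filter_congr (fun A _ => and_comm)
  calc ((Fam4 N q h).filter (fun A => t ≤ (A ∩ B).card)).card * t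
      ≤ S.card * t := Nat.mul_le_mul_right _ h1
    _ ≤ (S.image (fun A => A.2)).card * (q ^ 2 * (q / h + 1) ^ 2) := hsum
    _ ≤ (K * (2 * K ^ 2 + 1) ^ 2) ^ 2 * (q ^ 2 * (q / h + 1) ^ 2) := Nat.mul_le_mul_right _ hU

end

section
theorem Fam4_tr_mem {q : ℕ} {A : Ind} {x : ℤ × ℤ} : x ∈ latZ q A ↔
    ∃ a ∈ range q ×ˢ range q, pt A.1 A.2.1 A.2.2 (a.1 : ℤ) (a.2 : ℤ) = x := by
  unfold latZ; rw [mem_image]

/-- `x - x0 = l (x1 - x0) + m (x2 - x0)` -/
def Fam4_trR (x0 x1 x2 x : ℤ × ℤ) (l m : ℚ) : Prop :=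
  ((x.1 : ℚ) - x0.1 = l * (x1.1 - x0.1) + m * (x2.1 - x0.1)) ∧
    ((x.2 : ℚ) - x0.2 = l * (x1.2 - x0.2) + m * (x2.2 - x0.2))

/-- the same for indices -/
def Fam4_trI (x0 x1 x2 x : ℕ × ℕ) (l m : ℚ) : Prop :=
  ((x.1 : ℚ) - x0.1 = l * (x1.1 - x0.1) + m * (x2.1 - x0.1)) ∧
    ((x.2 : ℚ) - x0.2 = l * (x1.2 - x0.2) + m * (x2.2 - x0.2))

theorem Fam4_tr_span (T : Finset (ℤ × ℤ)) (hT : T.Nonempty) :
    ∃ x0 ∈ T, ∃ x1 ∈ T, ∃ x2 ∈ T, ∀ x ∈ T, ∃ l m : ℚ, Fam4_trR x0 x1 x2 x l m := by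
  obtain ⟨x0, h0⟩ := hT
  by_cases h1 : ∀ x ∈ T, x = x0
  · refine ⟨x0, h0, x0, h0, x0, h0, fun x hx => ⟨0, 0, ?_⟩⟩
    rw [h1 x hx]
    constructor <;> simp
  push Not at h1
  obtain ⟨x1, hx1, hne⟩ := h1
  by_cases h2 : ∀ x ∈ T, (x1.1 - x0.1) * (x.2 - x0.2) - (x1.2 - x0.2) * (x.1 - x0.1) = 0
  · refine ⟨x0, h0, x1, hx1, x0, h0, fun x hx => ?_⟩
    have h3 := h2 x hx
    have h3' : ((x1.1 : ℚ) - x0.1) * (x.2 - x0.2) - (x1.2 - x0.2) * (x.1 - x0.1) = 0 := by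
      exact_mod_cast h3
    by_cases h4 : x1.1 - x0.1 = 0
    · have h5 : x1.2 - x0.2 ≠ 0 := by
        intro h5
        apply hne
        apply Prod.ext
        · omega
        · omega
      have h4' : (x1.1 : ℚ) - x0.1 = 0 := by exact_mod_cast h4
      have h5' : (x1.2 : ℚ) - x0.2 ≠ 0 := by exact_mod_cast h5
      rw [h4', zero_mul, zero_sub, neg_eq_zero] at h3'
      have h6 := (mul_eq_zero.1 h3').resolve_left h5'
      refine ⟨((x.2 : ℚ) - x0.2) / (x1.2 - x0.2), 0, ?_, ?_⟩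
      · rw [h6, h4']; ring
      · rw [div_mul_cancel₀ _ h5']; ring
    · have h4' : (x1.1 : ℚ) - x0.1 ≠ 0 := by exact_mod_cast h4
      refine ⟨((x.1 : ℚ) - x0.1) / (x1.1 - x0.1), 0, ?_, ?_⟩
      · rw [div_mul_cancel₀ _ h4']; ring
      · rw [div_mul_eq_mul_div, zero_mul, add_zero, eq_div_iff h4']
        linarith
  · push Not at h2
    obtain ⟨x2, hx2, hD⟩ := h2
    refine ⟨x0, h0, x1, hx1, x2, hx2, fun x hx => ?_⟩
    have hD' : ((x1.1 : ℚ) - x0.1) * (x2.2 - x0.2) - (x1.2 - x0.2) * (x2.1 - x0.1) ≠ 0 := by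
      exact_mod_cast hD
    obtain ⟨D, hDD⟩ : ∃ D : ℚ, D = ((x1.1 : ℚ) - x0.1) * (x2.2 - x0.2) -
      (x1.2 - x0.2) * (x2.1 - x0.1) := ⟨_, rfl⟩
    rw [← hDD] at hD'
    refine ⟨(((x.1 : ℚ) - x0.1) * (x2.2 - x0.2) - (x.2 - x0.2) * (x2.1 - x0.1)) / D,
      (((x1.1 : ℚ) - x0.1) * (x.2 - x0.2) - (x1.2 - x0.2) * (x.1 - x0.1)) / D, ?_, ?_⟩
    · rw [div_mul_eq_mul_div, div_mul_eq_mul_div, ← add_div, eq_div_iff hD', hDD]
      ring
    · rw [div_mul_eq_mul_div, div_mul_eq_mul_div, ← add_div, eq_div_iff hD', hDD]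
      ring

open Classical in
/-- the possible traces -/
noncomputable def Fam4_trG (B : Finset (ℤ × ℤ)) (q : ℕ)
    (t : ((ℤ × ℤ) × (ℤ × ℤ) × (ℤ × ℤ)) × ((ℕ × ℕ) × (ℕ × ℕ) × (ℕ × ℕ))) : Finset (ℤ × ℤ) :=
  B.filter (fun x => ∃ a ∈ range q ×ˢ range q, ∃ l m : ℚ, Fam4_trR t.1.1 t.1.2.1 t.1.2.2 x l m ∧
    Fam4_trI t.2.1 t.2.2.1 t.2.2.2 a l m)

theorem Fam4_tr_eq {q : ℕ} {A : Ind} (hA : det2 A.2.1 A.2.2 ≠ 0) (B : Finset (ℤ × ℤ))
    (hne : (latZ q A ∩ B).Nonempty) :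
    ∃ t ∈ (B ×ˢ B ×ˢ B) ×ˢ ((range q ×ˢ range q) ×ˢ (range q ×ˢ range q) ×ˢ (range q ×ˢ range q)),
      Fam4_trG B q t = latZ q A ∩ B := by
  classical
  obtain ⟨x0, hx0, x1, hx1, x2, hx2, hspan⟩ := Fam4_tr_span _ hne
  obtain ⟨a0, ha0, e0⟩ := Fam4_tr_mem.1 (mem_inter.1 hx0).1
  obtain ⟨a1, ha1, e1⟩ := Fam4_tr_mem.1 (mem_inter.1 hx1).1
  obtain ⟨a2, ha2, e2⟩ := Fam4_tr_mem.1 (mem_inter.1 hx2).1
  obtain ⟨P, u, v⟩ := A
  have hcomp : ∀ (a : ℕ × ℕ) (x : ℤ × ℤ), pt P u v (a.1 : ℤ) (a.2 : ℤ) = x ↔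
      ((x.1 : ℚ) = P.1 + a.1 * u.1 + a.2 * v.1 ∧ (x.2 : ℚ) = P.2 + a.1 * u.2 + a.2 * v.2) := by
    intro a x
    unfold pt
    constructor
    · rintro rfl
      constructor <;> push_cast <;> ring
    · rintro ⟨h1, h2⟩
      apply Prod.ext
      · have : x.1 = P.1 + a.1 * u.1 + a.2 * v.1 := by exact_mod_cast h1
        exact this.symm
      · have : x.2 = P.2 + a.1 * u.2 + a.2 * v.2 := by exact_mod_cast h2
        exact this.symm
  have hdet : (u.1 : ℚ) * v.2 - u.2 * v.1 ≠ 0 := by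
    unfold det2 at hA
    exact_mod_cast hA
  simp only at e0 e1 e2 hA
  obtain ⟨f01, f02⟩ := (hcomp a0 x0).1 e0
  obtain ⟨f11, f12⟩ := (hcomp a1 x1).1 e1
  obtain ⟨f21, f22⟩ := (hcomp a2 x2).1 e2
  refine ⟨((x0, x1, x2), (a0, a1, a2)), ?_, ?_⟩
  · simp only [mem_product]
    rw [mem_product] at ha0 ha1 ha2
    exact ⟨⟨(mem_inter.1 hx0).2, (mem_inter.1 hx1).2, (mem_inter.1 hx2).2⟩, ha0, ha1, ha2⟩
  · ext x
    unfold Fam4_trG
    rw [mem_filter, mem_inter]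
    simp only
    constructor
    · rintro ⟨hxB, a, ha, l, m, ⟨h1, h2⟩, h3, h4⟩
      refine ⟨Fam4_tr_mem.2 ⟨a, ha, ?_⟩, hxB⟩
      simp only
      rw [hcomp]
      constructor
      · linear_combination h1 + (-(u.1 : ℚ)) * h3 + (-(v.1 : ℚ)) * h4 + (1 - l - m) * f01 + l * f11 +
          m * f21
      · linear_combination h2 + (-(u.2 : ℚ)) * h3 + (-(v.2 : ℚ)) * h4 + (1 - l - m) * f02 + l * f12 +
          m * f22
    · rintro ⟨hxA, hxB⟩
      refine ⟨hxB, ?_⟩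
      obtain ⟨l, m, h1, h2⟩ := hspan x (mem_inter.2 ⟨hxA, hxB⟩)
      obtain ⟨a, ha, e⟩ := Fam4_tr_mem.1 hxA
      simp only at e
      obtain ⟨f1, f2⟩ := (hcomp a x).1 e
      refine ⟨a, ha, l, m, ⟨h1, h2⟩, ?_, ?_⟩
      · have h5 : (((a.1 : ℚ) - a0.1) - (l * (a1.1 - a0.1) + m * (a2.1 - a0.1))) *
            ((u.1 : ℚ) * v.2 - u.2 * v.1) = 0 := by
          rw [f1, f01, f11, f21] at h1
          rw [f2, f02, f12, f22] at h2
          linear_combination (v.2 : ℚ) * h1 - (v.1 : ℚ) * h2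
        exact sub_eq_zero.1 ((mul_eq_zero.1 h5).resolve_right hdet)
      · have h5 : (((a.2 : ℚ) - a0.2) - (l * (a1.2 - a0.2) + m * (a2.2 - a0.2))) *
            ((u.1 : ℚ) * v.2 - u.2 * v.1) = 0 := by
          rw [f1, f01, f11, f21] at h1
          rw [f2, f02, f12, f22] at h2
          linear_combination (u.1 : ℚ) * h2 - (u.2 : ℚ) * h1
        exact sub_eq_zero.1 ((mul_eq_zero.1 h5).resolve_right hdet)

/-- TARGET: the number of traces -/
theorem Fam4_tr {N q h : ℕ} {B : Finset (ℤ × ℤ)} (hB : B ∈ Fam4 N q h) :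
    ((Fam4 N q h).image (fun E => E ∩ B)).card ≤ (q + 1) ^ 12 := by
  classical
  have hBc : B.card ≤ q * q := by
    unfold Fam4 at hB
    obtain ⟨A, -, rfl⟩ := mem_image.1 hB
    unfold latZ
    refine card_image_le.trans ?_
    rw [card_product, card_range]
  have hsub : (Fam4 N q h).image (fun E => E ∩ B) ⊆ insert ∅
      (((B ×ˢ B ×ˢ B) ×ˢ ((range q ×ˢ range q) ×ˢ (range q ×ˢ range q) ×ˢ
        (range q ×ˢ range q))).image (Fam4_trG B q)) := by
    intro T hT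
    obtain ⟨E, hE, rfl⟩ := mem_image.1 hT
    unfold Fam4 at hE
    obtain ⟨A, hA, rfl⟩ := mem_image.1 hE
    unfold Idx4 at hA
    have hdet := (mem_filter.1 hA).2.1
    rw [mem_insert]
    rcases (latZ q A ∩ B).eq_empty_or_nonempty with h0 | h0
    · left; exact h0
    · right
      obtain ⟨t, ht, e⟩ := Fam4_tr_eq hdet B h0
      exact mem_image.2 ⟨t, ht, e⟩
  refine (card_le_card hsub).trans ((card_insert_le _ _).trans ?_)
  have h1 : (((B ×ˢ B ×ˢ B) ×ˢ ((range q ×ˢ range q) ×ˢ (range q ×ˢ range q) ×ˢ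
        (range q ×ˢ range q))).image (Fam4_trG B q)).card ≤ q ^ 12 := by
    refine card_image_le.trans ?_
    simp only [card_product, card_range]
    calc B.card * (B.card * B.card) * (q * q * (q * q * (q * q)))
        ≤ (q * q) * ((q * q) * (q * q)) * (q * q * (q * q * (q * q))) := by gcongr
      _ = q ^ 12 := by ring
  have h2 : (q + 1) ^ 12 = q ^ 12 + 1 + (12 * q ^ 11 + 66 * q ^ 10 + 220 * q ^ 9 + 495 * q ^ 8 +
      792 * q ^ 7 + 924 * q ^ 6 + 792 * q ^ 5 + 495 * q ^ 4 + 220 * q ^ 3 + 66 * q ^ 2 + 12 * q) := by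
    ring
  omega

end

section
/-- the set `M` contains all points of a `q × q` parallelogram lattice -/
def HasLatZ (q : ℕ) (M : Finset (ℤ × ℤ)) : Prop :=
  ∃ P u v : ℤ × ℤ, det2 u v ≠ 0 ∧ ∀ i j : ℕ, i < q → j < q → pt P u v (i : ℤ) (j : ℤ) ∈ M

theorem exists_shift (h : ℕ) (hh : 1 ≤ h) (k : ℤ) : ∃ a : ℕ, a < h ∧ (h : ℤ) ∣ k + a := by
  have hpos : (0 : ℤ) < h := by exact_mod_cast hh
  have h0 : 0 ≤ (-k) % (h : ℤ) := Int.emod_nonneg _ hpos.ne'
  have h1 : (-k) % (h : ℤ) < h := Int.emod_lt_of_pos _ hpos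
  obtain ⟨a, ha⟩ := Int.eq_ofNat_of_zero_le h0
  refine ⟨a, ?_, ?_⟩
  · rw [ha] at h1
    exact_mod_cast h1
  · refine ⟨-((-k) / (h : ℤ)), ?_⟩
    rw [Int.emod_def] at ha
    linarith

/-- TARGET: large lattices contain members of `Fam4` -/
theorem Fam4_of_has {N q h q0 : ℕ} (hh : 1 ≤ h) (hq : 1 ≤ q) (hq0 : q + h ≤ q0)
    {M : Finset (ℤ × ℤ)} (hM : M ⊆ boardZ N) (hL : HasLatZ q0 M) :
    ∃ A ∈ Fam4 N q h, A ⊆ M := by
  obtain ⟨P, u, v, hd, hpt⟩ := hL
  obtain ⟨a, ha, hak⟩ := exists_shift h hh (det2 P v / det2 u v)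
  obtain ⟨b, hb, hbl⟩ := exists_shift h hh (det2 u P / det2 u v)
  have hsub : latZ q (pt P u v a b, (u, v)) ⊆ M := by
    intro x hx
    unfold latZ at hx
    rw [mem_image] at hx
    obtain ⟨⟨i, j⟩, hij, rfl⟩ := hx
    rw [mem_product, mem_range, mem_range] at hij
    have h1 := hpt (a + i) (b + j) (by have := hij.1; simp only at this; omega)
      (by have := hij.2; simp only at this; omega)
    have e : pt (pt P u v a b) u v (i : ℤ) (j : ℤ) =
        pt P u v ((a + i : ℕ) : ℤ) ((b + j : ℕ) : ℤ) := by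
      unfold pt
      refine Prod.ext ?_ ?_
      · push_cast
        ring
      · push_cast
        ring
    show pt (pt P u v a b) u v (i : ℤ) (j : ℤ) ∈ M
    rw [e]
    exact h1
  refine ⟨latZ q (pt P u v a b, (u, v)), ?_, hsub⟩
  unfold Fam4
  refine mem_image_of_mem _ ?_
  unfold Idx4
  have p00 := hM (hpt 0 0 (by omega) (by omega))
  have p10 := hM (hpt 1 0 (by omega) (by omega))
  have p01 := hM (hpt 0 1 (by omega) (by omega))
  unfold boardZ pt at p00 p10 p01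
  rw [mem_product, mem_Icc, mem_Icc] at p00 p10 p01
  simp only [Nat.cast_zero, Nat.cast_one, zero_mul, one_mul, add_zero] at p00 p10 p01
  rw [mem_filter, mem_product, mem_product, mem_product, mem_product, mem_Icc, mem_Icc, mem_Icc,
    mem_Icc]
  refine ⟨⟨hM (hpt a b (by omega) (by omega)), ⟨⟨?_, ?_⟩, ⟨?_, ?_⟩⟩, ⟨?_, ?_⟩⟩, hd, hsub.trans hM,
    ?_, ?_⟩
  · show -(N : ℤ) ≤ u.1; omega
  · show u.1 ≤ (N : ℤ); omega
  · show -(N : ℤ) ≤ u.2; omega
  · show u.2 ≤ (N : ℤ); omega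
  · constructor
    · show -(N : ℤ) ≤ v.1; omega
    · show v.1 ≤ (N : ℤ); omega
  · constructor
    · show -(N : ℤ) ≤ v.2; omega
    · show v.2 ≤ (N : ℤ); omega
  · show (h : ℤ) ∣ det2 (pt P u v a b) v / det2 u v
    have e : det2 (pt P u v a b) v = det2 P v + a * det2 u v := by
      unfold det2 pt
      ring
    rw [e, Int.add_mul_ediv_right _ _ hd]
    exact hak
  · show (h : ℤ) ∣ det2 u (pt P u v a b) / det2 u v
    have e : det2 u (pt P u v a b) = det2 u P + b * det2 u v := by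
      unfold det2 pt
      ring
    rw [e, Int.add_mul_ediv_right _ _ hd]
    exact hbl

end

end Pool.Agent.Rect22
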