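import Pool.Agent.Rect22.Round
import Pool.Agent.Rect22.ParStrat
import Pool.Agent.Rect22.ParLat
import Pool.Agent.Rect22.Num2
import Pool.Agent.Rect22.HypGen

/-!
Breaker wins the (2:2) game on parallelogram lattices.
-/

set_option autoImplicit false
set_option linter.unusedVariables false
set_option linter.unusedSectionVars false

namespace Pool.Agent.Rect22

open Finset Filter

/-- the constant in the bound for the number of lattices with large intersection -/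
noncomputable def c4 (e : ℝ) : ℕ := (⌈4 / th e⌉₊ * (2 * ⌈4 / th e⌉₊ ^ 2 + 1) ^ 2) ^ 2

/-- bound for the number of lattices with large intersection with a given one -/
noncomputable def C4 (e : ℝ) (N : ℕ) : ℕ :=
  (c4 e * ((qq 4 e N) ^ 2 * (qq 4 e N / Nat.sqrt (qq 4 e N) + 1) ^ 2)) / tt 4 e N

theorem tt_lower {e : ℝ} {N : ℕ} (h0 : 0 < th e) (h1 : 2 ≤ ⌊th e * qq 4 e N⌋₊) :
    th e * (qq 4 e N : ℝ) ^ 2 / 2 ≤ tt 4 e N := by
  have hpos : 0 ≤ th e * qq 4 e N := by positivity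
  have h2 : (2 : ℝ) ≤ th e * qq 4 e N := by
    have := Nat.floor_le hpos
    have h3 : ((2 : ℕ) : ℝ) ≤ (⌊th e * qq 4 e N⌋₊ : ℝ) := by exact_mod_cast h1
    push_cast at h3
    linarith
  have hq1 : (1 : ℝ) ≤ qq 4 e N := by
    have : 1 ≤ qq 4 e N := by
      by_contra hcon
      have h0 : qq 4 e N = 0 := by omega
      rw [h0] at h2
      norm_num at h2
    exact_mod_cast this
  have h3 := Nat.lt_floor_add_one (th e * (qq 4 e N : ℝ) ^ 2)
  have h4 : (2 : ℝ) ≤ th e * (qq 4 e N : ℝ) ^ 2 := by nlinarith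
  unfold tt
  linarith

theorem C4_le {e : ℝ} (he : 0 < e) (he1 : e ≤ 1 / 20) :
    ∃ Kc : ℕ, ∀ᶠ N : ℕ in atTop, C4 e N ≤ Kc * qq 4 e N := by
  obtain ⟨hth, hev⟩ := num_over (κ := 4) (by norm_num) le_rfl he he1
  refine ⟨⌈32 * (c4 e : ℝ) / th e⌉₊, ?_⟩
  filter_upwards [hev] with N hN
  obtain ⟨h1, h2, h3, h4, h5, h6⟩ := hN
  have ht := tt_lower hth h1
  set q := qq 4 e N with hq
  set s := Nat.sqrt q with hs
  have hs2 : s * s ≤ q := Nat.sqrt_le q
  have hs1 : (1 : ℝ) ≤ s := by exact_mod_cast h4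
  have hs2' : (s : ℝ) * s ≤ q := by exact_mod_cast hs2
  have hq1 : (1 : ℝ) ≤ q := by nlinarith
  have h5' : ((q / s + 1 : ℕ) : ℝ) ≤ 4 * s := by
    have : q / s + 1 ≤ 4 * s := by omega
    exact_mod_cast this
  have h5'' : ((q / s + 1 : ℕ) : ℝ) ^ 2 ≤ 16 * q := by
    calc ((q / s + 1 : ℕ) : ℝ) ^ 2 ≤ (4 * s) ^ 2 :=
          pow_le_pow_left₀ (Nat.cast_nonneg _) h5' 2
      _ = 16 * (s * s) := by ring
      _ ≤ 16 * q := by linarith
  have hC : (C4 e N : ℝ) * tt 4 e N ≤ c4 e * (q ^ 2 * (q / s + 1 : ℕ) ^ 2) := by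
    have : C4 e N * tt 4 e N ≤ c4 e * (q ^ 2 * (q / s + 1) ^ 2) := Nat.div_mul_le_self _ _
    exact_mod_cast this
  have h7 : (C4 e N : ℝ) * (th e * (q : ℝ) ^ 2 / 2) ≤ c4 e * (q ^ 2 * (16 * q)) := by
    calc (C4 e N : ℝ) * (th e * (q : ℝ) ^ 2 / 2) ≤ (C4 e N : ℝ) * tt 4 e N :=
          mul_le_mul_of_nonneg_left ht (Nat.cast_nonneg _)
      _ ≤ c4 e * (q ^ 2 * (q / s + 1 : ℕ) ^ 2) := hC
      _ ≤ c4 e * (q ^ 2 * (16 * q)) := by
          apply mul_le_mul_of_nonneg_left _ (Nat.cast_nonneg _)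
          exact mul_le_mul_of_nonneg_left h5'' (by positivity)
  have hq2 : (0 : ℝ) < (q : ℝ) ^ 2 := by positivity
  have h8 : (C4 e N : ℝ) ≤ 32 * (c4 e : ℝ) / th e * q := by
    rw [div_mul_eq_mul_div, le_div_iff₀ hth]
    have h9 : (C4 e N : ℝ) * th e * (q : ℝ) ^ 2 ≤ (32 * (c4 e : ℝ) * q) * (q : ℝ) ^ 2 := by
      nlinarith
    exact le_of_mul_le_mul_right h9 hq2
  have h13 : ((C4 e N : ℕ) : ℝ) ≤ ((⌈32 * (c4 e : ℝ) / th e⌉₊ * q : ℕ) : ℝ) := by
    push_cast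
    refine h8.trans ?_
    exact mul_le_mul_of_nonneg_right (Nat.le_ceil _) (by linarith)
  exact_mod_cast h13

theorem hyp4 {e : ℝ} (he : 0 < e) (he1 : e ≤ 1 / 20) :
    ∀ᶠ N : ℕ in atTop, Hyp (mkD 2 e 81 12 N (boardZ N)
      (Fam4 N (qq 4 e N) (Nat.sqrt (qq 4 e N))) (Pr4 N) (C4 e N)) := by
  obtain ⟨Kc, hKc⟩ := C4_le he he1
  have hg := hyp_gen (ν := 2) (by norm_num) le_rfl he he1 81 12 Kc (by norm_num)
  obtain ⟨hth, hev⟩ := num_over (κ := 4) (by norm_num) le_rfl he he1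
  filter_upwards [hKc, hg, hev, eventually_ge_atTop 1] with N h1 h2 h3 hN1
  obtain ⟨g1, g2, g3, g4, g5, g6⟩ := h3
  have hq1 : 1 ≤ qq 4 e N := by
    by_contra hcon
    have : qq 4 e N = 0 := by omega
    rw [this] at g4
    simp at g4
  have e21 : 2 * 2 = 4 := rfl
  simp only [e21] at h2
  have htpos : 0 < tt 4 e N := by omega
  refine h2 (ℤ × ℤ) (boardZ N) _ (Pr4 N) _ h1 (fun A hA => Fam4_sub hA) (fun A hA => Fam4_card hA)
    ?_ ?_ ?_ ?_ ?_ ?_ ?_
  · intro B hB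
    have h4 := Fam4_over (N := N) (h := Nat.sqrt (qq 4 e N)) (K := ⌈4 / th e⌉₊) g4 g1 g2
      (by omega) hB
    exact (Nat.le_div_iff_mul_le htpos).2 h4
  · intro z
    refine (Fam4_deg _ _ _ z).trans ?_
    exact Nat.mul_le_mul_left _ (Nat.pow_le_pow_right hq1 (by norm_num))
  · intro p hp
    have hne : p.1 ≠ p.2 := by
      unfold Pr4 at hp
      exact (mem_filter.1 hp).2
    refine (Fam4_pdeg N _ _ hne).trans ?_
    exact Nat.mul_le_mul_left _ (Nat.pow_le_pow_right hq1 (by norm_num))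
  · intro x z hxz hp
    rw [Fam4_gdeg hxz hp]
    exact Nat.zero_le _
  · exact card_Fam4 _ _ _
  · refine (card_Pr4 N).trans ?_
    omega
  · intro A hA
    exact Fam4_tr hA

theorem hasLatZ_of {q : ℕ} {M : Finset (ℤ × ℤ)} (h : Par.HasLattice q M) : HasLatZ q M := by
  obtain ⟨P, u, v, huv, hM⟩ := h
  refine ⟨P, u, v, ?_, ?_⟩
  · intro hdet
    rw [LinearIndependent.pair_iff] at huv
    unfold det2 at hdet
    have h1 := huv v.2 (-u.2) (by
      ext
      · simp only [Prod.fst_add, Prod.smul_fst, smul_eq_mul, Prod.fst_zero]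
        linarith
      · simp only [Prod.snd_add, Prod.smul_snd, smul_eq_mul, Prod.snd_zero]
        ring)
    have h2 := huv v.1 (-u.1) (by
      ext
      · simp only [Prod.fst_add, Prod.smul_fst, smul_eq_mul, Prod.fst_zero]
        ring
      · simp only [Prod.snd_add, Prod.smul_snd, smul_eq_mul, Prod.snd_zero]
        linarith)
    have hu : u = 0 := by
      ext
      · simp only [Prod.fst_zero]
        linarith [h2.2]
      · simp only [Prod.snd_zero]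
        linarith [h1.2]
    have h3 := huv 1 0 (by rw [hu]; simp)
    exact one_ne_zero h3.1
  · intro i j hi hj
    have := hM i j hi hj
    have e1 : pt P u v (i : ℤ) (j : ℤ) = P + (i : ℤ) • u + (j : ℤ) • v := by
      unfold pt
      ext
      · simp
      · simp
    rw [e1]
    exact this

theorem breakerWins_of_hyp4 {N q h q0 : ℕ} {D : Dat (ℤ × ℤ)} (H : Hyp D) (hV : D.V = boardZ N)
    (hF : D.Fam = Fam4 N q h) (hh : 1 ≤ h) (hq : 1 ≤ q) (hq0 : q + h ≤ q0) :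
    Par.BreakerWins N q0 := by
  refine Par.breakerWins_of_rule (Good D) (good_start H) ?_ ?_
  · intro M B m hM hB hMB hG hm hm2
    have hV' : Par.boardZ N = D.V := hV.symm
    rw [hV'] at hm ⊢
    exact good_round H hG hm hm2
  · intro M B hM hB hMB hG hfull hL
    obtain ⟨A, hA, hAM⟩ := Fam4_of_has hh hq hq0 hM (hasLatZ_of hL)
    have hV' : Par.boardZ N = D.V := hV.symm
    rw [hV'] at hfull
    rw [← hF] at hA
    exact good_end H hG hfull hA hAM

/-- For every `c > 2` and all large `N`, Breaker wins for `q = ⌊c √(log₂ N)⌋` and all larger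
`q`. -/
theorem final4 (c : ℝ) (hc : 2 < c) : ∃ N₀ : ℕ, ∀ N : ℕ, N₀ ≤ N → ∀ q : ℕ,
    c * Real.sqrt (Real.logb 2 N) ≤ q + 1 → Par.BreakerWins N q := by
  have hc0 : 0 < c := by linarith
  have hc2 : 4 < c ^ 2 := by nlinarith
  set e : ℝ := min ((c ^ 2 - 4) / 2) (1 / 20) with he_def
  have he : 0 < e := lt_min (by linarith) (by norm_num)
  have he1 : e ≤ 1 / 20 := min_le_right _ _
  have he2 : ((4 : ℕ) : ℝ) + e < c ^ 2 := by
    have : e ≤ (c ^ 2 - 4) / 2 := min_le_left _ _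
    push_cast
    linarith
  have h1 := hyp4 he he1
  have h2 := num_cont (κ := 4) (by norm_num) le_rfl he he1 hc0 he2
  obtain ⟨hth, h3⟩ := num_over (κ := 4) (by norm_num) le_rfl he he1
  have h4 := (h1.and h2).and h3
  obtain ⟨N₀, hN₀⟩ := eventually_atTop.1 h4
  refine ⟨N₀, fun N hN q hq => ?_⟩
  obtain ⟨⟨g1, g2⟩, g3⟩ := hN₀ N hN
  have hh : 1 ≤ Nat.sqrt (qq 4 e N) := g3.2.2.2.1
  have hq1 : 1 ≤ qq 4 e N := by
    by_contra hcon
    have h0 : qq 4 e N = 0 := by omega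
    rw [h0] at hh
    simp at hh
  exact breakerWins_of_hyp4 g1 rfl rfl hh hq1 (g2 q hq)

end Pool.Agent.Rect22
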