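import Pool.Agent.Rect22.States

/-!
The initial value of the potential.
-/

set_option autoImplicit false
set_option linter.unusedVariables false
set_option linter.unusedSectionVars false

namespace Pool.Agent.Rect22

open Finset 

section
section
variable {α : Type*} [DecidableEq α]

/-- TARGET 1 -/
theorem uu_le2 {P : Pm} (hP : P.OK) (f : ℕ) : uu P f ≤ (P.pb / P.pq) ^ P.F1 * P.pq ^ f := by
  have hq := hP.pq0
  have hb : 0 < P.pb := hq.trans_le hP.pqb
  unfold uu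
  rcases le_total f P.F1 with h | h
  · rw [min_eq_left h, Nat.sub_eq_zero_of_le h, pow_zero, mul_one]
    obtain ⟨k, hk⟩ := Nat.exists_eq_add_of_le h
    rw [hk, pow_add]
    have h1 : (1 : ℝ) ≤ (P.pb / P.pq) ^ k := one_le_pow₀ ((one_le_div hq).2 hP.pqb)
    have h2 : (P.pb / P.pq) ^ f * P.pq ^ f = P.pb ^ f := by
      rw [← mul_pow, div_mul_cancel₀ _ hq.ne']
    calc P.pb ^ f = P.pb ^ f * 1 := (mul_one _).symm
      _ ≤ P.pb ^ f * (P.pb / P.pq) ^ k := mul_le_mul_of_nonneg_left h1 (pow_nonneg hb.le _)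
      _ = (P.pb / P.pq) ^ f * (P.pb / P.pq) ^ k * P.pq ^ f := by rw [← h2]; ring
  · rw [min_eq_right h]
    obtain ⟨k, hk⟩ := Nat.exists_eq_add_of_le h
    rw [hk, Nat.add_sub_cancel_left, pow_add, ← mul_assoc, ← mul_pow, div_mul_cancel₀ _ hq.ne']

/-- value of an option arm with root in `E` -/
noncomputable def iX_ov (P : Pm) (s : St α) (E : Finset α) (o : Option (Arm α)) : ℝ :=
  match o with
  | none => 1
  | some a => if a.1 ∈ E then aval P s a else 0

theorem iX_uu_nonneg {P : Pm} (hP : P.OK) (f : ℕ) : 0 ≤ uu P f := by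
  have hq := hP.pq0
  have hb : 0 < P.pb := hq.trans_le hP.pqb
  unfold uu; positivity

theorem iX_aval_nonneg {P : Pm} (hP : P.OK) (s : St α) (a : Arm α) : 0 ≤ aval P s a := by
  unfold aval
  have h1 := hP.sig1
  have h2 := hP.zet0
  have h3 : (0 : ℝ) ≤ if a.2.2 ⊆ liv s a.1 then uu P (a.2.2 \ s.mu a.1).card else 0 := by
    split_ifs
    · exact iX_uu_nonneg hP _
    · exact le_refl _
  have h4 : (0 : ℝ) ≤ P.sig := by linarith
  positivity

theorem iX_ov_nonneg {P : Pm} (hP : P.OK) (s : St α) (E : Finset α) (o : Option (Arm α)) :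
    0 ≤ iX_ov P s E o := by
  unfold iX_ov
  cases o with
  | none => exact zero_le_one
  | some a =>
    simp only
    split_ifs
    · exact iX_aval_nonneg hP s a
    · exact le_refl _

theorem iX_sumD {P : Pm} (hP : P.OK) (V A : Finset α) (z : α) :
    ∑ D ∈ A.powerset, aval P (⟨V, ∅, ∅, fun _ => ∅⟩ : St α) (z, A, D) ≤
      P.sig * (P.pb / P.pq) ^ P.F1 * (P.zet + P.pq) ^ A.card := by
  have h1 := hP.sig1
  have h2 := hP.zet0
  have h4 : (0 : ℝ) ≤ P.sig := by linarith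
  have h5 : ∀ D ∈ A.powerset, aval P (⟨V, ∅, ∅, fun _ => ∅⟩ : St α) (z, A, D) ≤
      P.sig * (P.pb / P.pq) ^ P.F1 * (P.pq ^ D.card * P.zet ^ (A.card - D.card)) := by
    intro D hD
    rw [Finset.mem_powerset] at hD
    unfold aval
    simp only [Finset.sdiff_empty]
    rw [Finset.card_sdiff_of_subset hD]
    have h6 : (if D ⊆ liv (⟨V, ∅, ∅, fun _ => ∅⟩ : St α) z then uu P D.card else 0) ≤
        (P.pb / P.pq) ^ P.F1 * P.pq ^ D.card := by
      refine le_trans ?_ (uu_le2 hP D.card)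
      split_ifs
      · exact le_refl _
      · exact iX_uu_nonneg hP _
    calc P.sig * P.zet ^ (A.card - D.card) *
          (if D ⊆ liv (⟨V, ∅, ∅, fun _ => ∅⟩ : St α) z then uu P D.card else 0)
        ≤ P.sig * P.zet ^ (A.card - D.card) * ((P.pb / P.pq) ^ P.F1 * P.pq ^ D.card) :=
          mul_le_mul_of_nonneg_left h6 (by positivity)
      _ = _ := by ring
  refine (Finset.sum_le_sum h5).trans ?_
  rw [← Finset.mul_sum, Finset.sum_pow_mul_eq_add_pow, add_comm P.zet P.pq]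

theorem iX_arm {P : Pm} (hP : P.OK) {V : Finset α} {Fam : Finset (Finset α)} {n dg : ℕ}
    (hn : ∀ A ∈ Fam, A.card = n)
    (hdg : ∀ z, (Fam.filter (fun A => z ∈ A)).card ≤ dg) (E : Finset α) (hE : E ∈ Fam) :
    ∑ a ∈ arms Fam, (if a.1 ∈ E then aval P (⟨V, ∅, ∅, fun _ => ∅⟩ : St α) a else 0) ≤
      n * (dg * (P.sig * (P.pb / P.pq) ^ P.F1 * (P.zet + P.pq) ^ n)) := by
  obtain ⟨W, hW⟩ : ∃ W : ℝ, W = P.sig * (P.pb / P.pq) ^ P.F1 * (P.zet + P.pq) ^ n := ⟨_, rfl⟩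
  have hq := hP.pq0
  have hb : 0 < P.pb := hq.trans_le hP.pqb
  have hW0 : 0 ≤ W := by
    rw [hW]
    have h1 := hP.sig1
    have h2 := hP.zet0
    have h4 : (0 : ℝ) ≤ P.sig := by linarith
    positivity
  rw [← hW, sum_arms]
  have h1 : ∀ A ∈ Fam, ∑ z ∈ A, ∑ D ∈ A.powerset,
      (if (z, A, D).1 ∈ E then aval P (⟨V, ∅, ∅, fun _ => ∅⟩ : St α) (z, A, D) else 0) ≤
      ∑ z ∈ E, if z ∈ A then W else 0 := by
    intro A hA
    have h2 : ∑ z ∈ E, (if z ∈ A then W else 0) = ∑ z ∈ A, if z ∈ E then W else 0 := by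
      rw [Finset.sum_ite_mem, Finset.sum_ite_mem, Finset.inter_comm]
    rw [h2]
    refine Finset.sum_le_sum fun z _ => ?_
    by_cases hz : z ∈ E
    · simp only [hz, if_true]
      rw [hW, ← hn A hA]
      exact iX_sumD hP V A z
    · simp only [hz, if_false, Finset.sum_const_zero, le_refl]
  refine (Finset.sum_le_sum h1).trans ?_
  rw [Finset.sum_comm]
  have h3 : ∀ z ∈ E, ∑ A ∈ Fam, (if z ∈ A then W else 0) ≤ dg * W := by
    intro z _
    rw [← Finset.sum_filter, Finset.sum_const, nsmul_eq_mul]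
    exact mul_le_mul_of_nonneg_right (by exact_mod_cast hdg z) hW0
  refine (Finset.sum_le_sum h3).trans ?_
  rw [Finset.sum_const, nsmul_eq_mul, hn E hE]

/-- TARGET 2: the initial value of the cluster sum -/
theorem init_X {P : Pm} (hP : P.OK) {V : Finset α} {Fam : Finset (Finset α)} {n dg : ℕ}
    (hV : ∀ A ∈ Fam, A ⊆ V) (hn : ∀ A ∈ Fam, A.card = n)
    (hdg : ∀ z, (Fam.filter (fun A => z ∈ A)).card ≤ dg) (R : ℕ) :
    Ups (XK Fam R) (xw P (⟨V, ∅, ∅, fun _ => ∅⟩ : St α)) ≤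
      Fam.card * (1 + n * (dg * (P.sig * (P.pb / P.pq) ^ P.F1 * (P.zet + P.pq) ^ n))) ^ R := by
  classical
  obtain ⟨s, hs⟩ : ∃ s : St α, s = ⟨V, ∅, ∅, fun _ => ∅⟩ := ⟨_, rfl⟩
  rw [← hs]
  unfold Ups
  have h1 : ∀ K ∈ XK Fam R, xw P s K = ∏ i, iX_ov P s K.1 (K.2 i) := by
    intro K hK
    have hC := mem_XK.1 hK
    unfold xw
    have h2 : Disjoint K.1 s.B := by rw [hs]; exact Finset.disjoint_empty_right _
    rw [if_pos h2, one_mul]
    refine Finset.prod_congr rfl fun i _ => ?_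
    unfold iX_ov oval
    cases h : K.2 i with
    | none => rfl
    | some a =>
      simp only
      rw [if_pos (hC.arm i a h).2.2.2.1]
  rw [Finset.sum_congr rfl h1]
  have hsub : XK Fam R ⊆ Fam ×ˢ Fintype.piFinset (fun _ : Fin R => Finset.insertNone (arms Fam)) := by
    intro K hK
    have hC := mem_XK.1 hK
    rw [Finset.mem_product, Fintype.mem_piFinset]
    refine ⟨hC.root, fun i => ?_⟩
    rw [Finset.mem_insertNone]
    intro a ha
    have := hC.arm i a ha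
    exact mem_arms.2 ⟨this.1, this.2.1, this.2.2.1⟩
  refine (Finset.sum_le_sum_of_subset_of_nonneg hsub fun K _ _ =>
    Finset.prod_nonneg fun i _ => iX_ov_nonneg hP s K.1 (K.2 i)).trans ?_
  rw [Finset.sum_product]
  have h2 : ∀ E ∈ Fam, ∑ g ∈ Fintype.piFinset (fun _ : Fin R => Finset.insertNone (arms Fam)),
      ∏ i, iX_ov P s E (g i) ≤
      (1 + n * (dg * (P.sig * (P.pb / P.pq) ^ P.F1 * (P.zet + P.pq) ^ n))) ^ R := by
    intro E hE
    have h3 := Finset.prod_univ_sum (fun _ : Fin R => Finset.insertNone (arms Fam))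
      (fun (_ : Fin R) (o : Option (Arm α)) => iX_ov P s E o)
    rw [← h3, Finset.prod_const, Finset.card_univ, Fintype.card_fin]
    have h4 : ∑ o ∈ Finset.insertNone (arms Fam), iX_ov P s E o =
        1 + ∑ a ∈ arms Fam, (if a.1 ∈ E then aval P s a else 0) := by
      rw [Finset.sum_insertNone]
      rfl
    refine pow_le_pow_left₀ (Finset.sum_nonneg fun o _ => iX_ov_nonneg hP s E o) ?_ R
    rw [h4, hs]
    have := iX_arm hP (V := V) hn hdg E hE
    linarith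
  refine (Finset.sum_le_sum h2).trans ?_
  rw [Finset.sum_const, nsmul_eq_mul]

end

end

section
section
variable {α : Type*} [DecidableEq α]

/-- the parts through both points of the pair -/
def init_P_S (Fam : Finset (Finset α)) (p : α × α) : Finset (Finset α × Finset α) :=
  ((Fam.filter (fun A => p.1 ∈ A ∧ p.2 ∈ A)) ×ˢ (Fam.biUnion id).powerset).filter
    (fun c => c.2 ⊆ c.1)

theorem mem_init_P_S {Fam : Finset (Finset α)} {p : α × α} (c : Finset α × Finset α) :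
    c ∈ init_P_S Fam p ↔ c.1 ∈ Fam.filter (fun A => p.1 ∈ A ∧ p.2 ∈ A) ∧ c.2 ∈ c.1.powerset := by
  unfold init_P_S
  rw [Finset.mem_filter, Finset.mem_product, Finset.mem_powerset, Finset.mem_powerset]
  constructor
  · rintro ⟨⟨h1, _⟩, h3⟩
    exact ⟨h1, h3⟩
  · rintro ⟨h1, h2⟩
    refine ⟨⟨h1, fun x hx => ?_⟩, h2⟩
    rw [Finset.mem_biUnion]
    exact ⟨c.1, (Finset.mem_filter.mp h1).1, h2 hx⟩

/-- upper bound of `pval` -/
noncomputable def init_P_pv (P : Pm) (c : Finset α × Finset α) : ℝ :=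
  P.lam * P.zet ^ (c.1 \ c.2).card * P.pb ^ c.2.card

theorem init_P_sum (P : Pm) (hP : P.OK) {Fam : Finset (Finset α)} {n pd : ℕ}
    (hn : ∀ A ∈ Fam, A.card = n) (p : α × α)
    (hpd : (Fam.filter (fun A => p.1 ∈ A ∧ p.2 ∈ A)).card ≤ pd) :
    ∑ c ∈ init_P_S Fam p, init_P_pv P c ≤ pd * (P.lam * (P.zet + P.pb) ^ n) := by
  have hl := hP.lam0
  have hz := hP.zet0
  have hb : 0 < P.pb := lt_of_lt_of_le hP.pq0 hP.pqb
  rw [Finset.sum_finset_product _ _ _ (fun c => mem_init_P_S c)]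
  have h1 : ∀ A ∈ Fam.filter (fun A => p.1 ∈ A ∧ p.2 ∈ A),
      ∑ D ∈ A.powerset, init_P_pv P (A, D) = P.lam * (P.zet + P.pb) ^ n := by
    intro A hA
    have hc := hn A (Finset.mem_filter.mp hA).1
    rw [← hc, add_comm P.zet P.pb, ← Finset.sum_pow_mul_eq_add_pow, Finset.mul_sum]
    refine Finset.sum_congr rfl fun D hD => ?_
    rw [Finset.mem_powerset] at hD
    unfold init_P_pv
    show P.lam * P.zet ^ (A \ D).card * P.pb ^ D.card = _
    rw [Finset.card_sdiff_of_subset hD]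
    ring
  rw [Finset.sum_congr rfl h1, Finset.sum_const, nsmul_eq_mul]
  apply mul_le_mul_of_nonneg_right _ (by positivity)
  exact_mod_cast hpd

theorem init_P_pval (P : Pm) (hP : P.OK) (V : Finset α) (c : Finset α × Finset α) :
    0 ≤ pval P (⟨V, ∅, ∅, fun _ => ∅⟩ : St α) c ∧
      pval P (⟨V, ∅, ∅, fun _ => ∅⟩ : St α) c ≤ init_P_pv P c := by
  have hl := hP.lam0
  have hz := hP.zet0
  have hb : 0 < P.pb := lt_of_lt_of_le hP.pq0 hP.pqb
  unfold pval init_P_pv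
  have hA : 0 ≤ P.lam * P.zet ^ (c.1 \ c.2).card := by positivity
  show 0 ≤ P.lam * P.zet ^ (c.1 \ c.2).card *
      (if c.2 ⊆ V ∪ ∅ then P.pb ^ (c.2 \ ∅).card else 0) ∧
    P.lam * P.zet ^ (c.1 \ c.2).card *
      (if c.2 ⊆ V ∪ ∅ then P.pb ^ (c.2 \ ∅).card else 0)
      ≤ P.lam * P.zet ^ (c.1 \ c.2).card * P.pb ^ c.2.card
  rw [Finset.sdiff_empty]
  have hp : 0 ≤ P.pb ^ c.2.card := by positivity
  constructor
  · apply mul_nonneg hA
    split_ifs
    · exact hp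
    · exact le_refl _
  · apply mul_le_mul_of_nonneg_left _ hA
    split_ifs
    · exact le_refl _
    · exact hp

theorem init_P_pv_nonneg (P : Pm) (hP : P.OK) (c : Finset α × Finset α) :
    0 ≤ init_P_pv P c := by
  have hl := hP.lam0
  have hz := hP.zet0
  have hb : 0 < P.pb := lt_of_lt_of_le hP.pq0 hP.pqb
  unfold init_P_pv
  positivity

/-- TARGET 1: the initial value of the pair cluster sum -/
theorem init_P {P : Pm} (hP : P.OK) {V : Finset α} {Fam : Finset (Finset α)}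
    {Pr : Finset (α × α)} {n pd : ℕ} (hn : ∀ A ∈ Fam, A.card = n)
    (hpd : ∀ p ∈ Pr, (Fam.filter (fun A => p.1 ∈ A ∧ p.2 ∈ A)).card ≤ pd) (r : ℕ) :
    Ups (PK Fam Pr r) (pw P (⟨V, ∅, ∅, fun _ => ∅⟩ : St α)) ≤
      Pr.card * (pd * (P.lam * (P.zet + P.pb) ^ n)) ^ r := by
  classical
  have hterm : ∀ K : PClus α r, pw P (⟨V, ∅, ∅, fun _ => ∅⟩ : St α) K
      ≤ ∏ i, init_P_pv P (K.2 i) := by
    intro K
    unfold pw
    have h0 : 0 ≤ ∏ i, pval P (⟨V, ∅, ∅, fun _ => ∅⟩ : St α) (K.2 i) :=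
      Finset.prod_nonneg fun i _ => (init_P_pval P hP V (K.2 i)).1
    have h1 : ∏ i, pval P (⟨V, ∅, ∅, fun _ => ∅⟩ : St α) (K.2 i)
        ≤ ∏ i, init_P_pv P (K.2 i) :=
      Finset.prod_le_prod (fun i _ => (init_P_pval P hP V (K.2 i)).1)
        (fun i _ => (init_P_pval P hP V (K.2 i)).2)
    split_ifs
    · rw [one_mul]; exact h1
    · rw [zero_mul]; exact le_trans h0 h1
  set r' : Finset (PClus α r) :=
    (Pr ×ˢ Fintype.piFinset (fun _ : Fin r => Fam ×ˢ (Fam.biUnion id).powerset)).filter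
      (fun K => ∀ i, K.2 i ∈ init_P_S Fam K.1) with hr'
  have hmem : ∀ K : PClus α r, K ∈ r' ↔
      K.1 ∈ Pr ∧ K.2 ∈ Fintype.piFinset (fun _ : Fin r => init_P_S Fam K.1) := by
    intro K
    rw [hr', Finset.mem_filter, Finset.mem_product, Fintype.mem_piFinset, Fintype.mem_piFinset]
    constructor
    · rintro ⟨⟨h1, _⟩, h3⟩
      exact ⟨h1, h3⟩
    · rintro ⟨h1, h2⟩
      refine ⟨⟨h1, fun i => ?_⟩, h2⟩
      have h3 := h2 i
      unfold init_P_S at h3
      rw [Finset.mem_filter, Finset.mem_product] at h3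
      rw [Finset.mem_product]
      exact ⟨(Finset.mem_filter.mp h3.1.1).1, h3.1.2⟩
  have hsub : PK Fam Pr r ⊆ r' := by
    intro K hK
    have hc := mem_PK.mp hK
    rw [hmem, Fintype.mem_piFinset]
    refine ⟨hc.root, fun i => ?_⟩
    obtain ⟨a1, a2, a3, a4, _, _⟩ := hc.arm i
    rw [mem_init_P_S, Finset.mem_filter, Finset.mem_powerset]
    exact ⟨⟨a1, a2, a3⟩, a4⟩
  unfold Ups
  calc ∑ K ∈ PK Fam Pr r, pw P (⟨V, ∅, ∅, fun _ => ∅⟩ : St α) K
      ≤ ∑ K ∈ PK Fam Pr r, ∏ i, init_P_pv P (K.2 i) := Finset.sum_le_sum fun K _ => hterm K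
    _ ≤ ∑ K ∈ r', ∏ i, init_P_pv P (K.2 i) :=
        Finset.sum_le_sum_of_subset_of_nonneg hsub fun K _ _ =>
          Finset.prod_nonneg fun i _ => init_P_pv_nonneg P hP (K.2 i)
    _ = ∑ p ∈ Pr, ∑ f ∈ Fintype.piFinset (fun _ : Fin r => init_P_S Fam p),
          ∏ i, init_P_pv P (f i) := Finset.sum_finset_product _ _ _ hmem
    _ = ∑ p ∈ Pr, (∑ c ∈ init_P_S Fam p, init_P_pv P c) ^ r := by
        refine Finset.sum_congr rfl fun p _ => ?_
        rw [← Finset.prod_univ_sum (fun _ : Fin r => init_P_S Fam p) (fun _ c => init_P_pv P c),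
          Finset.prod_const, Finset.card_univ, Fintype.card_fin]
    _ ≤ ∑ _p ∈ Pr, (pd * (P.lam * (P.zet + P.pb) ^ n)) ^ r := by
        refine Finset.sum_le_sum fun p hp => ?_
        apply pow_le_pow_left₀ (Finset.sum_nonneg fun c _ => init_P_pv_nonneg P hP c)
        exact init_P_sum P hP hn p (hpd p hp)
    _ = Pr.card * (pd * (P.lam * (P.zet + P.pb) ^ n)) ^ r := by
        rw [Finset.sum_const, nsmul_eq_mul]

/-- TARGET 2 -/
theorem bd_of_ups {ι : Type*} {K : Finset ι} {w : ι → ℝ} {hot : ι → Finset α} {F : Finset α}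
    {u : ℝ} (hw : ∀ κ ∈ K, 0 ≤ w κ) (h : Ups K w ≤ u) : Bd K w hot F (3 * u) := by
  intro Y _ hYc
  have h0 : 0 ≤ Ups K w := Finset.sum_nonneg hw
  have hd : ∀ y, drp K w hot y ≤ Ups K w := by
    intro y
    unfold drp Ups
    refine Finset.sum_le_sum fun k hk => ?_
    split_ifs
    · exact le_refl _
    · exact hw k hk
  have hs : ∑ y ∈ Y, drp K w hot y ≤ ∑ _y ∈ Y, Ups K w := Finset.sum_le_sum fun y _ => hd y
  rw [Finset.sum_const, nsmul_eq_mul] at hs
  have hc : (Y.card : ℝ) ≤ 2 := by exact_mod_cast hYc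
  have h2 : (Y.card : ℝ) * Ups K w ≤ 2 * Ups K w := mul_le_mul_of_nonneg_right hc h0
  linarith

end

end

end Pool.Agent.Rect22
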