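import Pool.Agent.Rect22.LatDefs

/-!
Progressions.
-/

set_option autoImplicit false
set_option linter.unusedVariables false
set_option linter.unusedSectionVars false

namespace Pool.Agent.Rect22

open Finset 

section
theorem j26165_mem {N q h : ℕ} {X : Finset ℕ} (hX : X ∈ P1 N q h) :
    ∃ a d : ℕ, 1 ≤ a ∧ a ≤ N ∧ 1 ≤ d ∧ d ≤ N ∧ a + (q - 1) * d ≤ N ∧ X = ap q (a, d) := by
  unfold P1 at hX
  obtain ⟨⟨a, d⟩, hp, rfl⟩ := mem_image.1 hX
  rw [mem_filter, mem_product, mem_Icc, mem_Icc] at hp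
  exact ⟨a, d, hp.1.1.1, hp.1.1.2, hp.1.2.1, hp.1.2.2, hp.2.2, rfl⟩

theorem j26165_mem_ap {q a d x : ℕ} : x ∈ ap q (a, d) ↔ ∃ i < q, x = a + i * d := by
  unfold ap
  rw [mem_image]
  constructor
  · rintro ⟨i, hi, rfl⟩
    exact ⟨i, mem_range.1 hi, rfl⟩
  · rintro ⟨i, hi, rfl⟩
    exact ⟨i, mem_range.2 hi, rfl⟩

theorem P1_card {N q h : ℕ} {X : Finset ℕ} (hX : X ∈ P1 N q h) : X.card = q := by
  obtain ⟨a, d, _, _, hd, _, _, rfl⟩ := j26165_mem hX
  unfold ap
  rw [card_image_of_injective, card_range]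
  intro i j hij
  simp only at hij
  have h1 : i * d = j * d := by omega
  exact Nat.eq_of_mul_eq_mul_right (by omega) h1

theorem P1_sub {N q h : ℕ} {X : Finset ℕ} (hX : X ∈ P1 N q h) : X ⊆ Icc 1 N := by
  obtain ⟨a, d, ha, _, hd, _, hN, rfl⟩ := j26165_mem hX
  intro x hx
  obtain ⟨i, hi, rfl⟩ := j26165_mem_ap.1 hx
  rw [mem_Icc]
  refine ⟨by omega, ?_⟩
  have h1 : i * d ≤ (q - 1) * d := Nat.mul_le_mul_right _ (by omega)
  omega

theorem card_P1 (N q h : ℕ) : (P1 N q h).card ≤ N ^ 2 := by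
  unfold P1
  refine card_image_le.trans ((card_filter_le _ _).trans ?_)
  rw [card_product, Nat.card_Icc]
  simp [sq]

/-- progressions through a point -/
theorem P1_deg (N q h : ℕ) (x : ℕ) : ((P1 N q h).filter (fun X => x ∈ X)).card ≤ N * q := by
  have hsub : (P1 N q h).filter (fun X => x ∈ X) ⊆
      (Icc 1 N ×ˢ range q).image (fun p => ap q (x - p.2 * p.1, p.1)) := by
    intro X hX
    rw [mem_filter] at hX
    obtain ⟨a, d, ha, _, hd, hdN, hN, rfl⟩ := j26165_mem hX.1
    obtain ⟨i, hi, hx⟩ := j26165_mem_ap.1 hX.2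
    rw [mem_image]
    refine ⟨(d, i), ?_, ?_⟩
    · rw [mem_product, mem_Icc, mem_range]
      exact ⟨⟨hd, hdN⟩, hi⟩
    · have : x - i * d = a := by omega
      show ap q (x - i * d, d) = ap q (a, d)
      rw [this]
  refine (card_le_card hsub).trans (card_image_le.trans ?_)
  rw [card_product, Nat.card_Icc, card_range]
  simp

/-- progressions through two points -/
theorem P1_pair (N q h : ℕ) {x y : ℕ} (hxy : x ≠ y) :
    ((P1 N q h).filter (fun X => x ∈ X ∧ y ∈ X)).card ≤ q ^ 2 := by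
  have hsub : (P1 N q h).filter (fun X => x ∈ X ∧ y ∈ X) ⊆
      (range q ×ˢ range q).image (fun p =>
        ap q (x - p.1 * (if p.1 < p.2 then (y - x) / (p.2 - p.1) else (x - y) / (p.1 - p.2)),
          (if p.1 < p.2 then (y - x) / (p.2 - p.1) else (x - y) / (p.1 - p.2)))) := by
    intro X hX
    rw [mem_filter] at hX
    obtain ⟨a, d, ha, _, hd, hdN, hN, rfl⟩ := j26165_mem hX.1
    obtain ⟨i, hi, hx⟩ := j26165_mem_ap.1 hX.2.1
    obtain ⟨j, hj, hy⟩ := j26165_mem_ap.1 hX.2.2
    have hdd : (if i < j then (y - x) / (j - i) else (x - y) / (i - j)) = d := by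
      by_cases hij : i < j
      · rw [if_pos hij]
        have h1 : y - x = (j - i) * d := by
          rw [Nat.sub_mul]
          omega
        rw [h1]
        exact Nat.mul_div_cancel_left _ (by omega)
      · rw [if_neg hij]
        have hne : i ≠ j := by
          rintro rfl
          exact hxy (hx.trans hy.symm)
        have h1 : x - y = (i - j) * d := by
          rw [Nat.sub_mul]
          omega
        rw [h1]
        exact Nat.mul_div_cancel_left _ (by omega)
    rw [mem_image]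
    refine ⟨(i, j), ?_, ?_⟩
    · rw [mem_product, mem_range, mem_range]
      exact ⟨hi, hj⟩
    · show ap q (x - i * (if i < j then (y - x) / (j - i) else (x - y) / (i - j)),
          (if i < j then (y - x) / (j - i) else (x - y) / (i - j))) = ap q (a, d)
      rw [hdd]
      have : x - i * d = a := by omega
      rw [this]
  refine (card_le_card hsub).trans (card_image_le.trans ?_)
  rw [card_product, card_range, sq]

end

section
theorem P1_over_idx {q z : ℕ} {p : ℕ × ℕ} (hp : 1 ≤ p.2) (hz : z ∈ ap q p) :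
    (z - p.1) / p.2 < q ∧ p.1 + (z - p.1) / p.2 * p.2 = z := by
  unfold ap at hz
  rw [mem_image] at hz
  obtain ⟨i, hi, rfl⟩ := hz
  rw [mem_range] at hi
  rw [Nat.add_sub_cancel_left, Nat.mul_div_cancel _ hp]
  exact ⟨hi, rfl⟩

/-- two common elements are close, so that the steps satisfy a small relation -/
theorem P1_over_step {q m K : ℕ} (hm : 2 ≤ m) (hK : 2 * q ≤ K * (m - 1)) {p r : ℕ × ℕ}
    (hp : 1 ≤ p.2) (hr : 1 ≤ r.2) (hc : m ≤ (ap q p ∩ ap q r).card) :
    ∃ i j : ℕ, 1 ≤ i ∧ i ≤ K ∧ j ≤ K ∧ i * p.2 = j * r.2 := by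
  have hcard : (range (m - 1)).card < (ap q p ∩ ap q r).card := by
    rw [card_range]
    omega
  have hK0 : 0 < K := by
    rcases Nat.eq_zero_or_pos K with h | h
    · exfalso
      have hq : q = 0 := by
        rw [h, zero_mul] at hK
        omega
      have h1 : (ap q p ∩ ap q r).card = 0 := by
        rw [hq]
        simp [ap]
      omega
    · exact h
  have hmaps : ∀ z ∈ ap q p ∩ ap q r,
      ((z - p.1) / p.2 + (z - r.1) / r.2) / K ∈ range (m - 1) := by
    intro z hz
    rw [mem_inter] at hz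
    have h1 := (P1_over_idx hp hz.1).1
    have h2 := (P1_over_idx hr hz.2).1
    rw [mem_range, Nat.div_lt_iff_lt_mul hK0, mul_comm (m - 1) K]
    omega
  obtain ⟨z, hz, z', hz', hne, heq⟩ := exists_ne_map_eq_of_card_lt_of_maps_to hcard hmaps
  have key : ∀ z z' : ℕ, z ∈ ap q p ∩ ap q r → z' ∈ ap q p ∩ ap q r → z < z' →
      ((z - p.1) / p.2 + (z - r.1) / r.2) / K = ((z' - p.1) / p.2 + (z' - r.1) / r.2) / K →
      ∃ i j : ℕ, 1 ≤ i ∧ i ≤ K ∧ j ≤ K ∧ i * p.2 = j * r.2 := by
    intro z z' hz hz' hlt heq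
    rw [mem_inter] at hz hz'
    have h1 := (P1_over_idx hp hz.1).2
    have h2 := (P1_over_idx hr hz.2).2
    have h1' := (P1_over_idx hp hz'.1).2
    have h2' := (P1_over_idx hr hz'.2).2
    generalize (z - p.1) / p.2 = x at h1 heq
    generalize (z - r.1) / r.2 = y at h2 heq
    generalize (z' - p.1) / p.2 = x' at h1' heq
    generalize (z' - r.1) / r.2 = y' at h2' heq
    have hxx : x < x' := by
      by_contra hcon
      push Not at hcon
      have := Nat.mul_le_mul_right p.2 hcon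
      omega
    have hyy : y < y' := by
      by_contra hcon
      push Not at hcon
      have := Nat.mul_le_mul_right r.2 hcon
      omega
    have hsum : (x' + y') < (x + y) + K := by
      have h3 := Nat.div_add_mod (x' + y') K
      have h4 := Nat.div_add_mod (x + y) K
      have h5 := Nat.mod_lt (x' + y') hK0
      rw [heq] at h4
      omega
    refine ⟨x' - x, y' - y, by omega, by omega, by omega, ?_⟩
    rw [Nat.sub_mul, Nat.sub_mul]
    omega
  rcases lt_or_gt_of_ne hne with h | h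
  · exact key z z' hz hz' h heq
  · exact key z' z hz' hz h heq.symm

theorem P1_over_fib {N q h m d : ℕ} (hh : 1 ≤ h) (Y : Finset ℕ) (y : ℕ) (J : Finset (ℕ × ℕ))
    (hJ : ∀ p ∈ J, 1 ≤ p.2 ∧ h ∣ p.1 / p.2 ∧ p.2 = d) :
    (J.filter (fun p => y ∈ ap q p)).card ≤ q / h + 1 := by
  have hmaps : ∀ p ∈ J.filter (fun p => y ∈ ap q p), (y - p.1) / p.2 / h ∈ range (q / h + 1) := by
    intro p hp
    rw [mem_filter] at hp
    have h1 := (P1_over_idx (hJ p hp.1).1 hp.2).1
    rw [mem_range]
    have := Nat.div_le_div_right (c := h) h1.le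
    omega
  have hinj : ∀ p ∈ J.filter (fun p => y ∈ ap q p), ∀ p' ∈ J.filter (fun p => y ∈ ap q p),
      (y - p.1) / p.2 / h = (y - p'.1) / p'.2 / h → p = p' := by
    intro p hp p' hp' heq
    rw [mem_filter] at hp hp'
    have h1 := (P1_over_idx (hJ p hp.1).1 hp.2).2
    have h1' := (P1_over_idx (hJ p' hp'.1).1 hp'.2).2
    obtain ⟨hp1, ⟨u, hu⟩, hp3⟩ := hJ p hp.1
    obtain ⟨hp1', ⟨u', hu'⟩, hp3'⟩ := hJ p' hp'.1
    generalize (y - p.1) / p.2 = i at h1 heq
    generalize (y - p'.1) / p'.2 = i' at h1' heq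
    rw [hp3] at h1 hu hp1
    rw [hp3'] at h1' hu'
    have h2 : p.1 / d + i = y / d := by
      rw [← h1, Nat.add_mul_div_right _ _ hp1]
    have h2' : p'.1 / d + i' = y / d := by
      rw [← h1', Nat.add_mul_div_right _ _ hp1]
    have h3 : i % h = i' % h := by
      have e1 : (h * u + i) % h = i % h := by rw [Nat.mul_add_mod]
      have e2 : (h * u' + i') % h = i' % h := by rw [Nat.mul_add_mod]
      rw [← e1, ← e2, ← hu, ← hu', h2, h2']
    have h4 : i = i' := by
      rw [← Nat.div_add_mod i h, ← Nat.div_add_mod i' h, h3, heq]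
    apply Prod.ext
    · rw [h4] at h1
      omega
    · rw [hp3, hp3']
  have := card_le_card_of_injOn (s := J.filter (fun p => y ∈ ap q p)) (t := range (q / h + 1))
    (fun p : ℕ × ℕ => (y - p.1) / p.2 / h) (fun p hp => hmaps p hp)
    (fun p hp p' hp' heq => hinj p hp p' hp' heq)
  rwa [card_range] at this

/-- TARGET: few progressions have a large intersection with a given one -/
theorem P1_over {N q h m K : ℕ} (hh : 1 ≤ h) (hm : 2 ≤ m) (hK : 2 * q ≤ K * (m - 1))
    {Y : Finset ℕ} (hY : Y ∈ P1 N q h) :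
    ((P1 N q h).filter (fun X => m ≤ (X ∩ Y).card)).card * m ≤
      (K + 1) ^ 2 * (q * (q / h + 1)) := by
  classical
  unfold P1 at hY
  rw [mem_image] at hY
  obtain ⟨r, hr, rfl⟩ := hY
  rw [mem_filter, mem_product, mem_Icc, mem_Icc] at hr
  have hr2 : 1 ≤ r.2 := hr.1.2.1
  obtain ⟨J, hJ⟩ : ∃ J, J = ((Icc 1 N ×ˢ Icc 1 N).filter
    (fun p => h ∣ p.1 / p.2 ∧ p.1 + (q - 1) * p.2 ≤ N)).filter
      (fun p => m ≤ (ap q p ∩ ap q r).card) := ⟨_, rfl⟩
  have hJmem : ∀ p ∈ J, 1 ≤ p.2 ∧ h ∣ p.1 / p.2 ∧ m ≤ (ap q p ∩ ap q r).card := by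
    intro p hp
    rw [hJ, mem_filter, mem_filter, mem_product, mem_Icc, mem_Icc] at hp
    exact ⟨hp.1.1.2.1, hp.1.2.1, hp.2⟩
  have hsub : (P1 N q h).filter (fun X => m ≤ (X ∩ ap q r).card) ⊆ J.image (ap q) := by
    intro X hX
    rw [mem_filter] at hX
    obtain ⟨hX1, hX2⟩ := hX
    unfold P1 at hX1
    rw [mem_image] at hX1
    obtain ⟨p, hp, rfl⟩ := hX1
    rw [mem_image]
    exact ⟨p, by rw [hJ, mem_filter]; exact ⟨hp, hX2⟩, rfl⟩
  have hcard1 : ((P1 N q h).filter (fun X => m ≤ (X ∩ ap q r).card)).card ≤ J.card :=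
    (card_le_card hsub).trans card_image_le
  obtain ⟨D, hD⟩ : ∃ D, D = (range (K + 1) ×ˢ range (K + 1)).image
    (fun ij : ℕ × ℕ => ij.2 * r.2 / ij.1) := ⟨_, rfl⟩
  have hDcard : D.card ≤ (K + 1) ^ 2 := by
    rw [hD]
    refine card_image_le.trans ?_
    rw [card_product, card_range, sq]
  have hJD : ∀ p ∈ J, p.2 ∈ D := by
    intro p hp
    obtain ⟨hp1, _, hp3⟩ := hJmem p hp
    obtain ⟨i, j, hi, hiK, hjK, hij⟩ := P1_over_step hm hK hp1 hr2 hp3
    rw [hD, mem_image]
    refine ⟨(i, j), ?_, ?_⟩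
    · rw [mem_product, mem_range, mem_range]
      exact ⟨Nat.lt_succ_of_le hiK, Nat.lt_succ_of_le hjK⟩
    · show j * r.2 / i = p.2
      rw [← hij, Nat.mul_div_cancel_left _ hi]
  have hfib : ∀ d ∈ D, (J.filter (fun p => p.2 = d)).card * m ≤ q * (q / h + 1) := by
    intro d _
    have hJd : ∀ p ∈ J.filter (fun p => p.2 = d), 1 ≤ p.2 ∧ h ∣ p.1 / p.2 ∧ p.2 = d := by
      intro p hp
      rw [mem_filter] at hp
      obtain ⟨hp1, hp2, _⟩ := hJmem p hp.1
      exact ⟨hp1, hp2, hp.2⟩
    have h1 : (J.filter (fun p => p.2 = d)).card * m ≤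
        ∑ p ∈ J.filter (fun p => p.2 = d), (ap q p ∩ ap q r).card := by
      rw [← smul_eq_mul, ← sum_const]
      apply sum_le_sum
      intro p hp
      exact (hJmem p (mem_filter.1 hp).1).2.2
    have h2 : ∑ p ∈ J.filter (fun p => p.2 = d), (ap q p ∩ ap q r).card =
        ∑ y ∈ ap q r, ((J.filter (fun p => p.2 = d)).filter (fun p => y ∈ ap q p)).card := by
      have e1 : ∀ p, (ap q p ∩ ap q r).card = ∑ y ∈ ap q r, if y ∈ ap q p then 1 else 0 := by
        intro p
        rw [← card_filter]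
        congr 1
        ext y
        rw [mem_inter, mem_filter]
        exact and_comm
      have e2 : ∀ y, ((J.filter (fun p => p.2 = d)).filter (fun p => y ∈ ap q p)).card =
          ∑ p ∈ J.filter (fun p => p.2 = d), if y ∈ ap q p then 1 else 0 := by
        intro y
        rw [← card_filter]
      rw [sum_congr rfl (fun p _ => e1 p), sum_comm, sum_congr rfl (fun y _ => (e2 y).symm)]
    have h3 : ∑ y ∈ ap q r, ((J.filter (fun p => p.2 = d)).filter (fun p => y ∈ ap q p)).card ≤
        ∑ _y ∈ ap q r, (q / h + 1) :=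
      sum_le_sum (fun y _ => P1_over_fib (N := N) (m := m) hh (ap q r) y _ hJd)
    rw [sum_const, smul_eq_mul] at h3
    have h4 : (ap q r).card ≤ q := by
      unfold ap
      refine card_image_le.trans ?_
      rw [card_range]
    calc (J.filter (fun p => p.2 = d)).card * m ≤ (ap q r).card * (q / h + 1) := by
          rw [h2] at h1
          exact h1.trans h3
      _ ≤ q * (q / h + 1) := Nat.mul_le_mul_right _ h4
  have hJcard : J.card = ∑ d ∈ D, (J.filter (fun p => p.2 = d)).card :=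
    card_eq_sum_card_fiberwise hJD
  calc ((P1 N q h).filter (fun X => m ≤ (X ∩ ap q r).card)).card * m ≤ J.card * m :=
        Nat.mul_le_mul_right _ hcard1
    _ = ∑ d ∈ D, (J.filter (fun p => p.2 = d)).card * m := by rw [hJcard, sum_mul]
    _ ≤ ∑ _d ∈ D, q * (q / h + 1) := sum_le_sum hfib
    _ = D.card * (q * (q / h + 1)) := by rw [sum_const, smul_eq_mul]
    _ ≤ (K + 1) ^ 2 * (q * (q / h + 1)) := Nat.mul_le_mul_right _ hDcard

end

section
/-- coded trace -/
def P1_tr_G (q a0 d0 : ℕ) (p : ℕ × ℕ × ℕ) : Finset ℕ :=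
  ((range q).filter (fun t => p.1 ≤ t ∧ t ≤ p.2.1 ∧ p.2.2 ∣ t - p.1)).image (fun t => a0 + t * d0)

theorem P1_tr_aux (q a0 d0 a d : ℕ) (hd : 1 ≤ d) (hd0 : 1 ≤ d0) (hq : 1 ≤ q) :
    ap q (a, d) ∩ ap q (a0, d0) ∈
      insert ∅ ((range q ×ˢ (range q ×ˢ Icc 1 q)).image (P1_tr_G q a0 d0)) := by
  set I : Finset ℕ := (range q).filter (fun t => a0 + t * d0 ∈ ap q (a, d)) with hI
  have h1 : ap q (a, d) ∩ ap q (a0, d0) = I.image (fun t => a0 + t * d0) := by
    ext z
    simp only [mem_inter, mem_image, hI, mem_filter]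
    constructor
    · rintro ⟨hz, hz2⟩
      simp only [ap, mem_image] at hz2
      obtain ⟨t, ht, rfl⟩ := hz2
      exact ⟨t, ⟨ht, hz⟩, rfl⟩
    · rintro ⟨t, ⟨ht, hz⟩, rfl⟩
      refine ⟨hz, ?_⟩
      simp only [ap, mem_image]
      exact ⟨t, ht, rfl⟩
  rw [h1]
  rcases I.eq_empty_or_nonempty with hE | hne
  · rw [hE]
    simp
  · apply mem_insert_of_mem
    set i := I.min' hne with hi
    set j := I.max' hne with hj
    have hiI : i ∈ I := I.min'_mem hne
    have hjI : j ∈ I := I.max'_mem hne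
    have hmem : ∀ t, t ∈ I ↔ t < q ∧ ∃ m < q, a + m * d = a0 + t * d0 := by
      intro t
      simp only [hI, mem_filter, mem_range, ap, mem_image]
    obtain ⟨hiq, mi, hmi, hmi2⟩ := (hmem i).1 hiI
    obtain ⟨hjq, mj, hmj, hmj2⟩ := (hmem j).1 hjI
    set g := Nat.gcd d d0 with hg
    have hgpos : 0 < g := Nat.gcd_pos_of_pos_left _ hd
    set c := d / g with hc
    have hdc : d = c * g := (Nat.div_mul_cancel (Nat.gcd_dvd_left d d0)).symm
    have hd0v : d0 = (d0 / g) * g := (Nat.div_mul_cancel (Nat.gcd_dvd_right d d0)).symm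
    have hcop : Nat.Coprime c (d0 / g) := Nat.coprime_div_gcd_div_gcd hgpos
    have hcpos : 1 ≤ c := by
      rcases Nat.eq_zero_or_pos c with h | h
      · rw [h] at hdc; omega
      · exact h
    rw [mem_image]
    refine ⟨(i, j, min c q), ?_, ?_⟩
    · simp only [mem_product, mem_range, mem_Icc]
      exact ⟨hiq, hjq, by omega, by omega⟩
    · unfold P1_tr_G
      congr 1
      ext t
      simp only [mem_filter, mem_range]
      constructor
      · rintro ⟨htq, hit, htj, hdiv⟩
        have hct : c ∣ t - i := by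
          rcases le_total c q with h | h
          · rwa [min_eq_left h] at hdiv
          · rw [min_eq_right h] at hdiv
            have : t - i = 0 := Nat.eq_zero_of_dvd_of_lt hdiv (by omega)
            rw [this]
            exact dvd_zero _
        obtain ⟨u, hu⟩ := hct
        have h2 : a + (mi + u * (d0 / g)) * d = a0 + t * d0 := by
          have e1 : t = i + c * u := by omega
          rw [e1, add_mul, ← add_assoc, hmi2, Nat.add_mul, ← add_assoc]
          congr 1
          calc u * (d0 / g) * d = u * (d0 / g) * (c * g) := by rw [← hdc]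
            _ = c * u * ((d0 / g) * g) := by ring
            _ = c * u * d0 := by rw [← hd0v]
        refine (hmem t).2 ⟨htq, mi + u * (d0 / g), ?_, h2⟩
        have h3 : a0 + t * d0 ≤ a0 + j * d0 := by gcongr
        rw [← h2, ← hmj2] at h3
        have h4 : (mi + u * (d0 / g)) * d ≤ mj * d := by omega
        have h5 := Nat.le_of_mul_le_mul_right h4 hd
        omega
      · intro ht
        have hit : i ≤ t := I.min'_le t ht
        have htj : t ≤ j := I.le_max' t ht
        obtain ⟨htq, m, hm, hm2⟩ := (hmem t).1 ht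
        refine ⟨htq, hit, htj, ?_⟩
        have h3 : a0 + i * d0 ≤ a0 + t * d0 := by gcongr
        rw [← hm2, ← hmi2] at h3
        have h4 : mi * d ≤ m * d := by omega
        have h5 := Nat.le_of_mul_le_mul_right h4 hd
        have h6 : (m - mi) * d = (t - i) * d0 := by
          rw [Nat.sub_mul, Nat.sub_mul]
          omega
        have h7 : c ∣ (t - i) * (d0 / g) := by
          refine ⟨m - mi, ?_⟩
          apply Nat.eq_of_mul_eq_mul_right hgpos
          calc (t - i) * (d0 / g) * g = (t - i) * ((d0 / g) * g) := by ring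
            _ = (t - i) * d0 := by rw [← hd0v]
            _ = (m - mi) * d := h6.symm
            _ = (m - mi) * (c * g) := by rw [← hdc]
            _ = c * (m - mi) * g := by ring
        have h8 : c ∣ t - i := hcop.dvd_of_dvd_mul_right h7
        rcases le_total c q with h | h
        · rwa [min_eq_left h]
        · rw [min_eq_right h]
          have : t - i = 0 := Nat.eq_zero_of_dvd_of_lt h8 (by omega)
          rw [this]
          exact dvd_zero _

/-- TARGET: the number of traces -/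
theorem P1_tr {N q h : ℕ} {Y : Finset ℕ} (hY : Y ∈ P1 N q h) :
    ((P1 N q h).image (fun X => X ∩ Y)).card ≤ (q + 1) ^ 3 := by
  simp only [P1, mem_image, mem_filter, mem_product, mem_Icc] at hY
  obtain ⟨⟨a0, d0⟩, ⟨⟨-, hd0, -⟩, -, -⟩, rfl⟩ := hY
  rcases Nat.eq_zero_or_pos q with hq | hq
  · subst hq
    have h1 : (P1 N 0 h).image (fun X => X ∩ ap 0 (a0, d0)) ⊆ {∅} := by
      intro Z hZ
      simp only [mem_image] at hZ
      obtain ⟨X, hX, rfl⟩ := hZ
      simp [ap]
    calc _ ≤ ({∅} : Finset (Finset ℕ)).card := card_le_card h1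
      _ = 1 := card_singleton _
      _ ≤ (0 + 1) ^ 3 := by norm_num
  · have h1 : (P1 N q h).image (fun X => X ∩ ap q (a0, d0)) ⊆
        insert ∅ ((range q ×ˢ (range q ×ˢ Icc 1 q)).image (P1_tr_G q a0 d0)) := by
      intro Z hZ
      simp only [mem_image] at hZ
      obtain ⟨X, hX, rfl⟩ := hZ
      simp only [P1, mem_image, mem_filter, mem_product, mem_Icc] at hX
      obtain ⟨⟨a, d⟩, ⟨⟨-, hd, -⟩, -, -⟩, rfl⟩ := hX
      exact P1_tr_aux q a0 d0 a d hd hd0 hq
    calc _ ≤ (insert ∅ ((range q ×ˢ (range q ×ˢ Icc 1 q)).image (P1_tr_G q a0 d0))).card :=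
          card_le_card h1
      _ ≤ ((range q ×ˢ (range q ×ˢ Icc 1 q)).image (P1_tr_G q a0 d0)).card + 1 :=
          card_insert_le _ _
      _ ≤ (range q ×ˢ (range q ×ˢ Icc 1 q)).card + 1 := by gcongr; exact card_image_le
      _ = q * (q * q) + 1 := by simp [card_product]
      _ ≤ (q + 1) ^ 3 := by nlinarith [Nat.zero_le (q * q), Nat.zero_le q]

end

section
/-- TARGET: long progressions contain members of `P1` -/
theorem P1_sub_ap {N q h q0 : ℕ} (hh : 1 ≤ h) (hq : 1 ≤ q) (hq0 : q + h ≤ q0) {a d : ℕ}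
    (hd : 1 ≤ d) (hs : ap q0 (a, d) ⊆ Icc 1 N) : ∃ X ∈ P1 N q h, X ⊆ ap q0 (a, d) := by
  have hmem : ∀ i, i < q0 → 1 ≤ a + i * d ∧ a + i * d ≤ N := by
    intro i hi
    have h1 : a + i * d ∈ ap q0 (a, d) := by
      unfold ap
      rw [mem_image]
      exact ⟨i, mem_range.mpr hi, rfl⟩
    exact mem_Icc.mp (hs h1)
  obtain ⟨s, hsh, hsd⟩ : ∃ s, s < h ∧ h ∣ a / d + s := by
    by_cases h0 : (a / d) % h = 0
    · exact ⟨0, hh, by rw [add_zero]; exact Nat.dvd_of_mod_eq_zero h0⟩
    · refine ⟨h - (a / d) % h, by omega, ?_⟩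
      have h1 : (a / d) % h < h := Nat.mod_lt _ hh
      have h2 : a / d + (h - (a / d) % h) = h * (a / d / h + 1) := by
        have h3 := Nat.div_add_mod (a / d) h
        have h4 : h * (a / d / h + 1) = h * (a / d / h) + h := by ring
        omega
      rw [h2]
      exact dvd_mul_right _ _
  have hdN : d ≤ N := by
    have h1 := (hmem 1 (by omega)).2
    omega
  have ha' := hmem s (by omega)
  have hdiv : (a + s * d) / d = a / d + s := Nat.add_mul_div_right _ _ hd
  refine ⟨ap q (a + s * d, d), ?_, ?_⟩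
  · unfold P1
    rw [mem_image]
    refine ⟨(a + s * d, d), ?_, rfl⟩
    rw [mem_filter, mem_product, mem_Icc, mem_Icc]
    refine ⟨⟨ha', hd, hdN⟩, ?_, ?_⟩
    · show h ∣ (a + s * d) / d
      rw [hdiv]
      exact hsd
    · show a + s * d + (q - 1) * d ≤ N
      have h1 := (hmem (s + (q - 1)) (by omega)).2
      rw [add_mul] at h1
      omega
  · intro x hx
    unfold ap at hx ⊢
    rw [mem_image] at hx ⊢
    obtain ⟨i, hi, rfl⟩ := hx
    rw [mem_range] at hi
    refine ⟨s + i, mem_range.mpr (by omega), ?_⟩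
    show a + (s + i) * d = a + s * d + i * d
    ring

end

end Pool.Agent.Rect22
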