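import Mathlib

/-!
The (2:2) game on rectangle lattices: definitions.
-/

set_option autoImplicit false
set_option linter.unusedVariables false

namespace Pool.Agent.Rect22

open Finset

/-- The `N × N` board. -/
def board (N : ℕ) : Finset (ℕ × ℕ) := Icc 1 N ×ˢ Icc 1 N

/-- A move is the set of the points claimed in it. A play `h` is the list of its moves; the moves
number `0, 2, 4, ...` are made by Maker and the moves number `1, 3, 5, ...` by Breaker.
`unclaimed N h` is the set of the points of the board not claimed in `h`. -/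
def unclaimed (N : ℕ) (h : List (Finset (ℕ × ℕ))) : Finset (ℕ × ℕ) :=
  (board N).filter (fun x => ∀ m ∈ h, x ∉ m)

/-- A legal move after `h` consists of two unclaimed points or, if only one point is unclaimed, of
this point. -/
def IsLegalMove (N : ℕ) (h : List (Finset (ℕ × ℕ))) (m : Finset (ℕ × ℕ)) : Prop :=
  m ⊆ unclaimed N h ∧ m.card = min 2 (unclaimed N h).card ∧ m.Nonempty

/-- All moves of `h` are legal. -/
def IsPlay (N : ℕ) (h : List (Finset (ℕ × ℕ))) : Prop :=
  ∀ (i : ℕ) (hi : i < h.length), IsLegalMove N (h.take i) (h[i]'hi)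

/-- The player making the moves with number congruent to `p` modulo 2 follows `σ`: each of these
moves is the value of `σ` at the list of the earlier moves. -/
def Follows (p : ℕ) (σ : List (Finset (ℕ × ℕ)) → Finset (ℕ × ℕ))
    (h : List (Finset (ℕ × ℕ))) : Prop :=
  ∀ (i : ℕ) (hi : i < h.length), i % 2 = p → h[i]'hi = σ (h.take i)

/-- `σ` is a strategy of this player (`p = 0`: Maker, `p = 1`: Breaker): it gives a legal move in
every position in which the player is to move and which can arise when he follows it. -/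
def IsStrategy (N p : ℕ) (σ : List (Finset (ℕ × ℕ)) → Finset (ℕ × ℕ)) : Prop :=
  ∀ h : List (Finset (ℕ × ℕ)), IsPlay N h → Follows p σ h → h.length % 2 = p →
    (unclaimed N h).Nonempty → IsLegalMove N h (σ h)

/-- The point `x` was claimed by Maker in the play `h`. -/
def MakerOwns (h : List (Finset (ℕ × ℕ))) (x : ℕ × ℕ) : Prop :=
  ∃ (i : ℕ) (hi : i < h.length), i % 2 = 0 ∧ x ∈ h[i]'hi

/-- Maker owns all points of some `q × q` aligned rectangle lattice. -/
def OwnsLattice (h : List (Finset (ℕ × ℕ))) (q : ℕ) : Prop :=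
  ∃ a b x y : ℕ, 1 ≤ x ∧ 1 ≤ y ∧ ∀ i j : ℕ, i < q → j < q → MakerOwns h (a + i * x, b + j * y)

/-- Breaker has a strategy with which, at the end of every play, Maker does not own all points of a
`q × q` aligned rectangle lattice. -/
def BreakerWins (N q : ℕ) : Prop :=
  ∃ τ : List (Finset (ℕ × ℕ)) → Finset (ℕ × ℕ), IsStrategy N 1 τ ∧
    ∀ h : List (Finset (ℕ × ℕ)), IsPlay N h → Follows 1 τ h → unclaimed N h = ∅ →
      ¬ OwnsLattice h q

/-- the set `M` contains all points of a `q × q` aligned rectangle lattice -/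
def HasLattice (q : ℕ) (M : Finset (ℕ × ℕ)) : Prop :=
  ∃ a b x y : ℕ, 1 ≤ x ∧ 1 ≤ y ∧ ∀ i j : ℕ, i < q → j < q → (a + i * x, b + j * y) ∈ M

/-- the progression with `q` terms, start `p.1` and step `p.2` -/
def ap (q : ℕ) (p : ℕ × ℕ) : Finset ℕ := (range q).image (fun i => p.1 + i * p.2)

/-- the progressions with `q` terms in `[1, N]` whose start `a` and step `d` satisfy
`h ∣ a / d` (integer part) -/
def P1 (N q h : ℕ) : Finset (Finset ℕ) :=
  ((Icc 1 N ×ˢ Icc 1 N).filter (fun p => h ∣ p.1 / p.2 ∧ p.1 + (q - 1) * p.2 ≤ N)).image (ap q)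

/-- the lattices -/
def Fam2 (N q h : ℕ) : Finset (Finset (ℕ × ℕ)) :=
  (P1 N q h ×ˢ P1 N q h).image (fun p => p.1 ×ˢ p.2)

/-- pairs of different points in the same row or column -/
def Pr2 (N : ℕ) : Finset ((ℕ × ℕ) × (ℕ × ℕ)) :=
  (board N ×ˢ board N).filter (fun p => p.1 ≠ p.2 ∧ (p.1.1 = p.2.1 ∨ p.1.2 = p.2.2))

end Pool.Agent.Rect22
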