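import Pool.Agent.Rect22.Defs

/-!
The parameters.
-/

set_option autoImplicit false
set_option linter.unusedVariables false

namespace Pool.Agent.Rect22

open Finset Filter

noncomputable def ell (N : ℕ) : ℝ := Real.logb 2 N

/-- the size of the lattices; `κ` is `2` for rectangle lattices, `4` for parallelogram lattices -/
noncomputable def qq (κ : ℕ) (e : ℝ) (N : ℕ) : ℕ := ⌈Real.sqrt ((κ + e) * ell N)⌉₊

noncomputable def RR (e : ℝ) : ℕ := ⌈14 / (e / 16)⌉₊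

noncomputable def th (e : ℝ) : ℝ := (e / 16) / (40 * (RR e + 80) * Real.logb 2 (2 / (e / 3200)))

noncomputable def tt (κ : ℕ) (e : ℝ) (N : ℕ) : ℕ := ⌊th e * (qq κ e N : ℝ) ^ 2⌋₊

noncomputable def FF (e : ℝ) (N : ℕ) : ℕ := ⌈e / 8 * ell N⌉₊

noncomputable def vbN (κ : ℕ) (e : ℝ) (N : ℕ) : ℝ :=
  (N : ℝ) ^ (e / 16) * (1 / (3 / 2 - e / 20)) ^ (FF e N) * (1 + e / 3200) ^ ((qq κ e N) ^ 2)

noncomputable def sbN (κ : ℕ) (e : ℝ) (N : ℕ) : ℝ :=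
  (e / 20) / (2 * (RR e * (((qq κ e N) ^ 2 : ℕ) : ℝ)))

/-- the parameters of the potential -/
noncomputable def PP (e : ℝ) (N : ℕ) : Pm where
  eta := e / 20
  sig := (N : ℝ) ^ (e / 16)
  zet := e / 3200
  lam := (N : ℝ) ^ ((1 : ℝ) / 10)
  pb := 1 / (3 / 2 - e / 20)
  pq := 1 / (2 - e / 20)
  F1 := FF e N

/-- the data of the game -/
noncomputable def mkD {α : Type} (ν : ℕ) (e : ℝ) (K0 a N : ℕ) (V : Finset α)
    (Fam : Finset (Finset α)) (Pr : Finset (α × α)) (C1 : ℕ) : Dat α where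
  V := V
  Fam := Fam
  Pr := Pr
  P := PP e N
  n := (qq (2 * ν) e N) ^ 2
  R := RR e
  r := 80
  t := tt (2 * ν) e N
  C1 := C1
  s0 := Nat.sqrt (qq (2 * ν) e N)
  Q := (qq (2 * ν) e N + 1) ^ a
  N1 := K0 * (N : ℝ) ^ (2 * ν + 2)
  N2 := K0 * (N : ℝ) ^ 4
  sb := sbN (2 * ν) e N

end Pool.Agent.Rect22
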