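import Mathlib

/-!
The (2:2) game on parallelogram lattices: definitions.
-/

set_option autoImplicit false
set_option linter.unusedVariables false

namespace Pool.Agent.Rect22.Par

open Finset

/-- The `N × N` board. -/
noncomputable def boardZ (N : ℕ) : Finset (ℤ × ℤ) := Icc 1 (N : ℤ) ×ˢ Icc 1 (N : ℤ)

/-- A move is the set of the points claimed in it. A play `h` is the list of its moves; the moves
number `0, 2, 4, ...` are made by Maker and the moves number `1, 3, 5, ...` by Breaker.
`unclaimed N h` is the set of the points of the board not claimed in `h`. -/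
noncomputable def unclaimed (N : ℕ) (h : List (Finset (ℤ × ℤ))) : Finset (ℤ × ℤ) :=
  (boardZ N).filter (fun x => ∀ m ∈ h, x ∉ m)

/-- A legal move after `h` (of either player) consists of two unclaimed points or, if only one point
is unclaimed, of this point. -/
def IsLegalMove (N : ℕ) (h : List (Finset (ℤ × ℤ))) (m : Finset (ℤ × ℤ)) : Prop :=
  m ⊆ unclaimed N h ∧ m.card = min 2 (unclaimed N h).card ∧ m.Nonempty

/-- All moves of `h` are legal. -/
def IsPlay (N : ℕ) (h : List (Finset (ℤ × ℤ))) : Prop :=
  ∀ (i : ℕ) (hi : i < h.length), IsLegalMove N (h.take i) (h[i]'hi)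

/-- The player making the moves with number congruent to `p` modulo 2 follows `σ`: each of these
moves is the value of `σ` at the list of the earlier moves. -/
def Follows (p : ℕ) (σ : List (Finset (ℤ × ℤ)) → Finset (ℤ × ℤ))
    (h : List (Finset (ℤ × ℤ))) : Prop :=
  ∀ (i : ℕ) (hi : i < h.length), i % 2 = p → h[i]'hi = σ (h.take i)

/-- `σ` is a strategy of this player (`p = 0`: Maker, `p = 1`: Breaker): it gives a legal move in
every position in which the player is to move and which can arise when he follows it. -/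
def IsStrategy (N p : ℕ) (σ : List (Finset (ℤ × ℤ)) → Finset (ℤ × ℤ)) : Prop :=
  ∀ h : List (Finset (ℤ × ℤ)), IsPlay N h → Follows p σ h → h.length % 2 = p →
    (unclaimed N h).Nonempty → IsLegalMove N h (σ h)

/-- The point `x` was claimed by Maker in the play `h`. -/
def MakerOwns (h : List (Finset (ℤ × ℤ))) (x : ℤ × ℤ) : Prop :=
  ∃ (i : ℕ) (hi : i < h.length), i % 2 = 0 ∧ x ∈ h[i]'hi

/-- Maker owns all points of some `q × q` parallelogram lattice
`{P + i u + j v : 0 ≤ i, j ≤ q - 1}` with linearly independent steps `u`, `v`. -/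
def OwnsLattice (h : List (Finset (ℤ × ℤ))) (q : ℕ) : Prop :=
  ∃ P u v : ℤ × ℤ, LinearIndependent ℤ ![u, v] ∧
    ∀ i j : ℕ, i < q → j < q → MakerOwns h (P + (i : ℤ) • u + (j : ℤ) • v)

/-- Breaker has a strategy with which, at the end of every play, Maker does not own all points of a
`q × q` parallelogram lattice. -/
def BreakerWins (N q : ℕ) : Prop :=
  ∃ τ : List (Finset (ℤ × ℤ)) → Finset (ℤ × ℤ), IsStrategy N 1 τ ∧
    ∀ h : List (Finset (ℤ × ℤ)), IsPlay N h → Follows 1 τ h → unclaimed N h = ∅ →
      ¬ OwnsLattice h q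

/-- the set `M` contains all points of a `q × q` parallelogram lattice -/
def HasLattice (q : ℕ) (M : Finset (ℤ × ℤ)) : Prop :=
  ∃ P u v : ℤ × ℤ, LinearIndependent ℤ ![u, v] ∧
    ∀ i j : ℕ, i < q → j < q → P + (i : ℤ) • u + (j : ℤ) • v ∈ M

end Pool.Agent.Rect22.Par
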