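import Mathlib

/-!
Parallelogram lattices: definitions.
-/

set_option autoImplicit false
set_option linter.unusedVariables false

namespace Pool.Agent.Rect22

open Finset

/-- The `N × N` board. -/
noncomputable def boardZ (N : ℕ) : Finset (ℤ × ℤ) := Icc 1 (N : ℤ) ×ˢ Icc 1 (N : ℤ)

/-- index of a parallelogram lattice: corner `P` and steps `u`, `v` -/
abbrev Ind := (ℤ × ℤ) × ((ℤ × ℤ) × (ℤ × ℤ))

def det2 (u v : ℤ × ℤ) : ℤ := u.1 * v.2 - u.2 * v.1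

def pt (P u v : ℤ × ℤ) (i j : ℤ) : ℤ × ℤ :=
  (P.1 + i * u.1 + j * v.1, P.2 + i * u.2 + j * v.2)

/-- the `q × q` lattice with index `A` -/
def latZ (q : ℕ) (A : Ind) : Finset (ℤ × ℤ) :=
  (range q ×ˢ range q).image (fun p => pt A.1 A.2.1 A.2.2 (p.1 : ℤ) (p.2 : ℤ))

/-- the indices of the `q × q` lattices of the board whose corner has coordinates (integer parts,
with respect to the steps) divisible by `h` -/
noncomputable def Idx4 (N q h : ℕ) : Finset Ind :=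
  (boardZ N ×ˢ ((Icc (-(N : ℤ)) N ×ˢ Icc (-(N : ℤ)) N) ×ˢ
    (Icc (-(N : ℤ)) N ×ˢ Icc (-(N : ℤ)) N))).filter
    (fun A => det2 A.2.1 A.2.2 ≠ 0 ∧ latZ q A ⊆ boardZ N ∧
      (h : ℤ) ∣ det2 A.1 A.2.2 / det2 A.2.1 A.2.2 ∧ (h : ℤ) ∣ det2 A.2.1 A.1 / det2 A.2.1 A.2.2)

noncomputable def Fam4 (N q h : ℕ) : Finset (Finset (ℤ × ℤ)) := (Idx4 N q h).image (latZ q)

noncomputable def Pr4 (N : ℕ) : Finset ((ℤ × ℤ) × (ℤ × ℤ)) :=
  (boardZ N ×ˢ boardZ N).filter (fun p => p.1 ≠ p.2)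

end Pool.Agent.Rect22
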