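import Pool.Agent.Rect22.BigMove
import Pool.Agent.Rect22.Declare
import Pool.Agent.Rect22.Small
import Pool.Agent.Rect22.Init

/-!
One round of the game.
-/

set_option autoImplicit false
set_option linter.unusedVariables false
set_option linter.unusedSectionVars false

namespace Pool.Agent.Rect22

open Finset 

section
section
variable {α : Type*} [DecidableEq α]

/-- TARGET: the position after Maker's move `m` -/
theorem maker_sys {D : Dat α} (H : Hyp D) {M B : Finset α} {s : St α}
    {Dec : Finset (Finset α)} {S : Finset α → Finset α} (h : Sys D ∅ M B s Dec S)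
    (hrest : ∀ E, Watch D B Dec S E → D.k0 < (E ∩ s.F).card)
    {m : Finset α} (hm : m ⊆ D.V \ (M ∪ B)) (hm2 : m.card ≤ 2) :
    ∃ s1 : St α, Sys D m (M ∪ m) B s1 Dec S ∧
      ∀ E, Watch D B Dec S E → D.k0 ≤ (E \ s1.M).card + 1 := by
  have hBd : Bd (KK D.Fam D.Pr D.R D.r) (ww D.P D.N1 D.N2 s) (hh s) s.F 9 :=
    h.big.1 (by simp)
  have hmM : ∀ x ∈ m, x ∉ M := by
    intro x hx hM
    have := Finset.mem_sdiff.1 (hm hx)
    exact this.2 (Finset.mem_union_left _ hM)
  have hmB : ∀ x ∈ m, x ∉ B := by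
    intro x hx hM
    have := Finset.mem_sdiff.1 (hm hx)
    exact this.2 (Finset.mem_union_right _ hM)
  obtain ⟨s1, hF, hM, hB, hmu, hok, hready⟩ := big_maker H h.sok hBd (m := m ∩ s.F)
    Finset.inter_subset_right ((Finset.card_le_card Finset.inter_subset_left).trans hm2)
  have hSF : ∀ A ∈ Dec, ∀ z ∈ S A, z ∉ s.F := by
    intro A hA z hz hzF
    exact Finset.disjoint_left.1 (h.Sdis A hA) hz
      (Finset.mem_union_left _ (Finset.mem_union_left _ hzF))
  refine ⟨s1, ⟨hok, ?_, Finset.subset_union_right, hm2, ?_, ?_, ?_, h.dec, h.Ssub, ?_, h.Spair,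
    ?_, ?_, h.Scard, ?_, ?_⟩, ?_⟩
  · rw [Finset.disjoint_left]
    intro x hx hxB
    rcases Finset.mem_union.1 hx with h1 | h1
    · exact Finset.disjoint_left.1 h.MB h1 hxB
    · exact hmB x h1 hxB
  · rw [hF]
    intro x hx
    obtain ⟨h1, h2⟩ := Finset.mem_sdiff.1 hx
    obtain ⟨h3, h4⟩ := Finset.mem_sdiff.1 (h.Fsub h1)
    rw [Finset.mem_sdiff]
    refine ⟨h3, ?_⟩
    intro h5
    rcases Finset.mem_union.1 h5 with h6 | h6
    · rcases Finset.mem_union.1 h6 with h7 | h7
      · exact h4 (Finset.mem_union_left _ h7)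
      · exact h2 (Finset.mem_inter.2 ⟨h7, h1⟩)
    · exact h4 (Finset.mem_union_right _ h6)
  · rw [hM]
    exact Finset.union_subset_union h.sM Finset.inter_subset_left
  · rw [hB]
    exact h.sB
  · intro A hA
    refine Finset.disjoint_of_subset_right ?_ (h.Sdis A hA)
    rw [hF, hM, hB]
    intro x hx
    simp only [Finset.mem_union, Finset.mem_sdiff, Finset.mem_inter] at hx ⊢
    tauto
  · intro x hx
    rw [hF, hM, hB]
    rcases h.cov x hx with h1 | h1 | h1 | h1
    · by_cases hxm : x ∈ m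
      · exact Or.inr (Or.inl (Finset.mem_union_right _ (Finset.mem_inter.2 ⟨hxm, h1⟩)))
      · exact Or.inl (Finset.mem_sdiff.2 ⟨h1, fun h2 => hxm (Finset.mem_inter.1 h2).1⟩)
    · exact Or.inr (Or.inl (Finset.mem_union_left _ h1))
    · exact Or.inr (Or.inr (Or.inl h1))
    · exact Or.inr (Or.inr (Or.inr h1))
  · intro A hA z hz
    rw [hmu z (hSF A hA z hz)]
    exact h.Smu A hA z hz
  · intro A hA
    have hd : Disjoint m (M ∪ B) := by
      rw [Finset.disjoint_left]
      intro x hx hx'
      rcases Finset.mem_union.1 hx' with h1 | h1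
      · exact hmM x hx h1
      · exact hmB x hx h1
    exact small_maker h.MB hd ((Finset.card_le_card Finset.inter_subset_left).trans hm2)
      ((h.small A hA).1 (by simp))
  · have hmm : m ∩ s1.M = m ∩ s.F := by
      rw [hM]
      ext x
      rw [Finset.mem_inter, Finset.mem_inter, Finset.mem_union, Finset.mem_inter]
      constructor
      · rintro ⟨h1, h2 | h2⟩
        · exact absurd (h.sM h2) (hmM x h1)
        · exact h2
      · rintro ⟨h1, h2⟩
        exact ⟨h1, Or.inr ⟨h1, h2⟩⟩
    rw [hmm]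
    exact hready
  · intro E hE
    have h1 := hrest E hE
    have h2 : (E ∩ s.F) \ m ⊆ E \ s1.M := by
      intro x hx
      obtain ⟨h3, h4⟩ := Finset.mem_sdiff.1 hx
      obtain ⟨h5, h6⟩ := Finset.mem_inter.1 h3
      rw [Finset.mem_sdiff, hM, Finset.mem_union, Finset.mem_inter]
      refine ⟨h5, ?_⟩
      rintro (h7 | h7)
      · exact Finset.disjoint_left.1 h.sok.fm h6 h7
      · exact h4 h7.1
    have h3 := Finset.card_le_card h2
    have h4 := Finset.card_le_card_sdiff_add_card (s := E ∩ s.F) (t := m)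
    omega

end

end

section
section
variable {α : Type*} [DecidableEq α]

/-- TARGET: Breaker's reply -/
theorem reply_sys {D : Dat α} (H : Hyp D) {m M B : Finset α} {s : St α}
    {Dec : Finset (Finset α)} {S : Finset α → Finset α} (h : Sys D m M B s Dec S)
    (hrest : ∀ E, Watch D B Dec S E → D.k0 < (E ∩ s.F).card) :
    ∃ b : Finset α, b ⊆ D.V \ (M ∪ B) ∧ b.card = min 2 (D.V \ (M ∪ B)).card ∧
      Good D M (B ∪ b) := by
  classical
  have hbk : (m ∩ s.M).card ≤ 2 := (Finset.card_le_card Finset.inter_subset_left).trans h.mcard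
  obtain ⟨Yb, hYb1, hYb2, hYb3⟩ := big_reply H h.sok hbk h.big
  have hsm : ∀ A ∈ Dec, ∃ Y : Finset α, Y ⊆ S A \ (M ∪ B) ∧
      Y.card = min (m ∩ S A).card (S A \ (M ∪ B)).card ∧
      ∀ b : Finset α, Y ⊆ b → Disjoint b (M ∪ B) →
        Bd (Tr D.Fam D.s0 (S A)) (sw M (B ∪ b)) (shot M (B ∪ b)) (S A \ (M ∪ (B ∪ b))) D.c := by
    intro A hA
    have hk : (m ∩ S A).card ≤ 2 := (Finset.card_le_card Finset.inter_subset_left).trans h.mcard
    exact small_reply hk h.MB (h.small A hA)
  choose! YA hYA1 hYA2 hYA3 using hsm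
  obtain ⟨Y, hY⟩ : ∃ Y, Y = Yb ∪ Dec.biUnion YA := ⟨_, rfl⟩
  have hYV : Y ⊆ D.V \ (M ∪ B) := by
    rw [hY]
    refine Finset.union_subset (hYb1.trans h.Fsub) ?_
    refine Finset.biUnion_subset.2 fun A hA => ?_
    intro x hx
    have hx1 := hYA1 A hA hx
    rw [Finset.mem_sdiff] at hx1 ⊢
    exact ⟨H.hV A (h.dec hA) (h.Ssub A hA hx1.1), hx1.2⟩
  have hYcard : Y.card ≤ 2 := by
    have h1 : Y.card ≤ (m ∩ s.M).card + ∑ A ∈ Dec, (m ∩ S A).card := by
      rw [hY]
      refine (Finset.card_union_le _ _).trans ?_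
      refine add_le_add ?_ ?_
      · rw [hYb2]; exact min_le_left _ _
      · refine Finset.card_biUnion_le.trans ?_
        refine Finset.sum_le_sum fun A hA => ?_
        rw [hYA2 A hA]; exact min_le_left _ _
    have h2 : (m ∩ s.M).card + ∑ A ∈ Dec, (m ∩ S A).card ≤ m.card := by
      have h3 : (Dec.biUnion fun A => m ∩ S A).card = ∑ A ∈ Dec, (m ∩ S A).card := by
        refine Finset.card_biUnion ?_
        intro A hA A' hA' hne
        exact (h.Spair A hA A' hA' hne).mono Finset.inter_subset_right Finset.inter_subset_right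
      have h4 : Disjoint (m ∩ s.M) (Dec.biUnion fun A => m ∩ S A) := by
        rw [Finset.disjoint_biUnion_right]
        intro A hA
        refine (Disjoint.symm ?_).mono Finset.inter_subset_right Finset.inter_subset_right
        refine (h.Sdis A hA).mono_right ?_
        intro x hx
        simp only [Finset.mem_union]
        exact Or.inl (Or.inr hx)
      rw [← h3, ← Finset.card_union_of_disjoint h4]
      refine Finset.card_le_card ?_
      refine Finset.union_subset Finset.inter_subset_left ?_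
      exact Finset.biUnion_subset.2 fun A _ => Finset.inter_subset_left
    exact h1.trans (h2.trans h.mcard)
  obtain ⟨b, hb1, hb2, hb3⟩ := Finset.exists_subsuperset_card_eq hYV
    (le_min hYcard (Finset.card_le_card hYV)) (min_le_right 2 (D.V \ (M ∪ B)).card)
  have hYbb : Yb ⊆ b := by
    refine Finset.Subset.trans ?_ hb1
    rw [hY]; exact Finset.subset_union_left
  have hYAb : ∀ A ∈ Dec, YA A ⊆ b := by
    intro A hA
    refine Finset.Subset.trans ?_ hb1
    rw [hY]
    exact (Finset.subset_biUnion_of_mem YA hA).trans Finset.subset_union_right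
  have hbd : Disjoint b (M ∪ B) := by
    rw [Finset.disjoint_left]
    intro x hx
    exact (Finset.mem_sdiff.1 (hb2 hx)).2
  have hbM : ∀ x ∈ b, x ∉ M := fun x hx hM =>
    (Finset.mem_sdiff.1 (hb2 hx)).2 (Finset.mem_union_left _ hM)
  have ready0 : ∀ {ι : Type _} {K : Finset ι} {w : ι → ℝ} {hot : ι → Finset α} {F : Finset α}
      {c : ℝ} {k : ℕ}, k = 0 → Bd K w hot F c → Ready k K w hot F c := by
    intro ι K w hot F c k hk hB
    refine ⟨fun _ => hB, fun h1 => by omega, ?_⟩
    have := hB ∅ (Finset.empty_subset _) (by simp)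
    simpa using this
  refine ⟨b, hb2, hb3, s.rm (s.F \ b) (s.B ∪ (b ∩ s.F)), Dec, S, ?_, ?_⟩
  · refine
      { sok := rm_ok h.sok Finset.sdiff_subset ?_
        MB := ?_
        hm := Finset.empty_subset _
        mcard := by simp
        Fsub := ?_
        sM := h.sM
        sB := ?_
        dec := h.dec
        Ssub := h.Ssub
        Sdis := ?_
        Spair := h.Spair
        cov := ?_
        Smu := h.Smu
        Scard := h.Scard
        small := ?_
        big := ?_ }
    · rw [Finset.disjoint_left]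
      intro x hx hx2
      rw [Finset.mem_sdiff] at hx
      rcases Finset.mem_union.1 hx2 with h1 | h1
      · exact Finset.disjoint_left.1 h.sok.fb hx.1 h1
      · exact hx.2 (Finset.mem_inter.1 h1).1
    · rw [Finset.disjoint_union_right]
      refine ⟨h.MB, ?_⟩
      rw [Finset.disjoint_right]
      exact hbM
    · intro x hx
      have hx' : x ∈ s.F \ b := hx
      rw [Finset.mem_sdiff] at hx'
      have h1 := Finset.mem_sdiff.1 (h.Fsub hx'.1)
      rw [Finset.mem_sdiff]
      refine ⟨h1.1, ?_⟩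
      simp only [Finset.mem_union, not_or] at h1 ⊢
      exact ⟨h1.2.1, h1.2.2, hx'.2⟩
    · intro x hx
      have hx' : x ∈ s.B ∪ (b ∩ s.F) := hx
      rcases Finset.mem_union.1 hx' with h1 | h1
      · exact Finset.mem_union_left _ (h.sB h1)
      · exact Finset.mem_union_right _ (Finset.mem_inter.1 h1).1
    · intro A hA
      refine (h.Sdis A hA).mono_right ?_
      intro x hx
      have hx' : x ∈ (s.F \ b) ∪ s.M ∪ (s.B ∪ (b ∩ s.F)) := hx
      simp only [Finset.mem_union, Finset.mem_sdiff, Finset.mem_inter] at hx' ⊢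
      tauto
    · intro x hx
      rcases h.cov x hx with h1 | h1 | h1 | h1
      · by_cases hxb : x ∈ b
        · right; right; left
          show x ∈ s.B ∪ (b ∩ s.F)
          exact Finset.mem_union_right _ (Finset.mem_inter.2 ⟨hxb, h1⟩)
        · left
          show x ∈ s.F \ b
          exact Finset.mem_sdiff.2 ⟨h1, hxb⟩
      · right; left; exact h1
      · right; right; left
        show x ∈ s.B ∪ (b ∩ s.F)
        exact Finset.mem_union_left _ h1
      · right; right; right; exact h1
    · intro A hA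
      exact ready0 (by simp) (hYA3 A hA b (hYAb A hA) hbd)
    · exact ready0 (by simp) (hYb3 b hYbb)
  · rintro E ⟨hE1, hE2, hE3, hE4⟩
    rw [Finset.disjoint_union_right] at hE3
    have h1 := hrest E ⟨hE1, hE2, hE3.1, hE4⟩
    have h2 : E ∩ (s.rm (s.F \ b) (s.B ∪ (b ∩ s.F))).F = E ∩ s.F := by
      show E ∩ (s.F \ b) = E ∩ s.F
      ext x
      simp only [Finset.mem_inter, Finset.mem_sdiff]
      constructor
      · rintro ⟨h3, h4, _⟩; exact ⟨h3, h4⟩
      · rintro ⟨h3, h4⟩
        exact ⟨h3, h4, fun h5 => Finset.disjoint_left.1 hE3.2 h3 h5⟩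
    rw [h2]
    exact h1
end

end

section
section
variable {α : Type*} [DecidableEq α]

theorem good_round {D : Dat α} (H : Hyp D) {M B m : Finset α} (hG : Good D M B)
    (hm : m ⊆ D.V \ (M ∪ B)) (hm2 : m.card ≤ 2) :
    ∃ b : Finset α, b ⊆ D.V \ (M ∪ m ∪ B) ∧ b.card = min 2 (D.V \ (M ∪ m ∪ B)).card ∧
      Good D (M ∪ m) (B ∪ b) := by
  obtain ⟨s, Dec, S, hs, hrest⟩ := hG
  obtain ⟨s1, h1, h1'⟩ := maker_sys H hs hrest hm hm2
  obtain ⟨s2, Dec2, S2, h2, -, -, h2'⟩ := closure H h1 h1'
  obtain ⟨b, hb1, hb2, hb3⟩ := reply_sys H h2 h2'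
  exact ⟨b, hb1, hb2, hb3⟩

theorem good_start {D : Dat α} (H : Hyp D) : Good D ∅ ∅ := by
  refine ⟨⟨D.V, ∅, ∅, fun _ => ∅⟩, ∅, fun _ => ∅, ?_, ?_⟩
  · have hU := H.init
    have hB : Bd (KK D.Fam D.Pr D.R D.r) (ww D.P D.N1 D.N2 (⟨D.V, ∅, ∅, fun _ => ∅⟩ : St α))
        (hh (⟨D.V, ∅, ∅, fun _ => ∅⟩ : St α)) D.V 9 := by
      have h := bd_of_ups (hot := hh (⟨D.V, ∅, ∅, fun _ => ∅⟩ : St α)) (F := D.V)
        (fun κ _ => ww_nonneg H.pok H.N1pos H.N2pos (R := D.R) (r := D.r)
        (⟨D.V, ∅, ∅, fun _ => ∅⟩ : St α) κ) hU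
      have e : (3 : ℝ) * 3 = 9 := by norm_num
      rwa [e] at h
    exact
    { sok := ⟨Finset.disjoint_empty_right _, Finset.disjoint_empty_right _, fun _ _ => rfl⟩
      MB := Finset.disjoint_empty_right _
      hm := Finset.empty_subset _
      mcard := by simp
      Fsub := by simp
      sM := Finset.empty_subset _
      sB := Finset.empty_subset _
      dec := Finset.empty_subset _
      Ssub := fun A hA => absurd hA (Finset.notMem_empty A)
      Sdis := fun A hA => absurd hA (Finset.notMem_empty A)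
      Spair := fun A hA => absurd hA (Finset.notMem_empty A)
      cov := fun x hx => Or.inl hx
      Smu := fun A hA => absurd hA (Finset.notMem_empty A)
      Scard := fun A hA => absurd hA (Finset.notMem_empty A)
      small := fun A hA => absurd hA (Finset.notMem_empty A)
      big := ⟨fun _ => hB, fun h => absurd h (by simp), by linarith⟩ }
  · intro E hE
    have h1 : E ∩ D.V = E := Finset.inter_eq_left.mpr (H.hV E hE.1)
    show D.k0 < (E ∩ D.V).card
    rw [h1, H.hn E hE.1]
    exact H.hk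

theorem good_end {D : Dat α} (H : Hyp D) {M B : Finset α} (hG : Good D M B)
    (hfull : D.V \ (M ∪ B) = ∅) {A : Finset α} (hA : A ∈ D.Fam) : ¬ A ⊆ M := by
  intro hAM
  obtain ⟨s, Dec, S, hs, hrest⟩ := hG
  have hAB : Disjoint A B := Finset.disjoint_of_subset_left hAM hs.MB
  have hBd : ∀ A' ∈ Dec, Bd (Tr D.Fam D.s0 (S A')) (sw M B) (shot M B) (S A' \ (M ∪ B)) D.c := by
    intro A' hA'
    exact (hs.small A' hA').1 (by simp)
  have hsm : ∀ A' ∈ Dec, (A ∩ S A').card < D.s0 := by
    intro A' hA'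
    by_contra hcon
    exact small_end H.hc hs.MB (hBd A' hA') hA (not_lt.mp hcon) hAM
  by_cases hAD : A ∈ Dec
  · have h1 := hsm A hAD
    rw [Finset.inter_eq_right.mpr (hs.Ssub A hAD)] at h1
    exact absurd (hs.Scard A hAD) (not_le.mpr h1)
  · have h1 := hrest A ⟨hA, hAD, hAB, hsm⟩
    have h2 : s.F = ∅ := by
      have := hs.Fsub
      rw [hfull] at this
      exact Finset.subset_empty.mp this
    rw [h2] at h1
    simp at h1

end

end

end Pool.Agent.Rect22
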