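import Pool.Agent.Rect22.Defs

/-!
How the weights of clusters change.
-/

set_option autoImplicit false
set_option linter.unusedVariables false
set_option linter.unusedSectionVars false

namespace Pool.Agent.Rect22

open Finset 

section
section
variable {α : Type*} [DecidableEq α]

theorem mem_arms {Fam : Finset (Finset α)} {a : Arm α} :
    a ∈ arms Fam ↔ a.2.1 ∈ Fam ∧ a.1 ∈ a.2.1 ∧ a.2.2 ⊆ a.2.1 := by
  obtain ⟨z, A, D⟩ := a
  simp only [arms, Finset.mem_biUnion, Finset.mem_image, Finset.mem_product, Finset.mem_powerset,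
    Prod.mk.injEq, Prod.exists]
  constructor
  · rintro ⟨A', hA', z', D', ⟨hz, hD⟩, rfl, rfl, rfl⟩
    exact ⟨hA', hz, hD⟩
  · rintro ⟨h1, h2, h3⟩
    exact ⟨A, h1, z, D, ⟨h2, h3⟩, rfl, rfl, rfl⟩

theorem mem_XK {Fam : Finset (Finset α)} {R : ℕ} {K : Clus α R} :
    K ∈ XK Fam R ↔ Comp Fam K := by
  classical
  unfold XK
  rw [Finset.mem_filter]
  refine ⟨fun h => h.2, fun h => ⟨?_, h⟩⟩
  rw [Finset.mem_product]
  refine ⟨h.root, ?_⟩
  rw [Fintype.mem_piFinset]
  intro i
  cases hK : K.2 i with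
  | none => exact Finset.none_mem_insertNone
  | some a =>
    rw [Finset.some_mem_insertNone, mem_arms]
    obtain ⟨h1, h2, h3, _⟩ := h.arm i a hK
    exact ⟨h1, h2, h3⟩

theorem mem_PK {Fam : Finset (Finset α)} {Pr : Finset (α × α)} {r : ℕ} {K : PClus α r} :
    K ∈ PK Fam Pr r ↔ PComp Fam Pr K := by
  classical
  unfold PK
  rw [Finset.mem_filter]
  refine ⟨fun h => h.2, fun h => ⟨?_, h⟩⟩
  rw [Finset.mem_product]
  refine ⟨h.root, ?_⟩
  rw [Fintype.mem_piFinset]
  intro i
  obtain ⟨h1, h2, h3, h4, _⟩ := h.arm i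
  rw [Finset.mem_product]
  refine ⟨h1, ?_⟩
  rw [Finset.mem_powerset]
  intro y hy
  rw [Finset.mem_biUnion]
  exact ⟨_, h1, h4 hy⟩

theorem sum_arms {Fam : Finset (Finset α)} (f : Arm α → ℝ) :
    ∑ a ∈ arms Fam, f a = ∑ A ∈ Fam, ∑ z ∈ A, ∑ D ∈ A.powerset, f (z, A, D) := by
  unfold arms
  rw [Finset.sum_biUnion]
  · apply Finset.sum_congr rfl
    intro A _
    rw [Finset.sum_image, Finset.sum_product]
    rintro ⟨z, D⟩ _ ⟨z', D'⟩ _ h
    simp only [Prod.mk.injEq] at h
    simp only [Prod.mk.injEq]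
    exact ⟨h.1, h.2.2⟩
  · intro A _ A' _ hne
    rw [Function.onFun, Finset.disjoint_left]
    intro a ha ha'
    rw [Finset.mem_image] at ha ha'
    obtain ⟨p, _, hp⟩ := ha
    obtain ⟨p', _, hp'⟩ := ha'
    apply hne
    rw [← hp'] at hp
    simp only [Prod.mk.injEq] at hp
    exact hp.2.1

end

end

section
section
variable {α : Type*} [DecidableEq α]

theorem mk1_ok {s : St α} (hs : s.OK) (x : α) : (s.mk1 x).OK := by
  refine ⟨?_, ?_, ?_⟩
  · show Disjoint (s.F.erase x) (insert x s.M)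
    rw [Finset.disjoint_insert_right]
    exact ⟨Finset.notMem_erase x _, hs.fm.mono_left (Finset.erase_subset _ _)⟩
  · exact hs.fb.mono_left (Finset.erase_subset _ _)
  · intro z hz
    show (if z ∈ s.F.erase x then insert x s.M else s.mu z) = insert x s.M
    have hz' : z ∈ s.F.erase x := hz
    rw [if_pos hz']

theorem uu_nonneg_181 {P : Pm} (hP : P.OK) (f : ℕ) : 0 ≤ uu P f := by
  have h1 := hP.pq0
  have h2 := hP.pqb
  have h3 : 0 < P.pb := lt_of_lt_of_le h1 h2
  unfold uu
  positivity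

theorem aval_nonneg_181 {P : Pm} (hP : P.OK) (s : St α) (a : Arm α) : 0 ≤ aval P s a := by
  have h1 := hP.sig1
  have h2 := hP.zet0
  unfold aval
  apply mul_nonneg
  · apply mul_nonneg
    · linarith
    · exact (pow_pos h2 _).le
  · split_ifs
    · exact uu_nonneg_181 hP _
    · exact le_refl _

theorem oval_nonneg_181 {P : Pm} (hP : P.OK) (s : St α) (o : Option (Arm α)) :
    0 ≤ oval P s o := by
  cases o with
  | none => exact zero_le_one
  | some a => exact aval_nonneg_181 hP s a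

theorem xw_nonneg {P : Pm} (hP : P.OK) (s : St α) {R : ℕ} (K : Clus α R) : 0 ≤ xw P s K := by
  unfold xw
  apply mul_nonneg
  · split_ifs <;> norm_num
  · exact Finset.prod_nonneg (fun i _ => oval_nonneg_181 hP s _)

theorem afar_sub_181 (P : Pm) (s : St α) (a : Arm α) : afar P s a ⊆ ahot s a := by
  unfold afar
  split_ifs
  · exact Finset.Subset.refl _
  · exact Finset.empty_subset _

theorem mu_sub_181 {s : St α} (hs : s.OK) (x z : α) : s.mu z ⊆ (s.mk1 x).mu z := by
  show s.mu z ⊆ (if z ∈ s.F.erase x then insert x s.M else s.mu z)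
  split_ifs with h
  · rw [hs.mu z (Finset.mem_of_mem_erase h)]
    exact Finset.subset_insert _ _
  · exact Finset.Subset.refl _

theorem ahot_mk1_181 {s : St α} (hs : s.OK) (x : α) (a : Arm α) :
    ahot (s.mk1 x) a ⊆ ahot s a := by
  unfold ahot
  exact Finset.inter_subset_inter (Finset.sdiff_subset_sdiff (Finset.Subset.refl _)
    (mu_sub_181 hs x a.1)) (Finset.erase_subset _ _)

theorem afar_mk1_181 (P : Pm) {s : St α} (hs : s.OK) (x : α) (a : Arm α) :
    afar P (s.mk1 x) a ⊆ afar P s a := by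
  unfold afar
  have hc : (a.2.2 \ (s.mk1 x).mu a.1).card ≤ (a.2.2 \ s.mu a.1).card :=
    Finset.card_le_card (Finset.sdiff_subset_sdiff (Finset.Subset.refl _) (mu_sub_181 hs x a.1))
  by_cases h : P.F1 < (a.2.2 \ (s.mk1 x).mu a.1).card
  · rw [if_pos h, if_pos (lt_of_lt_of_le h hc)]
    exact ahot_mk1_181 hs x a
  · rw [if_neg h]
    exact Finset.empty_subset _

theorem xfar_sub (P : Pm) (s : St α) {R : ℕ} (K : Clus α R) : xfar P s K ⊆ xhot s K := by
  unfold xfar xhot
  refine Finset.Subset.trans ?_ Finset.subset_union_right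
  apply Finset.biUnion_mono
  intro i _
  cases h : K.2 i with
  | none => exact Finset.empty_subset _
  | some a => exact afar_sub_181 P s a

theorem xhot_mk1 {s : St α} (hs : s.OK) (x : α) {R : ℕ} (K : Clus α R) :
    xhot (s.mk1 x) K ⊆ xhot s K := by
  unfold xhot
  apply Finset.union_subset_union
  · exact Finset.inter_subset_inter (Finset.Subset.refl _) (Finset.erase_subset _ _)
  · apply Finset.biUnion_mono
    intro i _
    cases h : K.2 i with
    | none => exact Finset.empty_subset _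
    | some a => exact ahot_mk1_181 hs x a

theorem xfar_mk1 (P : Pm) {s : St α} (hs : s.OK) (x : α) {R : ℕ} (K : Clus α R) :
    xfar P (s.mk1 x) K ⊆ xfar P s K := by
  unfold xfar
  apply Finset.biUnion_mono
  intro i _
  cases h : K.2 i with
  | none => exact Finset.empty_subset _
  | some a => exact afar_mk1_181 P hs x a

theorem uu_step_far_181 {P : Pm} (hP : P.OK) {f : ℕ} (hf : P.F1 < f) :
    uu P (f - 1) ≤ (2 - P.eta) * uu P f := by
  have h1 := hP.pq0
  have h2 := hP.pqb
  have h3 : 0 < P.pb := lt_of_lt_of_le h1 h2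
  obtain ⟨g, rfl⟩ : ∃ g, f = P.F1 + g + 1 := ⟨f - P.F1 - 1, by omega⟩
  have e1 : P.F1 + g + 1 - 1 = P.F1 + g := by omega
  have e2 : uu P (P.F1 + g) = P.pb ^ P.F1 * P.pq ^ g := by
    unfold uu
    rw [min_eq_right (by omega), show P.F1 + g - P.F1 = g by omega]
  have e3 : uu P (P.F1 + g + 1) = P.pb ^ P.F1 * P.pq ^ (g + 1) := by
    unfold uu
    rw [min_eq_right (by omega), show P.F1 + g + 1 - P.F1 = g + 1 by omega]
  rw [e1, e2, e3]
  have h4 : 0 < P.pb ^ P.F1 * P.pq ^ g := by positivity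
  have h5 := hP.hq
  calc P.pb ^ P.F1 * P.pq ^ g = 1 * (P.pb ^ P.F1 * P.pq ^ g) := by ring
    _ ≤ (P.pq * (2 - P.eta)) * (P.pb ^ P.F1 * P.pq ^ g) :=
        mul_le_mul_of_nonneg_right h5 h4.le
    _ = (2 - P.eta) * (P.pb ^ P.F1 * P.pq ^ (g + 1)) := by ring

theorem uu_step_near_181 {P : Pm} (hP : P.OK) {f : ℕ} (hf : f ≤ P.F1) (hf0 : 0 < f) :
    uu P (f - 1) ≤ (3 / 2 - P.eta) * uu P f := by
  have h1 := hP.pq0
  have h2 := hP.pqb
  have h3 : 0 < P.pb := lt_of_lt_of_le h1 h2
  obtain ⟨g, rfl⟩ : ∃ g, f = g + 1 := ⟨f - 1, by omega⟩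
  have e2 : uu P g = P.pb ^ g := by
    unfold uu
    rw [min_eq_left (by omega), show g - P.F1 = 0 by omega, pow_zero, mul_one]
  have e3 : uu P (g + 1) = P.pb ^ (g + 1) := by
    unfold uu
    rw [min_eq_left (by omega), show g + 1 - P.F1 = 0 by omega, pow_zero, mul_one]
  rw [Nat.add_sub_cancel, e2, e3]
  have h4 : 0 < P.pb ^ g := by positivity
  have h5 := hP.hb
  calc P.pb ^ g = 1 * P.pb ^ g := by ring
    _ ≤ (P.pb * (3 / 2 - P.eta)) * P.pb ^ g := mul_le_mul_of_nonneg_right h5 h4.le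
    _ = (3 / 2 - P.eta) * P.pb ^ (g + 1) := by ring

theorem liv_mk1_181 {s : St α} (hs : s.OK) {x : α} (hx : x ∈ s.F) (z : α) :
    liv (s.mk1 x) z ⊆ liv s z := by
  unfold liv
  show (if z ∈ s.F.erase x then s.F.erase x else ∅) ∪
    (if z ∈ s.F.erase x then insert x s.M else s.mu z) ⊆ _
  by_cases hz : z ∈ s.F.erase x
  · have hz' : z ∈ s.F := Finset.mem_of_mem_erase hz
    rw [if_pos hz, if_pos hz, if_pos hz', hs.mu z hz']
    intro y hy
    rw [Finset.mem_union, Finset.mem_insert] at hy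
    rw [Finset.mem_union]
    rcases hy with hy | rfl | hy
    · exact Or.inl (Finset.mem_of_mem_erase hy)
    · exact Or.inl hx
    · exact Or.inr hy
  · rw [if_neg hz, if_neg hz, Finset.empty_union]
    exact Finset.subset_union_right

/-- the value of an arm which does not contain `x` does not grow -/
theorem aval_mk1_181 {P : Pm} (hP : P.OK) {s : St α} (hs : s.OK) {x : α} (hx : x ∈ s.F)
    (a : Arm α) (hxa : x ∉ a.2.2) : aval P (s.mk1 x) a ≤ aval P s a := by
  have h1 := hP.sig1
  have h2 := hP.zet0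
  have hc : a.2.2 \ (s.mk1 x).mu a.1 = a.2.2 \ s.mu a.1 := by
    show a.2.2 \ (if a.1 ∈ s.F.erase x then insert x s.M else s.mu a.1) = _
    split_ifs with h
    · rw [hs.mu a.1 (Finset.mem_of_mem_erase h)]
      ext y
      simp only [Finset.mem_sdiff, Finset.mem_insert, not_or]
      constructor
      · rintro ⟨u, _, v⟩
        exact ⟨u, v⟩
      · rintro ⟨u, v⟩
        exact ⟨u, fun e => hxa (e ▸ u), v⟩
    · rfl
  unfold aval
  rw [hc]
  apply mul_le_mul_of_nonneg_left
  · by_cases h : a.2.2 ⊆ liv (s.mk1 x) a.1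
    · rw [if_pos h, if_pos (h.trans (liv_mk1_181 hs hx a.1))]
    · rw [if_neg h]
      split_ifs
      · exact uu_nonneg_181 hP _
      · exact le_refl _
  · exact mul_nonneg (by linarith) (pow_pos h2 _).le

theorem aval_mk1_fac_181 {P : Pm} (hP : P.OK) {s : St α} (hs : s.OK) {x : α} (hx : x ∈ s.F)
    (a : Arm α) (c : ℝ) (hc1 : 1 ≤ c) (hfar : x ∈ afar P s a → 2 - P.eta ≤ c)
    (hhot : x ∈ ahot s a → 3 / 2 - P.eta ≤ c) :
    aval P (s.mk1 x) a ≤ c * aval P s a := by
  have h1 := hP.sig1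
  have h2 := hP.zet0
  have hn := aval_nonneg_181 hP s a
  by_cases hxa : x ∈ a.2.2
  swap
  · refine (aval_mk1_181 hP hs hx a hxa).trans ?_
    nlinarith
  have hpre : 0 ≤ P.sig * P.zet ^ (a.2.1 \ a.2.2).card :=
    mul_nonneg (by linarith) (pow_pos h2 _).le
  have key : (if a.2.2 ⊆ liv (s.mk1 x) a.1 then uu P (a.2.2 \ (s.mk1 x).mu a.1).card else 0) ≤
      c * (if a.2.2 ⊆ liv s a.1 then uu P (a.2.2 \ s.mu a.1).card else 0) := by
    by_cases h : a.2.2 ⊆ liv (s.mk1 x) a.1
    · rw [if_pos h, if_pos (h.trans (liv_mk1_181 hs hx a.1))]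
      by_cases hz : a.1 ∈ s.F.erase x
      · have hz' := Finset.mem_of_mem_erase hz
        have hm : (s.mk1 x).mu a.1 = insert x s.M := if_pos hz
        have hm' : s.mu a.1 = s.M := hs.mu a.1 hz'
        have hxM : x ∉ s.M := Finset.disjoint_left.mp hs.fm hx
        have hxd : x ∈ a.2.2 \ s.M := Finset.mem_sdiff.mpr ⟨hxa, hxM⟩
        have e : a.2.2 \ insert x s.M = (a.2.2 \ s.M).erase x := by
          ext y
          simp only [Finset.mem_sdiff, Finset.mem_insert, Finset.mem_erase, not_or]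
          tauto
        have hcard : ((a.2.2 \ s.M).erase x).card = (a.2.2 \ s.M).card - 1 :=
          Finset.card_erase_of_mem hxd
        have hpos : 0 < (a.2.2 \ s.M).card := Finset.card_pos.mpr ⟨x, hxd⟩
        have hxh : x ∈ ahot s a := by
          unfold ahot
          rw [hm', Finset.mem_inter]
          exact ⟨hxd, hx⟩
        rw [hm, hm', e, hcard]
        have hu := uu_nonneg_181 hP (a.2.2 \ s.M).card
        by_cases hf : P.F1 < (a.2.2 \ s.M).card
        · have hxf : x ∈ afar P s a := by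
            unfold afar
            rw [hm', if_pos hf]
            exact hxh
          exact (uu_step_far_181 hP hf).trans (mul_le_mul_of_nonneg_right (hfar hxf) hu)
        · exact (uu_step_near_181 hP (not_lt.mp hf) hpos).trans
            (mul_le_mul_of_nonneg_right (hhot hxh) hu)
      · have hm : (s.mk1 x).mu a.1 = s.mu a.1 := if_neg hz
        rw [hm]
        have hu := uu_nonneg_181 hP (a.2.2 \ s.mu a.1).card
        nlinarith
    · rw [if_neg h]
      apply mul_nonneg (by linarith)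
      split_ifs
      · exact uu_nonneg_181 hP _
      · exact le_refl _
  calc aval P (s.mk1 x) a = P.sig * P.zet ^ (a.2.1 \ a.2.2).card *
        (if a.2.2 ⊆ liv (s.mk1 x) a.1 then uu P (a.2.2 \ (s.mk1 x).mu a.1).card else 0) := rfl
    _ ≤ P.sig * P.zet ^ (a.2.1 \ a.2.2).card *
        (c * (if a.2.2 ⊆ liv s a.1 then uu P (a.2.2 \ s.mu a.1).card else 0)) :=
        mul_le_mul_of_nonneg_left key hpre
    _ = c * aval P s a := by
        unfold aval
        ring

/-- Maker takes `x`: the weight grows at most by the factor `fac` -/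
theorem xw_mk1 {P : Pm} (hP : P.OK) {s : St α} (hs : s.OK) {x : α} (hx : x ∈ s.F)
    {Fam : Finset (Finset α)} {R : ℕ} {K : Clus α R} (hK : Comp Fam K) :
    xw P (s.mk1 x) K ≤ fac P.eta (xfar P s) (xhot s) x K * xw P s K := by
  have he1 := hP.eta1
  have he0 := hP.eta0
  set c := fac P.eta (xfar P s) (xhot s) x K with hc
  have hc1 : 1 ≤ c := by
    rw [hc]
    unfold fac
    split_ifs <;> linarith
  have hcfar : x ∈ xfar P s K → 2 - P.eta ≤ c := by
    intro h
    rw [hc]
    unfold fac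
    rw [if_pos h]
  have hchot : x ∈ xhot s K → 3 / 2 - P.eta ≤ c := by
    intro h
    rw [hc]
    unfold fac
    split_ifs <;> linarith
  have hmain : ∏ i, oval P (s.mk1 x) (K.2 i) ≤ c * ∏ i, oval P s (K.2 i) := by
    have hnn : ∀ i, 0 ≤ oval P s (K.2 i) := fun i => oval_nonneg_181 hP s _
    have hnn' : ∀ i, 0 ≤ oval P (s.mk1 x) (K.2 i) := fun i => oval_nonneg_181 hP _ _
    by_cases hex : ∃ i a, K.2 i = some a ∧ x ∈ a.2.2
    · obtain ⟨i, a, hia, hxa⟩ := hex
      rw [← Finset.mul_prod_erase Finset.univ _ (Finset.mem_univ i),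
        ← Finset.mul_prod_erase Finset.univ (fun i => oval P s (K.2 i)) (Finset.mem_univ i)]
      have h1 : oval P (s.mk1 x) (K.2 i) ≤ c * oval P s (K.2 i) := by
        rw [hia]
        apply aval_mk1_fac_181 hP hs hx a c hc1
        · intro h
          apply hcfar
          unfold xfar
          rw [Finset.mem_biUnion]
          refine ⟨i, Finset.mem_univ _, ?_⟩
          rw [hia]
          exact h
        · intro h
          apply hchot
          unfold xhot
          rw [Finset.mem_union, Finset.mem_biUnion]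
          refine Or.inr ⟨i, Finset.mem_univ _, ?_⟩
          rw [hia]
          exact h
      have h2 : ∏ j ∈ Finset.univ.erase i, oval P (s.mk1 x) (K.2 j) ≤
          ∏ j ∈ Finset.univ.erase i, oval P s (K.2 j) := by
        apply Finset.prod_le_prod (fun j _ => hnn' j)
        intro j hj
        cases hja : K.2 j with
        | none => exact le_refl _
        | some b =>
          apply aval_mk1_181 hP hs hx b
          intro hxb
          exact Finset.disjoint_left.mp
            (hK.dis i j (Finset.ne_of_mem_erase hj).symm a b hia hja) hxa hxb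
      have h3 : 0 ≤ ∏ j ∈ Finset.univ.erase i, oval P (s.mk1 x) (K.2 j) :=
        Finset.prod_nonneg (fun j _ => hnn' j)
      calc _ ≤ (c * oval P s (K.2 i)) * ∏ j ∈ Finset.univ.erase i, oval P s (K.2 j) :=
            mul_le_mul h1 h2 h3 (mul_nonneg (by linarith) (hnn i))
        _ = _ := by ring
    · have h2 : ∏ j, oval P (s.mk1 x) (K.2 j) ≤ ∏ j, oval P s (K.2 j) := by
        apply Finset.prod_le_prod (fun j _ => hnn' j)
        intro j _
        cases hja : K.2 j with
        | none => exact le_refl _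
        | some b =>
          apply aval_mk1_181 hP hs hx b
          intro hxb
          exact hex ⟨j, b, hja, hxb⟩
      have h3 : 0 ≤ ∏ j, oval P s (K.2 j) := Finset.prod_nonneg (fun j _ => hnn j)
      nlinarith
  have hB : (s.mk1 x).B = s.B := rfl
  unfold xw
  rw [hB]
  split_ifs with h
  · rw [one_mul, one_mul]
    exact hmain
  · simp

end

end

section
section
variable {α : Type*} [DecidableEq α]

theorem xw_rm {P : Pm} (hP : P.OK) (s : St α) {G Bn : Finset α} (hG : G ⊆ s.F) (hB : s.B ⊆ Bn)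
    {R : ℕ} (K : Clus α R) : xw P (s.rm G Bn) K ≤ xw P s K := by
  classical
  have hpb : 0 ≤ P.pb := le_trans hP.pq0.le hP.pqb
  have huu : ∀ f, 0 ≤ uu P f := fun f => mul_nonneg (pow_nonneg hpb _) (pow_nonneg hP.pq0.le _)
  have hc : ∀ a : Arm α, 0 ≤ P.sig * P.zet ^ (a.2.1 \ a.2.2).card := fun a =>
    mul_nonneg (le_trans zero_le_one hP.sig1) (pow_nonneg hP.zet0.le _)
  have hliv : ∀ z, liv (s.rm G Bn) z ⊆ liv s z := by
    intro z x hx
    have hm : ∀ (t : St α), x ∈ liv t z ↔ (z ∈ t.F ∧ x ∈ t.F) ∨ x ∈ t.mu z := by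
      intro t
      unfold liv
      rw [Finset.mem_union]
      by_cases hz : z ∈ t.F
      · rw [if_pos hz]; simp [hz]
      · rw [if_neg hz]; simp [hz]
    rw [hm] at hx ⊢
    rcases hx with ⟨h1, h2⟩ | hx
    · exact Or.inl ⟨hG h1, hG h2⟩
    · exact Or.inr hx
  have h0 : ∀ (t : St α) (o : Option (Arm α)), 0 ≤ oval P t o := by
    intro t o
    rcases o with _ | a
    · simp [oval]
    · simp only [oval, aval]
      refine mul_nonneg (hc a) ?_
      split_ifs
      · exact huu _
      · exact le_rfl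
  have h1 : ∀ o : Option (Arm α), oval P (s.rm G Bn) o ≤ oval P s o := by
    intro o
    rcases o with _ | a
    · simp [oval]
    · simp only [oval, aval]
      refine mul_le_mul_of_nonneg_left ?_ (hc a)
      by_cases h : a.2.2 ⊆ liv (s.rm G Bn) a.1
      · rw [if_pos h, if_pos (h.trans (hliv _))]
        exact le_rfl
      · rw [if_neg h]
        split_ifs
        · exact huu _
        · exact le_rfl
  have h2 : ∏ i, oval P (s.rm G Bn) (K.2 i) ≤ ∏ i, oval P s (K.2 i) :=
    Finset.prod_le_prod (fun i _ => h0 _ _) (fun i _ => h1 _)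
  have h3 : 0 ≤ ∏ i, oval P (s.rm G Bn) (K.2 i) := Finset.prod_nonneg (fun i _ => h0 _ _)
  have h4 : 0 ≤ ∏ i, oval P s (K.2 i) := Finset.prod_nonneg (fun i _ => h0 _ _)
  unfold xw
  by_cases h : Disjoint K.1 (s.rm G Bn).B
  · have h' : Disjoint K.1 s.B := Finset.disjoint_of_subset_right hB h
    rw [if_pos h, if_pos h', one_mul, one_mul]
    exact h2
  · rw [if_neg h, zero_mul]
    split_ifs
    · rw [one_mul]; exact h4
    · rw [zero_mul]

theorem xhot_rm (s : St α) {G Bn : Finset α} (hG : G ⊆ s.F) {R : ℕ} (K : Clus α R) :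
    xhot (s.rm G Bn) K ⊆ xhot s K := by
  intro y hy
  simp only [xhot, Finset.mem_union, Finset.mem_biUnion, Finset.mem_univ, true_and,
    Finset.mem_inter] at hy ⊢
  rcases hy with ⟨h1, h2⟩ | ⟨i, hi⟩
  · exact Or.inl ⟨h1, hG h2⟩
  · right
    refine ⟨i, ?_⟩
    revert hi
    rcases K.2 i with _ | a
    · intro hi; exact hi
    · intro hi
      simp only [ohot, ahot, St.rm, Finset.mem_inter] at hi ⊢
      exact ⟨hi.1, hG hi.2⟩

theorem xw_kill (P : Pm) (s : St α) {G Bn : Finset α} (hG : G ⊆ s.F) {R : ℕ} (K : Clus α R)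
    {y : α} (hy : y ∈ xhot s K) (hyG : y ∉ G) (hyB : y ∈ Bn) : xw P (s.rm G Bn) K = 0 := by
  simp only [xhot, Finset.mem_union, Finset.mem_biUnion, Finset.mem_univ, true_and,
    Finset.mem_inter] at hy
  unfold xw
  rcases hy with ⟨h1, h2⟩ | ⟨i, hi⟩
  · have : ¬ Disjoint K.1 (s.rm G Bn).B := by
      intro hd
      exact (Finset.disjoint_left.mp hd h1) hyB
    rw [if_neg this, zero_mul]
  · have : oval P (s.rm G Bn) (K.2 i) = 0 := by
      revert hi
      rcases K.2 i with _ | a
      · intro hi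
        simp [ohot] at hi
      · intro hi
        simp only [ohot, ahot, Finset.mem_inter, Finset.mem_sdiff] at hi
        obtain ⟨⟨ha, hb⟩, hc⟩ := hi
        have hn : ¬ a.2.2 ⊆ liv (s.rm G Bn) a.1 := by
          intro hsub
          have := hsub ha
          unfold liv at this
          rw [Finset.mem_union] at this
          rcases this with h | h
          · by_cases hz : a.1 ∈ (s.rm G Bn).F
            · rw [if_pos hz] at h
              exact hyG h
            · rw [if_neg hz] at h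
              simp at h
          · exact hb h
        simp only [oval, aval]
        rw [if_neg hn, mul_zero]
    rw [Finset.prod_eq_zero (Finset.mem_univ i) this, mul_zero]

theorem rm_ok {s : St α} (hs : s.OK) {G Bn : Finset α} (hG : G ⊆ s.F) (hGB : Disjoint G Bn) :
    (s.rm G Bn).OK :=
  ⟨Finset.disjoint_of_subset_left hG hs.fm, hGB, fun z hz => hs.mu z (hG hz)⟩

end

end

section
section
variable {α : Type*} [DecidableEq α]

theorem pv_pb0 {P : Pm} (hP : P.OK) : 0 < P.pb := lt_of_lt_of_le hP.pq0 hP.pqb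

theorem pv_nonneg {P : Pm} (hP : P.OK) (s : St α) (c : Finset α × Finset α) : 0 ≤ pval P s c := by
  unfold pval
  have h1 := hP.lam0
  have h2 := hP.zet0
  have h3 := pv_pb0 hP
  apply mul_nonneg (by positivity)
  split_ifs
  · positivity
  · exact le_refl _

theorem pv_rm {P : Pm} (hP : P.OK) (s : St α) {G Bn : Finset α} (hG : G ⊆ s.F)
    (c : Finset α × Finset α) : pval P (s.rm G Bn) c ≤ pval P s c := by
  unfold pval St.rm
  have h1 := hP.lam0
  have h2 := hP.zet0
  have h3 := pv_pb0 hP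
  apply mul_le_mul_of_nonneg_left _ (by positivity)
  simp only
  by_cases h : c.2 ⊆ G ∪ s.M
  · have h' : c.2 ⊆ s.F ∪ s.M := h.trans (Finset.union_subset_union_left hG)
    rw [if_pos h, if_pos h']
  · rw [if_neg h]
    split_ifs
    · positivity
    · exact le_refl _

theorem pv_mk1_same {P : Pm} {s : St α} {x : α} (hx : x ∈ s.F)
    (c : Finset α × Finset α) (hc : x ∉ c.2) : pval P (s.mk1 x) c = pval P s c := by
  unfold pval St.mk1
  simp only
  have e1 : c.2 \ insert x s.M = c.2 \ s.M := by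
    ext y
    simp only [Finset.mem_sdiff, Finset.mem_insert, not_or]
    constructor
    · rintro ⟨h1, _, h2⟩; exact ⟨h1, h2⟩
    · rintro ⟨h1, h2⟩
      exact ⟨h1, fun h => hc (h ▸ h1), h2⟩
  have e2 : s.F.erase x ∪ insert x s.M = s.F ∪ s.M := by
    ext y
    simp only [Finset.mem_union, Finset.mem_erase, Finset.mem_insert]
    constructor
    · rintro (⟨_, h⟩ | h | h)
      · exact Or.inl h
      · exact Or.inl (h ▸ hx)
      · exact Or.inr h
    · rintro (h | h)
      · by_cases hy : y = x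
        · exact Or.inr (Or.inl hy)
        · exact Or.inl ⟨hy, h⟩
      · exact Or.inr (Or.inr h)
  rw [e1, e2]

theorem pv_mk1_le {P : Pm} (hP : P.OK) {s : St α} (hs : s.OK) {x : α} (hx : x ∈ s.F)
    (c : Finset α × Finset α) (hc : x ∈ c.2) :
    pval P (s.mk1 x) c ≤ (3 / 2 - P.eta) * pval P s c := by
  unfold pval St.mk1
  simp only
  have hxM : x ∉ s.M := fun h => (Finset.disjoint_left.1 hs.fm) hx h
  have h1 := hP.lam0
  have h2 := hP.zet0
  have h3 := pv_pb0 hP
  have h4 := hP.hb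
  have e1 : (c.2 \ s.M).card = (c.2 \ insert x s.M).card + 1 := by
    have : c.2 \ s.M = insert x (c.2 \ insert x s.M) := by
      ext y
      simp only [Finset.mem_sdiff, Finset.mem_insert, not_or]
      constructor
      · rintro ⟨h1, h2⟩
        by_cases hy : y = x
        · exact Or.inl hy
        · exact Or.inr ⟨h1, hy, h2⟩
      · rintro (h | ⟨h1, _, h2⟩)
        · subst h; exact ⟨hc, hxM⟩
        · exact ⟨h1, h2⟩
    rw [this, Finset.card_insert_of_notMem (by simp)]
  have e2 : s.F.erase x ∪ insert x s.M = s.F ∪ s.M := by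
    ext y
    simp only [Finset.mem_union, Finset.mem_erase, Finset.mem_insert]
    constructor
    · rintro (⟨_, h⟩ | h | h)
      · exact Or.inl h
      · exact Or.inl (h ▸ hx)
      · exact Or.inr h
    · rintro (h | h)
      · by_cases hy : y = x
        · exact Or.inr (Or.inl hy)
        · exact Or.inl ⟨hy, h⟩
      · exact Or.inr (Or.inr h)
  rw [e2]
  have e3 : (3 / 2 - P.eta) * (P.lam * P.zet ^ (c.1 \ c.2).card *
      (if c.2 ⊆ s.F ∪ s.M then P.pb ^ (c.2 \ s.M).card else 0))
      = P.lam * P.zet ^ (c.1 \ c.2).card * ((3 / 2 - P.eta) *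
      (if c.2 ⊆ s.F ∪ s.M then P.pb ^ (c.2 \ s.M).card else 0)) := by ring
  rw [e3]
  apply mul_le_mul_of_nonneg_left _ (by positivity)
  by_cases h : c.2 ⊆ s.F ∪ s.M
  · rw [if_pos h, if_pos h, e1, pow_succ]
    have h5 : 0 ≤ P.pb ^ (c.2 \ insert x s.M).card := by positivity
    nlinarith
  · rw [if_neg h, if_neg h]; simp

theorem pw_nonneg {P : Pm} (hP : P.OK) (s : St α) {r : ℕ} (K : PClus α r) : 0 ≤ pw P s K := by
  unfold pw
  apply mul_nonneg
  · split_ifs
    · exact zero_le_one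
    · exact le_refl _
  · exact Finset.prod_nonneg fun i _ => pv_nonneg hP s _

theorem phot_mk1 (s : St α) (x : α) {r : ℕ} (K : PClus α r) :
    phot (s.mk1 x) K ⊆ phot s K := by
  intro y hy
  unfold phot St.mk1 at hy
  unfold phot
  simp only [Finset.mem_union, Finset.mem_inter, Finset.mem_biUnion, Finset.mem_univ, true_and,
    Finset.mem_sdiff, Finset.mem_erase, Finset.mem_insert, not_or] at hy ⊢
  rcases hy with ⟨h1, h2⟩ | ⟨i, ⟨h1, h2, h3⟩, h4, h5⟩
  · exact Or.inl ⟨h1, h2.2⟩
  · exact Or.inr ⟨i, ⟨h1, h3⟩, h5⟩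

/-- Maker takes `x` -/
theorem pw_mk1 {P : Pm} (hP : P.OK) {s : St α} (hs : s.OK) {x : α} (hx : x ∈ s.F)
    {Fam : Finset (Finset α)} {Pr : Finset (α × α)} {r : ℕ} {K : PClus α r}
    (hK : PComp Fam Pr K) :
    pw P (s.mk1 x) K ≤ fac P.eta (fun _ => ∅) (phot s) x K * pw P s K := by
  have hf : fac P.eta (fun _ => ∅) (phot s) x K = if x ∈ phot s K then 3 / 2 - P.eta else 1 := by
    unfold fac
    simp
  rw [hf]
  have hη := hP.eta1
  have hη0 := hP.eta0
  have hroot : ((if K.1.1 ∈ (s.mk1 x).F ∧ K.1.2 ∈ (s.mk1 x).F then 1 else 0 : ℝ)) ≤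
      (if K.1.1 ∈ s.F ∧ K.1.2 ∈ s.F then 1 else 0) := by
    have hsub : (s.mk1 x).F ⊆ s.F := by
      unfold St.mk1; exact Finset.erase_subset _ _
    by_cases h : K.1.1 ∈ (s.mk1 x).F ∧ K.1.2 ∈ (s.mk1 x).F
    · rw [if_pos h, if_pos ⟨hsub h.1, hsub h.2⟩]
    · rw [if_neg h]; split_ifs
      · exact zero_le_one
      · exact le_refl _
  have hroot0 : 0 ≤ (if K.1.1 ∈ s.F ∧ K.1.2 ∈ s.F then 1 else 0 : ℝ) := by
    split_ifs
    · exact zero_le_one
    · exact le_refl _
  have hprod0 : 0 ≤ ∏ i, pval P (s.mk1 x) (K.2 i) := Finset.prod_nonneg fun i _ => pv_nonneg hP _ _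
  have hprod0' : 0 ≤ ∏ i, pval P s (K.2 i) := Finset.prod_nonneg fun i _ => pv_nonneg hP _ _
  by_cases hex : ∃ i0, x ∈ (K.2 i0).2
  · obtain ⟨i0, hi0⟩ := hex
    have hxM : x ∉ s.M := fun h => (Finset.disjoint_left.1 hs.fm) hx h
    have hxh : x ∈ phot s K := by
      unfold phot
      simp only [Finset.mem_union, Finset.mem_inter, Finset.mem_biUnion, Finset.mem_univ, true_and,
        Finset.mem_sdiff]
      exact Or.inr ⟨i0, ⟨hi0, hxM⟩, hx⟩
    rw [if_pos hxh]
    have hp : ∏ i, pval P (s.mk1 x) (K.2 i) ≤ (3 / 2 - P.eta) * ∏ i, pval P s (K.2 i) := by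
      rw [← Finset.mul_prod_erase Finset.univ (fun i => pval P (s.mk1 x) (K.2 i)) (Finset.mem_univ i0),
        ← Finset.mul_prod_erase Finset.univ (fun i => pval P s (K.2 i)) (Finset.mem_univ i0), ← mul_assoc]
      have he : ∏ i ∈ Finset.univ.erase i0, pval P (s.mk1 x) (K.2 i)
          = ∏ i ∈ Finset.univ.erase i0, pval P s (K.2 i) := by
        apply Finset.prod_congr rfl
        intro i hi
        apply pv_mk1_same hx
        intro hxi
        exact (Finset.disjoint_left.1 (hK.dis i i0 (Finset.ne_of_mem_erase hi))) hxi hi0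
      rw [he]
      exact mul_le_mul_of_nonneg_right (pv_mk1_le hP hs hx _ hi0)
        (Finset.prod_nonneg fun i _ => pv_nonneg hP _ _)
    unfold pw
    calc _ ≤ (if K.1.1 ∈ s.F ∧ K.1.2 ∈ s.F then 1 else 0 : ℝ) * ((3 / 2 - P.eta) * ∏ i, pval P s (K.2 i)) :=
          mul_le_mul hroot hp hprod0 hroot0
      _ = _ := by ring
  · push Not at hex
    have he : ∏ i, pval P (s.mk1 x) (K.2 i) = ∏ i, pval P s (K.2 i) := by
      apply Finset.prod_congr rfl
      intro i _
      exact pv_mk1_same hx _ (hex i)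
    have h1 : pw P (s.mk1 x) K ≤ pw P s K := by
      unfold pw
      rw [he]
      exact mul_le_mul_of_nonneg_right hroot hprod0'
    have h2 : (1:ℝ) ≤ if x ∈ phot s K then 3 / 2 - P.eta else 1 := by
      split_ifs
      · linarith
      · exact le_refl _
    have h3 : 0 ≤ pw P s K := pw_nonneg hP s K
    calc _ ≤ 1 * pw P s K := by rw [one_mul]; exact h1
      _ ≤ _ := mul_le_mul_of_nonneg_right h2 h3

theorem pw_rm {P : Pm} (hP : P.OK) (s : St α) {G Bn : Finset α} (hG : G ⊆ s.F)
    {r : ℕ} (K : PClus α r) : pw P (s.rm G Bn) K ≤ pw P s K := by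
  unfold pw
  apply mul_le_mul
  · by_cases h : K.1.1 ∈ (s.rm G Bn).F ∧ K.1.2 ∈ (s.rm G Bn).F
    · have h' : K.1.1 ∈ s.F ∧ K.1.2 ∈ s.F := ⟨hG h.1, hG h.2⟩
      rw [if_pos h, if_pos h']
    · rw [if_neg h]; split_ifs
      · exact zero_le_one
      · exact le_refl _
  · exact Finset.prod_le_prod (fun i _ => pv_nonneg hP _ _) (fun i _ => pv_rm hP s hG _)
  · exact Finset.prod_nonneg fun i _ => pv_nonneg hP _ _
  · split_ifs
    · exact zero_le_one
    · exact le_refl _

theorem phot_rm (s : St α) {G Bn : Finset α} (hG : G ⊆ s.F) {r : ℕ} (K : PClus α r) :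
    phot (s.rm G Bn) K ⊆ phot s K := by
  intro y hy
  unfold phot St.rm at hy
  unfold phot
  simp only [Finset.mem_union, Finset.mem_inter, Finset.mem_biUnion, Finset.mem_univ, true_and,
    Finset.mem_sdiff] at hy ⊢
  rcases hy with ⟨h1, h2⟩ | ⟨i, h1, h2⟩
  · exact Or.inl ⟨h1, hG h2⟩
  · exact Or.inr ⟨i, h1, hG h2⟩

theorem pw_kill (P : Pm) (s : St α) {G Bn : Finset α} (hG : G ⊆ s.F) {r : ℕ} (K : PClus α r)
    {y : α} (hy : y ∈ phot s K) (hyG : y ∉ G) : pw P (s.rm G Bn) K = 0 := by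
  unfold phot at hy
  simp only [Finset.mem_union, Finset.mem_inter, Finset.mem_biUnion, Finset.mem_univ, true_and,
    Finset.mem_sdiff] at hy
  unfold pw
  rcases hy with ⟨h1, h2⟩ | ⟨i, ⟨h1, h2⟩, h3⟩
  · have : ¬ (K.1.1 ∈ (s.rm G Bn).F ∧ K.1.2 ∈ (s.rm G Bn).F) := by
      rintro ⟨h3, h4⟩
      rcases Finset.mem_insert.1 h1 with h5 | h5
      · exact hyG (h5 ▸ h3)
      · exact hyG ((Finset.mem_singleton.1 h5) ▸ h4)
    rw [if_neg this, zero_mul]
  · have h0 : pval P (s.rm G Bn) (K.2 i) = 0 := by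
      unfold pval St.rm
      simp only
      have : ¬ ((K.2 i).2 ⊆ G ∪ s.M) := by
        intro hsub
        rcases Finset.mem_union.1 (hsub h1) with h4 | h4
        · exact hyG h4
        · exact h2 h4
      rw [if_neg this, mul_zero]
    rw [Finset.prod_eq_zero (Finset.mem_univ i) h0, mul_zero]

end

end

end Pool.Agent.Rect22
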