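import Mathlib

set_option autoImplicit false
set_option linter.unusedVariables false

namespace Pool.Agent.Rect22.Gen

open Finset

section
variable {α : Type*} [DecidableEq α]

/-- A move is the set of the points claimed in it. A play `h` on the board `V` is the list of its
moves; the moves number `0, 2, 4, ...` are made by Maker and the moves number `1, 3, 5, ...` by
Breaker. `unclaimed V h` is the set of the points of the board not claimed in `h`. -/
def unclaimed (V : Finset α) (h : List (Finset α)) : Finset α :=
  V.filter (fun x => ∀ m ∈ h, x ∉ m)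

/-- A legal move after `h` (of either player) consists of two unclaimed points or, if only one point
is unclaimed, of this point. -/
def IsLegalMove (V : Finset α) (h : List (Finset α)) (m : Finset α) : Prop :=
  m ⊆ unclaimed V h ∧ m.card = min 2 (unclaimed V h).card ∧ m.Nonempty

/-- All moves of `h` are legal. -/
def IsPlay (V : Finset α) (h : List (Finset α)) : Prop :=
  ∀ (i : ℕ) (hi : i < h.length), IsLegalMove V (h.take i) (h[i]'hi)

/-- The player making the moves with number congruent to `p` modulo 2 follows `σ`: each of these
moves is the value of `σ` at the list of the earlier moves. -/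
def Follows (p : ℕ) (σ : List (Finset α) → Finset α) (h : List (Finset α)) : Prop :=
  ∀ (i : ℕ) (hi : i < h.length), i % 2 = p → h[i]'hi = σ (h.take i)

/-- `σ` is a strategy of this player (`p = 0`: Maker, `p = 1`: Breaker): it gives a legal move in
every position in which the player is to move and which can arise when he follows it. -/
def IsStrategy (V : Finset α) (p : ℕ) (σ : List (Finset α) → Finset α) : Prop :=
  ∀ h : List (Finset α), IsPlay V h → Follows p σ h → h.length % 2 = p →
    (unclaimed V h).Nonempty → IsLegalMove V h (σ h)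

/-- The point `x` was claimed by Maker in the play `h`. -/
def MakerOwns (h : List (Finset α)) (x : α) : Prop :=
  ∃ (i : ℕ) (hi : i < h.length), i % 2 = 0 ∧ x ∈ h[i]'hi

/-- Breaker has a strategy with which, at the end of every play, Maker owns all points of no set of
the family `𝓕`. -/
def BreakerWins (V : Finset α) (𝓕 : Set (Set α)) : Prop :=
  ∃ τ : List (Finset α) → Finset α, IsStrategy V 1 τ ∧
    ∀ h : List (Finset α), IsPlay V h → Follows 1 τ h → unclaimed V h = ∅ →
      ∀ S ∈ 𝓕, ¬ ∀ x ∈ S, MakerOwns h x

/-- the points of the board claimed in the moves number `p, p + 2, ...` -/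
noncomputable def own (V : Finset α) (p : ℕ) (h : List (Finset α)) : Finset α := by
  classical
  exact V.filter (fun e => ∃ (i : ℕ) (hi : i < h.length), i % 2 = p ∧ e ∈ h[i]'hi)

theorem mem_own {V : Finset α} {p : ℕ} {h : List (Finset α)} {e : α} :
    e ∈ own V p h ↔ e ∈ V ∧ ∃ (i : ℕ) (hi : i < h.length), i % 2 = p ∧ e ∈ h[i]'hi := by
  classical
  unfold own
  rw [Finset.mem_filter]

theorem uncl_append (V : Finset α) (h : List (Finset α)) (m : Finset α) :
    unclaimed V (h ++ [m]) = unclaimed V h \ m := by
  ext e
  simp only [unclaimed, mem_filter, mem_sdiff, List.mem_append, List.mem_singleton]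
  constructor
  · rintro ⟨h1, h2⟩
    exact ⟨⟨h1, fun m' hm' => h2 m' (Or.inl hm')⟩, h2 m (Or.inr rfl)⟩
  · rintro ⟨⟨h1, h2⟩, h3⟩
    refine ⟨h1, ?_⟩
    rintro m' (hm' | rfl)
    · exact h2 m' hm'
    · exact h3

theorem getElem_append_lt' (h : List (Finset α)) (m : Finset α) (i : ℕ)
    (hi : i < h.length) (hi' : i < (h ++ [m]).length) : (h ++ [m])[i]'hi' = h[i]'hi :=
  List.getElem_append_left hi

theorem take_append1 (h : List (Finset α)) (m : Finset α) (i : ℕ)
    (hi : i ≤ h.length) : (h ++ [m]).take i = h.take i := List.take_append_of_le_length hi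

theorem play_append (V : Finset α) (h : List (Finset α)) (m : Finset α)
    (H : IsPlay V (h ++ [m])) : IsPlay V h ∧ IsLegalMove V h m := by
  constructor
  · intro i hi
    have hi' : i < (h ++ [m]).length := by simp; omega
    have := H i hi'
    rw [getElem_append_lt' h m i hi hi', take_append1 h m i hi.le] at this
    exact this
  · have hi' : h.length < (h ++ [m]).length := by simp
    have := H h.length hi'
    rw [take_append1 h m _ le_rfl, List.take_length] at this
    have e : (h ++ [m])[h.length]'hi' = m := by simp
    rw [e] at this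
    exact this

theorem follows_append (p : ℕ) (σ : List (Finset α) → Finset α)
    (h : List (Finset α)) (m : Finset α)
    (H : Follows p σ (h ++ [m])) : Follows p σ h ∧ (h.length % 2 = p → m = σ h) := by
  constructor
  · intro i hi hi2
    have hi' : i < (h ++ [m]).length := by simp; omega
    have := H i hi' hi2
    rw [getElem_append_lt' h m i hi hi', take_append1 h m i hi.le] at this
    exact this
  · intro h2
    have hi' : h.length < (h ++ [m]).length := by simp
    have := H h.length hi' h2
    rw [take_append1 h m _ le_rfl, List.take_length] at this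
    have e : (h ++ [m])[h.length]'hi' = m := by simp
    rw [e] at this
    exact this

theorem own_subset (V : Finset α) (p : ℕ) (h : List (Finset α)) : own V p h ⊆ V :=
  fun e he => (mem_own.mp he).1

theorem own_append_same (V : Finset α) (p : ℕ) (h : List (Finset α)) (m : Finset α)
    (hp : h.length % 2 = p) (hm : m ⊆ V) : own V p (h ++ [m]) = own V p h ∪ m := by
  ext e
  rw [mem_union, mem_own, mem_own]
  constructor
  · rintro ⟨h1, i, hi, hip, hie⟩
    by_cases hlt : i < h.length
    · rw [getElem_append_lt' h m i hlt hi] at hie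
      exact Or.inl ⟨h1, i, hlt, hip, hie⟩
    · right
      have : i = h.length := by simp at hi; omega
      subst this
      have e : (h ++ [m])[h.length]'hi = m := by simp
      rw [e] at hie
      exact hie
  · rintro (⟨h1, i, hi, hip, hie⟩ | h1)
    · have hi' : i < (h ++ [m]).length := by simp; omega
      refine ⟨h1, i, hi', hip, ?_⟩
      rw [getElem_append_lt' h m i hi hi']
      exact hie
    · have hi' : h.length < (h ++ [m]).length := by simp
      refine ⟨hm h1, h.length, hi', hp, ?_⟩
      have e : (h ++ [m])[h.length]'hi' = m := by simp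
      rw [e]
      exact h1

theorem own_append_other (V : Finset α) (p : ℕ) (h : List (Finset α)) (m : Finset α)
    (hp : h.length % 2 ≠ p) : own V p (h ++ [m]) = own V p h := by
  ext e
  rw [mem_own, mem_own]
  constructor
  · rintro ⟨h1, i, hi, hip, hie⟩
    by_cases hlt : i < h.length
    · rw [getElem_append_lt' h m i hlt hi] at hie
      exact ⟨h1, i, hlt, hip, hie⟩
    · have : i = h.length := by simp at hi; omega
      subst this
      exact absurd hip hp
  · rintro ⟨h1, i, hi, hip, hie⟩
    have hi' : i < (h ++ [m]).length := by simp; omega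
    refine ⟨h1, i, hi', hip, ?_⟩
    rw [getElem_append_lt' h m i hi hi']
    exact hie

theorem uncl_eq (V : Finset α) (h : List (Finset α)) :
    unclaimed V h = V \ (own V 0 h ∪ own V 1 h) := by
  ext e
  rw [mem_sdiff, mem_union, mem_own, mem_own]
  simp only [unclaimed, mem_filter, not_or, not_and, not_exists]
  constructor
  · rintro ⟨h1, h2⟩
    exact ⟨h1, fun _ i hi _ hie => h2 _ (List.getElem_mem hi) hie,
      fun _ i hi _ hie => h2 _ (List.getElem_mem hi) hie⟩
  · rintro ⟨h1, h2, h3⟩
    refine ⟨h1, fun m hm hem => ?_⟩
    obtain ⟨i, hi, rfl⟩ := List.getElem_of_mem hm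
    rcases Nat.mod_two_eq_zero_or_one i with h4 | h4
    · exact h2 h1 i hi h4 hem
    · exact h3 h1 i hi h4 hem

theorem uncl_subset (V : Finset α) (h : List (Finset α)) : unclaimed V h ⊆ V :=
  filter_subset _ _

theorem own_nil (V : Finset α) (p : ℕ) : own V p [] = ∅ := by
  ext e
  rw [mem_own]
  simp

theorem own_disjoint (V : Finset α) (h : List (Finset α)) (H : IsPlay V h) :
    Disjoint (own V 0 h) (own V 1 h) := by
  induction h using List.reverseRecOn with
  | nil => rw [own_nil, own_nil]; exact disjoint_empty_left _
  | append_singleton h m ih =>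
    obtain ⟨h1, h2⟩ := play_append V h m H
    have hd := ih h1
    have hm : m ⊆ unclaimed V h := h2.1
    have hmE : m ⊆ V := hm.trans (uncl_subset V h)
    rw [uncl_eq] at hm
    have hm0 : Disjoint m (own V 0 h) := by
      rw [Finset.disjoint_left]
      intro e he he'
      have := hm he
      simp only [mem_sdiff, mem_union, not_or] at this
      exact this.2.1 he'
    have hm1 : Disjoint m (own V 1 h) := by
      rw [Finset.disjoint_left]
      intro e he he'
      have := hm he
      simp only [mem_sdiff, mem_union, not_or] at this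
      exact this.2.2 he'
    rcases Nat.mod_two_eq_zero_or_one h.length with h4 | h4
    · rw [own_append_same V 0 h m h4 hmE, own_append_other V 1 h m (by omega)]
      exact Finset.disjoint_union_left.2 ⟨hd, hm1⟩
    · rw [own_append_same V 1 h m h4 hmE, own_append_other V 0 h m (by omega)]
      exact Finset.disjoint_union_right.2 ⟨hd, hm0.symm⟩


/-- TARGET: from a rule on positions to a strategy -/
theorem breakerWins_of_rule {V : Finset α} {𝓕 : Set (Set α)}
    (Good : Finset α → Finset α → Prop) (h0 : Good ∅ ∅)
    (hr : ∀ M B m : Finset α, M ⊆ V → B ⊆ V → Disjoint M B → Good M B →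
      m ⊆ V \ (M ∪ B) → m.card ≤ 2 →
      ∃ b : Finset α, b ⊆ V \ (M ∪ m ∪ B) ∧
        b.card = min 2 (V \ (M ∪ m ∪ B)).card ∧ Good (M ∪ m) (B ∪ b))
    (hend : ∀ M B : Finset α, M ⊆ V → B ⊆ V → Disjoint M B → Good M B →
      V \ (M ∪ B) = ∅ → ∀ S ∈ 𝓕, ¬ S ⊆ (M : Set α)) : BreakerWins V 𝓕 := by

  classical
  let Q : List (Finset α) → Finset α → Prop := fun h b => b ⊆ unclaimed V h ∧
    b.card = min 2 (unclaimed V h).card ∧ Good (own V 0 h) (own V 1 h ∪ b)
  let τ : List (Finset α) → Finset α := fun h =>
    if H : ∃ m, Q h m then H.choose else ∅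
  have hτ1 : ∀ h, (∃ m, Q h m) → Q h (τ h) := by
    intro h h2
    have : τ h = h2.choose := dif_pos h2
    rw [this]
    exact h2.choose_spec
  have hinv : ∀ h : List (Finset α), IsPlay V h → Follows 1 τ h →
      (h.length % 2 = 0 → Good (own V 0 h) (own V 1 h)) ∧
      (h.length % 2 = 1 → ∃ b, Q h b) := by
    intro h
    induction h using List.reverseRecOn with
    | nil =>
      intro _ _
      refine ⟨fun _ => ?_, fun h1 => by simp at h1⟩
      rw [own_nil, own_nil]
      exact h0
    | append_singleton h m ih =>
      intro hL hF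
      obtain ⟨hL', hM⟩ := play_append V h m hL
      obtain ⟨hF', hmτ⟩ := follows_append 1 τ h m hF
      obtain ⟨ih0, ih1⟩ := ih hL' hF'
      have hmE : m ⊆ V := hM.1.trans (uncl_subset V h)
      have hlen : (h ++ [m]).length = h.length + 1 := by simp
      rcases Nat.mod_two_eq_zero_or_one h.length with h4 | h4
      · refine ⟨fun h5 => by rw [hlen] at h5; omega, fun _ => ?_⟩
        have hG := ih0 h4
        have hcard : m.card ≤ 2 := by
          rw [hM.2.1]
          exact min_le_left _ _
        have hx : m ⊆ unclaimed V h := hM.1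
        rw [uncl_eq] at hx
        obtain ⟨b, hb1, hb2, hb3⟩ := hr (own V 0 h) (own V 1 h) m (own_subset V 0 h)
          (own_subset V 1 h) (own_disjoint V h hL') hG hx hcard
        have e : V \ (own V 0 h ∪ m ∪ own V 1 h) = unclaimed V (h ++ [m]) := by
          rw [uncl_append, uncl_eq]
          ext y
          simp only [mem_sdiff, mem_union, not_or]
          tauto
        rw [e] at hb1 hb2
        refine ⟨b, hb1, hb2, ?_⟩
        rw [own_append_same V 0 h m h4 hmE, own_append_other V 1 h m (by omega)]
        exact hb3
      · refine ⟨fun _ => ?_, fun h5 => by rw [hlen] at h5; omega⟩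
        have hms := hmτ h4
        have hq := hτ1 h (ih1 h4)
        rw [← hms] at hq
        rw [own_append_other V 0 h m (by omega), own_append_same V 1 h m h4 hmE]
        exact hq.2.2
  refine ⟨τ, ?_, ?_⟩
  · intro h hL hF h2 hne
    have hq := hτ1 h ((hinv h hL hF).2 h2)
    refine ⟨hq.1, hq.2.1, ?_⟩
    rw [← Finset.card_pos, hq.2.1]
    have := Finset.card_pos.2 hne
    omega
  · intro h hL hF hfree S hS hown
    have hd := own_disjoint V h hL
    have hG : Good (own V 0 h) (own V 1 h) := by
      rcases Nat.mod_two_eq_zero_or_one h.length with h4 | h4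
      · exact (hinv h hL hF).1 h4
      · obtain ⟨b, hb1, _, hb3⟩ := (hinv h hL hF).2 h4
        rw [hfree, Finset.subset_empty] at hb1
        rw [hb1, Finset.union_empty] at hb3
        exact hb3
    refine hend (own V 0 h) (own V 1 h) (own_subset V 0 h) (own_subset V 1 h) hd hG
      (by rw [← uncl_eq]; exact hfree) S hS ?_
    intro x hx
    obtain ⟨k, hk, hk2, hke⟩ := hown x hx
    exact Finset.mem_coe.mpr (mem_own.mpr ⟨uncl_subset V _ ((hL k hk).1 hke), k, hk, hk2, hke⟩)

end

end Pool.Agent.Rect22.Gen
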