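import Pool.Agent.Rect22.LatDefs
import Pool.Agent.Rect22.ParLatDefs

/-!
Transport of a rule of Breaker from `ℕ × ℕ` to `ℤ × ℤ`.
-/

set_option autoImplicit false
set_option linter.unusedVariables false

namespace Pool.Agent.Rect22

open Finset

def toN (p : ℤ × ℤ) : ℕ × ℕ := (p.1.toNat, p.2.toNat)

theorem transport_rule_h1 {N : ℕ} (p : ℤ × ℤ) (hp : p ∈ boardZ N) : toN p ∈ board N := by
  simp only [boardZ, board, toN, mem_product, mem_Icc] at hp ⊢
  omega

theorem transport_rule_h2 {N : ℕ} (p : ℤ × ℤ) (hp : p ∈ boardZ N) :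
    (((toN p).1 : ℤ), ((toN p).2 : ℤ)) = p := by
  simp only [boardZ, toN, mem_product, mem_Icc] at hp ⊢
  ext
  · simp only
    omega
  · simp only
    omega

theorem transport_rule_h3 {N : ℕ} (p : ℕ × ℕ) (hp : p ∈ board N) :
    ((p.1 : ℤ), (p.2 : ℤ)) ∈ boardZ N := by
  simp only [boardZ, board, mem_product, mem_Icc] at hp ⊢
  omega

theorem transport_rule_h4 (p : ℕ × ℕ) : toN ((p.1 : ℤ), (p.2 : ℤ)) = p := by
  simp [toN]

theorem transport_rule_h5 {N : ℕ} : Set.InjOn toN (boardZ N : Set (ℤ × ℤ)) := by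
  intro p hp q hq h
  rw [← transport_rule_h2 p hp, ← transport_rule_h2 q hq, h]

theorem transport_rule_h6 {N : ℕ} (A S : Finset (ℤ × ℤ)) (hA : A ⊆ boardZ N) (hS : S ⊆ boardZ N)
    (p : ℤ × ℤ) (hp : p ∈ boardZ N) : toN p ∈ S.image toN ↔ p ∈ S := by
  constructor
  · intro h
    obtain ⟨q, hq, hqp⟩ := mem_image.1 h
    rwa [← transport_rule_h5 (hS hq) hp hqp]
  · intro h
    exact mem_image_of_mem _ h

theorem transport_rule_h7 {N : ℕ} (S : Finset (ℤ × ℤ)) (hS : S ⊆ boardZ N) :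
    (boardZ N \ S).image toN = board N \ S.image toN := by
  ext q
  rw [mem_sdiff, mem_image]
  constructor
  · rintro ⟨p, hp, rfl⟩
    rw [mem_sdiff] at hp
    refine ⟨transport_rule_h1 p hp.1, fun h => hp.2 ?_⟩
    exact (transport_rule_h6 S S hS hS p hp.1).1 h
  · rintro ⟨h1, h2⟩
    refine ⟨((q.1 : ℤ), (q.2 : ℤ)), ?_, transport_rule_h4 q⟩
    rw [mem_sdiff]
    refine ⟨transport_rule_h3 q h1, fun h => h2 ?_⟩
    rw [← transport_rule_h4 q]
    exact mem_image_of_mem _ h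

/-- TARGET: a rule of Breaker on the board in `ℕ × ℕ` gives a rule on the board in `ℤ × ℤ` -/
theorem transport_rule {N : ℕ} {G : Finset (ℕ × ℕ) → Finset (ℕ × ℕ) → Prop}
    (hr : ∀ M B m : Finset (ℕ × ℕ), M ⊆ board N → B ⊆ board N → Disjoint M B → G M B →
      m ⊆ board N \ (M ∪ B) → m.card ≤ 2 →
      ∃ b : Finset (ℕ × ℕ), b ⊆ board N \ (M ∪ m ∪ B) ∧
        b.card = min 2 (board N \ (M ∪ m ∪ B)).card ∧ G (M ∪ m) (B ∪ b)) :
    ∀ M B m : Finset (ℤ × ℤ), M ⊆ boardZ N → B ⊆ boardZ N → Disjoint M B →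
      G (M.image toN) (B.image toN) →
      m ⊆ boardZ N \ (M ∪ B) → m.card ≤ 2 →
      ∃ b : Finset (ℤ × ℤ), b ⊆ boardZ N \ (M ∪ m ∪ B) ∧
        b.card = min 2 (boardZ N \ (M ∪ m ∪ B)).card ∧
        G ((M ∪ m).image toN) ((B ∪ b).image toN) := by
  
  intro M B m hM hB hMB hG hm hm2
  have hmZ : m ⊆ boardZ N := hm.trans sdiff_subset
  have h1 : M.image toN ⊆ board N := by
    intro q hq
    obtain ⟨p, hp, rfl⟩ := mem_image.1 hq
    exact transport_rule_h1 p (hM hp)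
  have h2 : B.image toN ⊆ board N := by
    intro q hq
    obtain ⟨p, hp, rfl⟩ := mem_image.1 hq
    exact transport_rule_h1 p (hB hp)
  have h3 : Disjoint (M.image toN) (B.image toN) := by
    rw [disjoint_left]
    intro q hq hq2
    obtain ⟨p, hp, rfl⟩ := mem_image.1 hq
    exact disjoint_left.1 hMB hp ((transport_rule_h6 B B hB hB p (hM hp)).1 hq2)
  have h4 : m.image toN ⊆ board N \ (M.image toN ∪ B.image toN) := by
    rw [← image_union, ← transport_rule_h7 (M ∪ B) (union_subset hM hB)]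
    exact image_subset_image hm
  have h5 : (m.image toN).card ≤ 2 := card_image_le.trans hm2
  obtain ⟨b, hb1, hb2, hb3⟩ := hr _ _ _ h1 h2 h3 hG h4 h5
  rw [← image_union, ← image_union, ← transport_rule_h7 (M ∪ m ∪ B)
    (union_subset (union_subset hM hmZ) hB)] at hb1 hb2
  rw [← image_union] at hb3
  have hbb : b ⊆ board N := by
    intro q hq
    obtain ⟨p, hp, rfl⟩ := mem_image.1 (hb1 hq)
    exact transport_rule_h1 p (mem_sdiff.1 hp).1
  have hb' : (b.image (fun q : ℕ × ℕ => (((q.1 : ℤ), (q.2 : ℤ)) : ℤ × ℤ))).image toN = b := by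
    rw [image_image]
    have : (toN ∘ fun q : ℕ × ℕ => (((q.1 : ℤ), (q.2 : ℤ)) : ℤ × ℤ)) = id := by
      funext q
      exact transport_rule_h4 q
    rw [this, image_id]
  refine ⟨b.image (fun q : ℕ × ℕ => (((q.1 : ℤ), (q.2 : ℤ)) : ℤ × ℤ)), ?_, ?_, ?_⟩
  · intro p0 hp0
    obtain ⟨q, hq, rfl⟩ := mem_image.1 hp0
    obtain ⟨p, hp, hpq⟩ := mem_image.1 (hb1 hq)
    rw [← hpq, transport_rule_h2 p (mem_sdiff.1 hp).1]
    exact hp
  · rw [card_image_of_injOn, hb2, card_image_of_injOn]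
    · exact (transport_rule_h5 (N := N)).mono (by
        intro p hp
        exact (mem_sdiff.1 (mem_coe.1 hp)).1)
    · intro p hp q hq h
      simp only [Prod.mk.injEq, Nat.cast_inj] at h
      exact Prod.ext h.1 h.2
  · rw [image_union (s₁ := B), hb']
    exact hb3

end Pool.Agent.Rect22
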